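import Mathlib

/-!
First and second moment of the number of packets through a point: abstract form.
-/

namespace Pool.Agent.SPN

open MeasureTheory Set
open scoped ENNReal

section

variable {n : ℕ} {P : Type} [MeasureSpace P] [SFinite (volume : Measure P)]

/-- The points of `Z` which pass close to `Y`. -/
def nearY (Z : Set P) (c : P → Fin n → ℝ) (r : Fin n → ℝ) (Y : Fin n → ℝ) : Set P :=
  {p | p ∈ Z ∧ ∀ j, |c p j - Y j| ≤ r j}

omit [SFinite (volume : Measure P)] in
theorem meas_near {Z : Set P} (hZ : MeasurableSet Z) {c : P → Fin n → ℝ} (hc : Measurable c)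
    (r : Fin n → ℝ) : MeasurableSet {q : (Fin n → ℝ) × P | q.2 ∈ nearY Z c r q.1} := by
  have h : {q : (Fin n → ℝ) × P | q.2 ∈ nearY Z c r q.1} =
      (Prod.snd ⁻¹' Z) ∩ ⋂ j, {q : (Fin n → ℝ) × P | |c q.2 j - q.1 j| ≤ r j} := by
    ext q
    simp [nearY]
  rw [h]
  refine (measurable_snd hZ).inter (MeasurableSet.iInter fun j => ?_)
  have h1 : Measurable fun q : (Fin n → ℝ) × P => |c q.2 j - q.1 j| :=
    (((measurable_pi_apply j).comp (hc.comp measurable_snd)).sub
      ((measurable_pi_apply j).comp measurable_fst)).abs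
  exact measurableSet_le h1 measurable_const

theorem vol_box (c r : Fin n → ℝ) (hr : ∀ j, 0 ≤ r j) :
    volume {Y : Fin n → ℝ | ∀ j, |c j - Y j| ≤ r j} = ENNReal.ofReal (∏ j, (2 * r j)) := by
  have h : {Y : Fin n → ℝ | ∀ j, |c j - Y j| ≤ r j} = Icc (fun j => c j - r j) fun j => c j + r j := by
    ext Y
    simp only [mem_ofPred_eq, mem_Icc, Pi.le_def]
    constructor
    · intro h
      exact ⟨fun j => by linarith [(abs_le.1 (h j)).2], fun j => by linarith [(abs_le.1 (h j)).1]⟩
    · rintro ⟨h1, h2⟩ j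
      exact abs_le.2 ⟨by linarith [h2 j], by linarith [h1 j]⟩
  rw [h, Real.volume_Icc_pi, ENNReal.ofReal_prod_of_nonneg fun j _ => by linarith [hr j]]
  refine Finset.prod_congr rfl fun j _ => ?_
  congr 1
  ring

theorem ga_abs {Z : Set P} (hZ : MeasurableSet Z) {c : P → Fin n → ℝ} (hc : Measurable c)
    (r : Fin n → ℝ) (hr : ∀ j, 0 ≤ r j) :
    ∫⁻ Y : Fin n → ℝ, volume (nearY Z c r Y) =
      volume Z * ENNReal.ofReal (∏ j, (2 * r j)) := by
  have hT := meas_near hZ hc r
  have h1 : ∫⁻ Y : Fin n → ℝ, volume (nearY Z c r Y) =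
      ((volume : Measure (Fin n → ℝ)).prod (volume : Measure P))
        {q : (Fin n → ℝ) × P | q.2 ∈ nearY Z c r q.1} := by
    rw [Measure.prod_apply hT]
    rfl
  rw [h1, Measure.prod_apply_symm hT]
  have h2 : ∀ p : P, volume ((fun Y : Fin n → ℝ => (Y, p)) ⁻¹'
      {q : (Fin n → ℝ) × P | q.2 ∈ nearY Z c r q.1}) =
        Z.indicator (fun _ => ENNReal.ofReal (∏ j, (2 * r j))) p := by
    intro p
    by_cases hp : p ∈ Z
    · rw [indicator_of_mem hp, ← vol_box (c p) r hr]
      congr 1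
      ext Y
      simp [nearY, hp]
    · rw [indicator_of_notMem hp]
      have : (fun Y : Fin n → ℝ => (Y, p)) ⁻¹'
          {q : (Fin n → ℝ) × P | q.2 ∈ nearY Z c r q.1} = ∅ := by
        ext Y
        simp [nearY, hp]
      rw [this, measure_empty]
  simp only [h2]
  rw [lintegral_indicator hZ, setLIntegral_const, mul_comm]

/-- The pairs with the same label. -/
def prsL {ι : Type} (Z : Set P) (c : P → Fin n → ℝ) (r : Fin n → ℝ) (lab : P → ι) : Set (P × P) :=
  {q | q.1 ∈ Z ∧ q.2 ∈ Z ∧ lab q.1 = lab q.2 ∧ ∀ j, |c q.1 j - c q.2 j| ≤ 2 * r j}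

omit [SFinite (volume : Measure P)] in
theorem meas_same {ι : Type} [Countable ι] {lab : P → ι} (hl : ∀ l, MeasurableSet {p | lab p = l}) :
    MeasurableSet {q : P × P | lab q.1 = lab q.2} := by
  have h : {q : P × P | lab q.1 = lab q.2} = ⋃ l, {p | lab p = l} ×ˢ {p | lab p = l} := by
    ext q
    simp [eq_comm]
  rw [h]
  exact MeasurableSet.iUnion fun l => (hl l).prod (hl l)

theorem gb_point {ι : Type} [Countable ι] {lab : P → ι} (hl : ∀ l, MeasurableSet {p | lab p = l})
    {S : Set P} (hS : MeasurableSet S) (N : ℕ) (L : Finset ι) (hL : L.card ≤ N)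
    (hSL : ∀ p ∈ S, lab p ∈ L) :
    volume S ^ (2 : ℝ) ≤ (N : ℝ≥0∞) * ((volume : Measure P).prod (volume : Measure P))
      {q : P × P | q.1 ∈ S ∧ q.2 ∈ S ∧ lab q.1 = lab q.2} := by
  have h1 : volume S ≤ ∑ l ∈ L, volume (S ∩ {p | lab p = l}) := by
    have h2 : S ⊆ ⋃ l ∈ L, S ∩ {p | lab p = l} := fun p hp => by
      simp only [mem_iUnion, mem_inter_iff, mem_ofPred_eq]
      exact ⟨lab p, hSL p hp, hp, rfl⟩
    exact (measure_mono h2).trans (measure_biUnion_finset_le L _)
  have h3 : ∑ l ∈ L, volume (S ∩ {p | lab p = l}) ^ (2 : ℝ) ≤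
      ((volume : Measure P).prod (volume : Measure P))
        {q : P × P | q.1 ∈ S ∧ q.2 ∈ S ∧ lab q.1 = lab q.2} := by
    have h4 : ∀ l, volume (S ∩ {p | lab p = l}) ^ (2 : ℝ) =
        ((volume : Measure P).prod (volume : Measure P))
          ((S ∩ {p | lab p = l}) ×ˢ (S ∩ {p | lab p = l})) := fun l => by
      rw [Measure.prod_prod, ENNReal.rpow_two, sq]
    simp only [h4]
    rw [← measure_biUnion_finset]
    · refine measure_mono fun q hq => ?_
      simp only [mem_iUnion, mem_prod, mem_inter_iff, mem_ofPred_eq] at hq ⊢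
      obtain ⟨l, _, ⟨h5, h6⟩, h7, h8⟩ := hq
      exact ⟨h5, h7, h6.trans h8.symm⟩
    · intro l _ l' _ hne
      refine Set.disjoint_left.2 fun q hq hq' => hne ?_
      simp only [mem_prod, mem_inter_iff, mem_ofPred_eq] at hq hq'
      exact hq.1.2.symm.trans hq'.1.2
    · exact fun l _ => (hS.inter (hl l)).prod (hS.inter (hl l))
  calc volume S ^ (2 : ℝ) ≤ (∑ l ∈ L, volume (S ∩ {p | lab p = l})) ^ (2 : ℝ) :=
        ENNReal.rpow_le_rpow h1 (by norm_num)
    _ ≤ (L.card : ℝ≥0∞) ^ ((2 : ℝ) - 1) * ∑ l ∈ L, volume (S ∩ {p | lab p = l}) ^ (2 : ℝ) :=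
        ENNReal.rpow_sum_le_const_mul_sum_rpow _ _ (by norm_num)
    _ ≤ _ := by
        have h5 : (2 : ℝ) - 1 = 1 := by norm_num
        rw [h5, ENNReal.rpow_one]
        exact mul_le_mul' (by exact_mod_cast hL) h3

theorem gb_abs {ι : Type} [Countable ι] {lab : P → ι} (hl : ∀ l, MeasurableSet {p | lab p = l})
    {Z : Set P} (hZ : MeasurableSet Z) {c : P → Fin n → ℝ} (hc : Measurable c)
    (r : Fin n → ℝ) (hr : ∀ j, 0 ≤ r j) (N : ℕ)
    (hN : ∀ Y, ∃ L : Finset ι, L.card ≤ N ∧ ∀ p ∈ nearY Z c r Y, lab p ∈ L) :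
    ∫⁻ Y : Fin n → ℝ, volume (nearY Z c r Y) ^ (2 : ℝ) ≤ (N : ℝ≥0∞) *
      (((volume : Measure P).prod (volume : Measure P)) (prsL Z c r lab) *
        ENNReal.ofReal (∏ j, (2 * r j))) := by
  have hT := meas_near hZ hc r
  have hS : ∀ Y, MeasurableSet (nearY Z c r Y) := fun Y => measurable_prodMk_left hT
  set V : Set ((Fin n → ℝ) × (P × P)) := {q | q.2.1 ∈ nearY Z c r q.1 ∧ q.2.2 ∈ nearY Z c r q.1 ∧
    lab q.2.1 = lab q.2.2} with hV
  have hVm : MeasurableSet V := by
    have h1 : V = ((fun q : (Fin n → ℝ) × (P × P) => (q.1, q.2.1)) ⁻¹'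
        {q : (Fin n → ℝ) × P | q.2 ∈ nearY Z c r q.1}) ∩
        (((fun q : (Fin n → ℝ) × (P × P) => (q.1, q.2.2)) ⁻¹'
        {q : (Fin n → ℝ) × P | q.2 ∈ nearY Z c r q.1}) ∩
        (Prod.snd ⁻¹' {q : P × P | lab q.1 = lab q.2})) := by
      ext q
      simp [hV]
    rw [h1]
    refine MeasurableSet.inter ?_ (MeasurableSet.inter ?_ ?_)
    · exact (measurable_fst.prodMk (measurable_fst.comp measurable_snd)) hT
    · exact (measurable_fst.prodMk (measurable_snd.comp measurable_snd)) hT
    · exact measurable_snd (meas_same hl)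
  calc ∫⁻ Y : Fin n → ℝ, volume (nearY Z c r Y) ^ (2 : ℝ) ≤
        ∫⁻ Y : Fin n → ℝ, (N : ℝ≥0∞) * ((volume : Measure P).prod (volume : Measure P))
          (Prod.mk Y ⁻¹' V) := by
        refine lintegral_mono fun Y => ?_
        obtain ⟨L, h1, h2⟩ := hN Y
        exact gb_point hl (hS Y) N L h1 h2
    _ = (N : ℝ≥0∞) * ∫⁻ Y : Fin n → ℝ, ((volume : Measure P).prod (volume : Measure P))
          (Prod.mk Y ⁻¹' V) := lintegral_const_mul _ (measurable_measure_prodMk_left hVm)
    _ = (N : ℝ≥0∞) * ((volume : Measure (Fin n → ℝ)).prod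
          ((volume : Measure P).prod (volume : Measure P))) V := by
        rw [Measure.prod_apply hVm]
    _ = (N : ℝ≥0∞) * ∫⁻ q : P × P, volume ((fun Y : Fin n → ℝ => (Y, q)) ⁻¹' V)
          ∂((volume : Measure P).prod (volume : Measure P)) := by
        rw [Measure.prod_apply_symm hVm]
    _ ≤ (N : ℝ≥0∞) * ∫⁻ q : P × P, (prsL Z c r lab).indicator
          (fun _ => ENNReal.ofReal (∏ j, (2 * r j))) q
            ∂((volume : Measure P).prod (volume : Measure P)) := by
        gcongr with q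
        by_cases hq : q ∈ prsL Z c r lab
        · rw [indicator_of_mem hq, ← vol_box (c q.1) r hr]
          refine measure_mono fun Y hY => ?_
          exact hY.1.2
        · rw [indicator_of_notMem hq]
          have : (fun Y : Fin n → ℝ => (Y, q)) ⁻¹' V = ∅ := by
            ext Y
            simp only [mem_preimage, mem_empty_iff_false, iff_false]
            intro hY
            refine hq ⟨hY.1.1, hY.2.1.1, hY.2.2, fun j => ?_⟩
            have h1 := hY.1.2 j
            have h2 := hY.2.1.2 j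
            simp only at h1 h2
            rw [abs_le] at h1 h2 ⊢
            constructor <;> linarith [h1.1, h1.2, h2.1, h2.2]
          rw [this, measure_empty]
    _ = _ := by
        have hpm : MeasurableSet (prsL Z c r lab) := by
          have h1 : prsL Z c r lab = (Prod.fst ⁻¹' Z) ∩ ((Prod.snd ⁻¹' Z) ∩
              ({q : P × P | lab q.1 = lab q.2} ∩
                ⋂ j, {q : P × P | |c q.1 j - c q.2 j| ≤ 2 * r j})) := by
            ext q
            simp [prsL]
          rw [h1]
          refine (measurable_fst hZ).inter ((measurable_snd hZ).inter ((meas_same hl).inter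
            (MeasurableSet.iInter fun j => ?_)))
          have h2 : Measurable fun q : P × P => |c q.1 j - c q.2 j| :=
            (((measurable_pi_apply j).comp (hc.comp measurable_fst)).sub
              ((measurable_pi_apply j).comp (hc.comp measurable_snd))).abs
          exact measurableSet_le h2 measurable_const
        rw [lintegral_indicator hpm, setLIntegral_const, mul_comm (ENNReal.ofReal _)]

end

end Pool.Agent.SPN
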