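import Pool.Agent.SPNH.Defs

/-!
Monotonicity of the second derivative between the break points; points which are not of cell type.
-/

namespace Pool.Agent.SPN

open MeasureTheory Set Pool.Agent.MP_6cbfb8_an
open Pool.Agent.SEP (B phi phat beta om tj Tb)
open scoped ENNReal Real

/-- The derivatives up to the order `D` are differentiable. -/
theorem av_hasDeriv {D M : ℕ} (f : Fn D M) (i : ℕ) (hi : i ≤ D) (x : ℝ) :
    HasDerivAt (iteratedDeriv i f.f) (iteratedDeriv (i + 1) f.f x) x := by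
  have h1 : Differentiable ℝ (iteratedDeriv i f.f) :=
    f.smooth.differentiable_iteratedDeriv i (by
      have : i < D + 1 := by omega
      exact_mod_cast this)
  rw [iteratedDeriv_succ]
  exact (h1 x).hasDerivAt

theorem av_yc {D M : ℕ} (hD : 1 ≤ D) (f : Fn D M) (w x : ℝ) :
    HasDerivAt (fun x => yc f x w) (iteratedDeriv 2 f.f x - 2 * w) x := by
  have h1 := av_hasDeriv f 1 hD x
  rw [iteratedDeriv_one] at h1
  have h2 : HasDerivAt (fun x : ℝ => 2 * w * x) (2 * w) x := by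
    simpa using (hasDerivAt_id x).const_mul (2 * w)
  exact h1.sub h2

/-- No break point between two points with equal counts. -/
theorem av_no {F : Finset ℝ} {x1 x2 : ℝ} (h12 : x1 ≤ x2)
    (hc : (F.filter (· < x1)).card = (F.filter (· < x2)).card) :
    ∀ c ∈ F, ¬ (x1 ≤ c ∧ c < x2) := by
  intro c hcF hcc
  have h1 : F.filter (· < x1) ⊆ F.filter (· < x2) := by
    intro y hy
    rw [Finset.mem_filter] at hy ⊢
    exact ⟨hy.1, hy.2.trans_le h12⟩
  have h2 := Finset.eq_of_subset_of_card_le h1 hc.ge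
  have h3 : c ∈ F.filter (· < x2) := Finset.mem_filter.2 ⟨hcF, hcc.2⟩
  rw [← h2, Finset.mem_filter] at h3
  exact absurd h3.2 (not_lt.2 hcc.1)

/-- `f''` is monotone or antitone between two points with equal counts. -/
theorem av_mono {D M : ℕ} (hD : 3 ≤ D) (f : Fn D M) (x1 x2 : ℝ)
    (hc : ∀ c ∈ f.F, ¬ (x1 < c ∧ c < x2)) :
    MonotoneOn (iteratedDeriv 2 f.f) (Icc x1 x2) ∨ AntitoneOn (iteratedDeriv 2 f.f) (Icc x1 x2) := by
  have hs : ∀ x ∈ Icc x1 x2, ∀ y ∈ Icc x1 x2, x ≤ y →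
      0 ≤ iteratedDeriv 3 f.f x * iteratedDeriv 3 f.f y := by
    intro x hx y hy hxy
    refine f.sgn 3 le_rfl (by omega) x y hxy fun c hcF hcc => hc c hcF ⟨?_, ?_⟩
    · exact lt_of_le_of_lt hx.1 hcc.1
    · exact lt_of_lt_of_le hcc.2 hy.2
  have hs' : ∀ x ∈ Icc x1 x2, ∀ y ∈ Icc x1 x2,
      0 ≤ iteratedDeriv 3 f.f x * iteratedDeriv 3 f.f y := by
    intro x hx y hy
    rcases le_total x y with h | h
    · exact hs x hx y hy h
    · rw [mul_comm]
      exact hs y hy x hx h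
  have hd : ∀ x, HasDerivAt (iteratedDeriv 2 f.f) (iteratedDeriv 3 f.f x) x := fun x =>
    av_hasDeriv f 2 (by omega) x
  have hcont : ContinuousOn (iteratedDeriv 2 f.f) (Icc x1 x2) := fun x _ =>
    (hd x).continuousAt.continuousWithinAt
  by_cases hpos : ∃ x ∈ Icc x1 x2, 0 < iteratedDeriv 3 f.f x
  · obtain ⟨x0, hx0, hx0p⟩ := hpos
    left
    refine monotoneOn_of_deriv_nonneg (convex_Icc _ _) hcont
      (fun x _ => (hd x).differentiableAt.differentiableWithinAt) fun x hx => ?_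
    rw [(hd x).deriv]
    have h1 := hs' x0 hx0 x (interior_subset hx)
    exact nonneg_of_mul_nonneg_right h1 hx0p
  · push Not at hpos
    right
    refine antitoneOn_of_deriv_nonpos (convex_Icc _ _) hcont
      (fun x _ => (hd x).differentiableAt.differentiableWithinAt) fun x hx => ?_
    rw [(hd x).deriv]
    exact hpos x (interior_subset hx)

/-- ROW AV. Monotonicity of `f''` between two points with equal counts of `F`. -/
theorem avg {D M : ℕ} (hD : 3 ≤ D) (f : Fn D M) (x1 x2 w lo hi : ℝ) (h12 : x1 ≤ x2)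
    (hc : (f.F.filter (· < x1)).card = (f.F.filter (· < x2)).card)
    (h1 : lo ≤ iteratedDeriv 2 f.f x1 - 2 * w) (h1' : iteratedDeriv 2 f.f x1 - 2 * w ≤ hi)
    (h2 : lo ≤ iteratedDeriv 2 f.f x2 - 2 * w) (h2' : iteratedDeriv 2 f.f x2 - 2 * w ≤ hi) :
    lo * (x2 - x1) ≤ yc f x2 w - yc f x1 w ∧ yc f x2 w - yc f x1 w ≤ hi * (x2 - x1) := by
  rcases eq_or_lt_of_le h12 with h | h
  · subst h
    simp
  have hno : ∀ c ∈ f.F, ¬ (x1 < c ∧ c < x2) := fun c hcF hcc =>
    av_no h12 hc c hcF ⟨hcc.1.le, hcc.2⟩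
  have hbd : ∀ x ∈ Icc x1 x2, lo ≤ iteratedDeriv 2 f.f x - 2 * w ∧
      iteratedDeriv 2 f.f x - 2 * w ≤ hi := by
    intro x hx
    rcases av_mono hD f x1 x2 hno with hm | hm
    · have e1 := hm (left_mem_Icc.2 h12) hx hx.1
      have e2 := hm hx (right_mem_Icc.2 h12) hx.2
      constructor <;> linarith
    · have e1 := hm (left_mem_Icc.2 h12) hx hx.1
      have e2 := hm hx (right_mem_Icc.2 h12) hx.2
      constructor <;> linarith
  obtain ⟨ξ, hξ, he⟩ := exists_hasDerivAt_eq_slope (fun x => yc f x w)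
    (fun x => iteratedDeriv 2 f.f x - 2 * w) h
    (fun x _ => (av_yc (by omega) f w x).continuousAt.continuousWithinAt)
    (fun x _ => av_yc (by omega) f w x)
  have h3 : 0 < x2 - x1 := by linarith
  rw [eq_div_iff h3.ne'] at he
  obtain ⟨h4, h5⟩ := hbd ξ (Ioo_subset_Icc_self hξ)
  constructor
  · rw [← he]
    exact mul_le_mul_of_nonneg_right h4 h3.le
  · rw [← he]
    exact mul_le_mul_of_nonneg_right h5 h3.le

theorem av_gd2 {D M : ℕ} (f : Fn D M) (w z : ℝ) : gd f w 2 z = iteratedDeriv 2 f.f z - 2 * w := by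
  simp [gd]

theorem av_gd {D M : ℕ} (f : Fn D M) (w z : ℝ) {i : ℕ} (hi : 3 ≤ i) :
    gd f w i z = iteratedDeriv i f.f z := by
  unfold gd
  rw [if_neg (by omega), sub_zero]

theorem av_pow2 (k : ℕ) : (2 : ℝ) ^ (k * 2) = 4 ^ k := by
  rw [mul_comm k 2, pow_mul]; norm_num

theorem av_pow3 (k : ℕ) : (2 : ℝ) ^ (k * 3) = 4 ^ k * 2 ^ k := by
  rw [mul_comm k 3, pow_mul, ← mul_pow]; norm_num

/-- Variation of `f''` on a ball. -/
theorem av_var {D M : ℕ} (hD : 2 ≤ D) (f : Fn D M) {z x r C : ℝ} (hx : |x - z| ≤ r)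
    (hb : ∀ y, |y - z| ≤ r → |iteratedDeriv 3 f.f y| ≤ C) :
    |iteratedDeriv 2 f.f x - iteratedDeriv 2 f.f z| ≤ C * r := by
  have hr : 0 ≤ r := (abs_nonneg _).trans hx
  have h1 := (convex_closedBall z r).norm_image_sub_le_of_norm_hasDerivWithin_le
    (f := iteratedDeriv 2 f.f) (f' := iteratedDeriv 3 f.f) (C := C) (x := z) (y := x)
    (fun y _ => (av_hasDeriv f 2 (by omega) y).hasDerivWithinAt)
    (fun y hy => by
      rw [Metric.mem_closedBall, Real.dist_eq] at hy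
      exact hb y hy)
    (Metric.mem_closedBall_self hr) (by rwa [Metric.mem_closedBall, Real.dist_eq])
  rw [Real.norm_eq_abs, Real.norm_eq_abs] at h1
  have hC : 0 ≤ C := (abs_nonneg _).trans (hb z (by simpa using hr))
  exact h1.trans (mul_le_mul_of_nonneg_left hx hC)

/-- ROW NC. Not of cell type: the second derivative is large at the point itself. -/
theorem noncell {D M : ℕ} (hD : 3 ≤ D) {A : ℝ} (hA : 1 ≤ A) {k m : ℕ} {f : Fn D M} {z w : ℝ}
    (hmk : m ≤ k) (hc : Cls A k m f z w) (hn : ¬ Core A k m f z) :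
    m < k ∧ 4 ^ k / (2 * A) ≤ |iteratedDeriv 2 f.f z - 2 * w| := by
  unfold Core at hn
  push Not at hn
  obtain ⟨hmk', hn⟩ := hn
  have hlt : m < k := lt_of_le_of_ne hmk hmk'
  refine ⟨hlt, ?_⟩
  have hA0 : 0 < A := by linarith
  obtain ⟨i, hi, x, hx, h2⟩ := hc.lo (by omega)
  rw [Finset.mem_Icc] at hi
  have h4 : (0 : ℝ) < 4 ^ k := by positivity
  have h2k : (0 : ℝ) < 2 ^ k := by positivity
  rcases Nat.lt_or_ge 2 i with h3 | h3
  · exfalso
    have h5 := hn i (Finset.mem_Icc.2 ⟨h3, hi.2⟩) x hx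
    rw [av_gd f w x h3] at h2
    have h6 : (0 : ℝ) < 2 ^ (k * i) := by positivity
    nlinarith
  · have h3 : i = 2 := by omega
    subst h3
    rw [av_gd2, av_pow2] at h2
    have h5 : |iteratedDeriv 2 f.f x - iteratedDeriv 2 f.f z| ≤
        (4 ^ k * 2 ^ k / (8 * A)) * (4 / 2 ^ k) := by
      refine av_var (by omega) f hx fun y hy => ?_
      have h6 := hn 3 (Finset.mem_Icc.2 ⟨le_rfl, hD⟩) y hy
      rw [av_pow3] at h6
      rw [le_div_iff₀ (by positivity)]
      linarith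
    have h6 : (4 ^ k * 2 ^ k / (8 * A)) * (4 / 2 ^ k) = 4 ^ k / (2 * A) := by
      field_simp
      norm_num
    rw [h6] at h5
    have h7 : 4 ^ k / A ≤ |iteratedDeriv 2 f.f x - 2 * w| := by
      rw [div_le_iff₀ hA0]
      linarith
    have h8 : 4 ^ k / A = 4 ^ k / (2 * A) + 4 ^ k / (2 * A) := by
      field_simp
      norm_num
    have h9 := abs_sub_abs_le_abs_sub (iteratedDeriv 2 f.f x - 2 * w)
      (iteratedDeriv 2 f.f z - 2 * w)
    rw [sub_sub_sub_cancel_right] at h9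
    linarith

end Pool.Agent.SPN
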