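import Pool.Agent.SEPH.Defs

/-!
Notation for the restriction theorem for separable phases whose derivatives change sign a bounded
number of times.
-/

namespace Pool.Agent.SPN

open MeasureTheory Set Pool.Agent.MP_6cbfb8_an
open Pool.Agent.SEP (B phi phat beta om tj Tb)
open scoped ENNReal Real

/-- The packet constant. -/
noncomputable def kap : ℝ := 1 / 64

/-- A function of class `C^(D+1)` on the line with a set `F` of at most `M` points such that every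
derivative of order `3, …, D+1` has a constant sign (in the weak sense) between consecutive points
of `F`. -/
structure Fn (D M : ℕ) where
  f : ℝ → ℝ
  F : Finset ℝ
  smooth : ContDiff ℝ ((D + 1 : ℕ) : ℕ∞) f
  card : F.card ≤ M
  sgn : ∀ i : ℕ, 3 ≤ i → i ≤ D + 1 → ∀ x y : ℝ, x ≤ y → (∀ c ∈ F, ¬ (x < c ∧ c < y)) →
    0 ≤ iteratedDeriv i f x * iteratedDeriv i f y

/-- The one-dimensional oscillatory integral. -/
noncomputable def I1 {D M : ℕ} (f : Fn D M) (t y : ℝ) : ℂ :=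
  ∫ x : ℝ, (B x : ℂ) * Complex.exp (((f.f x - t * x ^ 2 - y * x : ℝ) : ℂ) * Complex.I)

/-- The Fourier transform of the phase on the sphere, up to constants. -/
noncomputable def FF {n D M : ℕ} (f : Fin n → Fn D M) (y : Fin n → ℝ) : ℂ :=
  ∫ t : ℝ, Complex.exp ((t : ℂ) * Complex.I) * ∏ j, I1 (f j) t (y j)

/-- `FF` with a cutoff in time. -/
noncomputable def FT {n D M : ℕ} (T : ℝ) (f : Fin n → Fn D M) (y : Fin n → ℝ) : ℂ :=
  ∫ t : ℝ, Complex.exp ((t : ℂ) * Complex.I) * (B (t / T) : ℂ) * ∏ j, I1 (f j) t (y j)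

/-- The `i`-th derivative of `f - t x^2` for `i ≥ 2`. -/
noncomputable def gd {D M : ℕ} (f : Fn D M) (t : ℝ) (i : ℕ) (x : ℝ) : ℝ :=
  iteratedDeriv i f.f x - if i = 2 then 2 * t else 0

/-- The derivative of `f - t x^2`. -/
noncomputable def yc {D M : ℕ} (f : Fn D M) (x t : ℝ) : ℝ := deriv f.f x - 2 * t * x

/-- The derivatives are controlled by the scale `2^k` near `x`. -/
def U {D M : ℕ} (k : ℕ) (f : Fn D M) (x t : ℝ) : Prop :=
  ∀ i ∈ Finset.Icc 2 D, ∀ x' : ℝ, |x' - x| ≤ 1 / 2 ^ k → |gd f t i x'| ≤ 2 ^ (k * i)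

open Classical in
/-- Mollified indicator of the set where `U k` holds. -/
noncomputable def chi {D M : ℕ} (k : ℕ) (f : Fn D M) (x t : ℝ) : ℝ :=
  ∫ p : ℝ × ℝ, (if U k f (x - kap / 2 ^ k * p.1) (t - kap * 4 ^ k * p.2) then 1 else 0) *
    (phi p.1 * phi p.2)

/-- The partition of unity according to the scale. -/
noncomputable def theta {D M : ℕ} (k : ℕ) (f : Fn D M) (x t : ℝ) : ℝ :=
  chi (k + 1) f x t - if k = 0 then 0 else chi k f x t

/-- One piece of the one-dimensional integral. -/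
noncomputable def I1c {D M : ℕ} (k m : ℕ) (f : Fn D M) (t y : ℝ) : ℂ :=
  ∫ x : ℝ, ((theta k f x t * beta k m x : ℝ) : ℂ) *
    Complex.exp (((f.f x - t * x ^ 2 - y * x : ℝ) : ℂ) * Complex.I)

/-- One piece of `FT`. -/
noncomputable def Fc {n D M : ℕ} (T : ℝ) (k m : Fin n → ℕ) (f : Fin n → Fn D M)
    (y : Fin n → ℝ) : ℂ :=
  ∫ t : ℝ, Complex.exp ((t : ℂ) * Complex.I) * (B (t / T) : ℂ) *
    ∏ j, I1c (k j) (m j) (f j) t (y j)

/-- The class of a point of the `(x, t)`-plane. -/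
structure Cls {D M : ℕ} (A : ℝ) (k m : ℕ) (f : Fn D M) (z w : ℝ) : Prop where
  up : ∀ i ∈ Finset.Icc 2 D, ∀ x : ℝ, |x - z| ≤ 1 / (8 * 2 ^ k) → |gd f w i x| ≤ A * 2 ^ (k * i)
  lo : 1 ≤ k → ∃ i ∈ Finset.Icc 2 D, ∃ x : ℝ, |x - z| ≤ 4 / 2 ^ k ∧ 2 ^ (k * i) ≤ A * |gd f w i x|
  zup : |z| * 2 ^ m ≤ A
  zlo : m < k → 1 ≤ A * (|z| * 2 ^ m)

/-- `κ` is a good packet constant and `A` is a good constant for the classes. -/
def Good (D M : ℕ) (κ A : ℝ) : Prop :=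
  0 < κ ∧ κ ≤ kap ∧ 1 ≤ A ∧ ∀ (k m : ℕ) (f : Fn D M) (x t z w : ℝ), m ≤ k →
    theta k f x t * beta k m x ≠ 0 → |x - z| ≤ κ / 2 ^ k → |t - w| ≤ κ * 4 ^ k →
      Cls A k m f z w

/-- The one-dimensional localised integral. -/
noncomputable def pk1 {D M : ℕ} (κ : ℝ) (k m : ℕ) (f : Fn D M) (Y ζ t : ℝ) : ℂ :=
  ∫ x : ℝ, ((theta k f x t * beta k m x * (2 ^ k / κ * phi ((ζ - x) * (2 ^ k / κ))) : ℝ) : ℂ) *
    Complex.exp (((f.f x - t * x ^ 2 + Y * (ζ - x) : ℝ) : ℂ) * Complex.I)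

/-- The Fourier transform of `Fc` times a bump around `Y`. -/
noncomputable def KY {n D M : ℕ} (κ : ℝ) (T : ℝ) (k m : Fin n → ℕ) (f : Fin n → Fn D M)
    (Y ζ : Fin n → ℝ) : ℂ :=
  ∫ t : ℝ, Complex.exp ((t : ℂ) * Complex.I) * (B (t / T) : ℂ) *
    ∏ j, pk1 κ (k j) (m j) (f j) (Y j) (ζ j) t

/-- The part of `KY` with time close to `w`. -/
noncomputable def kw {n D M : ℕ} (κ τ : ℝ) (T : ℝ) (k m : Fin n → ℕ) (f : Fin n → Fn D M)
    (Y ζ : Fin n → ℝ) (w : ℝ) : ℂ :=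
  ∫ t : ℝ, Complex.exp ((t : ℂ) * Complex.I) * ((B (t / T) * (1 / τ * phi ((t - w) / τ)) : ℝ) : ℂ) *
    ∏ j, pk1 κ (k j) (m j) (f j) (Y j) (ζ j) t

open Classical in
/-- The weight of a packet at the point `p = (ζ, w)`. -/
noncomputable def Wt {n D M : ℕ} (N : ℕ) (A : ℝ) (k m : Fin n → ℕ) (f : Fin n → Fn D M)
    (Y : Fin n → ℝ) (p : (Fin n → ℝ) × ℝ) : ℝ≥0∞ :=
  if ∀ j, Cls A (k j) (m j) (f j) (p.1 j) p.2 then
    ENNReal.ofReal ((∏ j, (1 / (1 + |yc (f j) (p.1 j) p.2 - Y j| / 2 ^ k j)) ^ N) *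
      (1 / (1 + |∑ j, p.1 j ^ 2 - 1| / om k m)) ^ N)
  else 0

/-- The coordinate is of cell type at `z`: capped, or a derivative of order at least `3` is
large. -/
def Core {D M : ℕ} (A : ℝ) (k m : ℕ) (f : Fn D M) (z : ℝ) : Prop :=
  m = k ∨ ∃ i ∈ Finset.Icc 3 D, ∃ x : ℝ, |x - z| ≤ 4 / 2 ^ k ∧
    2 ^ (k * i) ≤ 8 * A * |iteratedDeriv i f.f x|

open Classical in
/-- The label of a point: the cell of `z` (cell type only), the number of points of `F` to the left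
of `z`, the signs of `z` and of the second derivative, the type. -/
noncomputable def lab1 {D M : ℕ} (A : ℝ) (k m : ℕ) (f : Fn D M) (z w : ℝ) :
    ℤ × ℕ × Bool × Bool × Bool :=
  (if Core A k m f z then ⌊8 * 2 ^ k * z⌋ else 0, (f.F.filter (· < z)).card,
    decide (0 < z), decide (0 < iteratedDeriv 2 f.f z - 2 * w), decide (Core A k m f z))

/-- The class-shell set with the set `σ` of coordinates of cell type and tolerance `Λ`. -/
def Zf {n D M : ℕ} (A : ℝ) (k m : Fin n → ℕ) (f : Fin n → Fn D M) (σ : Finset (Fin n))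
    (Λ : ℝ) : Set ((Fin n → ℝ) × ℝ) :=
  {p | (∀ j, Cls A (k j) (m j) (f j) (p.1 j) p.2) ∧
    (∀ j, Core A (k j) (m j) (f j) (p.1 j) ↔ j ∈ σ) ∧ |∑ j, p.1 j ^ 2 - 1| ≤ Λ * om k m}

/-- The part of `Zf` whose packets pass close to `Y`. -/
def Zs {n D M : ℕ} (A : ℝ) (k m : Fin n → ℕ) (f : Fin n → Fn D M) (σ : Finset (Fin n))
    (Λ : ℝ) (Y : Fin n → ℝ) : Set ((Fin n → ℝ) × ℝ) :=
  {p | p ∈ Zf A k m f σ Λ ∧ ∀ j, |yc (f j) (p.1 j) p.2 - Y j| ≤ Λ * 2 ^ k j}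

/-- The label of a point in several dimensions. -/
noncomputable def lab {n D M : ℕ} (A : ℝ) (k m : Fin n → ℕ) (f : Fin n → Fn D M)
    (p : (Fin n → ℝ) × ℝ) (j : Fin n) : ℤ × ℕ × Bool × Bool × Bool :=
  lab1 A (k j) (m j) (f j) (p.1 j) p.2

/-- The set of pairs. -/
def Pr {n D M : ℕ} (A : ℝ) (k m : Fin n → ℕ) (f : Fin n → Fn D M) (σ : Finset (Fin n))
    (Λ : ℝ) : Set (((Fin n → ℝ) × ℝ) × ((Fin n → ℝ) × ℝ)) :=
  {q | q.1 ∈ Zf A k m f σ Λ ∧ q.2 ∈ Zf A k m f σ Λ ∧ lab A k m f q.1 = lab A k m f q.2 ∧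
    ∀ j, |yc (f j) (q.1.1 j) q.1.2 - yc (f j) (q.2.1 j) q.2.2| ≤ 2 * Λ * 2 ^ k j}

/-- The number of derivatives we use. -/
def Dn (n : ℕ) : ℕ := (n + 1) * (5 * n + 12)

/-- `f` is of class `C^(D+1)` and there are at most `M` points such that on `[-1,1]`, between
consecutive ones, every derivative of `f` of order `3, …, D+1` has a constant sign (in the weak
sense). -/
def FewSigns (D M : ℕ) (f : ℝ → ℝ) : Prop :=
  ContDiff ℝ ((D + 1 : ℕ) : ℕ∞) f ∧ ∃ F : Finset ℝ, F.card ≤ M ∧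
    ∀ i : ℕ, 3 ≤ i → i ≤ D + 1 → ∀ x ∈ Icc (-1 : ℝ) 1, ∀ y ∈ Icc (-1 : ℝ) 1, x ≤ y →
      (∀ c ∈ F, ¬ (x < c ∧ c < y)) → 0 ≤ iteratedDeriv i f x * iteratedDeriv i f y

end Pool.Agent.SPN
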