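import Pool.Agent.GNP.P1h
import Pool.Agent.SPNH.Defs

/-!
SPN row PH, part 1: functions with bounded derivatives up to a finite order.
-/

namespace Pool.Agent.SPN

open MeasureTheory Set Metric Pool.Agent.MP_6cbfb8_an
open scoped ENNReal Real ContDiff

section

variable {V W X : Type*} [NormedAddCommGroup V] [NormedSpace ℝ V] [NormedAddCommGroup W]
  [NormedSpace ℝ W] [NormedAddCommGroup X] [NormedSpace ℝ X]

/-- The derivatives up to the order `K` are bounded by `C`. -/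
def BK (K : ℕ) (C : ℝ) (F : V → W) : Prop :=
  ContDiff ℝ K F ∧ ∀ i ≤ K, ∀ u, ‖iteratedFDeriv ℝ i F u‖ ≤ C

theorem BK.nonneg {K : ℕ} {C : ℝ} {F : V → W} (h : BK K C F) : 0 ≤ C :=
  (norm_nonneg _).trans (h.2 0 (Nat.zero_le _) 0)

theorem BK.mono {K : ℕ} {C C' : ℝ} {F : V → W} (h : BK K C F) (hC : C ≤ C') : BK K C' F :=
  ⟨h.1, fun i hi u => (h.2 i hi u).trans hC⟩

theorem BK.add {K : ℕ} {C C' : ℝ} {F G : V → W} (h : BK K C F) (h' : BK K C' G) :
    BK K (C + C') (fun u => F u + G u) := by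
  refine ⟨h.1.add h'.1, fun i hi u => ?_⟩
  have hi' : ((i : ℕ) : ℕ∞ω) ≤ ((K : ℕ) : ℕ∞ω) := by exact_mod_cast hi
  rw [fun_iteratedFDeriv_add_apply (h.1.of_le hi').contDiffAt (h'.1.of_le hi').contDiffAt]
  exact (norm_add_le _ _).trans (add_le_add (h.2 i hi u) (h'.2 i hi u))

theorem BK.sub {K : ℕ} {C C' : ℝ} {F G : V → W} (h : BK K C F) (h' : BK K C' G) :
    BK K (C + C') (fun u => F u - G u) := by
  refine ⟨h.1.sub h'.1, fun i hi u => ?_⟩
  have hi' : ((i : ℕ) : ℕ∞ω) ≤ ((K : ℕ) : ℕ∞ω) := by exact_mod_cast hi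
  rw [fun_iteratedFDeriv_sub_apply (h.1.of_le hi').contDiffAt (h'.1.of_le hi').contDiffAt]
  exact (norm_sub_le _ _).trans (add_le_add (h.2 i hi u) (h'.2 i hi u))

theorem BK.smul {K : ℕ} {C c : ℝ} {F : V → W} (h : BK K C F) (a : ℝ) (ha : |a| ≤ c) :
    BK K (c * C) (fun u => a • F u) := by
  refine ⟨h.1.const_smul a, fun i hi u => ?_⟩
  have hi' : ((i : ℕ) : ℕ∞ω) ≤ ((K : ℕ) : ℕ∞ω) := by exact_mod_cast hi
  rw [iteratedFDeriv_const_smul_apply' (h.1.of_le hi').contDiffAt, norm_smul, Real.norm_eq_abs]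
  exact mul_le_mul ha (h.2 i hi u) (norm_nonneg _) ((abs_nonneg a).trans ha)

theorem BK.zero {K : ℕ} : BK K 0 (fun _ : V => (0 : W)) := by
  refine ⟨contDiff_const, fun i _ u => ?_⟩
  rw [iteratedFDeriv_fun_zero]
  simp

theorem BK.mul {A : Type*} [NormedRing A] [NormedAlgebra ℝ A] {K : ℕ} {C C' : ℝ} {F G : V → A}
    (h : BK K C F) (h' : BK K C' G) : BK K (2 ^ K * C * C') (fun u => F u * G u) := by
  refine ⟨h.1.mul h'.1, fun i hi u => ?_⟩
  have hi' : ((i : ℕ) : ℕ∞ω) ≤ ((K : ℕ) : ℕ∞ω) := by exact_mod_cast hi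
  have hC := h.nonneg
  have hC' := h'.nonneg
  refine (norm_iteratedFDeriv_mul_le h.1 h'.1 u hi').trans ?_
  calc ∑ j ∈ Finset.range (i + 1), (i.choose j : ℝ) * ‖iteratedFDeriv ℝ j F u‖ *
        ‖iteratedFDeriv ℝ (i - j) G u‖ ≤ ∑ j ∈ Finset.range (i + 1), (i.choose j : ℝ) * C * C' := by
        refine Finset.sum_le_sum fun j hj => ?_
        rw [Finset.mem_range] at hj
        refine mul_le_mul (mul_le_mul_of_nonneg_left (h.2 j (by omega) u) (by positivity))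
          (h'.2 (i - j) (by omega) u) (norm_nonneg _) (by positivity)
    _ = 2 ^ i * C * C' := by
        rw [← Finset.sum_mul, ← Finset.sum_mul]
        congr 2
        exact_mod_cast Nat.sum_range_choose i
    _ ≤ 2 ^ K * C * C' := by
        have : (2 : ℝ) ^ i ≤ 2 ^ K := pow_le_pow_right₀ one_le_two hi
        gcongr

theorem BK.ofReal {K : ℕ} {C : ℝ} {F : V → ℝ} (h : BK K C F) :
    BK K C (fun u => (F u : ℂ)) := by
  refine ⟨Complex.ofRealCLM.contDiff.comp h.1, fun i hi u => ?_⟩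
  have hi' : ((i : ℕ) : ℕ∞ω) ≤ ((K : ℕ) : ℕ∞ω) := by exact_mod_cast hi
  have := Complex.ofRealLI.norm_iteratedFDeriv_comp_left (f := F) (x := u) (n := K) (i := i)
    h.1.contDiffAt hi'
  exact this.le.trans (h.2 i hi u)

theorem BK.comp {K : ℕ} {C C' : ℝ} {F : V → W} {G : W → X} (hG : BK K C' G) (hF : BK K C F)
    (hC : 1 ≤ C) : BK K (K.factorial * C' * C ^ K) (fun u => G (F u)) := by
  refine ⟨hG.1.comp hF.1, fun i hi u => ?_⟩
  have hi' : ((i : ℕ) : ℕ∞ω) ≤ ((K : ℕ) : ℕ∞ω) := by exact_mod_cast hi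
  have hC' := hG.nonneg
  have h1 := norm_iteratedFDeriv_comp_le (n := i) hG.1 hF.1 hi' u (C := C') (D := C)
    (fun j hj => hG.2 j (hj.trans hi) _) (fun j hj1 hj => (hF.2 j (hj.trans hi) u).trans
      (le_self_pow₀ hC (by omega)))
  refine h1.trans ?_
  have h2 : ((i.factorial : ℕ) : ℝ) ≤ ((K.factorial : ℕ) : ℝ) := by
    exact_mod_cast Nat.factorial_le hi
  have h3 : C ^ i ≤ C ^ K := pow_le_pow_right₀ hC hi
  have h4 : 0 ≤ C ^ i := by positivity
  gcongr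

theorem BK.exp {K : ℕ} {C : ℝ} {F : V → ℝ} (hF : BK K C F) (hC : 1 ≤ C) :
    BK K (K.factorial * 1 * C ^ K) (fun u => Complex.exp ((F u : ℂ) * Complex.I)) := by
  have h : BK K 1 Pool.Agent.GPH.ee :=
    ⟨Pool.Agent.GPH.contDiff_ee, fun i _ u => (Pool.Agent.GPH.norm_iteratedFDeriv_ee i u).le⟩
  exact h.comp hF hC

theorem BK.lin {K : ℕ} {C l : ℝ} {F : W → X} (hF : BK K C F) (a : W) (L : V →L[ℝ] W)
    (hL : ‖L‖ ≤ l) (hl : 1 ≤ l) : BK K (C * l ^ K) (fun u => F (a + L u)) := by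
  have h1 : ContDiff ℝ K (fun w => F (a + w)) := hF.1.comp (contDiff_const.add contDiff_id)
  refine ⟨h1.comp L.contDiff, fun i hi u => ?_⟩
  have hi' : ((i : ℕ) : ℕ∞ω) ≤ ((K : ℕ) : ℕ∞ω) := by exact_mod_cast hi
  have h2 : (fun u => F (a + L u)) = (fun w => F (a + w)) ∘ L := rfl
  rw [h2, L.iteratedFDeriv_comp_right h1 u hi']
  refine (ContinuousMultilinearMap.norm_compContinuousLinearMap_le _ _).trans ?_
  have h3 : ‖iteratedFDeriv ℝ i (fun w => F (a + w)) (L u)‖ ≤ C := by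
    rw [iteratedFDeriv_comp_add_left]
    exact hF.2 i hi _
  have hC := hF.nonneg
  rw [Finset.prod_const, Finset.card_univ, Fintype.card_fin]
  refine mul_le_mul h3 ?_ (by positivity) hC
  exact (pow_le_pow_left₀ (norm_nonneg _) hL i).trans (pow_le_pow_right₀ hl hi)

theorem BK.prod {ι : Type*} {K : ℕ} {C : ℝ} {F : ι → V → ℂ} (s : Finset ι)
    (h : ∀ j, BK K C (F j)) (h1 : BK K 1 (fun _ : V => (1 : ℂ))) :
    BK K ((2 ^ K * C) ^ s.card) (fun u => ∏ j ∈ s, F j u) := by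
  classical
  induction s using Finset.induction_on with
  | empty => simpa using h1
  | insert a s ha ih =>
    rw [Finset.card_insert_of_notMem ha]
    have := (h a).mul ih
    simp only [Finset.prod_insert ha]
    refine this.mono (le_of_eq ?_)
    ring

theorem bk_one {K : ℕ} : BK K 1 (fun _ : V => (1 : ℂ)) := by
  refine ⟨contDiff_const, fun i _ u => ?_⟩
  rcases Nat.eq_zero_or_pos i with rfl | hi
  · simp
  · rw [iteratedFDeriv_const_of_ne (by omega)]
    simp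

theorem bk_fixed {F : ℝ → ℝ} (h : ContDiff ℝ ∞ F) (hs : HasCompactSupport F) (K : ℕ) :
    ∃ C : ℝ, 1 ≤ C ∧ BK K C F := by
  have h1 : ∀ i : ℕ, ∃ C : ℝ, ∀ u, ‖iteratedFDeriv ℝ i F u‖ ≤ C := by
    intro i
    have hc : Continuous (iteratedFDeriv ℝ i F) :=
      h.continuous_iteratedFDeriv (by exact_mod_cast le_top)
    obtain ⟨C, hC⟩ := (hs.iteratedFDeriv i).exists_bound_of_continuous hc
    exact ⟨C, hC⟩
  choose c hc using h1
  refine ⟨1 + ∑ i ∈ Finset.range (K + 1), |c i|, ?_, h.of_le (by exact_mod_cast le_top),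
    fun i hi u => ?_⟩
  · have : 0 ≤ ∑ i ∈ Finset.range (K + 1), |c i| := Finset.sum_nonneg fun i _ => abs_nonneg _
    linarith
  · have h2 : |c i| ≤ ∑ i ∈ Finset.range (K + 1), |c i| :=
      Finset.single_le_sum (f := fun i => |c i|) (fun i _ => abs_nonneg _)
        (Finset.mem_range.2 (by omega))
    have h3 := hc i u
    have h4 := le_abs_self (c i)
    linarith

end

end Pool.Agent.SPN
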