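import Pool.Agent.SPNH.END
import Pool.Agent.GNP.WA3
import Pool.Agent.MP_6cbfb8_an.LiftF

/-!
Row BVC: tensor products of functions of bounded variation times phases with few sign changes, cut
by half spaces; superpositions.
-/

namespace Pool.Agent.SPN

open MeasureTheory Set Pool.Agent.MP_6cbfb8_an
open scoped ENNReal Real

/-- The density with `K` ridge factors and `N` cuts. -/
noncomputable def bvDen {n K N : ℕ} (f : Fin n → ℝ → ℝ) (B : Fin K → ℝ → ℂ) (u : Fin K → E n)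
    (v : Fin N → E n) (c : Fin N → ℝ) (x : E n) : ℂ :=
  (Complex.exp (((∑ j, f j (x j) : ℝ) : ℂ) * Complex.I) * ∏ i, B i (inner ℝ x (u i))) *
    ∏ i, hsn (c i) (v i) x

lemma bvc_coord {n : ℕ} (j : Fin n) : Measurable fun x : E n => x j := by fun_prop

lemma bvc_ridge {n : ℕ} (u : E n) : Measurable fun x : E n => inner ℝ x u := by fun_prop

lemma bvc_few_meas {D M : ℕ} {f : ℝ → ℝ} (h : FewSigns D M f) : Measurable f :=
  h.1.continuous.measurable

lemma bvc_exp_meas {n D M : ℕ} {f : Fin n → ℝ → ℝ} (hf : ∀ j, FewSigns D M (f j)) :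
    Measurable fun x : E n => Complex.exp (((∑ j, f j (x j) : ℝ) : ℂ) * Complex.I) := by
  have h1 : Measurable fun x : E n => ∑ j, f j (x j) :=
    Finset.measurable_sum _ fun j _ => (bvc_few_meas (hf j)).comp (bvc_coord j)
  exact Complex.measurable_exp.comp ((Complex.measurable_ofReal.comp h1).mul measurable_const)

lemma bvDen_meas {n K N D M : ℕ} {f : Fin n → ℝ → ℝ}
    (hf : ∀ j, FewSigns D M (f j)) {B : Fin K → ℝ → ℂ} (hB : ∀ i, Measurable (B i))
    (u : Fin K → E n) (v : Fin N → E n) (c : Fin N → ℝ) : Measurable (bvDen f B u v c) := by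
  refine Measurable.mul ((bvc_exp_meas hf).mul ?_) (measurable_prod_hsn _ _)
  exact Finset.measurable_prod _ fun i _ => (hB i).comp (bvc_ridge (u i))

lemma bvDen_norm {n K N : ℕ} (f : Fin n → ℝ → ℝ) {B : Fin K → ℝ → ℂ}
    (hB : ∀ i t, ‖B i t‖ ≤ 1) (u : Fin K → E n) (v : Fin N → E n) (c : Fin N → ℝ) (x : E n) :
    ‖bvDen f B u v c x‖ ≤ 1 := by
  unfold bvDen
  rw [norm_mul, norm_mul, Complex.norm_exp_ofReal_mul_I, one_mul, norm_prod]
  exact mul_le_one₀ (Finset.prod_le_one (fun j _ => norm_nonneg _) fun j _ => hB j _)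
    (norm_nonneg _) (norm_prod_hsn_le _ _ x)

lemma bvc_down {n : ℕ} (u : E n) (t : ℝ) (x : E n) :
    hsn (-t) (-u) x = if inner ℝ x u < t then 1 else 0 := by
  unfold hsn
  rw [inner_neg_right]
  simp only [neg_lt_neg_iff]

/-- The bound for all ridge factors of variation at most one, by induction over their number. -/
theorem bvc_unit (n M : ℕ) (hn : 3 ≤ n) (K : ℕ) :
    ∀ (N : ℕ) (p : ℝ), 2 * (n : ℝ) / (n - 1) < p → ∃ C : ℝ≥0∞, C ≠ ∞ ∧
      ∀ (f : Fin n → ℝ → ℝ) (B : Fin K → ℝ → ℂ) (u : Fin K → E n) (v : Fin N → E n)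
        (c : Fin N → ℝ), (∀ j, FewSigns (Dn n) M (f j)) → (∀ i, Measurable (B i)) →
        (∀ i t, ‖B i t‖ ≤ 1) → (∀ i, eVariationOn (B i) univ ≤ 1) →
        ∫⁻ ξ, ‖extn (bvDen f B u v c) ξ‖ₑ ^ p ≤ C := by
  have hn1 : (0 : ℝ) < n - 1 := by
    have : (3 : ℝ) ≤ n := by exact_mod_cast hn
    linarith
  have hp0 : 1 ≤ 2 * (n : ℝ) / (n - 1) := by
    rw [le_div_iff₀ hn1]
    have : (3 : ℝ) ≤ n := by exact_mod_cast hn
    linarith
  induction K with
  | zero =>
    intro N p hp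
    obtain ⟨C, hC, h⟩ := multicut n hn (2 * (n : ℝ) / (n - 1)) hp0
      (fun g => ∃ f : Fin n → ℝ → ℝ, (∀ j, FewSigns (Dn n) M (f j)) ∧
        g = fun x => Complex.exp (((∑ j, f j (x j) : ℝ) : ℂ) * Complex.I)) (by
        intro p' hp'
        obtain ⟨C, hC, h⟩ := spn_few n M hn p' hp'
        refine ⟨C, hC, ?_⟩
        rintro g - - ⟨f, hf, rfl⟩
        exact h f hf) N p hp
    refine ⟨C, hC, fun f B u v c hf _ _ _ => ?_⟩
    have h1 := h _ (bvc_exp_meas hf) (fun x => (Complex.norm_exp_ofReal_mul_I _).le)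
      ⟨f, hf, rfl⟩ v c
    refine le_trans (le_of_eq ?_) h1
    refine lintegral_congr fun ξ => ?_
    congr 3
    funext x
    simp [bvDen]
  | succ K ih =>
    intro N p hp
    obtain ⟨C0, hC0, h0⟩ := ih N p hp
    obtain ⟨C1, hC1, h1⟩ := ih (N + 1) p hp
    have h2 : (2:ℝ≥0∞) ^ p ≠ ∞ := ENNReal.rpow_ne_top_of_nonneg (by linarith) (by norm_num)
    have h3 : (3:ℝ≥0∞) ^ p ≠ ∞ := ENNReal.rpow_ne_top_of_nonneg (by linarith) (by norm_num)
    refine ⟨2 ^ p * (2 ^ p * (2 ^ p * (3 ^ p * (2 ^ p * (C0 + C1))))),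
      ENNReal.mul_ne_top h2 (ENNReal.mul_ne_top h2 (ENNReal.mul_ne_top h2 (ENNReal.mul_ne_top h3
        (ENNReal.mul_ne_top h2 (ENNReal.add_ne_top.2 ⟨hC0, hC1⟩))))),
      fun f B u v c hf hBm hB hv => ?_⟩
    have key := Pool.Agent.GNP.gv_single (fun x : E n => inner ℝ x (u 0)) (bvc_ridge (u 0))
      (G := bvDen f (fun i => B i.succ) (fun i => u i.succ) v c)
      (bvDen_meas hf (fun i => hBm i.succ) _ v c) (bvDen_norm f (fun i => hB i.succ) _ v c)
      (p := p) (by linarith) (C := C0 + C1)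
      ((h0 f _ _ v c hf (fun i => hBm i.succ) (fun i => hB i.succ) fun i => hv i.succ).trans
        le_self_add)
      (fun t => by
        refine le_trans (le_of_eq ?_) ((h1 f (fun i => B i.succ) (fun i => u i.succ)
          (Fin.cons (u 0) v) (Fin.cons t c) hf (fun i => hBm i.succ) (fun i => hB i.succ)
          fun i => hv i.succ).trans le_add_self)
        refine lintegral_congr fun ξ => ?_
        congr 3
        funext x
        unfold bvDen
        rw [Fin.prod_univ_succ (fun i : Fin (N + 1) => hsn _ _ x)]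
        simp only [Fin.cons_zero, Fin.cons_succ]
        have e : hsn t (u 0) x = if t < inner ℝ x (u 0) then 1 else 0 := rfl
        rw [e]
        ring)
      (fun t => by
        refine le_trans (le_of_eq ?_) ((h1 f (fun i => B i.succ) (fun i => u i.succ)
          (Fin.cons (-u 0) v) (Fin.cons (-t) c) hf (fun i => hBm i.succ) (fun i => hB i.succ)
          fun i => hv i.succ).trans le_add_self)
        refine lintegral_congr fun ξ => ?_
        congr 3
        funext x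
        unfold bvDen
        rw [Fin.prod_univ_succ (fun i : Fin (N + 1) => hsn _ _ x)]
        simp only [Fin.cons_zero, Fin.cons_succ]
        rw [bvc_down]
        ring)
      (B 0) (hB 0) (hv 0)
    refine le_trans (le_of_eq ?_) key
    refine lintegral_congr fun ξ => ?_
    congr 3
    funext x
    unfold bvDen
    rw [Fin.prod_univ_succ (fun i : Fin (K + 1) => B i (inner ℝ x (u i)))]
    ring

/-- The restriction to `[-1,1]`, extended by constants. -/
noncomputable def prj (w : ℝ → ℂ) (t : ℝ) : ℂ := w (max (-1) (min 1 t))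

lemma prj_mem (t : ℝ) : max (-1) (min 1 t) ∈ Icc (-1 : ℝ) 1 :=
  ⟨le_max_left _ _, max_le (by norm_num) (min_le_left _ _)⟩

lemma prj_eq {w : ℝ → ℂ} {t : ℝ} (ht : t ∈ Icc (-1 : ℝ) 1) : prj w t = w t := by
  unfold prj
  rw [min_eq_right ht.2, max_eq_right ht.1]

lemma prj_var (w : ℝ → ℂ) : eVariationOn (prj w) univ ≤ eVariationOn w (Icc (-1) 1) :=
  eVariationOn.comp_le_of_monotoneOn w (fun t : ℝ => max (-1) (min 1 t))
    (fun _ _ _ _ hab => max_le_max le_rfl (min_le_min le_rfl hab)) fun t _ => prj_mem t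

lemma bvc_var_mul (c : ℂ) (w : ℝ → ℂ) (s : Set ℝ) :
    eVariationOn (fun t => c * w t) s ≤ ‖c‖ₑ * eVariationOn w s := by
  unfold eVariationOn
  refine iSup_le fun q => ?_
  calc ∑ i ∈ Finset.range q.1, edist (c * w (q.2.1 (i + 1))) (c * w (q.2.1 i))
      = ‖c‖ₑ * ∑ i ∈ Finset.range q.1, edist (w (q.2.1 (i + 1))) (w (q.2.1 i)) := by
        rw [Finset.mul_sum]
        refine Finset.sum_congr rfl fun i _ => ?_
        rw [edist_eq_enorm_sub, edist_eq_enorm_sub, ← mul_sub, enorm_mul]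
    _ ≤ _ := by
        gcongr
        exact le_iSup (fun q : ℕ × { u : ℕ → ℝ // Monotone u ∧ ∀ i, u i ∈ s } =>
          ∑ i ∈ Finset.range q.1, edist (w (q.2.1 (i + 1))) (w (q.2.1 i))) q

lemma bvc_meas {w : ℝ → ℂ} (h : eVariationOn w univ ≠ ∞) : Measurable w := by
  have hre : Measurable fun t => (w t).re := by
    have h1 : BoundedVariationOn (fun t => (w t).re) univ := by
      have := (Complex.reCLM.lipschitz).comp_boundedVariationOn (g := w) (s := univ) h
      exact this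
    obtain ⟨u, v, hu, hv, huv⟩ := h1.locallyBoundedVariationOn.exists_monotoneOn_sub_monotoneOn
    rw [huv]
    exact (monotoneOn_univ.1 hu).measurable.sub (monotoneOn_univ.1 hv).measurable
  have him : Measurable fun t => (w t).im := by
    have h1 : BoundedVariationOn (fun t => (w t).im) univ := by
      have := (Complex.imCLM.lipschitz).comp_boundedVariationOn (g := w) (s := univ) h
      exact this
    obtain ⟨u, v, hu, hv, huv⟩ := h1.locallyBoundedVariationOn.exists_monotoneOn_sub_monotoneOn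
    rw [huv]
    exact (monotoneOn_univ.1 hu).measurable.sub (monotoneOn_univ.1 hv).measurable
  have : w = fun t => ((w t).re : ℂ) + ((w t).im : ℂ) * Complex.I := by
    funext t
    exact (Complex.re_add_im _).symm
  rw [this]
  exact (Complex.measurable_ofReal.comp hre).add
    ((Complex.measurable_ofReal.comp him).mul measurable_const)

lemma bvc_scale {n : ℕ} {g : E n → ℂ} {p : ℝ} (hp : 0 ≤ p) {C : ℝ≥0∞} (c : ℂ)
    (h : ∫⁻ ξ, ‖extn g ξ‖ₑ ^ p ≤ C) :
    ∫⁻ ξ, ‖extn (fun x => c * g x) ξ‖ₑ ^ p ≤ ‖c‖ₑ ^ p * C := by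
  have h1 : ∀ ξ, extn (fun x => c * g x) ξ = c * extn g ξ := by
    intro ξ
    unfold extn
    rw [← integral_const_mul]
    refine integral_congr_ae (Filter.Eventually.of_forall fun x => ?_)
    simp only
    ring
  calc ∫⁻ ξ, ‖extn (fun x => c * g x) ξ‖ₑ ^ p = ∫⁻ ξ, ‖c‖ₑ ^ p * ‖extn g ξ‖ₑ ^ p := by
        refine lintegral_congr fun ξ => ?_
        rw [h1, enorm_mul, ENNReal.mul_rpow_of_nonneg _ _ hp]
    _ = ‖c‖ₑ ^ p * ∫⁻ ξ, ‖extn g ξ‖ₑ ^ p :=
        lintegral_const_mul' _ _ (ENNReal.rpow_ne_top_of_nonneg hp enorm_ne_top)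
    _ ≤ _ := by gcongr

lemma bvc_coord_mem {n : ℕ} {x : E n} (hx : ‖x‖ = 1) (j : Fin n) : x j ∈ Icc (-1 : ℝ) 1 := by
  have h2 : ‖x j‖ ≤ ‖x‖ := PiLp.norm_apply_le x j
  rw [hx, Real.norm_eq_abs] at h2
  exact abs_le.1 h2

/-- One density: factors `w_j(x_j)` with `|w_j| ≤ 1` and variation at most `V` on `[-1,1]`, and
ridge factors `B_i(⟨x, u_i⟩)` with `|B_i| ≤ 1` of variation at most `V`. -/
theorem bvc_one (n M K : ℕ) (V : ℝ) (hn : 3 ≤ n) (p : ℝ) (hp : 2 * (n : ℝ) / (n - 1) < p) :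
    ∃ C : ℝ≥0∞, C ≠ ∞ ∧
      ∀ (f : Fin n → ℝ → ℝ) (w : Fin n → ℝ → ℂ) (u : Fin K → E n) (B : Fin K → ℝ → ℂ),
        (∀ j, FewSigns (Dn n) M (f j)) → (∀ j, ∀ t ∈ Icc (-1 : ℝ) 1, ‖w j t‖ ≤ 1) →
        (∀ j, eVariationOn (w j) (Icc (-1) 1) ≤ ENNReal.ofReal V) →
        (∀ i t, ‖B i t‖ ≤ 1) → (∀ i, eVariationOn (B i) univ ≤ ENNReal.ofReal V) →
        ∫⁻ ξ, ‖extn (fun x => (∏ j, (w j (x j) *
          Complex.exp (((f j (x j) : ℝ) : ℂ) * Complex.I))) * ∏ i, B i (inner ℝ x (u i))) ξ‖ₑ ^ p ≤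
            C := by
  have hn1 : (0 : ℝ) < n - 1 := by
    have : (3 : ℝ) ≤ n := by exact_mod_cast hn
    linarith
  have hp1 : 1 ≤ p := by
    have h1 : 1 ≤ 2 * (n : ℝ) / (n - 1) := by
      rw [le_div_iff₀ hn1]
      have : (3 : ℝ) ≤ n := by exact_mod_cast hn
      linarith
    linarith
  obtain ⟨C, hC, h⟩ := bvc_unit n M hn (n + K) 0 p hp
  set L : ℝ := max V 1 with hL
  have hL1 : 1 ≤ L := le_max_right _ _
  have hL0 : 0 < L := by linarith
  refine ⟨‖((L : ℂ) ^ (n + K))‖ₑ ^ p * C,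
    ENNReal.mul_ne_top (ENNReal.rpow_ne_top_of_nonneg (by linarith) enorm_ne_top) hC,
    fun f w u B hf hw hv hB hBv => ?_⟩
  have hLn : ‖((L⁻¹ : ℝ) : ℂ)‖ = L⁻¹ := by
    rw [Complex.norm_real, Real.norm_eq_abs, abs_of_pos (by positivity)]
  have hscale : ∀ b : ℝ → ℂ, eVariationOn b univ ≤ ENNReal.ofReal V →
      eVariationOn (fun t => ((L⁻¹ : ℝ) : ℂ) * b t) univ ≤ 1 := by
    intro b hb
    calc eVariationOn (fun t => ((L⁻¹ : ℝ) : ℂ) * b t) univ
        ≤ ‖((L⁻¹ : ℝ) : ℂ)‖ₑ * eVariationOn b univ := bvc_var_mul _ _ _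
      _ ≤ ‖((L⁻¹ : ℝ) : ℂ)‖ₑ * ENNReal.ofReal V := by gcongr
      _ = ENNReal.ofReal (L⁻¹ * V) := by
          rw [← ofReal_norm, hLn, ENNReal.ofReal_mul (by positivity)]
      _ ≤ 1 := by
          rw [← ENNReal.ofReal_one]
          refine ENNReal.ofReal_le_ofReal ?_
          rw [inv_mul_le_iff₀ hL0, mul_one]
          exact le_max_left _ _
  set b : Fin (n + K) → ℝ → ℂ := Fin.append (fun j => prj (w j)) B with hb
  have hbv : ∀ i, eVariationOn (b i) univ ≤ ENNReal.ofReal V := by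
    intro i
    refine Fin.addCases (fun j => ?_) (fun j => ?_) i
    · rw [hb, Fin.append_left]
      exact (prj_var _).trans (hv j)
    · rw [hb, Fin.append_right]
      exact hBv j
  have hbn : ∀ i t, ‖b i t‖ ≤ 1 := by
    intro i
    refine Fin.addCases (fun j => ?_) (fun j => ?_) i
    · rw [hb, Fin.append_left]
      exact fun t => hw j _ (prj_mem t)
    · rw [hb, Fin.append_right]
      exact hB j
  have hbm : ∀ i, Measurable (b i) := fun i =>
    bvc_meas ((hbv i).trans_lt ENNReal.ofReal_lt_top).ne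
  set e : Fin (n + K) → E n := Fin.append (fun j => EuclideanSpace.single j (1 : ℝ)) u with he
  have h1 := h f (fun i t => ((L⁻¹ : ℝ) : ℂ) * b i t) e (fun i => i.elim0) (fun i => i.elim0) hf
    (fun i => (hbm i).const_mul _) (fun i t => by
      rw [norm_mul, hLn]
      have h3 : L⁻¹ ≤ 1 := inv_le_one_of_one_le₀ hL1
      exact mul_le_one₀ h3 (norm_nonneg _) (hbn i t)) fun i => hscale _ (hbv i)
  have h2 := bvc_scale (n := n) (by linarith) ((L : ℂ) ^ (n + K)) h1
  refine le_trans (le_of_eq ?_) h2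
  rw [end_extn_congr (g' := fun x : E n => (L : ℂ) ^ (n + K) * bvDen f
    (fun i t => ((L⁻¹ : ℝ) : ℂ) * b i t) e (fun i : Fin 0 => i.elim0) (fun i : Fin 0 => i.elim0) x)]
  intro x hx
  simp only
  unfold bvDen
  have e1 : Complex.exp (((∑ j, f j (x j) : ℝ) : ℂ) * Complex.I) =
      ∏ j, Complex.exp (((f j (x j) : ℝ) : ℂ) * Complex.I) := by
    rw [← Complex.exp_sum]
    push_cast
    rw [Finset.sum_mul]
  have e2 : ∏ i, (((L⁻¹ : ℝ) : ℂ) * b i (inner ℝ x (e i))) =
      ((L : ℂ) ^ (n + K))⁻¹ * ((∏ j, w j (x j)) * ∏ i, B i (inner ℝ x (u i))) := by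
    rw [Finset.prod_mul_distrib, Finset.prod_const, Finset.card_univ, Fintype.card_fin,
      Fin.prod_univ_add]
    congr 1
    · push_cast
      rw [inv_pow]
    · congr 1
      · refine Finset.prod_congr rfl fun j _ => ?_
        rw [hb, he, Fin.append_left, Fin.append_left, EuclideanSpace.inner_single_right]
        simp only [one_mul, conj_trivial]
        exact prj_eq (bvc_coord_mem hx j)
      · refine Finset.prod_congr rfl fun j _ => ?_
        rw [hb, he, Fin.append_right, Fin.append_right]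
  have hLc : ((L : ℂ) ^ (n + K)) ≠ 0 := pow_ne_zero _ (by exact_mod_cast hL0.ne')
  rw [e1, e2, Finset.prod_mul_distrib]
  simp only [Finset.univ_eq_empty, Finset.prod_empty, mul_one]
  generalize ∏ j, w j (x j) = a
  generalize ∏ j, Complex.exp (((f j (x j) : ℝ) : ℂ) * Complex.I) = b'
  generalize ∏ i, B i (inner ℝ x (u i)) = d
  have h3 := mul_inv_cancel₀ hLc
  linear_combination (-(a * b' * d)) * h3

end Pool.Agent.SPN
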