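import Pool.Agent.SPNH.BVC

/-!
Row BVC, second part: sums of terms and superpositions.
-/

namespace Pool.Agent.SPN

open MeasureTheory Set Pool.Agent.MP_6cbfb8_an
open scoped ENNReal Real

/-- On `[-1,1]` the function `F` is a sum of `N` terms `w e^{if}`, where `|w| ≤ 1`, the variation of
`w` is at most `V`, and `f` has few signs. -/
def FewBV (D M N : ℕ) (V : ℝ) (F : ℝ → ℂ) : Prop :=
  ∃ (w : Fin N → ℝ → ℂ) (f : Fin N → ℝ → ℝ),
    (∀ k, (∀ t ∈ Icc (-1 : ℝ) 1, ‖w k t‖ ≤ 1) ∧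
      eVariationOn (w k) (Icc (-1) 1) ≤ ENNReal.ofReal V ∧ FewSigns D M (f k)) ∧
    ∀ t ∈ Icc (-1 : ℝ) 1, F t = ∑ k, w k t * Complex.exp (((f k t : ℝ) : ℂ) * Complex.I)

lemma FewBV.norm_le {D M N : ℕ} {V : ℝ} {F : ℝ → ℂ} (h : FewBV D M N V F) {t : ℝ}
    (ht : t ∈ Icc (-1 : ℝ) 1) : ‖F t‖ ≤ N := by
  obtain ⟨w, f, h1, h2⟩ := h
  rw [h2 t ht]
  refine (norm_sum_le _ _).trans ?_
  calc ∑ k : Fin N, ‖w k t * Complex.exp (((f k t : ℝ) : ℂ) * Complex.I)‖ ≤ ∑ _k : Fin N, (1:ℝ) := by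
        refine Finset.sum_le_sum fun k _ => ?_
        rw [norm_mul, Complex.norm_exp_ofReal_mul_I, mul_one]
        exact (h1 k).1 t ht
    _ = N := by simp

/-- One density: the product of sums of terms. -/
theorem bvc_sum (n M N K : ℕ) (V : ℝ) (hn : 3 ≤ n) (p : ℝ) (hp : 2 * (n : ℝ) / (n - 1) < p) :
    ∃ C : ℝ≥0∞, C ≠ ∞ ∧
      ∀ (F : Fin n → ℝ → ℂ) (u : Fin K → E n) (B : Fin K → ℝ → ℂ),
        (∀ j, FewBV (Dn n) M N V (F j)) → (∀ i t, ‖B i t‖ ≤ 1) →
        (∀ i, eVariationOn (B i) univ ≤ ENNReal.ofReal V) →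
        ∫⁻ ξ, ‖extn (fun x => (∏ j, F j (x j)) * ∏ i, B i (inner ℝ x (u i))) ξ‖ₑ ^ p ≤ C := by
  have hn1 : (0 : ℝ) < n - 1 := by
    have : (3 : ℝ) ≤ n := by exact_mod_cast hn
    linarith
  have hp1 : 1 ≤ p := by
    have h1 : 1 ≤ 2 * (n : ℝ) / (n - 1) := by
      rw [le_div_iff₀ hn1]
      have : (3 : ℝ) ≤ n := by exact_mod_cast hn
      linarith
    linarith
  obtain ⟨C, hC, h⟩ := bvc_one n M K V hn p hp
  refine ⟨C * (Measure.count (univ : Set (Fin n → Fin N))) ^ p,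
    ENNReal.mul_ne_top hC (ENNReal.rpow_ne_top_of_nonneg (by linarith) (measure_ne_top _ _)),
    fun F u B hF hB hBv => ?_⟩
  choose w f hwf hsum using hF
  have hprj : ∀ j k, Measurable (prj (w j k)) := fun j k =>
    bvc_meas (((prj_var (w j k)).trans (hwf j k).2.1).trans_lt ENNReal.ofReal_lt_top).ne
  have hexp : ∀ j k, Measurable fun t => Complex.exp (((f j k t : ℝ) : ℂ) * Complex.I) :=
    fun j k => Complex.measurable_exp.comp ((Complex.measurable_ofReal.comp
      (bvc_few_meas (hwf j k).2.2)).mul measurable_const)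
  set g : (Fin n → Fin N) → E n → ℂ := fun κ x =>
    (∏ j, (prj (w j (κ j)) (x j) * Complex.exp (((f j (κ j) (x j) : ℝ) : ℂ) * Complex.I))) *
      ∏ i, B i (inner ℝ x (u i)) with hg
  have hgm : ∀ κ, Measurable (g κ) := by
    intro κ
    refine Measurable.mul ?_ ?_
    · exact Finset.measurable_prod _ fun j _ =>
        ((hprj j (κ j)).comp (bvc_coord j)).mul ((hexp j (κ j)).comp (bvc_coord j))
    · exact Finset.measurable_prod _ fun i _ =>
        (bvc_meas ((hBv i).trans_lt ENNReal.ofReal_lt_top).ne).comp (bvc_ridge (u i))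
  have hgb : ∀ κ x, ‖g κ x‖ ≤ 1 := by
    intro κ x
    rw [hg]
    simp only
    rw [norm_mul, norm_prod]
    refine mul_le_one₀ (Finset.prod_le_one (fun j _ => norm_nonneg _) fun j _ => ?_)
      (norm_nonneg _) ?_
    · rw [norm_mul, Complex.norm_exp_ofReal_mul_I, mul_one]
      exact (hwf j (κ j)).1 _ (prj_mem _)
    · rw [norm_prod]
      exact Finset.prod_le_one (fun i _ => norm_nonneg _) fun i _ => hB i _
  have key := lintegral_mix_le (n := n) hp1 (C := C)
    (fun g' => ∃ κ : Fin n → Fin N, g' = g κ) (by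
      rintro g' - - ⟨κ, rfl⟩
      have h1 := h (fun j => f j (κ j)) (fun j => prj (w j (κ j))) u B
        (fun j => (hwf j (κ j)).2.2) (fun j t _ => (hwf j (κ j)).1 _ (prj_mem _))
        (fun j => (eVariationOn.mono _ (subset_univ _)).trans
          ((prj_var (w j (κ j))).trans (hwf j (κ j)).2.1)) hB hBv
      exact h1)
    (Measure.count : Measure (Fin n → Fin N)) (fun _ => LinearIsometryEquiv.refl ℝ (E n))
    (fun _ => 0) g (by simpa using measurable_snd) measurable_const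
    (measurable_from_prod_countable_right fun κ => hgm κ) hgb fun κ => ⟨κ, rfl⟩
  refine le_trans (le_of_eq ?_) key
  rw [end_extn_congr (g' := mix (Measure.count : Measure (Fin n → Fin N))
    (fun _ => LinearIsometryEquiv.refl ℝ (E n)) (fun _ => 0) g)]
  intro x hx
  unfold mix
  have h3 : ∀ κ : Fin n → Fin N, Complex.exp (((2 * π * inner ℝ x (0 : E n) : ℝ) : ℂ) * Complex.I) *
      g κ ((LinearIsometryEquiv.refl ℝ (E n)) x) = g κ x := by
    intro κ
    rw [inner_zero_right, mul_zero, Complex.ofReal_zero, zero_mul, Complex.exp_zero, one_mul]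
    rfl
  simp only [h3]
  rw [integral_countable (Integrable.of_finite), tsum_fintype]
  simp only [Measure.real, Measure.count_singleton, ENNReal.toReal_one, one_smul]
  rw [hg]
  simp only
  rw [← Finset.sum_mul]
  congr 1
  have h4 : ∀ j, F j (x j) = ∑ k, prj (w j k) (x j) *
      Complex.exp (((f j k (x j) : ℝ) : ℂ) * Complex.I) := by
    intro j
    rw [hsum j (x j) (bvc_coord_mem hx j)]
    refine Finset.sum_congr rfl fun k _ => ?_
    rw [prj_eq (bvc_coord_mem hx j)]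
  rw [Finset.prod_congr rfl fun j _ => h4 j, Finset.prod_univ_sum, Fintype.piFinset_univ]

/-- Superpositions of modulated and rotated densities. -/
theorem spb_super (n M N K : ℕ) (V : ℝ) (hn : 3 ≤ n) (p : ℝ) (hp : 2 * (n : ℝ) / (n - 1) < p) :
    ∃ C : ℝ≥0∞, C ≠ ∞ ∧
      ∀ (W : Type) (_ : MeasurableSpace W) (ν : Measure W) (_ : IsFiniteMeasure ν)
        (R : W → (E n ≃ₗᵢ[ℝ] E n)) (η : W → E n) (F : W → Fin n → ℝ → ℂ)
        (u : W → Fin K → E n) (B : W → Fin K → ℝ → ℂ),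
        (Measurable fun q : W × E n => R q.1 q.2) → Measurable η →
        (∀ j, Measurable fun q : W × ℝ => F q.1 j q.2) → Measurable u →
        (∀ i, Measurable fun q : W × ℝ => B q.1 i q.2) →
        (∀ s j, FewBV (Dn n) M N V (F s j)) → (∀ s i t, ‖B s i t‖ ≤ 1) →
        (∀ s i, eVariationOn (B s i) univ ≤ ENNReal.ofReal V) →
        ∫⁻ ξ, ‖extn (mix ν R η fun s x => (∏ j, F s j (x j)) *
          ∏ i, B s i (inner ℝ x (u s i))) ξ‖ₑ ^ p ≤ C * ν univ ^ p := by
  have hn1 : (0 : ℝ) < n - 1 := by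
    have : (3 : ℝ) ≤ n := by exact_mod_cast hn
    linarith
  have hp1 : 1 ≤ p := by
    have h1 : 1 ≤ 2 * (n : ℝ) / (n - 1) := by
      rw [le_div_iff₀ hn1]
      have : (3 : ℝ) ≤ n := by exact_mod_cast hn
      linarith
    linarith
  obtain ⟨C, hC, h⟩ := bvc_sum n M N K V hn p hp
  set κ : ℝ := ((N : ℝ) + 1) ^ n with hκ
  have hκ1 : 0 < κ := by positivity
  refine ⟨‖((κ : ℝ) : ℂ)‖ₑ ^ p * (‖((κ⁻¹ : ℝ) : ℂ)‖ₑ ^ p * C), ?_, ?_⟩
  · refine ENNReal.mul_ne_top (ENNReal.rpow_ne_top_of_nonneg (by linarith) enorm_ne_top)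
      (ENNReal.mul_ne_top (ENNReal.rpow_ne_top_of_nonneg (by linarith) enorm_ne_top) hC)
  intro W _ ν _ R η F u B hR hη hF hu hBm hFB hB hBv
  set g : W → E n → ℂ := fun s x => ((κ⁻¹ : ℝ) : ℂ) * ((∏ j, prj (F s j) (x j)) *
    ∏ i, B s i (inner ℝ x (u s i))) with hg
  have hgm : Measurable (Function.uncurry g) := by
    rw [hg]
    simp only [Function.uncurry_def]
    refine Measurable.const_mul (Measurable.mul ?_ ?_) _
    · refine Finset.measurable_prod _ fun j _ => ?_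
      have h1 : Measurable fun q : W × E n => (q.1, max (-1 : ℝ) (min 1 (q.2 j))) := by fun_prop
      exact (hF j).comp h1
    · refine Finset.measurable_prod _ fun i _ => ?_
      have h2 : Measurable fun q : W × E n => u q.1 i :=
        (measurable_pi_apply i).comp (hu.comp measurable_fst)
      have h3 : Measurable fun q : W × E n => (q.1, inner ℝ q.2 (u q.1 i)) :=
        measurable_fst.prodMk (measurable_snd.inner h2)
      exact (hBm i).comp h3
  have hgb : ∀ s x, ‖g s x‖ ≤ 1 := by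
    intro s x
    rw [hg]
    simp only
    rw [norm_mul, norm_mul, Complex.norm_real, Real.norm_eq_abs, abs_of_pos (by positivity),
      norm_prod]
    have h1 : ∏ j, ‖prj (F s j) (x j)‖ ≤ κ := by
      calc ∏ j, ‖prj (F s j) (x j)‖ ≤ ∏ _j : Fin n, ((N : ℝ) + 1) := by
            refine Finset.prod_le_prod (fun j _ => norm_nonneg _) fun j _ => ?_
            have := (hFB s j).norm_le (prj_mem (x j))
            unfold prj
            linarith
        _ = κ := by simp [hκ]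
    have h2 : ‖∏ i, B s i (inner ℝ x (u s i))‖ ≤ 1 := by
      rw [norm_prod]
      exact Finset.prod_le_one (fun i _ => norm_nonneg _) fun i _ => hB s i _
    calc κ⁻¹ * ((∏ j, ‖prj (F s j) (x j)‖) * ‖∏ i, B s i (inner ℝ x (u s i))‖) ≤
        κ⁻¹ * (κ * 1) := by
          gcongr
      _ = 1 := by field_simp
  have key := lintegral_mix_le (n := n) hp1 (C := ‖((κ⁻¹ : ℝ) : ℂ)‖ₑ ^ p * C)
    (fun g' => ∃ s : W, g' = g s) (by
      rintro g' - - ⟨s, rfl⟩
      have h1 := bvc_scale (n := n) (by linarith) ((κ⁻¹ : ℝ) : ℂ)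
        (h (F s) (u s) (B s) (hFB s) (hB s) (hBv s))
      refine le_trans (le_of_eq ?_) h1
      rw [end_extn_congr (g' := fun x : E n => ((κ⁻¹ : ℝ) : ℂ) * ((∏ j, F s j (x j)) *
        ∏ i, B s i (inner ℝ x (u s i))))]
      intro x hx
      rw [hg]
      simp only
      congr 2
      exact Finset.prod_congr rfl fun j _ => prj_eq (bvc_coord_mem hx j))
    ν R η g hR hη hgm hgb fun s => ⟨s, rfl⟩
  have h5 := bvc_scale (n := n) (by linarith) ((κ : ℝ) : ℂ) key
  rw [mul_assoc]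
  refine le_trans (le_of_eq ?_) h5
  rw [end_extn_congr (g' := fun x : E n => ((κ : ℝ) : ℂ) * mix ν R η g x)]
  intro x hx
  unfold mix
  rw [← integral_const_mul]
  refine integral_congr_ae (Filter.Eventually.of_forall fun s => ?_)
  simp only
  rw [hg]
  simp only
  have hRx : ‖R s x‖ = 1 := by rw [LinearIsometryEquiv.norm_map, hx]
  have e1 : ∏ j, prj (F s j) (R s x j) = ∏ j, F s j (R s x j) :=
    Finset.prod_congr rfl fun j _ => prj_eq (bvc_coord_mem hRx j)
  rw [e1]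
  have e2 : ((κ : ℝ) : ℂ) * ((κ⁻¹ : ℝ) : ℂ) = 1 := by
    rw [← Complex.ofReal_mul, mul_inv_cancel₀ hκ1.ne', Complex.ofReal_one]
  generalize ∏ j, F s j (R s x j) = a
  generalize ∏ i, B s i (inner ℝ (R s x) (u s i)) = b
  generalize Complex.exp (((2 * π * inner ℝ x (η s) : ℝ) : ℂ) * Complex.I) = d
  linear_combination (-(d * (a * b))) * e2

/-- A bounded variation function times a phase with few signs. -/
theorem fewBV_one {D M : ℕ} {V : ℝ} {w : ℝ → ℂ} {f : ℝ → ℝ}
    (hw : ∀ t ∈ Icc (-1 : ℝ) 1, ‖w t‖ ≤ 1) (hv : eVariationOn w (Icc (-1) 1) ≤ ENNReal.ofReal V)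
    (hf : FewSigns D M f) : FewBV D M 1 V fun t => w t * Complex.exp (((f t : ℝ) : ℂ) * Complex.I) :=
  ⟨fun _ => w, fun _ => f, fun _ => ⟨hw, hv, hf⟩, fun t _ => by simp⟩

end Pool.Agent.SPN
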