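import Pool.Agent.SPNH.Defs

/-!
# SPN, row MEAS: measurability of the sets
-/

namespace Pool.Agent.SPN

open MeasureTheory Set Pool.Agent.MP_6cbfb8_an
open Pool.Agent.SEP (B phi phat beta om tj Tb)
open scoped ENNReal Real

theorem isClosed_ex {α : Type*} [TopologicalSpace α] (r c : ℝ) (g : α → ℝ → ℝ)
    (hg : Continuous fun q : α × ℝ => g q.1 q.2) (z : α → ℝ) (hz : Continuous z) :
    IsClosed {q : α | ∃ x, |x - z q| ≤ r ∧ c ≤ g q x} := by
  have h1 : IsClosed {p : (Icc (-r) r) × α | c ≤ g p.2 (z p.2 + p.1)} := by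
    refine isClosed_le continuous_const ?_
    exact hg.comp (continuous_snd.prodMk ((hz.comp continuous_snd).add
      (continuous_subtype_val.comp continuous_fst)))
  have h2 := isClosedMap_snd_of_compactSpace _ h1
  have h3 : {q : α | ∃ x, |x - z q| ≤ r ∧ c ≤ g q x} =
      Prod.snd '' {p : (Icc (-r) r) × α | c ≤ g p.2 (z p.2 + p.1)} := by
    ext q
    constructor
    · rintro ⟨x, hx, hc⟩
      refine ⟨(⟨x - z q, abs_le.1 hx⟩, q), ?_, rfl⟩
      show c ≤ g q (z q + (x - z q))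
      rw [add_sub_cancel]
      exact hc
    · rintro ⟨⟨u, q'⟩, hu, rfl⟩
      refine ⟨z q' + u, ?_, hu⟩
      rw [add_sub_cancel_left]
      exact abs_le.2 u.2
  rw [h3]
  exact h2

theorem isClosed_all {α : Type*} [TopologicalSpace α] (r c : ℝ) (g : α → ℝ → ℝ)
    (hg : Continuous fun q : α × ℝ => g q.1 q.2) (z : α → ℝ) (hz : Continuous z) :
    IsClosed {q : α | ∀ x, |x - z q| ≤ r → g q x ≤ c} := by
  have h3 : {q : α | ∀ x, |x - z q| ≤ r → g q x ≤ c} =
      ⋂ u ∈ Icc (-r) r, {q : α | g q (z q + u) ≤ c} := by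
    ext q
    simp only [mem_iInter, mem_ofPred_eq]
    constructor
    · intro h u hu
      refine h _ ?_
      rw [add_sub_cancel_left]
      exact abs_le.2 hu
    · intro h x hx
      have := h (x - z q) (abs_le.1 hx)
      rwa [add_sub_cancel] at this
  rw [h3]
  refine isClosed_biInter fun u _ => isClosed_le ?_ continuous_const
  exact hg.comp (continuous_id.prodMk (hz.add continuous_const))

theorem cont_iter {D M : ℕ} (f : Fn D M) {i : ℕ} (hi : i ≤ D) :
    Continuous (iteratedDeriv i f.f) :=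
  f.smooth.continuous_iteratedDeriv i (by exact_mod_cast (by omega : i ≤ D + 1))

theorem cont_gd {D M : ℕ} (f : Fn D M) {i : ℕ} (hi : i ≤ D) :
    Continuous fun q : (ℝ × ℝ) × ℝ => gd f q.1.2 i q.2 := by
  unfold gd
  refine Continuous.sub ((cont_iter f hi).comp continuous_snd) ?_
  by_cases h2 : i = 2
  · simp only [h2, if_true]
    fun_prop
  · simp only [h2, if_false]
    fun_prop

theorem mea_iter2 {D M : ℕ} (f : Fn D M) : Measurable (iteratedDeriv 2 f.f) := by
  rw [show (2 : ℕ) = 1 + 1 from rfl, iteratedDeriv_succ]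
  exact measurable_deriv _

theorem mea_yc {D M : ℕ} (f : Fn D M) : Measurable fun q : ℝ × ℝ => yc f q.1 q.2 := by
  unfold yc
  exact ((measurable_deriv f.f).comp measurable_fst).sub
    ((measurable_snd.const_mul 2).mul measurable_fst)

theorem mea_cls {D M : ℕ} (A : ℝ) (k m : ℕ) (f : Fn D M) :
    MeasurableSet {q : ℝ × ℝ | Cls A k m f q.1 q.2} := by
  have h : {q : ℝ × ℝ | Cls A k m f q.1 q.2} =
      (⋂ i ∈ Finset.Icc 2 D, {q : ℝ × ℝ | ∀ x : ℝ, |x - q.1| ≤ 1 / (8 * 2 ^ k) →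
        |gd f q.2 i x| ≤ A * 2 ^ (k * i)}) ∩
      ({q : ℝ × ℝ | 1 ≤ k → ∃ i ∈ Finset.Icc 2 D, ∃ x : ℝ, |x - q.1| ≤ 4 / 2 ^ k ∧
        2 ^ (k * i) ≤ A * |gd f q.2 i x|} ∩
      ({q : ℝ × ℝ | |q.1| * 2 ^ m ≤ A} ∩ {q : ℝ × ℝ | m < k → 1 ≤ A * (|q.1| * 2 ^ m)})) := by
    ext q
    simp only [mem_ofPred_eq, mem_inter_iff, mem_iInter]
    constructor
    · rintro ⟨h1, h2, h3, h4⟩
      exact ⟨h1, h2, h3, h4⟩
    · rintro ⟨h1, h2, h3, h4⟩
      exact ⟨h1, h2, h3, h4⟩
  have hz : Measurable fun q : ℝ × ℝ => |q.1| * 2 ^ m := by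
    exact (measurable_fst.abs).mul_const _
  rw [h]
  refine MeasurableSet.inter ?_ (MeasurableSet.inter ?_ (MeasurableSet.inter ?_ ?_))
  · refine Finset.measurableSet_biInter _ fun i hi => ?_
    exact (isClosed_all _ _ (fun (q : ℝ × ℝ) (x : ℝ) => |gd f q.2 i x|)
      (cont_gd f (Finset.mem_Icc.1 hi).2).abs _ continuous_fst).measurableSet
  · by_cases hk : 1 ≤ k
    · simp only [hk, true_imp_iff]
      have h2 : {q : ℝ × ℝ | ∃ i ∈ Finset.Icc 2 D, ∃ x : ℝ, |x - q.1| ≤ 4 / 2 ^ k ∧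
          2 ^ (k * i) ≤ A * |gd f q.2 i x|} =
          ⋃ i ∈ Finset.Icc 2 D, {q : ℝ × ℝ | ∃ x : ℝ, |x - q.1| ≤ 4 / 2 ^ k ∧
          2 ^ (k * i) ≤ A * |gd f q.2 i x|} := by
        ext q
        simp only [mem_ofPred_eq, mem_iUnion, exists_prop]
      rw [h2]
      refine Finset.measurableSet_biUnion _ fun i hi => ?_
      exact (isClosed_ex _ _ (fun (q : ℝ × ℝ) (x : ℝ) => A * |gd f q.2 i x|)
        (continuous_const.mul (cont_gd f (Finset.mem_Icc.1 hi).2).abs) _
        continuous_fst).measurableSet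
    · simp only [hk, false_imp_iff]
      exact MeasurableSet.univ
  · exact measurableSet_le hz measurable_const
  · by_cases hk : m < k
    · simp only [hk, true_imp_iff]
      exact measurableSet_le measurable_const (hz.const_mul A)
    · simp only [hk, false_imp_iff]
      exact MeasurableSet.univ

theorem mea_core {D M : ℕ} (A : ℝ) (k m : ℕ) (f : Fn D M) :
    MeasurableSet {z : ℝ | Core A k m f z} := by
  unfold Core
  by_cases hk : m = k
  · simp only [hk, true_or]
    exact MeasurableSet.univ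
  · simp only [hk, false_or]
    have h2 : {z : ℝ | ∃ i ∈ Finset.Icc 3 D, ∃ x : ℝ, |x - z| ≤ 4 / 2 ^ k ∧
        2 ^ (k * i) ≤ 8 * A * |iteratedDeriv i f.f x|} =
        ⋃ i ∈ Finset.Icc 3 D, {z : ℝ | ∃ x : ℝ, |x - z| ≤ 4 / 2 ^ k ∧
        2 ^ (k * i) ≤ 8 * A * |iteratedDeriv i f.f x|} := by
      ext q
      simp only [mem_ofPred_eq, mem_iUnion, exists_prop]
    rw [h2]
    refine Finset.measurableSet_biUnion _ fun i hi => ?_
    exact (isClosed_ex _ _ (fun (_ : ℝ) (x : ℝ) => 8 * A * |iteratedDeriv i f.f x|)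
      (continuous_const.mul ((cont_iter f (Finset.mem_Icc.1 hi).2).comp continuous_snd).abs) _
      continuous_id).measurableSet

open Classical in
theorem mea_lab1 {D M : ℕ} (A : ℝ) (k m : ℕ) (f : Fn D M) :
    Measurable fun q : ℝ × ℝ => lab1 A k m f q.1 q.2 := by
  have hcore : MeasurableSet {q : ℝ × ℝ | Core A k m f q.1} :=
    (mea_core A k m f).preimage measurable_fst
  unfold lab1
  refine Measurable.prodMk ?_ (Measurable.prodMk ?_ (Measurable.prodMk ?_
    (Measurable.prodMk ?_ ?_)))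
  · exact Measurable.ite hcore (Int.measurable_floor.comp (measurable_fst.const_mul _))
      measurable_const
  · simp only [Finset.card_filter]
    refine Finset.measurable_sum _ fun r _ => ?_
    exact Measurable.ite (measurableSet_lt measurable_const measurable_fst) measurable_const
      measurable_const
  · refine measurable_to_bool ?_
    have : (fun q : ℝ × ℝ => decide (0 < q.1)) ⁻¹' {true} = {q : ℝ × ℝ | 0 < q.1} := by
      ext q
      simp
    rw [this]
    exact measurableSet_lt measurable_const measurable_fst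
  · refine measurable_to_bool ?_
    have : (fun q : ℝ × ℝ => decide (0 < iteratedDeriv 2 f.f q.1 - 2 * q.2)) ⁻¹' {true} =
        {q : ℝ × ℝ | 0 < iteratedDeriv 2 f.f q.1 - 2 * q.2} := by
      ext q
      simp
    rw [this]
    exact measurableSet_lt measurable_const
      (((mea_iter2 f).comp measurable_fst).sub
        (measurable_snd.const_mul 2))
  · refine measurable_to_bool ?_
    have : (fun q : ℝ × ℝ => decide (Core A k m f q.1)) ⁻¹' {true} =
        {q : ℝ × ℝ | Core A k m f q.1} := by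
      ext q
      simp
    rw [this]
    exact hcore

theorem mea_coord {n : ℕ} (j : Fin n) :
    Measurable fun p : (Fin n → ℝ) × ℝ => (p.1 j, p.2) :=
  ((measurable_pi_apply j).comp measurable_fst).prodMk measurable_snd

theorem mea_shell {n : ℕ} : Measurable fun p : (Fin n → ℝ) × ℝ => |∑ j, p.1 j ^ 2 - 1| := by
  refine Measurable.abs (Measurable.sub_const ?_ 1)
  refine Finset.measurable_sum _ fun j _ => ?_
  exact ((measurable_pi_apply j).comp measurable_fst).pow_const 2

theorem mea_clsAll {n D M : ℕ} (A : ℝ) (k m : Fin n → ℕ) (f : Fin n → Fn D M) :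
    MeasurableSet {p : (Fin n → ℝ) × ℝ | ∀ j, Cls A (k j) (m j) (f j) (p.1 j) p.2} := by
  rw [ofPred_forall]
  exact MeasurableSet.iInter fun j => (mea_cls A (k j) (m j) (f j)).preimage (mea_coord j)

/-- ROW MEAS. -/
theorem meas_Zf {n D M : ℕ} (A : ℝ) (k m : Fin n → ℕ) (f : Fin n → Fn D M) (σ : Finset (Fin n))
    (Λ : ℝ) : MeasurableSet (Zf A k m f σ Λ) := by
  have h : Zf A k m f σ Λ = {p : (Fin n → ℝ) × ℝ | ∀ j, Cls A (k j) (m j) (f j) (p.1 j) p.2} ∩
      ((⋂ j, {p : (Fin n → ℝ) × ℝ | Core A (k j) (m j) (f j) (p.1 j) ↔ j ∈ σ}) ∩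
        {p : (Fin n → ℝ) × ℝ | |∑ j, p.1 j ^ 2 - 1| ≤ Λ * om k m}) := by
    ext p
    simp only [Zf, mem_ofPred_eq, mem_inter_iff, mem_iInter]
  rw [h]
  refine (mea_clsAll A k m f).inter (MeasurableSet.inter ?_ ?_)
  · refine MeasurableSet.iInter fun j => ?_
    have hc : MeasurableSet {p : (Fin n → ℝ) × ℝ | Core A (k j) (m j) (f j) (p.1 j)} :=
      (mea_core A (k j) (m j) (f j)).preimage ((measurable_pi_apply j).comp measurable_fst)
    by_cases hj : j ∈ σ
    · simpa only [hj, iff_true] using hc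
    · simp only [hj, iff_false]
      exact hc.compl
  · exact measurableSet_le mea_shell measurable_const

/-- ROW MEAS. -/
theorem meas_Zs {n D M : ℕ} (A : ℝ) (k m : Fin n → ℕ) (f : Fin n → Fn D M) (σ : Finset (Fin n))
    (Λ : ℝ) : MeasurableSet {q : (Fin n → ℝ) × ((Fin n → ℝ) × ℝ) | q.2 ∈ Zs A k m f σ Λ q.1} := by
  have h : {q : (Fin n → ℝ) × ((Fin n → ℝ) × ℝ) | q.2 ∈ Zs A k m f σ Λ q.1} =
      {q : (Fin n → ℝ) × ((Fin n → ℝ) × ℝ) | q.2 ∈ Zf A k m f σ Λ} ∩
        ⋂ j, {q : (Fin n → ℝ) × ((Fin n → ℝ) × ℝ) |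
          |yc (f j) (q.2.1 j) q.2.2 - q.1 j| ≤ Λ * 2 ^ k j} := by
    ext q
    simp only [Zs, mem_ofPred_eq, mem_inter_iff, mem_iInter]
  rw [h]
  refine ((meas_Zf A k m f σ Λ).preimage measurable_snd).inter (MeasurableSet.iInter fun j => ?_)
  refine measurableSet_le (Measurable.abs (Measurable.sub ?_ ?_)) measurable_const
  · exact (mea_yc (f j)).comp ((mea_coord j).comp measurable_snd)
  · exact (measurable_pi_apply j).comp measurable_fst

theorem mea_lab {n D M : ℕ} (A : ℝ) (k m : Fin n → ℕ) (f : Fin n → Fn D M) (j : Fin n) :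
    Measurable fun p : (Fin n → ℝ) × ℝ => lab A k m f p j :=
  (mea_lab1 A (k j) (m j) (f j)).comp (mea_coord j)

/-- ROW MEAS. -/
theorem meas_lab {n D M : ℕ} (A : ℝ) (k m : Fin n → ℕ) (f : Fin n → Fn D M)
    (l : Fin n → ℤ × ℕ × Bool × Bool × Bool) : MeasurableSet {p | lab A k m f p = l} := by
  have h : {p | lab A k m f p = l} = ⋂ j, {p | lab A k m f p j = l j} := by
    ext p
    simp only [mem_ofPred_eq, mem_iInter, funext_iff]
  rw [h]
  exact MeasurableSet.iInter fun j => mea_lab A k m f j (measurableSet_singleton (l j))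

/-- ROW MEAS. -/
theorem meas_Pr {n D M : ℕ} (A : ℝ) (k m : Fin n → ℕ) (f : Fin n → Fn D M) (σ : Finset (Fin n))
    (Λ : ℝ) : MeasurableSet (Pr A k m f σ Λ) := by
  have h : Pr A k m f σ Λ = (Prod.fst ⁻¹' Zf A k m f σ Λ) ∩ ((Prod.snd ⁻¹' Zf A k m f σ Λ) ∩
      ((⋂ j, {q : ((Fin n → ℝ) × ℝ) × ((Fin n → ℝ) × ℝ) |
        lab A k m f q.1 j = lab A k m f q.2 j}) ∩
      ⋂ j, {q : ((Fin n → ℝ) × ℝ) × ((Fin n → ℝ) × ℝ) |
        |yc (f j) (q.1.1 j) q.1.2 - yc (f j) (q.2.1 j) q.2.2| ≤ 2 * Λ * 2 ^ k j})) := by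
    ext q
    simp only [Pr, mem_ofPred_eq, mem_inter_iff, mem_iInter, mem_preimage, funext_iff]
  rw [h]
  refine ((meas_Zf A k m f σ Λ).preimage measurable_fst).inter
    (((meas_Zf A k m f σ Λ).preimage measurable_snd).inter (MeasurableSet.inter ?_ ?_))
  · refine MeasurableSet.iInter fun j => ?_
    have h1 : {q : ((Fin n → ℝ) × ℝ) × ((Fin n → ℝ) × ℝ) |
        lab A k m f q.1 j = lab A k m f q.2 j} = ⋃ l : ℤ × ℕ × Bool × Bool × Bool,
        (fun q : ((Fin n → ℝ) × ℝ) × ((Fin n → ℝ) × ℝ) => lab A k m f q.1 j) ⁻¹' {l} ∩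
        (fun q : ((Fin n → ℝ) × ℝ) × ((Fin n → ℝ) × ℝ) => lab A k m f q.2 j) ⁻¹' {l} := by
      ext q
      simp only [mem_ofPred_eq, mem_iUnion, mem_inter_iff, mem_preimage, mem_singleton_iff]
      exact ⟨fun h => ⟨_, h, rfl⟩, fun ⟨l, h2, h3⟩ => h2.trans h3.symm⟩
    rw [h1]
    exact MeasurableSet.iUnion fun l =>
      (((mea_lab A k m f j).comp measurable_fst) (measurableSet_singleton l)).inter
        (((mea_lab A k m f j).comp measurable_snd) (measurableSet_singleton l))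
  · refine MeasurableSet.iInter fun j => ?_
    refine measurableSet_le (Measurable.abs (Measurable.sub ?_ ?_)) measurable_const
    · exact (mea_yc (f j)).comp ((mea_coord j).comp measurable_fst)
    · exact (mea_yc (f j)).comp ((mea_coord j).comp measurable_snd)

/-- ROW MEAS. -/
theorem meas_Wt {n D M : ℕ} (N : ℕ) (A : ℝ) (k m : Fin n → ℕ) (f : Fin n → Fn D M) :
    Measurable fun q : (Fin n → ℝ) × ((Fin n → ℝ) × ℝ) => Wt N A k m f q.1 q.2 := by
  unfold Wt
  refine Measurable.ite ((mea_clsAll A k m f).preimage measurable_snd) ?_ measurable_const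
  refine Measurable.ennreal_ofReal (Measurable.mul ?_ (Measurable.pow_const ?_ N))
  · refine Finset.measurable_prod _ fun j _ => ?_
    refine Measurable.pow_const (Measurable.const_div (Measurable.const_add (Measurable.div_const
      (Measurable.abs (Measurable.sub ?_ ?_)) _) _) _) N
    · exact (mea_yc (f j)).comp ((mea_coord j).comp measurable_snd)
    · exact (measurable_pi_apply j).comp measurable_fst
  · exact Measurable.const_div (Measurable.const_add (Measurable.div_const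
      (mea_shell.comp measurable_snd) _) _) _

end Pool.Agent.SPN
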