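import Pool.Agent.SPNH.Defs
import Pool.Agent.SPNH.MEAS
import Pool.Agent.SEPH.DY

/-!
Rows DY and DYP: dyadic decomposition of the packet weight.
-/

namespace Pool.Agent.SPN

open MeasureTheory Set Pool.Agent.MP_6cbfb8_an
open Pool.Agent.SEP (B phi phat beta om tj Tb dy_om_pos dy_holder dy_sum)
open scoped ENNReal Real

/-- A point with all quotients at most `2 ^ i` and one of them larger than `2 ^ i / 2`, or `i = 0`. -/
theorem dy_pt {n D M : ℕ} (N : ℕ) (A : ℝ) (k m : Fin n → ℕ) (f : Fin n → Fn D M)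
    (Y : Fin n → ℝ) (hn : 1 ≤ n) (p : (Fin n → ℝ) × ℝ)
    (hp : ∀ j, Cls A (k j) (m j) (f j) (p.1 j) p.2) :
    ∃ (i : ℕ) (σ : Finset (Fin n)), p ∈ Zs A k m f σ (2 ^ i) Y ∧
      Wt N A k m f Y p ≤ ENNReal.ofReal (2 ^ N) * ENNReal.ofReal (1 / 2 ^ (i * N)) := by
  classical
  have hom := dy_om_pos hn k m
  set u : Fin n → ℝ := fun j => |yc (f j) (p.1 j) p.2 - Y j| / 2 ^ k j with hu
  set v : ℝ := |∑ j, p.1 j ^ 2 - 1| / om k m with hv
  have hu0 : ∀ j, 0 ≤ u j := fun j => by positivity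
  have hv0 : 0 ≤ v := by positivity
  have hex : ∃ i : ℕ, (∀ j, u j ≤ 2 ^ i) ∧ v ≤ 2 ^ i := by
    obtain ⟨i, hi⟩ := pow_unbounded_of_one_lt (v + ∑ j, u j) (one_lt_two : (1 : ℝ) < 2)
    have hs : 0 ≤ ∑ j, u j := Finset.sum_nonneg fun j _ => hu0 j
    refine ⟨i, fun j => ?_, by linarith⟩
    have := Finset.single_le_sum (f := u) (fun j _ => hu0 j) (Finset.mem_univ j)
    linarith
  set i := Nat.find hex with hi
  obtain ⟨h1, h2⟩ := Nat.find_spec hex
  rw [← hi] at h1 h2
  refine ⟨i, Finset.univ.filter fun j => Core A (k j) (m j) (f j) (p.1 j), ⟨⟨hp, ?_, ?_⟩, ?_⟩, ?_⟩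
  · intro j; simp
  · have := (div_le_iff₀ hom).1 h2
    exact this
  · intro j
    have := (div_le_iff₀ (by positivity : (0 : ℝ) < 2 ^ k j)).1 (h1 j)
    exact this
  · have hW : Wt N A k m f Y p = ENNReal.ofReal ((∏ j, (1 / (1 + u j)) ^ N) *
        (1 / (1 + v)) ^ N) := by
      unfold Wt
      rw [if_pos hp]
    rw [hW, ← ENNReal.ofReal_mul (by positivity)]
    apply ENNReal.ofReal_le_ofReal
    have hfu : ∀ j, (1 / (1 + u j)) ^ N ≤ 1 := fun j => by
      apply pow_le_one₀ (by have := hu0 j; positivity)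
      rw [div_le_one (by have := hu0 j; positivity)]
      linarith [hu0 j]
    have hfv : (1 / (1 + v)) ^ N ≤ 1 := by
      apply pow_le_one₀ (by positivity)
      rw [div_le_one (by positivity)]
      linarith
    have hfu0 : ∀ j, 0 ≤ (1 / (1 + u j)) ^ N := fun j => by
      have := hu0 j; positivity
    have hfv0 : 0 ≤ (1 / (1 + v)) ^ N := by positivity
    have hprod : ∏ j, (1 / (1 + u j)) ^ N ≤ 1 := Finset.prod_le_one (fun j _ => hfu0 j) fun j _ => hfu j
    have hprod0 : 0 ≤ ∏ j, (1 / (1 + u j)) ^ N := Finset.prod_nonneg fun j _ => hfu0 j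
    rcases Nat.eq_zero_or_pos i with h0 | h0
    · rw [h0]
      simp only [Nat.zero_mul, pow_zero, div_one, mul_one]
      calc _ ≤ (1 : ℝ) * 1 := mul_le_mul hprod hfv hfv0 zero_le_one
        _ = 1 := by norm_num
        _ ≤ 2 ^ N := one_le_pow₀ (by norm_num)
    · have hmin := Nat.find_min hex (show i - 1 < Nat.find hex by omega)
      have hgen : ∀ x : ℝ, 2 ^ (i - 1) < x → (1 / (1 + x)) ^ N ≤ 2 ^ N * (1 / 2 ^ (i * N)) := by
        intro x hx
        have hx0 : (0 : ℝ) < 2 ^ (i - 1) := by positivity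
        have e1 : (2 : ℝ) ^ N * (1 / 2 ^ (i * N)) = (1 / 2 ^ (i - 1)) ^ N := by
          have e2 : (2 : ℝ) ^ (i * N) = (2 ^ (i - 1)) ^ N * 2 ^ N := by
            rw [← mul_pow, ← pow_succ, Nat.sub_add_cancel h0, pow_mul]
          rw [e2, one_div, one_div, mul_inv, inv_pow]
          field_simp
        rw [e1]
        have hx1 : 0 < x := hx0.trans hx
        apply pow_le_pow_left₀ (by positivity)
        apply one_div_le_one_div_of_le hx0
        linarith
      rw [not_and_or] at hmin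
      rcases hmin with hmin | hmin
      · obtain ⟨j, hj'⟩ := not_forall.1 hmin
        have hj := not_le.1 hj'
        have hle : ∏ j, (1 / (1 + u j)) ^ N ≤ (1 / (1 + u j)) ^ N := by
          rw [← Finset.mul_prod_erase _ _ (Finset.mem_univ j)]
          apply mul_le_of_le_one_right (hfu0 j)
          exact Finset.prod_le_one (fun j _ => hfu0 j) fun j _ => hfu j
        calc _ ≤ (1 / (1 + u j)) ^ N * 1 := mul_le_mul hle hfv hfv0 (hfu0 j)
          _ = (1 / (1 + u j)) ^ N := mul_one _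
          _ ≤ _ := hgen _ hj
      · calc _ ≤ 1 * (1 / (1 + v)) ^ N := mul_le_mul hprod le_rfl hfv0 zero_le_one
          _ = (1 / (1 + v)) ^ N := one_mul _
          _ ≤ _ := hgen _ (not_le.1 hmin)

/-- ROW DY. Dyadic decomposition of the weight. With `L = max(|yc-Y|/2^k, ||z|²-1|/om)` and `i` minimal
with `L ≤ 2^i`: `Wt ≤ (1+L)^{-N} ≤ 2^N 2^{-iN}` and the point is in `Zs (2^i)` for its own `σ`. -/
theorem dy (n D M : ℕ) (A : ℝ) (N : ℕ) : ∃ C : ℝ, 0 ≤ C ∧
    ∀ (k m : Fin n → ℕ) (f : Fin n → Fn D M) (Y : Fin n → ℝ), 1 ≤ n →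
      ∫⁻ q, Wt N A k m f Y q ≤ ENNReal.ofReal C *
        ∑' i : ℕ, ∑ σ : Finset (Fin n), ENNReal.ofReal (1 / 2 ^ (i * N)) *
          volume (Zs A k m f σ (2 ^ i) Y) := by
  classical
  refine ⟨2 ^ N, by positivity, fun k m f Y hn => ?_⟩
  have key : ∀ p, Wt N A k m f Y p ≤ ENNReal.ofReal (2 ^ N) * ∑' i : ℕ,
      ∑ σ : Finset (Fin n), (toMeasurable volume (Zs A k m f σ (2 ^ i) Y)).indicator
        (fun _ => ENNReal.ofReal (1 / 2 ^ (i * N))) p := by
    intro p
    by_cases hp : ∀ j, Cls A (k j) (m j) (f j) (p.1 j) p.2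
    · obtain ⟨i, σ, hZ, hW⟩ := dy_pt N A k m f Y hn p hp
      refine hW.trans ?_
      gcongr
      refine le_trans ?_ (ENNReal.le_tsum i)
      refine le_trans ?_ (Finset.single_le_sum (f := fun σ : Finset (Fin n) =>
        (toMeasurable volume (Zs A k m f σ (2 ^ i) Y)).indicator
        (fun _ => ENNReal.ofReal (1 / 2 ^ (i * N))) p) (fun _ _ => zero_le) (Finset.mem_univ σ))
      rw [indicator_of_mem (subset_toMeasurable _ _ hZ)]
    · have : Wt N A k m f Y p = 0 := by
        unfold Wt; rw [if_neg hp]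
      rw [this]; exact zero_le
  have hm : ∀ i : ℕ, Measurable fun p : (Fin n → ℝ) × ℝ =>
      ∑ σ : Finset (Fin n), (toMeasurable volume (Zs A k m f σ (2 ^ i) Y)).indicator
        (fun _ => ENNReal.ofReal (1 / 2 ^ (i * N))) p := by
    intro i
    apply Finset.measurable_sum
    intro σ _
    exact measurable_const.indicator (measurableSet_toMeasurable _ _)
  calc ∫⁻ q, Wt N A k m f Y q
      ≤ ∫⁻ q, ENNReal.ofReal (2 ^ N) * ∑' i : ℕ,
          ∑ σ : Finset (Fin n), (toMeasurable volume (Zs A k m f σ (2 ^ i) Y)).indicator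
          (fun _ => ENNReal.ofReal (1 / 2 ^ (i * N))) q := lintegral_mono key
    _ = ENNReal.ofReal (2 ^ N) * ∑' i : ℕ, ∫⁻ q,
          ∑ σ : Finset (Fin n), (toMeasurable volume (Zs A k m f σ (2 ^ i) Y)).indicator
          (fun _ => ENNReal.ofReal (1 / 2 ^ (i * N))) q := by
        rw [lintegral_const_mul' _ _ ENNReal.ofReal_ne_top, lintegral_tsum]
        exact fun i => (hm i).aemeasurable
    _ = _ := by
        congr 1
        apply tsum_congr
        intro i
        rw [lintegral_finsetSum]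
        · apply Finset.sum_congr rfl
          intro σ _
          rw [lintegral_indicator_const (measurableSet_toMeasurable _ _), measure_toMeasurable]
        · intro σ _
          exact measurable_const.indicator (measurableSet_toMeasurable _ _)

/-- ROW DYP. Its power: Hölder for the sums. -/
theorem dyp (n D M : ℕ) (A : ℝ) (N : ℕ) (hN : 1 ≤ N) (q : ℝ) (hq : 1 ≤ q) : ∃ C : ℝ, 0 ≤ C ∧
    ∀ (k m : Fin n → ℕ) (f : Fin n → Fn D M), 1 ≤ n →
      ∫⁻ Y : Fin n → ℝ, (∫⁻ q, Wt N A k m f Y q) ^ q ≤ ENNReal.ofReal C *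
        ∑' i : ℕ, ∑ σ : Finset (Fin n), ENNReal.ofReal (1 / 2 ^ (i * N)) *
          ∫⁻ Y : Fin n → ℝ, volume (Zs A k m f σ (2 ^ i) Y) ^ q := by
  classical
  obtain ⟨C, hC, h⟩ := dy n D M A N
  have hq0 : 0 ≤ q := by linarith
  refine ⟨C ^ q * (2 ^ (n + 1)) ^ (q - 1), by positivity, fun k m f hn => ?_⟩
  have hmV : ∀ (i : ℕ) (σ : Finset (Fin n)),
      Measurable fun Y : Fin n → ℝ => volume (Zs A k m f σ (2 ^ i) Y) := by
    intro i σ
    exact measurable_measure_prodMk_left (meas_Zs A k m f σ (2 ^ i))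
  have hpt : ∀ Y : Fin n → ℝ, (∫⁻ q, Wt N A k m f Y q) ^ q ≤
      ENNReal.ofReal (C ^ q * (2 ^ (n + 1)) ^ (q - 1)) *
        ∑' i : ℕ, ∑ σ : Finset (Fin n), ENNReal.ofReal (1 / 2 ^ (i * N)) *
          volume (Zs A k m f σ (2 ^ i) Y) ^ q := by
    intro Y
    have hW := h k m f Y hn
    have e : ∀ g : ℕ → Finset (Fin n) → ℝ≥0∞, ∑' i : ℕ, ∑ σ : Finset (Fin n), g i σ =
        ∑' x : ℕ × Finset (Fin n), g x.1 x.2 := by
      intro g
      rw [ENNReal.tsum_prod (f := g)]
      apply tsum_congr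
      intro i
      rw [tsum_fintype]
    rw [e (fun i σ => ENNReal.ofReal (1 / 2 ^ (i * N)) * volume (Zs A k m f σ (2 ^ i) Y))] at hW
    rw [e (fun i σ => ENNReal.ofReal (1 / 2 ^ (i * N)) * volume (Zs A k m f σ (2 ^ i) Y) ^ q)]
    calc (∫⁻ q, Wt N A k m f Y q) ^ q
        ≤ (ENNReal.ofReal C * ∑' x : ℕ × Finset (Fin n), ENNReal.ofReal (1 / 2 ^ (x.1 * N)) *
            volume (Zs A k m f x.2 (2 ^ x.1) Y)) ^ q := by gcongr
      _ = ENNReal.ofReal (C ^ q) * (∑' x : ℕ × Finset (Fin n),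
            ENNReal.ofReal (1 / 2 ^ (x.1 * N)) * volume (Zs A k m f x.2 (2 ^ x.1) Y)) ^ q := by
          rw [ENNReal.mul_rpow_of_nonneg _ _ hq0, ENNReal.ofReal_rpow_of_nonneg hC hq0]
      _ ≤ ENNReal.ofReal (C ^ q) * (ENNReal.ofReal ((2 ^ (n + 1)) ^ (q - 1)) *
            ∑' x : ℕ × Finset (Fin n), ENNReal.ofReal (1 / 2 ^ (x.1 * N)) *
              volume (Zs A k m f x.2 (2 ^ x.1) Y) ^ q) := by
          gcongr
          refine (dy_holder _ _ q hq).trans ?_
          gcongr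
          rw [← ENNReal.ofReal_rpow_of_nonneg (by positivity) (by linarith)]
          exact ENNReal.rpow_le_rpow (dy_sum n N hN) (by linarith)
      _ = _ := by
          rw [← mul_assoc, ← ENNReal.ofReal_mul (by positivity)]
  calc ∫⁻ Y : Fin n → ℝ, (∫⁻ q, Wt N A k m f Y q) ^ q
      ≤ ∫⁻ Y : Fin n → ℝ, ENNReal.ofReal (C ^ q * (2 ^ (n + 1)) ^ (q - 1)) *
        ∑' i : ℕ, ∑ σ : Finset (Fin n), ENNReal.ofReal (1 / 2 ^ (i * N)) *
          volume (Zs A k m f σ (2 ^ i) Y) ^ q := lintegral_mono hpt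
    _ = _ := by
        rw [lintegral_const_mul' _ _ ENNReal.ofReal_ne_top, lintegral_tsum]
        · congr 1
          apply tsum_congr
          intro i
          rw [lintegral_finsetSum]
          · apply Finset.sum_congr rfl
            intro σ _
            rw [lintegral_const_mul' _ _ ENNReal.ofReal_ne_top]
          · intro σ _
            exact ((hmV i σ).pow_const q).const_mul _
        · intro i
          apply Measurable.aemeasurable
          apply Finset.measurable_sum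
          intro σ _
          exact ((hmV i σ).pow_const q).const_mul _

end Pool.Agent.SPN
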