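import Pool.Agent.SPNH.Defs

/-!
A large derivative of order at least three gives a variation of the second derivative.
-/

namespace Pool.Agent.SPN

open MeasureTheory Set Pool.Agent.MP_6cbfb8_an
open scoped ENNReal Real

/-- The derivatives of `f` are differentiable. -/
theorem osc_der {D M : ℕ} (f : Fn D M) (l : ℕ) (hl : l ≤ D) (y : ℝ) :
    HasDerivAt (iteratedDeriv l f.f) (iteratedDeriv (l + 1) f.f y) y := by
  rw [iteratedDeriv_succ]
  refine (f.smooth.differentiable_iteratedDeriv l ?_ y).hasDerivAt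
  exact_mod_cast Nat.lt_succ_of_le hl

/-- A lower bound of the derivative. -/
theorem osc_mv (G G' : ℝ → ℝ) (s e m : ℝ) (hG : ∀ y, HasDerivAt G (G' y) y) (hse : s ≤ e)
    (h : ∀ y ∈ Icc s e, m ≤ G' y) : m * (e - s) ≤ G e - G s := by
  refine Convex.mul_sub_le_image_sub_of_le_deriv (convex_Icc s e)
    (fun y _ => (hG y).continuousAt.continuousWithinAt)
    (fun y _ => (hG y).differentiableAt.differentiableWithinAt) (fun y hy => ?_) s
    (left_mem_Icc.2 hse) e (right_mem_Icc.2 hse) hse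
  rw [(hG y).deriv]
  exact h y (interior_subset hy)

/-- The step for a nonnegative derivative. -/
theorem osc_pos (G G' G'' : ℝ → ℝ) (a b x h m : ℝ) (hG : ∀ y, HasDerivAt G (G' y) y)
    (hG' : ∀ y, HasDerivAt G' (G'' y) y)
    (hs : ∀ y z, a ≤ y → y ≤ z → z ≤ b → 0 ≤ G'' y * G'' z) (h0 : 0 ≤ h) (ha : a ≤ x - h)
    (hb : x + h ≤ b) (hm : m ≤ G' x) :
    ∃ s e, x - h ≤ s ∧ s ≤ e ∧ e ≤ x + h ∧ m * h ≤ G e - G s := by
  by_cases hp : ∃ y, a ≤ y ∧ y ≤ b ∧ 0 < G'' y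
  · obtain ⟨y0, h1, h2, h3⟩ := hp
    have hn : ∀ y, a ≤ y → y ≤ b → 0 ≤ G'' y := by
      intro y hy1 hy2
      rcases le_total y y0 with h4 | h4
      · exact nonneg_of_mul_nonneg_left (hs y y0 hy1 h4 h2) h3
      · exact nonneg_of_mul_nonneg_right (hs y0 y h1 h4 hy2) h3
    refine ⟨x, x + h, by linarith, by linarith, le_rfl, ?_⟩
    have := osc_mv G G' x (x + h) m hG (by linarith) fun y hy => ?_
    · rwa [add_sub_cancel_left] at this
    · have h5 := osc_mv G' G'' x y 0 hG' hy.1 fun v hv =>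
        hn v (by linarith [hv.1]) (by linarith [hv.2, hy.2])
      linarith
  · push Not at hp
    refine ⟨x - h, x, le_rfl, by linarith, by linarith, ?_⟩
    have := osc_mv G G' (x - h) x m hG (by linarith) fun y hy => ?_
    · rwa [sub_sub_cancel] at this
    · have h5 := osc_mv (fun v => -G' v) (fun v => -G'' v) y x 0 (fun v => (hG' v).neg) hy.2
        fun v hv => by
          have := hp v (by linarith [hv.1, hy.1]) (by linarith [hv.2])
          linarith
      simp only [zero_mul] at h5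
      linarith

/-- The step. -/
theorem osc_step (G G' G'' : ℝ → ℝ) (a b x h m : ℝ) (hG : ∀ y, HasDerivAt G (G' y) y)
    (hG' : ∀ y, HasDerivAt G' (G'' y) y)
    (hs : ∀ y z, a ≤ y → y ≤ z → z ≤ b → 0 ≤ G'' y * G'' z) (h0 : 0 ≤ h) (ha : a ≤ x - h)
    (hb : x + h ≤ b) (hm : m ≤ |G' x|) :
    ∃ s e, x - h ≤ s ∧ s ≤ e ∧ e ≤ x + h ∧ m * h ≤ |G e - G s| := by
  rcases le_total 0 (G' x) with h1 | h1
  · rw [abs_of_nonneg h1] at hm
    obtain ⟨s, e, h2, h3, h4, h5⟩ := osc_pos G G' G'' a b x h m hG hG' hs h0 ha hb hm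
    exact ⟨s, e, h2, h3, h4, h5.trans (le_abs_self _)⟩
  · rw [abs_of_nonpos h1] at hm
    obtain ⟨s, e, h2, h3, h4, h5⟩ := osc_pos (fun v => -G v) (fun v => -G' v) (fun v => -G'' v)
      a b x h m (fun v => (hG v).neg) (fun v => (hG' v).neg)
      (fun y z h2 h3 h4 => by simpa only [neg_mul_neg] using hs y z h2 h3 h4) h0 ha hb hm
    refine ⟨s, e, h2, h3, h4, h5.trans ?_⟩
    have : -G e - -G s = -(G e - G s) := by ring
    rw [this]
    exact neg_le_abs _

/-- ROW OSC. A large derivative gives a variation of the second derivative. -/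
theorem osc (D M : ℕ) (A : ℝ) (hD : 3 ≤ D) (hA : 1 ≤ A) : ∃ c : ℝ, 0 < c ∧
    ∀ (k : ℕ) (f : Fn D M) (z : ℝ), (∀ p ∈ f.F, ¬ (z - 5 / 2 ^ k < p ∧ p < z + 5 / 2 ^ k)) →
      (∃ i ∈ Finset.Icc 3 D, ∃ x : ℝ, |x - z| ≤ 4 / 2 ^ k ∧
        2 ^ (k * i) ≤ 8 * A * |iteratedDeriv i f.f x|) →
      ∃ a b : ℝ, z - 5 / 2 ^ k ≤ a ∧ a ≤ b ∧ b ≤ z + 5 / 2 ^ k ∧
        c * 4 ^ k ≤ |iteratedDeriv 2 f.f b - iteratedDeriv 2 f.f a| := by
  have hA0 : 0 < A := by linarith
  have hD0 : (3 : ℝ) ≤ D := by exact_mod_cast hD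
  have hD1 : (0 : ℝ) < D := by linarith
  refine ⟨1 / (8 * A) * (1 / (2 * D)) ^ D, by positivity, fun k f z hF hi => ?_⟩
  obtain ⟨i, hi, x, hx, h1⟩ := hi
  obtain ⟨i3, iD⟩ := Finset.mem_Icc.1 hi
  obtain ⟨N, hN⟩ : ∃ N : ℝ, N = 2 ^ k := ⟨_, rfl⟩
  have hN0 : 0 < N := by rw [hN]; positivity
  rw [← hN] at hF hx ⊢
  -- the signs
  have hs : ∀ l, 3 ≤ l → l ≤ D + 1 → ∀ y v, z - 5 / N ≤ y → y ≤ v → v ≤ z + 5 / N →
      0 ≤ iteratedDeriv l f.f y * iteratedDeriv l f.f v := fun l l3 lD y v h2 h3 h4 =>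
    f.sgn l l3 lD y v h3 fun c hc hcc => hF c hc ⟨by linarith [hcc.1], by linarith [hcc.2]⟩
  have hh0 : 0 ≤ 1 / (D * N) := by positivity
  have hDN : (D : ℝ) * (1 / (D * N)) = 1 / N := by field_simp
  -- the descent
  have key : ∀ j, j + 3 ≤ i → ∃ y, |y - z| ≤ 4 / N + j * (1 / (D * N)) ∧
      1 / (8 * A) * (1 / (2 * D)) ^ j * N ^ (i - j) ≤ |iteratedDeriv (i - j) f.f y| := by
    intro j
    induction j with
    | zero =>
      intro _
      refine ⟨x, by simpa using hx, ?_⟩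
      rw [pow_zero, mul_one, Nat.sub_zero, one_div_mul_eq_div, div_le_iff₀ (by positivity)]
      rw [pow_mul, ← hN] at h1
      linarith
    | succ j ih =>
      intro hj
      obtain ⟨y, hy, h2⟩ := ih (by omega)
      have hjD : ((j + 1 : ℕ) : ℝ) * (1 / (D * N)) ≤ 1 / N := by
        rw [← hDN]
        exact mul_le_mul_of_nonneg_right (by exact_mod_cast (by omega : j + 1 ≤ D)) hh0
      push_cast at hjD
      have hy' := abs_le.1 hy
      have e5 : 5 / N = 4 / N + 1 / N := by ring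
      obtain ⟨s, e, h3, h4, h5, h6⟩ := osc_step (iteratedDeriv (i - j - 1) f.f)
        (iteratedDeriv (i - j) f.f) (iteratedDeriv (i - j + 1) f.f) (z - 5 / N) (z + 5 / N) y
        (1 / (D * N)) _ (fun v => by
          have := osc_der f (i - j - 1) (by omega) v
          rwa [show i - j - 1 + 1 = i - j by omega] at this)
        (fun v => osc_der f (i - j) (by omega) v) (hs (i - j + 1) (by omega) (by omega)) hh0
        (by linarith [hy'.1]) (by linarith [hy'.2]) h2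
      have h7 : 1 / (8 * A) * (1 / (2 * D)) ^ j * N ^ (i - j) * (1 / (D * N)) =
          2 * (1 / (8 * A) * (1 / (2 * D)) ^ (j + 1) * N ^ (i - (j + 1))) := by
        rw [show i - j = (i - (j + 1)) + 1 by omega, pow_succ N, pow_succ (1 / (2 * (D : ℝ)))]
        field_simp
      rw [h7] at h6
      have h8 : |iteratedDeriv (i - j - 1) f.f e - iteratedDeriv (i - j - 1) f.f s| ≤
          |iteratedDeriv (i - j - 1) f.f e| + |iteratedDeriv (i - j - 1) f.f s| := abs_sub _ _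
      rw [show i - j - 1 = i - (j + 1) by omega] at h6 h8
      push_cast
      rcases le_total (|iteratedDeriv (i - (j + 1)) f.f e|) (|iteratedDeriv (i - (j + 1)) f.f s|)
        with h9 | h9
      · refine ⟨s, abs_le.2 ⟨by linarith [hy'.1], by linarith [hy'.2]⟩, by linarith⟩
      · refine ⟨e, abs_le.2 ⟨by linarith [hy'.1], by linarith [hy'.2]⟩, by linarith⟩
  obtain ⟨y, hy, h2⟩ := key (i - 3) (by omega)
  rw [show i - (i - 3) = 3 by omega] at h2
  have hjD : ((i - 3 : ℕ) : ℝ) * (1 / (D * N)) + 1 / (D * N) ≤ 1 / N := by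
    rw [← hDN]
    have : ((i - 3 : ℕ) : ℝ) + 1 ≤ D := by exact_mod_cast (by omega : i - 3 + 1 ≤ D)
    nlinarith
  have hy' := abs_le.1 hy
  have e5 : 5 / N = 4 / N + 1 / N := by ring
  obtain ⟨s, e, h3, h4, h5, h6⟩ := osc_step (iteratedDeriv 2 f.f)
    (iteratedDeriv 3 f.f) (iteratedDeriv 4 f.f) (z - 5 / N) (z + 5 / N) y
    (1 / (D * N)) _ (fun v => osc_der f 2 (by omega) v)
    (fun v => osc_der f 3 (by omega) v) (hs 4 (by omega) (by omega)) hh0
    (by linarith [hy'.1]) (by linarith [hy'.2]) h2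
  refine ⟨s, e, by linarith [hy'.1], h4, by linarith [hy'.2], le_trans ?_ h6⟩
  have h7 : (4 : ℝ) ^ k = N ^ 2 := by
    rw [hN, ← pow_mul, mul_comm k 2, pow_mul]
    norm_num
  have h8 : 1 / (8 * A) * (1 / (2 * D)) ^ (i - 3) * N ^ 3 * (1 / (D * N)) =
      2 * (1 / (8 * A) * (1 / (2 * D)) ^ (i - 2) * N ^ 2) := by
    rw [show i - 2 = (i - 3) + 1 by omega, pow_succ (1 / (2 * (D : ℝ)))]
    field_simp
  rw [h7, h8]
  have h9 : (1 / (2 * (D : ℝ))) ^ D ≤ (1 / (2 * D)) ^ (i - 2) :=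
    pow_le_pow_of_le_one (by positivity) (by
      rw [div_le_one (by positivity)]
      linarith) (by omega)
  have h10 : 1 / (8 * A) * (1 / (2 * (D : ℝ))) ^ D * N ^ 2 ≤
      1 / (8 * A) * (1 / (2 * D)) ^ (i - 2) * N ^ 2 :=
    mul_le_mul_of_nonneg_right (mul_le_mul_of_nonneg_left h9 (by positivity)) (by positivity)
  have h11 : 0 ≤ 1 / (8 * A) * (1 / (2 * (D : ℝ))) ^ (i - 2) * N ^ 2 := by positivity
  linarith

end Pool.Agent.SPN
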