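import Pool.Agent.SPNH.F1H1
import Pool.Agent.SPNH.OSC

/-!
The number of labels which are hit.
-/

namespace Pool.Agent.SPN

open MeasureTheory Set Pool.Agent.MP_6cbfb8_an
open Pool.Agent.SEP (B phi phat beta om tj Tb)
open scoped ENNReal Real

/-- A finite set of integers without chains of three far elements. -/
theorem f2_chain (T : Finset ℤ)
    (h : ∀ a ∈ T, ∀ b ∈ T, ∀ c ∈ T, ¬ (a + 41 ≤ b ∧ b + 41 ≤ c)) : T.card ≤ 82 := by
  classical
  rcases T.eq_empty_or_nonempty with h0 | h0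
  · rw [h0, Finset.card_empty]; omega
  set a := T.min' h0 with ha
  have haT : a ∈ T := T.min'_mem h0
  set T2 := T.filter (fun x => a + 41 ≤ x) with hT2
  have h1 : (T.filter fun x => ¬ a + 41 ≤ x).card ≤ 41 := by
    have hsub : (T.filter fun x => ¬ a + 41 ≤ x) ⊆ Finset.Icc a (a + 40) := by
      intro x hx
      rw [Finset.mem_filter] at hx
      rw [Finset.mem_Icc]
      exact ⟨T.min'_le x hx.1, by omega⟩
    refine (Finset.card_le_card hsub).trans ?_
    rw [Int.card_Icc]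
    omega
  have h2 : T2.card ≤ 41 := by
    rcases T2.eq_empty_or_nonempty with h3 | h3
    · rw [h3, Finset.card_empty]; omega
    set b := T2.min' h3 with hb
    have hbT : b ∈ T2 := T2.min'_mem h3
    have hbT' := (Finset.mem_filter.1 hbT)
    have hsub : T2 ⊆ Finset.Icc b (b + 40) := by
      intro x hx
      rw [Finset.mem_Icc]
      refine ⟨T2.min'_le x hx, ?_⟩
      by_contra hcon
      exact h a haT b hbT'.1 x (Finset.mem_filter.1 hx).1 ⟨hbT'.2, by omega⟩
    refine (Finset.card_le_card hsub).trans ?_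
    rw [Int.card_Icc]
    omega
  have h4 := Finset.card_filter_add_card_filter_not (s := T) (fun x => a + 41 ≤ x)
  have h5 : (T.filter fun x => a + 41 ≤ x).card ≤ 41 := h2
  omega

/-- Sets all of whose finite subsets are small. -/
theorem f2_fin {α : Type*} (S : Set α) (N : ℕ)
    (h : ∀ T : Finset α, (T : Set α) ⊆ S → T.card ≤ N) : S.Finite ∧ S.ncard ≤ N := by
  have hfin : S.Finite := by
    by_contra hcon
    obtain ⟨T, hT, hc⟩ := Set.Infinite.exists_subset_card_eq hcon (N + 1)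
    have := h T hT
    omega
  refine ⟨hfin, ?_⟩
  rw [Set.ncard_eq_toFinset_card _ hfin]
  exact h _ (by rw [Set.Finite.coe_toFinset])

/-- Integers given by points of a set of reals on which `P` is bounded and moves between the ends
of chains of three far points. -/
theorem f2_count (S : Set ℝ) (P : ℝ → ℝ) (W η R : ℝ) (hR : 0 < R) (hη : 0 < η)
    (hW : 0 ≤ W) (hP : ∀ x ∈ S, |P x| ≤ W)
    (hch : ∀ a ∈ S, ∀ b ∈ S, ∀ c ∈ S, a + 5 / R ≤ b → b + 5 / R ≤ c → η ≤ |P c - P a|) :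
    {c : ℤ | ∃ x ∈ S, ⌊8 * R * x⌋ = c}.Finite ∧
      ({c : ℤ | ∃ x ∈ S, ⌊8 * R * x⌋ = c}.ncard : ℝ) ≤ 82 * (2 * (W / η) + 4) := by
  classical
  set N : ℕ := 82 * (2 * ⌈W / η⌉₊ + 2) with hN
  have hN' : (N : ℝ) ≤ 82 * (2 * (W / η) + 4) := by
    rw [hN]
    push_cast
    have := Nat.ceil_lt_add_one (show 0 ≤ W / η by positivity)
    linarith
  have key := f2_fin {c : ℤ | ∃ x ∈ S, ⌊8 * R * x⌋ = c} N ?_
  · exact ⟨key.1, (by exact_mod_cast key.2 : _ ≤ (N : ℝ)).trans hN'⟩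
  intro T hT
  have hch' : ∀ c : ℤ, ∃ x : ℝ, c ∈ T → x ∈ S ∧ ⌊8 * R * x⌋ = c := by
    intro c
    by_cases hc : c ∈ T
    · obtain ⟨x, hx1, hx2⟩ := hT hc
      exact ⟨x, fun _ => ⟨hx1, hx2⟩⟩
    · exact ⟨0, fun h => absurd h hc⟩
  choose z hz using hch'
  set g : ℤ → ℤ := fun c => ⌊P (z c) / η⌋ with hg
  have himg : (T.image g).card ≤ 2 * ⌈W / η⌉₊ + 2 := by
    have hsub : T.image g ⊆ Finset.Icc (-(⌈W / η⌉₊ : ℤ) - 1) (⌈W / η⌉₊ : ℤ) := by
      intro v hv
      rw [Finset.mem_image] at hv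
      obtain ⟨c, hc, rfl⟩ := hv
      have h1 := abs_le.1 (hP _ (hz c hc).1)
      have h2 : P (z c) / η ≤ W / η := div_le_div_of_nonneg_right h1.2 hη.le
      have h3 : -(W / η) ≤ P (z c) / η := by
        rw [← neg_div]
        exact div_le_div_of_nonneg_right h1.1 hη.le
      have h4 : W / η ≤ (⌈W / η⌉₊ : ℝ) := Nat.le_ceil _
      rw [Finset.mem_Icc]
      constructor
      · have h5 : ((-(⌈W / η⌉₊ : ℤ) - 1 : ℤ) : ℝ) ≤ P (z c) / η := by
          push_cast
          linarith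
        exact Int.le_floor.2 h5
      · have h5 : (⌊P (z c) / η⌋ : ℝ) ≤ ((⌈W / η⌉₊ : ℤ) : ℝ) := by
          push_cast
          exact (Int.floor_le _).trans (h2.trans h4)
        exact_mod_cast h5
    refine (Finset.card_le_card hsub).trans ?_
    rw [Int.card_Icc]
    omega
  have hfib : ∀ v ∈ T.image g, (T.filter fun c => g c = v).card ≤ 82 := by
    intro v _
    refine f2_chain _ ?_
    intro a ha b hb c hc hcon
    rw [Finset.mem_filter] at ha hb hc
    obtain ⟨haS, haf⟩ := hz a ha.1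
    obtain ⟨hbS, hbf⟩ := hz b hb.1
    obtain ⟨hcS, hcf⟩ := hz c hc.1
    have hgap : ∀ a b : ℤ, ⌊8 * R * z a⌋ = a → ⌊8 * R * z b⌋ = b → a + 41 ≤ b →
        z a + 5 / R ≤ z b := by
      intro a b ha hb hab
      have h1 : 8 * R * z a < a + 1 := by
        have := Int.lt_floor_add_one (8 * R * z a)
        rwa [ha] at this
      have h2 : (b : ℝ) ≤ 8 * R * z b := by
        have := Int.floor_le (8 * R * z b)
        rwa [hb] at this
      have h3 : (a : ℝ) + 41 ≤ b := by exact_mod_cast hab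
      have h4 : z a + 5 / R = (8 * R * z a + 40) / (8 * R) := by field_simp; ring
      rw [h4, div_le_iff₀ (by positivity)]
      linarith
    have h1 := hch _ haS _ hbS _ hcS (hgap a b haf hbf hcon.1) (hgap b c hbf hcf hcon.2)
    have h2 : ⌊P (z c) / η⌋ = ⌊P (z a) / η⌋ := by
      have e1 : g c = v := hc.2
      have e2 : g a = v := ha.2
      rw [hg] at e1 e2
      exact e1.trans e2.symm
    have h3 := Int.abs_sub_lt_one_of_floor_eq_floor h2
    rw [← sub_div, abs_div, abs_of_pos hη, div_lt_one hη] at h3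
    linarith
  calc T.card ≤ 82 * (T.image g).card := Finset.card_le_mul_card_image T 82 hfib
    _ ≤ N := by rw [hN]; exact Nat.mul_le_mul_left 82 himg

/-- The function `f' - x f''`. -/
noncomputable def f2P {D M : ℕ} (f : Fn D M) (x : ℝ) : ℝ := deriv f.f x - x * iteratedDeriv 2 f.f x

theorem f2_hasDerivAt {D M : ℕ} (hD : 3 ≤ D) (f : Fn D M) (x : ℝ) :
    HasDerivAt (f2P f) (-(x * iteratedDeriv 3 f.f x)) x := by
  have h1 : HasDerivAt (deriv f.f) (iteratedDeriv 2 f.f x) x := by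
    have := fh_hasDerivAt f (show 1 ≤ D by omega) x
    rwa [iteratedDeriv_one] at this
  have h2 := fh_hasDerivAt f (show 2 ≤ D by omega) x
  have h3 := h1.sub ((hasDerivAt_id x).mul h2)
  refine h3.congr_deriv ?_
  simp only [id_eq]
  ring

/-- Equal counts: no break point in between. -/
theorem f2_nobreak (F : Finset ℝ) {a c : ℝ} (hac : a ≤ c)
    (hc : (F.filter (· < a)).card = (F.filter (· < c)).card) : ∀ p ∈ F, ¬ (a ≤ p ∧ p < c) := by
  intro p hp hcon
  have hsub : F.filter (· < a) ⊆ F.filter (· < c) := by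
    intro r hr
    rw [Finset.mem_filter] at hr ⊢
    exact ⟨hr.1, hr.2.trans_le hac⟩
  have heq := Finset.eq_of_subset_of_card_le hsub hc.ge
  have hx : p ∈ F.filter (· < c) := Finset.mem_filter.2 ⟨hp, hcon.2⟩
  rw [← heq, Finset.mem_filter] at hx
  exact absurd hx.2 (not_lt.2 hcon.1)

/-- A function with pairwise products nonnegative has a weak sign. -/
theorem f2_sign {g : ℝ → ℝ} {a c : ℝ}
    (h : ∀ x ∈ Icc a c, ∀ y ∈ Icc a c, 0 ≤ g x * g y) :
    ∃ e : ℝ, (e = 1 ∨ e = -1) ∧ ∀ x ∈ Icc a c, 0 ≤ e * g x := by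
  by_cases h1 : ∀ x ∈ Icc a c, 0 ≤ g x
  · exact ⟨1, Or.inl rfl, fun x hx => by rw [one_mul]; exact h1 x hx⟩
  · push Not at h1
    obtain ⟨x, hx, hx0⟩ := h1
    refine ⟨-1, Or.inr rfl, fun y hy => ?_⟩
    have := h x hx y hy
    by_contra hcon
    push Not at hcon
    nlinarith

/-- The variation of `f' - x f''` on an interval without break points which is away from the
origin. -/
theorem f2_var {D M : ℕ} (hD : 3 ≤ D) (f : Fn D M) (a c r0 e1 : ℝ) (he1 : e1 = 1 ∨ e1 = -1)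
    (hr : ∀ x ∈ Icc a c, r0 ≤ e1 * x) (hr0 : 0 ≤ r0)
    (hF : ∀ p ∈ f.F, ¬ (a ≤ p ∧ p < c)) (x y : ℝ) (hax : a ≤ x) (hxy : x ≤ y) (hyc : y ≤ c) :
    r0 * |iteratedDeriv 2 f.f y - iteratedDeriv 2 f.f x| ≤ |f2P f c - f2P f a| := by
  have hpair : ∀ x ∈ Icc a c, ∀ y ∈ Icc a c,
      0 ≤ iteratedDeriv 3 f.f x * iteratedDeriv 3 f.f y := by
    have hle : ∀ x ∈ Icc a c, ∀ y ∈ Icc a c, x ≤ y →
        0 ≤ iteratedDeriv 3 f.f x * iteratedDeriv 3 f.f y := by
      intro x hx y hy hxy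
      refine f.sgn 3 le_rfl (by omega) x y hxy fun p hp hcon => ?_
      exact hF p hp ⟨hx.1.trans hcon.1.le, hcon.2.trans_le hy.2⟩
    intro x hx y hy
    rcases le_total x y with h | h
    · exact hle x hx y hy h
    · rw [mul_comm]; exact hle y hy x hx h
  obtain ⟨e2, he2, hs⟩ := f2_sign hpair
  have hac : a ≤ c := hax.trans (hxy.trans hyc)
  have ha : a ∈ Icc a c := ⟨le_rfl, hac⟩
  have hc : c ∈ Icc a c := ⟨hac, le_rfl⟩
  have hx : x ∈ Icc a c := ⟨hax, hxy.trans hyc⟩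
  have hy : y ∈ Icc a c := ⟨hax.trans hxy, hyc⟩
  -- `e2 f''` is monotone
  have hmono : MonotoneOn (fun s => e2 * iteratedDeriv 2 f.f s) (Icc a c) := by
    have hd : ∀ s, HasDerivAt (fun s => e2 * iteratedDeriv 2 f.f s)
        (e2 * iteratedDeriv 3 f.f s) s := fun s => (fh_hasDerivAt f (by omega) s).const_mul e2
    refine monotoneOn_of_deriv_nonneg (convex_Icc _ _)
      (fun s _ => (hd s).continuousAt.continuousWithinAt)
      (fun s _ => (hd s).differentiableAt.differentiableWithinAt) fun s hs' => ?_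
    rw [(hd s).deriv]
    rw [interior_Icc] at hs'
    exact hs s ⟨hs'.1.le, hs'.2.le⟩
  -- `e1 e2 P + r0 e2 f''` is antitone
  have hanti : AntitoneOn (fun s => e1 * e2 * f2P f s + r0 * (e2 * iteratedDeriv 2 f.f s))
      (Icc a c) := by
    have hd : ∀ s, HasDerivAt (fun s => e1 * e2 * f2P f s + r0 * (e2 * iteratedDeriv 2 f.f s))
        (e1 * e2 * (-(s * iteratedDeriv 3 f.f s)) + r0 * (e2 * iteratedDeriv 3 f.f s)) s :=
      fun s => ((f2_hasDerivAt hD f s).const_mul (e1 * e2)).add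
        (((fh_hasDerivAt f (show 2 ≤ D by omega) s).const_mul e2).const_mul r0)
    refine antitoneOn_of_deriv_nonpos (convex_Icc _ _)
      (fun s _ => (hd s).continuousAt.continuousWithinAt)
      (fun s _ => (hd s).differentiableAt.differentiableWithinAt) fun s hs' => ?_
    rw [(hd s).deriv]
    rw [interior_Icc] at hs'
    have hsI : s ∈ Icc a c := ⟨hs'.1.le, hs'.2.le⟩
    have h1 := hs s hsI
    have h2 := hr s hsI
    have h3 : e1 * e2 * (-(s * iteratedDeriv 3 f.f s)) + r0 * (e2 * iteratedDeriv 3 f.f s) =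
        -((e1 * s - r0) * (e2 * iteratedDeriv 3 f.f s)) := by ring
    rw [h3]
    have := mul_nonneg (sub_nonneg.2 h2) h1
    linarith
  have h1 := hanti ha hc hac
  have h2 := hmono ha hx hax
  have h3 := hmono hx hy hxy
  have h4 := hmono hy hc hyc
  simp only at h1 h2 h3 h4
  have he2a : |e2| = 1 := by rcases he2 with h | h <;> rw [h] <;> simp
  have he1a : |e1| = 1 := by rcases he1 with h | h <;> rw [h] <;> simp
  have h5 : |iteratedDeriv 2 f.f y - iteratedDeriv 2 f.f x| =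
      e2 * iteratedDeriv 2 f.f y - e2 * iteratedDeriv 2 f.f x := by
    rw [← mul_sub] at *
    calc |iteratedDeriv 2 f.f y - iteratedDeriv 2 f.f x|
        = |e2| * |iteratedDeriv 2 f.f y - iteratedDeriv 2 f.f x| := by rw [he2a, one_mul]
      _ = |e2 * (iteratedDeriv 2 f.f y - iteratedDeriv 2 f.f x)| := (abs_mul _ _).symm
      _ = _ := abs_of_nonneg (by rw [mul_sub]; linarith)
  have h6 : |f2P f c - f2P f a| = |e1 * e2 * (f2P f a - f2P f c)| := by
    rw [abs_mul, abs_mul, he1a, he2a, one_mul, one_mul, abs_sub_comm]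
  rw [h5, h6]
  refine le_trans ?_ (le_abs_self _)
  have h7 : r0 * (e2 * iteratedDeriv 2 f.f y - e2 * iteratedDeriv 2 f.f x) ≤
      r0 * (e2 * iteratedDeriv 2 f.f c - e2 * iteratedDeriv 2 f.f a) :=
    mul_le_mul_of_nonneg_left (by linarith) hr0
  nlinarith

/-- The count in the label is at most `M`. -/
theorem f2_count_le {D M : ℕ} (f : Fn D M) (z : ℝ) : (f.F.filter (· < z)).card ≤ M :=
  (Finset.card_filter_le _ _).trans f.card

/-- Cells of a bounded set. -/
theorem f2_box (A R : ℝ) (hA : 1 ≤ A) (hR : 0 < R) (S : Set ℝ) (hS : ∀ x ∈ S, |x| * R ≤ A) :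
    {c : ℤ | ∃ x ∈ S, ⌊8 * R * x⌋ = c}.Finite ∧
      ({c : ℤ | ∃ x ∈ S, ⌊8 * R * x⌋ = c}.ncard : ℝ) ≤ 20 * A := by
  have hsub : {c : ℤ | ∃ x ∈ S, ⌊8 * R * x⌋ = c} ⊆
      ((Finset.Icc (-⌈8 * A⌉) ⌈8 * A⌉ : Finset ℤ) : Set ℤ) := by
    rintro c ⟨x, hx, rfl⟩
    have h0 : |8 * R * x| ≤ 8 * A := by
      rw [abs_mul, abs_of_pos (by positivity : 0 < 8 * R)]
      have := hS x hx
      nlinarith
    have h := abs_le.1 h0
    rw [Finset.coe_Icc, mem_Icc]
    constructor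
    · rw [Int.le_floor]
      push_cast
      have := Int.le_ceil (8 * A)
      linarith
    · have h1 : (⌊8 * R * x⌋ : ℝ) ≤ 8 * R * x := Int.floor_le _
      have h2 : (⌊8 * R * x⌋ : ℝ) ≤ ⌈8 * A⌉ := h1.trans (h.2.trans (Int.le_ceil _))
      exact_mod_cast h2
  refine ⟨(Finset.finite_toSet _).subset hsub, ?_⟩
  have h1 : {c : ℤ | ∃ x ∈ S, ⌊8 * R * x⌋ = c}.ncard ≤
      (Finset.Icc (-⌈8 * A⌉) ⌈8 * A⌉ : Finset ℤ).card := by
    rw [← Set.ncard_coe_finset]
    exact Set.ncard_le_ncard hsub (Finset.finite_toSet _)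
  have h2 : ((Finset.Icc (-⌈8 * A⌉) ⌈8 * A⌉ : Finset ℤ).card : ℝ) ≤ 20 * A := by
    rw [Int.card_Icc]
    have h3 : (0 : ℤ) ≤ ⌈8 * A⌉ := Int.ceil_nonneg (by linarith)
    have h4 : (((⌈8 * A⌉ + 1 - -⌈8 * A⌉).toNat : ℕ) : ℝ) = ((⌈8 * A⌉ + 1 - -⌈8 * A⌉ : ℤ) : ℝ) := by
      have := Int.toNat_of_nonneg (show (0 : ℤ) ≤ ⌈8 * A⌉ + 1 - -⌈8 * A⌉ by omega)
      exact_mod_cast this
    rw [h4]
    push_cast
    have := Int.ceil_lt_add_one (8 * A)
    linarith
  exact (by exact_mod_cast h1 : ({c : ℤ | ∃ x ∈ S, ⌊8 * R * x⌋ = c}.ncard : ℝ) ≤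
    (Finset.Icc (-⌈8 * A⌉) ⌈8 * A⌉ : Finset ℤ).card).trans h2

/-- The cells of the hit points of one group. -/
theorem f2_group (D M : ℕ) (A : ℝ) (hD : 3 ≤ D) (hA : 1 ≤ A) : ∃ C : ℝ, 1 ≤ C ∧
    ∀ (k m : ℕ) (f : Fn D M) (Y Λ : ℝ) (i : ℕ) (e : Bool), m ≤ k → 1 ≤ Λ →
      {c : ℤ | ∃ x ∈ {z : ℝ | (∃ w, Cls A k m f z w ∧ |yc f z w - Y| ≤ Λ * 2 ^ k) ∧
        Core A k m f z ∧ (f.F.filter (· < z)).card = i ∧ decide (0 < z) = e},
          ⌊8 * 2 ^ k * x⌋ = c}.Finite ∧
      ({c : ℤ | ∃ x ∈ {z : ℝ | (∃ w, Cls A k m f z w ∧ |yc f z w - Y| ≤ Λ * 2 ^ k) ∧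
        Core A k m f z ∧ (f.F.filter (· < z)).card = i ∧ decide (0 < z) = e},
          ⌊8 * 2 ^ k * x⌋ = c}.ncard : ℝ) ≤ C * Λ := by
  obtain ⟨c0, hc0, hosc⟩ := osc D M A hD hA
  have hA0 : 0 < A := by linarith
  refine ⟨20 * A + 82 * (2 * ((1 + A ^ 2) * A / c0) + 4), ?_, ?_⟩
  · have : 0 ≤ 82 * (2 * ((1 + A ^ 2) * A / c0) + 4) := by positivity
    linarith
  intro k m f Y Λ i e hmk hΛ
  have hΛ0 : 0 < Λ := by linarith
  set S : Set ℝ := {z : ℝ | (∃ w, Cls A k m f z w ∧ |yc f z w - Y| ≤ Λ * 2 ^ k) ∧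
        Core A k m f z ∧ (f.F.filter (· < z)).card = i ∧ decide (0 < z) = e} with hS
  have hpk : (0 : ℝ) < 2 ^ k := by positivity
  have hpm : (0 : ℝ) < 2 ^ m := by positivity
  rcases hmk.lt_or_eq with hlt | heq
  · -- the main case
    set r0 : ℝ := 1 / (A * 2 ^ m) with hr0
    have hr00 : 0 < r0 := by positivity
    set W : ℝ := (1 + A ^ 2) * Λ * (4 ^ k / 2 ^ m) with hW
    set η : ℝ := r0 * (c0 * 4 ^ k) with hη
    have hη0 : 0 < η := by positivity
    have hWη : W / η = (1 + A ^ 2) * A / c0 * Λ := by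
      rw [hW, hη, hr0]
      field_simp
    have hlow : ∀ x ∈ S, r0 ≤ |x| := by
      rintro x ⟨⟨w, hw, _⟩, _⟩
      have := hw.zlo hlt
      rw [hr0, div_le_iff₀ (by positivity)]
      nlinarith
    have h1 := f2_count S (fun x => f2P f x - Y) W η (2 ^ k) hpk hη0 (by positivity) ?_ ?_
    · refine ⟨h1.1, h1.2.trans ?_⟩
      rw [hWη]
      have e1 : 0 ≤ 20 * A * Λ := by positivity
      nlinarith
    · -- the bound on hit points
      rintro x ⟨⟨w, hw, hy⟩, _⟩
      have h2 := fh_up_two hD hw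
      have h3 := hw.zup
      have h4 : f2P f x - Y = (yc f x w - Y) - x * (iteratedDeriv 2 f.f x - 2 * w) := by
        unfold f2P yc
        ring
      rw [h4]
      refine (abs_sub _ _).trans ?_
      rw [abs_mul]
      have h5 : |x| ≤ A / 2 ^ m := by rw [le_div_iff₀ hpm]; exact h3
      have h44 : (2 : ℝ) ^ (k * 2) = 4 ^ k := by
        rw [mul_comm, pow_mul]; norm_num
      rw [h44] at h2
      have h6 : |x| * |iteratedDeriv 2 f.f x - 2 * w| ≤ A ^ 2 * (4 ^ k / 2 ^ m) := by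
        calc |x| * |iteratedDeriv 2 f.f x - 2 * w| ≤ A / 2 ^ m * (A * 4 ^ k) :=
              mul_le_mul h5 h2 (abs_nonneg _) (by positivity)
          _ = A ^ 2 * (4 ^ k / 2 ^ m) := by ring
      have h7 : (2 : ℝ) ^ k ≤ 4 ^ k / 2 ^ m := by
        rw [le_div_iff₀ hpm]
        have h8 : (2 : ℝ) ^ m ≤ 2 ^ k := pow_le_pow_right₀ (by norm_num) hmk
        have h9 : (4 : ℝ) ^ k = 2 ^ k * 2 ^ k := by rw [← mul_pow]; norm_num
        rw [h9]
        exact mul_le_mul_of_nonneg_left h8 hpk.le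
      have h10 : Λ * 2 ^ k ≤ Λ * (4 ^ k / 2 ^ m) := mul_le_mul_of_nonneg_left h7 hΛ0.le
      have h11 : A ^ 2 * (4 ^ k / 2 ^ m) ≤ A ^ 2 * Λ * (4 ^ k / 2 ^ m) := by
        refine mul_le_mul_of_nonneg_right ?_ (by positivity)
        exact le_mul_of_one_le_right (by positivity) hΛ
      rw [hW]
      nlinarith
    · -- chains of three far points
      intro a ha b hb c hc hab hbc
      have h5k : (0 : ℝ) < 5 / 2 ^ k := by positivity
      have hac : a ≤ c := by linarith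
      have hcount : (f.F.filter (· < a)).card = (f.F.filter (· < c)).card :=
        ha.2.2.1.trans hc.2.2.1.symm
      have hF := f2_nobreak f.F hac hcount
      have hsgn : (0 < a ↔ 0 < c) := by
        have h1 : decide (0 < a) = decide (0 < c) := ha.2.2.2.trans hc.2.2.2.symm
        rwa [decide_eq_decide] at h1
      have hal := hlow a ha
      have hcl := hlow c hc
      obtain ⟨a', b', h1, h2, h3, h4⟩ := hosc k f b (fun p hp hcon => hF p hp
        ⟨by linarith [hcon.1], by linarith [hcon.2]⟩) (by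
          rcases hb.2.1 with h0 | h0
          · omega
          · exact h0)
      have hvar : r0 * |iteratedDeriv 2 f.f b' - iteratedDeriv 2 f.f a'| ≤
          |f2P f c - f2P f a| := by
        by_cases hpos : 0 < a
        · have hcpos := hsgn.1 hpos
          rw [abs_of_pos hpos] at hal
          refine f2_var hD f a c r0 1 (Or.inl rfl) (fun x hx => ?_) hr00.le hF a' b'
            (by linarith) h2 (by linarith)
          rw [one_mul]
          exact hal.trans hx.1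
        · have hcneg : ¬ 0 < c := fun h0 => hpos (hsgn.2 h0)
          rw [not_lt] at hpos hcneg
          rw [abs_of_nonpos hcneg] at hcl
          refine f2_var hD f a c r0 (-1) (Or.inr rfl) (fun x hx => ?_) hr00.le hF a' b'
            (by linarith) h2 (by linarith)
          have := hx.2
          linarith
      have h5 : f2P f c - Y - (f2P f a - Y) = f2P f c - f2P f a := by ring
      rw [h5]
      refine le_trans ?_ hvar
      rw [hη]
      exact mul_le_mul_of_nonneg_left h4 hr00.le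
  · have h1 := f2_box A (2 ^ k) hA hpk S (by
      rintro x ⟨⟨w, hw, _⟩, _⟩
      have := hw.zup
      rwa [heq] at this)
    refine ⟨h1.1, h1.2.trans ?_⟩
    have e1 : 0 ≤ 82 * (2 * ((1 + A ^ 2) * A / c0) + 4) * Λ := by positivity
    nlinarith

/-- ROW F2. For given `Y` only `C Λ` labels are hit. -/
theorem f2 (D M : ℕ) (A : ℝ) (hD : 3 ≤ D) (hA : 1 ≤ A) : ∃ C : ℝ, 1 ≤ C ∧
    ∀ (k m : ℕ) (f : Fn D M) (Y Λ : ℝ), m ≤ k → 1 ≤ Λ →
      {l | ∃ z w : ℝ, Cls A k m f z w ∧ |yc f z w - Y| ≤ Λ * 2 ^ k ∧ lab1 A k m f z w = l}.Finite ∧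
      ({l | ∃ z w : ℝ, Cls A k m f z w ∧ |yc f z w - Y| ≤ Λ * 2 ^ k ∧
        lab1 A k m f z w = l}.ncard : ℝ) ≤ C * Λ := by
  classical
  obtain ⟨C1, hC1, hgrp⟩ := f2_group D M A hD hA
  refine ⟨(1 + (M + 1) * 2 * C1) * ((M + 1) * 8), ?_, ?_⟩
  · have hM : (0 : ℝ) ≤ M := Nat.cast_nonneg M
    have e1 : (1 : ℝ) ≤ 1 + (M + 1) * 2 * C1 := by
      have : 0 ≤ ((M : ℝ) + 1) * 2 * C1 := by positivity
      linarith
    nlinarith
  intro k m f Y Λ hmk hΛ
  have hΛ0 : 0 < Λ := by linarith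
  -- the groups
  set Sg : ℕ × Bool → Set ℤ := fun g => {c : ℤ | ∃ x ∈ {z : ℝ | (∃ w, Cls A k m f z w ∧
    |yc f z w - Y| ≤ Λ * 2 ^ k) ∧ Core A k m f z ∧ (f.F.filter (· < z)).card = g.1 ∧
      decide (0 < z) = g.2}, ⌊8 * 2 ^ k * x⌋ = c} with hSg
  have hfin : ∀ g, (Sg g).Finite := fun g => (hgrp k m f Y Λ g.1 g.2 hmk hΛ).1
  have hcard : ∀ g, ((hfin g).toFinset.card : ℝ) ≤ C1 * Λ := by
    intro g
    have := (hgrp k m f Y Λ g.1 g.2 hmk hΛ).2
    rwa [← Set.ncard_eq_toFinset_card (Sg g) (hfin g)]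
  set I : Finset (ℕ × Bool) := Finset.range (M + 1) ×ˢ (Finset.univ : Finset Bool) with hI
  set T : Finset ℤ := insert 0 (I.biUnion fun g => (hfin g).toFinset) with hT
  have hTcard : (T.card : ℝ) ≤ (1 + (M + 1) * 2 * C1) * Λ := by
    have h1 : T.card ≤ (I.biUnion fun g => (hfin g).toFinset).card + 1 :=
      Finset.card_insert_le _ _
    have h2 : (I.biUnion fun g => (hfin g).toFinset).card ≤ ∑ g ∈ I, (hfin g).toFinset.card :=
      Finset.card_biUnion_le
    have h3 : ((∑ g ∈ I, (hfin g).toFinset.card : ℕ) : ℝ) ≤ ∑ g ∈ I, C1 * Λ := by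
      push_cast
      exact Finset.sum_le_sum fun g _ => hcard g
    have h4 : (I.card : ℝ) = (M + 1) * 2 := by
      rw [hI, Finset.card_product, Finset.card_range, Finset.card_univ, Fintype.card_bool]
      push_cast
      ring
    rw [Finset.sum_const, nsmul_eq_mul, h4] at h3
    have h5 : (T.card : ℝ) ≤ ((∑ g ∈ I, (hfin g).toFinset.card : ℕ) : ℝ) + 1 := by
      exact_mod_cast h1.trans (by omega)
    nlinarith
  set W : Finset (ℤ × ℕ × Bool × Bool × Bool) :=
    T ×ˢ (Finset.range (M + 1) ×ˢ ((Finset.univ : Finset Bool) ×ˢ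
      ((Finset.univ : Finset Bool) ×ˢ (Finset.univ : Finset Bool)))) with hW
  have hsub : {l | ∃ z w : ℝ, Cls A k m f z w ∧ |yc f z w - Y| ≤ Λ * 2 ^ k ∧
        lab1 A k m f z w = l} ⊆ (W : Set (ℤ × ℕ × Bool × Bool × Bool)) := by
    rintro l ⟨z, w, h1, h2, rfl⟩
    rw [Finset.mem_coe, hW]
    unfold lab1
    simp only [Finset.mem_product, Finset.mem_univ, and_true, Finset.mem_range]
    constructor
    · rw [hT, Finset.mem_insert]
      by_cases hc : Core A k m f z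
      · rw [if_pos hc]
        right
        rw [Finset.mem_biUnion]
        refine ⟨((f.F.filter (· < z)).card, decide (0 < z)), ?_, ?_⟩
        · rw [hI, Finset.mem_product, Finset.mem_range]
          exact ⟨Nat.lt_succ_of_le (f2_count_le f z), Finset.mem_univ _⟩
        · rw [Set.Finite.mem_toFinset]
          exact ⟨z, ⟨⟨w, h1, h2⟩, hc, rfl, rfl⟩, rfl⟩
      · rw [if_neg hc]
        left
        rfl
    · exact Nat.lt_succ_of_le (f2_count_le f z)
  refine ⟨(Finset.finite_toSet _).subset hsub, ?_⟩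
  have h1 : {l | ∃ z w : ℝ, Cls A k m f z w ∧ |yc f z w - Y| ≤ Λ * 2 ^ k ∧
        lab1 A k m f z w = l}.ncard ≤ W.card := by
    rw [← Set.ncard_coe_finset]
    exact Set.ncard_le_ncard hsub (Finset.finite_toSet _)
  have h2 : (W.card : ℝ) = T.card * ((M + 1) * 8) := by
    rw [hW]
    simp only [Finset.card_product, Finset.card_range, Finset.card_univ, Fintype.card_bool]
    push_cast
    ring
  calc ({l | ∃ z w : ℝ, Cls A k m f z w ∧ |yc f z w - Y| ≤ Λ * 2 ^ k ∧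
        lab1 A k m f z w = l}.ncard : ℝ) ≤ W.card := by exact_mod_cast h1
    _ = T.card * ((M + 1) * 8) := h2
    _ ≤ ((1 + (M + 1) * 2 * C1) * Λ) * ((M + 1) * 8) :=
        mul_le_mul_of_nonneg_right hTcard (by positivity)
    _ = _ := by ring

end Pool.Agent.SPN
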