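import Pool.Agent.SPNH.AGB
import Pool.Agent.SPNH.MEAS
import Pool.Agent.SPNH.F2

/-!
Moments of the number of packets through a point.
-/

namespace Pool.Agent.SPN

open MeasureTheory Set Pool.Agent.MP_6cbfb8_an
open Pool.Agent.SEP (B phi phat beta om tj Tb)
open scoped ENNReal Real

/-- The central points. -/
noncomputable def ycv {n D M : ℕ} (f : Fin n → Fn D M) (p : (Fin n → ℝ) × ℝ) (j : Fin n) : ℝ :=
  yc (f j) (p.1 j) p.2

theorem ycv_meas {n D M : ℕ} (f : Fin n → Fn D M) : Measurable (ycv f) := by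
  refine measurable_pi_lambda _ fun j => ?_
  have h : Measurable fun p : (Fin n → ℝ) × ℝ => ((p.1 j, p.2) : ℝ × ℝ) := by fun_prop
  exact (mea_yc (f j)).comp h

theorem Zs_eq {n D M : ℕ} (A : ℝ) (k m : Fin n → ℕ) (f : Fin n → Fn D M) (σ : Finset (Fin n))
    (Λ : ℝ) (Y : Fin n → ℝ) :
    Zs A k m f σ Λ Y = nearY (Zf A k m f σ Λ) (ycv f) (fun j => Λ * 2 ^ k j) Y := rfl

/-- ROW GA. -/
theorem ga (n D M : ℕ) (A : ℝ) (k m : Fin n → ℕ) (f : Fin n → Fn D M) (σ : Finset (Fin n)) (Λ : ℝ)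
    (hΛ : 0 ≤ Λ) :
    ∫⁻ Y : Fin n → ℝ, volume (Zs A k m f σ Λ Y) =
      volume (Zf A k m f σ Λ) * ENNReal.ofReal (∏ j, (2 * Λ * 2 ^ k j)) := by
  simp only [Zs_eq]
  rw [ga_abs (meas_Zf A k m f σ Λ) (ycv_meas f) _ fun j => by positivity]
  simp only [mul_assoc]

theorem Pr_eq {n D M : ℕ} (A : ℝ) (k m : Fin n → ℕ) (f : Fin n → Fn D M) (σ : Finset (Fin n))
    (Λ : ℝ) : prsL (Zf A k m f σ Λ) (ycv f) (fun j => Λ * 2 ^ k j) (lab A k m f) =
      Pr A k m f σ Λ := by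
  ext q
  simp only [prsL, Pr, mem_ofPred_eq, ycv, mul_assoc]

/-- ROW GB. -/
theorem gb (n D M : ℕ) (hD : 3 ≤ D) (A : ℝ) (hA : 1 ≤ A) : ∃ C : ℝ, 1 ≤ C ∧
    ∀ (k m : Fin n → ℕ) (f : Fin n → Fn D M) (σ : Finset (Fin n)) (Λ : ℝ), (∀ j, m j ≤ k j) →
      1 ≤ Λ →
      ∫⁻ Y : Fin n → ℝ, volume (Zs A k m f σ Λ Y) ^ (2 : ℝ) ≤
        ENNReal.ofReal ((C * Λ) ^ n) * (volume (Pr A k m f σ Λ) *
          ENNReal.ofReal (∏ j, (2 * Λ * 2 ^ k j))) := by
  obtain ⟨C, hC1, hC⟩ := f2 D M A hD hA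
  refine ⟨C, hC1, fun k m f σ Λ hmk hΛ => ?_⟩
  have hCΛ : 0 ≤ C * Λ := by positivity
  set N : ℕ := ⌊(C * Λ) ^ n⌋₊ with hN
  have hkey := gb_abs (lab := lab A k m f) (fun l => meas_lab A k m f l) (meas_Zf A k m f σ Λ)
    (ycv_meas f) (fun j => Λ * 2 ^ k j) (fun j => by positivity) N (fun Y => by
      have hfin : ∀ j, {l | ∃ z w : ℝ, Cls A (k j) (m j) (f j) z w ∧
          |yc (f j) z w - Y j| ≤ Λ * 2 ^ k j ∧ lab1 A (k j) (m j) (f j) z w = l}.Finite :=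
        fun j => (hC (k j) (m j) (f j) (Y j) Λ (hmk j) hΛ).1
      refine ⟨Fintype.piFinset fun j => (hfin j).toFinset, ?_, fun p hp => ?_⟩
      · rw [Fintype.card_piFinset, hN]
        refine Nat.le_floor ?_
        push_cast
        calc ∏ j, ((hfin j).toFinset.card : ℝ) ≤ ∏ _j : Fin n, (C * Λ) := by
              refine Finset.prod_le_prod (fun j _ => by positivity) fun j _ => ?_
              rw [← Set.ncard_eq_toFinset_card _ (hfin j)]
              exact (hC (k j) (m j) (f j) (Y j) Λ (hmk j) hΛ).2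
          _ = (C * Λ) ^ n := by simp
      · rw [Fintype.mem_piFinset]
        intro j
        rw [Set.Finite.mem_toFinset]
        exact ⟨p.1 j, p.2, hp.1.1 j, hp.2 j, rfl⟩)
  rw [Pr_eq] at hkey
  simp only [Zs_eq]
  refine hkey.trans ?_
  have h1 : ((N : ℕ) : ℝ≥0∞) ≤ ENNReal.ofReal ((C * Λ) ^ n) := by
    rw [← ENNReal.ofReal_natCast]
    exact ENNReal.ofReal_le_ofReal (Nat.floor_le (by positivity))
  refine mul_le_mul' h1 (le_of_eq ?_)
  have h2 : ((volume : Measure ((Fin n → ℝ) × ℝ)).prod (volume : Measure ((Fin n → ℝ) × ℝ))) =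
    volume := rfl
  rw [h2]
  simp only [mul_assoc]

end Pool.Agent.SPN
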