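import Pool.Agent.SPNH.AV

/-!
Points with the same label and close packets: positions at a fixed time, and times of points of
cell type.
-/

namespace Pool.Agent.SPN

open MeasureTheory Set Pool.Agent.MP_6cbfb8_an
open Pool.Agent.SEP (B phi phat beta om tj Tb)
open scoped ENNReal Real

theorem fh_gd_of_ne {D M : ℕ} {f : Fn D M} {w : ℝ} {i : ℕ} {z : ℝ} (hi : i ≠ 2) :
    gd f w i z = iteratedDeriv i f.f z := by
  unfold gd
  rw [if_neg hi, sub_zero]

theorem fh_gd_two {D M : ℕ} {f : Fn D M} {w z : ℝ} :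
    gd f w 2 z = iteratedDeriv 2 f.f z - 2 * w := by
  unfold gd
  rw [if_pos rfl]

theorem fh_hasDerivAt {D M : ℕ} (f : Fn D M) {i : ℕ} (hi : i ≤ D) (x : ℝ) :
    HasDerivAt (iteratedDeriv i f.f) (iteratedDeriv (i + 1) f.f x) x := by
  rw [iteratedDeriv_succ]
  have h : Differentiable ℝ (iteratedDeriv i f.f) := by
    refine f.smooth.differentiable_iteratedDeriv i ?_
    exact_mod_cast Nat.lt_succ_of_le hi
  exact (h x).hasDerivAt

theorem fh_hasDerivAt_yc {D M : ℕ} (hD : 1 ≤ D) (f : Fn D M) (w x : ℝ) :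
    HasDerivAt (fun x => yc f x w) (iteratedDeriv 2 f.f x - 2 * w) x := by
  have h1 : HasDerivAt (deriv f.f) (iteratedDeriv 2 f.f x) x := by
    have := fh_hasDerivAt f hD x
    rwa [iteratedDeriv_one] at this
  have h2 : HasDerivAt (fun x : ℝ => 2 * w * x) (2 * w) x := by
    simpa using (hasDerivAt_id x).const_mul (2 * w)
  exact h1.sub h2

theorem fh_between {a b x : ℝ} {r : ℝ} (h : |b - a| ≤ r) (hx : x ∈ uIcc a b) : |x - a| ≤ r := by
  rw [mem_uIcc] at hx
  rw [abs_le] at h ⊢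
  rcases hx with hx | hx <;> constructor <;> linarith

/-- The second derivative moves by at most `A 4 ^ k` on a cell. -/
theorem fh_second {D M : ℕ} {A : ℝ} {k m : ℕ} {f : Fn D M} {z w : ℝ} (hD : 3 ≤ D)
    (h : Cls A k m f z w) {z' : ℝ} (hz : |z' - z| ≤ 1 / (8 * 2 ^ k)) :
    |iteratedDeriv 2 f.f z' - iteratedDeriv 2 f.f z| ≤ A * 2 ^ (k * 3) * |z' - z| := by
  have hd : ∀ x ∈ uIcc z z', HasDerivWithinAt (iteratedDeriv 2 f.f) (iteratedDeriv 3 f.f x)
      (uIcc z z') x := fun x _ => (fh_hasDerivAt f (by omega) x).hasDerivWithinAt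
  have hb : ∀ x ∈ uIcc z z', ‖iteratedDeriv 3 f.f x‖ ≤ A * 2 ^ (k * 3) := by
    intro x hx
    have := h.up 3 (Finset.mem_Icc.2 ⟨by omega, hD⟩) x (fh_between hz hx)
    rwa [fh_gd_of_ne (by omega)] at this
  have := (convex_uIcc z z').norm_image_sub_le_of_norm_hasDerivWithin_le hd hb
    left_mem_uIcc right_mem_uIcc
  simpa [Real.norm_eq_abs] using this

/-- The packet centre moves by at most `A 2 ^ k` on a cell. -/
theorem fh_first {D M : ℕ} {A : ℝ} {k m : ℕ} {f : Fn D M} {z w : ℝ} (hD : 3 ≤ D)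
    (h : Cls A k m f z w) {z' : ℝ} (hz : |z' - z| ≤ 1 / (8 * 2 ^ k)) :
    |yc f z' w - yc f z w| ≤ A * 2 ^ (k * 2) * |z' - z| := by
  have hd : ∀ x ∈ uIcc z z', HasDerivWithinAt (fun x => yc f x w)
      (iteratedDeriv 2 f.f x - 2 * w) (uIcc z z') x :=
    fun x _ => (fh_hasDerivAt_yc (by omega) f w x).hasDerivWithinAt
  have hb : ∀ x ∈ uIcc z z', ‖iteratedDeriv 2 f.f x - 2 * w‖ ≤ A * 2 ^ (k * 2) := by
    intro x hx
    have := h.up 2 (Finset.mem_Icc.2 ⟨le_rfl, by omega⟩) x (fh_between hz hx)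
    rwa [fh_gd_two] at this
  have := (convex_uIcc z z').norm_image_sub_le_of_norm_hasDerivWithin_le hd hb
    left_mem_uIcc right_mem_uIcc
  simpa [Real.norm_eq_abs] using this

/-- The upper bound of a class at the point itself, order two. -/
theorem fh_up_two {D M : ℕ} {A : ℝ} {k m : ℕ} {f : Fn D M} {z w : ℝ} (hD : 3 ≤ D)
    (h : Cls A k m f z w) : |iteratedDeriv 2 f.f z - 2 * w| ≤ A * 2 ^ (k * 2) := by
  have := h.up 2 (Finset.mem_Icc.2 ⟨le_rfl, by omega⟩) z (by rw [sub_self, abs_zero]; positivity)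
  rwa [fh_gd_two] at this

/-- Equal labels: the type. -/
theorem fh_core {D M : ℕ} {A : ℝ} {k m : ℕ} {f : Fn D M} {z w z' w' : ℝ}
    (h : lab1 A k m f z w = lab1 A k m f z' w') : Core A k m f z ↔ Core A k m f z' := by
  unfold lab1 at h
  simp only [Prod.mk.injEq, decide_eq_decide] at h
  exact h.2.2.2.2

/-- Equal labels: the sign of the second derivative. -/
theorem fh_sign {D M : ℕ} {A : ℝ} {k m : ℕ} {f : Fn D M} {z w z' w' : ℝ}
    (h : lab1 A k m f z w = lab1 A k m f z' w') :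
    0 < iteratedDeriv 2 f.f z - 2 * w ↔ 0 < iteratedDeriv 2 f.f z' - 2 * w' := by
  unfold lab1 at h
  simp only [Prod.mk.injEq, decide_eq_decide] at h
  exact h.2.2.2.1

/-- Equal labels: the count. -/
theorem fh_count {D M : ℕ} {A : ℝ} {k m : ℕ} {f : Fn D M} {z w z' w' : ℝ}
    (h : lab1 A k m f z w = lab1 A k m f z' w') :
    (f.F.filter (· < z)).card = (f.F.filter (· < z')).card := by
  unfold lab1 at h
  simp only [Prod.mk.injEq, decide_eq_decide] at h
  exact h.2.1

/-- Equal labels, cell type: the same cell. -/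
theorem fh_cell {D M : ℕ} {A : ℝ} {k m : ℕ} {f : Fn D M} {z w z' w' : ℝ}
    (h : lab1 A k m f z w = lab1 A k m f z' w') (hc : Core A k m f z) :
    |z' - z| ≤ 1 / (8 * 2 ^ k) := by
  have hc' := (fh_core h).1 hc
  unfold lab1 at h
  simp only [Prod.mk.injEq] at h
  have h1 := h.1
  rw [if_pos hc, if_pos hc'] at h1
  have h2 := Int.abs_sub_lt_one_of_floor_eq_floor h1
  have h3 : (8 : ℝ) * 2 ^ k * z - 8 * 2 ^ k * z' = -(8 * 2 ^ k * (z' - z)) := by ring
  rw [h3, abs_neg, abs_mul, abs_of_pos (by positivity : (0 : ℝ) < 8 * 2 ^ k)] at h2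
  rw [le_div_iff₀ (by positivity)]
  linarith

/-- ROW F1. At a fixed time two points with the same label and close packets are close. -/
theorem f1 (D M : ℕ) (A : ℝ) (hD : 3 ≤ D) (hA : 1 ≤ A) : ∃ C : ℝ, 1 ≤ C ∧
    ∀ (k m : ℕ) (f : Fn D M) (z z' w Λ : ℝ), m ≤ k → 1 ≤ Λ →
      Cls A k m f z w → Cls A k m f z' w → lab1 A k m f z w = lab1 A k m f z' w →
      |yc f z w - yc f z' w| ≤ 4 * Λ * 2 ^ k → |z' - z| ≤ C * Λ / 2 ^ k := by
  refine ⟨8 * A, by linarith, ?_⟩
  have key : ∀ (k m : ℕ) (f : Fn D M) (z z' w Λ : ℝ), m ≤ k → 1 ≤ Λ →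
      Cls A k m f z w → Cls A k m f z' w → lab1 A k m f z w = lab1 A k m f z' w →
      |yc f z w - yc f z' w| ≤ 4 * Λ * 2 ^ k → z ≤ z' → |z' - z| ≤ 8 * A * Λ / 2 ^ k := by
    intro k m f z z' w Λ hmk hΛ h h' hl hy hzz
    have hp1 : (0 : ℝ) < 2 ^ k := by positivity
    by_cases hc : Core A k m f z
    · refine (fh_cell hl hc).trans ?_
      rw [div_le_div_iff₀ (by positivity) hp1]
      have : 1 ≤ 8 * A * Λ := by nlinarith
      nlinarith
    · have hc' : ¬ Core A k m f z' := fun h0 => hc ((fh_core hl).2 h0)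
      have h1 := (noncell hD hA hmk h hc).2
      have h2 := (noncell hD hA hmk h' hc').2
      have hA0 : 0 < A := by linarith
      have hpp : (4 : ℝ) ^ k = 2 ^ k * 2 ^ k := by rw [← mul_pow]; norm_num
      have hlow : 4 ^ k / (2 * A) * (z' - z) ≤ |yc f z w - yc f z' w| := by
        by_cases hs : 0 < iteratedDeriv 2 f.f z - 2 * w
        · have hs' := (fh_sign hl).1 hs
          rw [abs_of_pos hs] at h1
          rw [abs_of_pos hs'] at h2
          have h3 := (avg hD f z z' w (4 ^ k / (2 * A))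
            (max (iteratedDeriv 2 f.f z - 2 * w) (iteratedDeriv 2 f.f z' - 2 * w)) hzz
            (fh_count hl) h1 (le_max_left _ _) h2 (le_max_right _ _)).1
          rw [abs_sub_comm]
          exact h3.trans (le_abs_self _)
        · have hs' : ¬ 0 < iteratedDeriv 2 f.f z' - 2 * w := fun h0 => hs ((fh_sign hl).2 h0)
          rw [not_lt] at hs hs'
          rw [abs_of_nonpos hs] at h1
          rw [abs_of_nonpos hs'] at h2
          have h3 := (avg hD f z z' w
            (min (iteratedDeriv 2 f.f z - 2 * w) (iteratedDeriv 2 f.f z' - 2 * w))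
            (-(4 ^ k / (2 * A))) hzz (fh_count hl) (min_le_left _ _)
            (by linarith) (min_le_right _ _) (by linarith)).2
          calc 4 ^ k / (2 * A) * (z' - z) = -(-(4 ^ k / (2 * A)) * (z' - z)) := by ring
            _ ≤ -(yc f z' w - yc f z w) := by linarith
            _ = yc f z w - yc f z' w := by ring
            _ ≤ |yc f z w - yc f z' w| := le_abs_self _
      have h5 := hlow.trans hy
      rw [abs_of_nonneg (by linarith)]
      rw [div_mul_eq_mul_div, div_le_iff₀ (by positivity), hpp] at h5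
      rw [le_div_iff₀ hp1]
      have h6 : 2 ^ k * ((z' - z) * 2 ^ k) ≤ 2 ^ k * (8 * A * Λ) := by
        calc 2 ^ k * ((z' - z) * 2 ^ k) = 2 ^ k * 2 ^ k * (z' - z) := by ring
          _ ≤ 4 * Λ * 2 ^ k * (2 * A) := h5
          _ = 2 ^ k * (8 * A * Λ) := by ring
      exact le_of_mul_le_mul_left h6 hp1
  intro k m f z z' w Λ hmk hΛ h h' hl hy
  rcases le_total z z' with hz | hz
  · exact key k m f z z' w Λ hmk hΛ h h' hl hy hz
  · rw [abs_sub_comm]
    exact key k m f z' z w Λ hmk hΛ h' h hl.symm (by rw [abs_sub_comm]; exact hy) hz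

/-- ROW H1. The times of two points of cell type with the same label and close packets. -/
theorem h1 (D M : ℕ) (A : ℝ) (hD : 3 ≤ D) (hA : 1 ≤ A) : ∃ C : ℝ, 1 ≤ C ∧
    ∀ (k m : ℕ) (f : Fn D M) (z w z' w' Λ : ℝ), m ≤ k → 1 ≤ Λ →
      Cls A k m f z w → Cls A k m f z' w' → lab1 A k m f z w = lab1 A k m f z' w' →
      |yc f z w - yc f z' w'| ≤ 2 * Λ * 2 ^ k → Core A k m f z →
      |w' - w| ≤ C * Λ * 2 ^ (m + k) := by
  have hA0 : 0 < A := by linarith
  refine ⟨2 * A * (1 + A), by nlinarith, ?_⟩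
  intro k m f z w z' w' Λ hmk hΛ h h' hl hy hc
  have hcell := fh_cell hl hc
  have hΛ0 : 0 < Λ := by linarith
  have hpk : (0 : ℝ) < 2 ^ k := by positivity
  rcases hmk.lt_or_eq with hlt | heq
  · have h1 := fh_first hD h' (z' := z) (by rw [abs_sub_comm]; exact hcell)
    have h1' : |yc f z w' - yc f z' w'| ≤ A * 2 ^ k := by
      refine h1.trans ?_
      calc A * 2 ^ (k * 2) * |z - z'| ≤ A * 2 ^ (k * 2) * (1 / (8 * 2 ^ k)) := by
            refine mul_le_mul_of_nonneg_left ?_ (by positivity)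
            rw [abs_sub_comm]; exact hcell
        _ = A * 2 ^ k / 8 := by rw [pow_mul]; field_simp
        _ ≤ A * 2 ^ k := by
            have : 0 < A * 2 ^ k := by positivity
            linarith
    have h2 : |yc f z w - yc f z w'| ≤ 2 * Λ * 2 ^ k + A * 2 ^ k := by
      calc |yc f z w - yc f z w'| = |(yc f z w - yc f z' w') - (yc f z w' - yc f z' w')| := by
            congr 1; ring
        _ ≤ |yc f z w - yc f z' w'| + |yc f z w' - yc f z' w'| := abs_sub _ _
        _ ≤ _ := add_le_add hy h1'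
    have h3 : yc f z w - yc f z w' = 2 * z * (w' - w) := by unfold yc; ring
    rw [h3, abs_mul, abs_mul, abs_two] at h2
    have h4 := h.zlo hlt
    have hp : (0 : ℝ) < 2 ^ m := by positivity
    calc |w' - w| = 1 * |w' - w| := (one_mul _).symm
      _ ≤ A * (|z| * 2 ^ m) * |w' - w| := mul_le_mul_of_nonneg_right h4 (abs_nonneg _)
      _ = A * 2 ^ m / 2 * (2 * |z| * |w' - w|) := by ring
      _ ≤ A * 2 ^ m / 2 * (2 * Λ * 2 ^ k + A * 2 ^ k) :=
          mul_le_mul_of_nonneg_left h2 (by positivity)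
      _ = (A * Λ + A * A / 2) * (2 ^ m * 2 ^ k) := by ring
      _ ≤ (2 * A * (1 + A) * Λ) * (2 ^ m * 2 ^ k) := by
          refine mul_le_mul_of_nonneg_right ?_ (by positivity)
          have e1 : A * A ≤ A * A * Λ := le_mul_of_one_le_right (by positivity) hΛ
          have e2 : 0 ≤ A * Λ := by positivity
          nlinarith
      _ = 2 * A * (1 + A) * Λ * 2 ^ (m + k) := by rw [pow_add]
  · subst heq
    have h1 := fh_second hD h hcell
    have h1' : |iteratedDeriv 2 f.f z' - iteratedDeriv 2 f.f z| ≤ A * 2 ^ (m * 2) := by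
      refine h1.trans ?_
      calc A * 2 ^ (m * 3) * |z' - z| ≤ A * 2 ^ (m * 3) * (1 / (8 * 2 ^ m)) :=
            mul_le_mul_of_nonneg_left hcell (by positivity)
        _ = A * 2 ^ (m * 2) / 8 := by rw [pow_mul, pow_mul]; field_simp
        _ ≤ A * 2 ^ (m * 2) := by
            have : 0 < A * 2 ^ (m * 2) := by positivity
            linarith
    have h2 := fh_up_two hD h
    have h3 := fh_up_two hD h'
    have h4 : 2 * |w' - w| ≤ 3 * (A * 2 ^ (m * 2)) := by
      calc 2 * |w' - w| = |2 * (w' - w)| := by rw [abs_mul, abs_two]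
        _ = |(iteratedDeriv 2 f.f z' - iteratedDeriv 2 f.f z) +
              (iteratedDeriv 2 f.f z - 2 * w) - (iteratedDeriv 2 f.f z' - 2 * w')| := by
            congr 1; ring
        _ ≤ |(iteratedDeriv 2 f.f z' - iteratedDeriv 2 f.f z) +
              (iteratedDeriv 2 f.f z - 2 * w)| + |iteratedDeriv 2 f.f z' - 2 * w'| :=
            abs_sub _ _
        _ ≤ |iteratedDeriv 2 f.f z' - iteratedDeriv 2 f.f z| +
              |iteratedDeriv 2 f.f z - 2 * w| + |iteratedDeriv 2 f.f z' - 2 * w'| := by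
            gcongr
            exact abs_add_le _ _
        _ ≤ A * 2 ^ (m * 2) + A * 2 ^ (m * 2) + A * 2 ^ (m * 2) := by gcongr
        _ = _ := by ring
    have h5 : (2 : ℝ) ^ (m + m) = 2 ^ (m * 2) := by congr 1; ring
    rw [h5]
    have hP : (0 : ℝ) < 2 ^ (m * 2) := by positivity
    have e1 : 2 * A * 2 ^ (m * 2) ≤ (2 * A * (1 + A) * Λ) * 2 ^ (m * 2) := by
      refine mul_le_mul_of_nonneg_right ?_ hP.le
      have e3 : 2 * A * (1 + A) ≤ 2 * A * (1 + A) * Λ := le_mul_of_one_le_right (by positivity) hΛ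
      nlinarith
    have e2 : 0 ≤ A * 2 ^ (m * 2) := by positivity
    nlinarith

end Pool.Agent.SPN
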