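import Pool.Agent.SPNH.HB
import Pool.Agent.SPNH.F1H1
import Pool.Agent.SPNH.F2
import Pool.Agent.SPNH.MEAS

/-!
# Row SUPZ: the supremum of the volume of the packets which pass close to a point.
-/

namespace Pool.Agent.SPN

open MeasureTheory Set Pool.Agent.MP_6cbfb8_an
open Pool.Agent.SEP (B phi phat beta om tj Tb)
open scoped ENNReal Real

/-- Volume of a measurable set with small slices over an interval. -/
theorem supz_vol {n : ℕ} (S : Set ((Fin n → ℝ) × ℝ)) (hS : MeasurableSet S) (w0 R : ℝ) (_hR : 0 ≤ R)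
    (r : Fin n → ℝ) (hr : ∀ j, 0 ≤ r j) (h1 : ∀ p ∈ S, |p.2 - w0| ≤ R)
    (h2 : ∀ z z' w, (z, w) ∈ S → (z', w) ∈ S → ∀ j, |z' j - z j| ≤ r j) :
    volume S ≤ ENNReal.ofReal ((∏ j, (2 * r j)) * (2 * R)) := by
  have hslice : ∀ w : ℝ, volume ((fun z : Fin n → ℝ => (z, w)) ⁻¹' S) ≤
      (Icc (w0 - R) (w0 + R)).indicator (fun _ => ENNReal.ofReal (∏ j, (2 * r j))) w := by
    intro w
    rcases ((fun z : Fin n → ℝ => (z, w)) ⁻¹' S).eq_empty_or_nonempty with h0 | ⟨z0, hz0⟩
    · rw [h0, measure_empty]; exact zero_le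
    · have hw : w ∈ Icc (w0 - R) (w0 + R) := by
        have := abs_le.mp (h1 _ hz0)
        exact ⟨by linarith [this.1], by linarith [this.2]⟩
      rw [indicator_of_mem hw]
      have hsub : (fun z : Fin n → ℝ => (z, w)) ⁻¹' S ⊆
          Set.pi univ fun j => Icc (z0 j - r j) (z0 j + r j) := by
        intro z hz j _
        have := abs_le.mp (h2 z0 z w hz0 hz j)
        exact ⟨by linarith [this.1], by linarith [this.2]⟩
      calc volume ((fun z : Fin n → ℝ => (z, w)) ⁻¹' S) ≤ volume (Set.pi univ fun j =>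
            Icc (z0 j - r j) (z0 j + r j)) := measure_mono hsub
        _ = ∏ j, ENNReal.ofReal (2 * r j) := by
            rw [volume_pi_pi]
            refine Finset.prod_congr rfl fun j _ => ?_
            rw [Real.volume_Icc]
            congr 1
            ring
        _ = _ := by
            rw [ENNReal.ofReal_prod_of_nonneg]
            intro j _
            have := hr j
            positivity
  rw [Measure.volume_eq_prod, Measure.prod_apply_symm hS]
  have hP : 0 ≤ ∏ j, (2 * r j) := Finset.prod_nonneg fun j _ => by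
    have := hr j
    positivity
  calc ∫⁻ w, volume ((fun z : Fin n → ℝ => (z, w)) ⁻¹' S) ≤
        ∫⁻ w, (Icc (w0 - R) (w0 + R)).indicator (fun _ => ENNReal.ofReal (∏ j, (2 * r j))) w :=
        lintegral_mono hslice
    _ = ENNReal.ofReal (∏ j, (2 * r j)) * volume (Icc (w0 - R) (w0 + R)) :=
        lintegral_indicator_const measurableSet_Icc _
    _ = ENNReal.ofReal ((∏ j, (2 * r j)) * (2 * R)) := by
        rw [Real.volume_Icc, ENNReal.ofReal_mul hP]
        congr 2
        ring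

/-- ROW SUPZ. `vol(Zs Y) ≤ C Λ^(2n+1) ∏2^{-k_j} 4^{k_J}`: at most `(CΛ)^n` labels (F2); for
one label, the `w` lie in an interval of length `CΛ4^{k_J}` (HB for the coordinate `J`), and for each
`w` the `z` have volume `≤ ∏ CΛ2^{-k_j}` (F1). -/
theorem supz (n D M : ℕ) (hD : 3 ≤ D) (A : ℝ) (hA : 1 ≤ A) : ∃ C : ℝ, 1 ≤ C ∧
    ∀ (k m : Fin n → ℕ) (f : Fin n → Fn D M) (σ : Finset (Fin n)) (Λ : ℝ) (J : Fin n)
      (Y : Fin n → ℝ), (∀ j, m j ≤ k j) → 1 ≤ Λ →
      volume (Zs A k m f σ Λ Y) ≤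
        ENNReal.ofReal (C * Λ ^ (2 * n + 1) * ((∏ j, (1 / 2 ^ k j : ℝ)) * 4 ^ k J)) := by
  obtain ⟨C1, hC1, h1⟩ := hb D M A hD hA
  obtain ⟨C2, hC2, h2⟩ := f2 D M A hD hA
  obtain ⟨C3, hC3, h3⟩ := f1 D M A hD hA
  have hC1' : 0 ≤ C1 := zero_le_one.trans hC1
  have hC2' : 0 ≤ C2 := zero_le_one.trans hC2
  have hC3' : 0 ≤ C3 := zero_le_one.trans hC3
  have hone : 1 ≤ C2 ^ n * (2 * C3) ^ n * (2 * C1) :=
    one_le_mul_of_one_le_of_one_le
      (one_le_mul_of_one_le_of_one_le (one_le_pow₀ hC2)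
        (one_le_pow₀ (one_le_mul_of_one_le_of_one_le one_le_two hC3)))
      (one_le_mul_of_one_le_of_one_le one_le_two hC1)
  refine ⟨C2 ^ n * (2 * C3) ^ n * (2 * C1), hone, fun k m f σ Λ J Y hm hΛ => ?_⟩
  have hΛ0 : 0 ≤ Λ := zero_le_one.trans hΛ
  have hS := fun j => h2 (k j) (m j) (f j) (Y j) Λ (hm j) hΛ
  classical
  set W : Finset (Fin n → ℤ × ℕ × Bool × Bool × Bool) :=
    Fintype.piFinset fun j => (hS j).1.toFinset with hW
  have hcard : (W.card : ℝ) ≤ (C2 * Λ) ^ n := by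
    rw [hW, Fintype.card_piFinset, Nat.cast_prod]
    calc ∏ j, (((hS j).1.toFinset.card : ℕ) : ℝ) ≤ ∏ _j : Fin n, (C2 * Λ) := by
          refine Finset.prod_le_prod (fun j _ => Nat.cast_nonneg _) fun j _ => ?_
          have := (hS j).2
          rwa [Set.ncard_eq_toFinset_card _ (hS j).1] at this
      _ = _ := by rw [Finset.prod_const, Finset.card_univ, Fintype.card_fin]
  have hmZs : MeasurableSet (Zs A k m f σ Λ Y) := by
    have := meas_Zs A k m f σ Λ
    exact (measurable_prodMk_left (x := Y)) this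
  have hcov : Zs A k m f σ Λ Y ⊆ ⋃ l ∈ W, (Zs A k m f σ Λ Y ∩ {p | lab A k m f p = l}) := by
    intro p hp
    refine mem_iUnion₂.mpr ⟨lab A k m f p, ?_, hp, rfl⟩
    rw [hW, Fintype.mem_piFinset]
    intro j
    rw [Set.Finite.mem_toFinset]
    exact ⟨p.1 j, p.2, hp.1.1 j, hp.2 j, rfl⟩
  set V : ℝ := (∏ j, (2 * (C3 * Λ / 2 ^ k j))) * (2 * (C1 * Λ * 4 ^ k J)) with hV
  have hV0 : 0 ≤ V := by
    have : 0 ≤ ∏ j, (2 * (C3 * Λ / 2 ^ k j)) := Finset.prod_nonneg fun j _ => by positivity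
    positivity
  have hpc : ∀ l ∈ W, volume (Zs A k m f σ Λ Y ∩ {p | lab A k m f p = l}) ≤
      ENNReal.ofReal V := by
    intro l _
    rcases (Zs A k m f σ Λ Y ∩ {p | lab A k m f p = l}).eq_empty_or_nonempty with h0 | ⟨p0, hp0⟩
    · rw [h0, measure_empty]; exact zero_le
    · have hy : ∀ p ∈ Zs A k m f σ Λ Y, ∀ p' ∈ Zs A k m f σ Λ Y, ∀ j,
          |yc (f j) (p.1 j) p.2 - yc (f j) (p'.1 j) p'.2| ≤ 2 * Λ * 2 ^ k j := by
        intro p hp p' hp' j
        have e1 := abs_le.mp (hp.2 j)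
        have e2 := abs_le.mp (hp'.2 j)
        rw [abs_le]
        constructor <;> linarith [e1.1, e1.2, e2.1, e2.2]
      refine supz_vol _ (hmZs.inter (meas_lab A k m f l)) p0.2 (C1 * Λ * 4 ^ k J) (by positivity)
        (fun j => C3 * Λ / 2 ^ k j) (fun j => by positivity) ?_ ?_
      · intro p hp
        have hl : lab A k m f p0 = lab A k m f p := by rw [hp0.2, hp.2]
        exact h1 (k J) (m J) (f J) (p0.1 J) p0.2 (p.1 J) p.2 Λ (hm J) hΛ (hp0.1.1.1 J)
          (hp.1.1.1 J) (congrFun hl J) (hy _ hp0.1 _ hp.1 J)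
      · intro z z' w hz hz' j
        have hl : lab A k m f (z, w) = lab A k m f (z', w) := by rw [hz.2, hz'.2]
        refine h3 (k j) (m j) (f j) (z j) (z' j) w Λ (hm j) hΛ (hz.1.1.1 j)
          (hz'.1.1.1 j) (congrFun hl j) ((hy _ hz.1 _ hz'.1 j).trans ?_)
        have : 0 ≤ Λ * 2 ^ k j := by positivity
        linarith
  calc volume (Zs A k m f σ Λ Y)
      ≤ volume (⋃ l ∈ W, (Zs A k m f σ Λ Y ∩ {p | lab A k m f p = l})) := measure_mono hcov
    _ ≤ ∑ l ∈ W, volume (Zs A k m f σ Λ Y ∩ {p | lab A k m f p = l}) :=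
        measure_biUnion_finset_le _ _
    _ ≤ ∑ _l ∈ W, ENNReal.ofReal V := Finset.sum_le_sum hpc
    _ = ENNReal.ofReal (W.card * V) := by
        rw [Finset.sum_const, nsmul_eq_mul, ENNReal.ofReal_mul (Nat.cast_nonneg _),
          ENNReal.ofReal_natCast]
    _ ≤ _ := by
        refine ENNReal.ofReal_le_ofReal ?_
        calc (W.card : ℝ) * V ≤ (C2 * Λ) ^ n * V := by gcongr
          _ = _ := by
              have e : ∏ j, (2 * (C3 * Λ / 2 ^ k j)) =
                  (2 * C3) ^ n * Λ ^ n * ∏ j, (1 / 2 ^ k j : ℝ) := by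
                calc ∏ j, (2 * (C3 * Λ / 2 ^ k j)) = ∏ j, ((2 * C3 * Λ) * (1 / 2 ^ k j : ℝ)) :=
                      Finset.prod_congr rfl fun j _ => by ring
                  _ = (2 * C3 * Λ) ^ n * ∏ j, (1 / 2 ^ k j : ℝ) := by
                      rw [Finset.prod_mul_distrib, Finset.prod_const, Finset.card_univ,
                        Fintype.card_fin]
                  _ = _ := by rw [mul_pow (2 * C3) Λ n]
              rw [hV, e, mul_pow]
              have e2 : Λ ^ (2 * n + 1) = Λ ^ n * Λ ^ n * Λ := by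
                rw [← pow_add, ← pow_succ]
                congr 1
                ring
              rw [e2]
              ring

end Pool.Agent.SPN
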