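import Pool.Agent.GNP.P1h
import Pool.Agent.SPNH.Defs

/-!
Row CLN: decay of the Fourier transform of a compactly supported function of finite smoothness.
-/

namespace Pool.Agent.SPN

open MeasureTheory Set Metric Pool.Agent.MP_6cbfb8_an
open scoped ENNReal Real FourierTransform ContDiff

/-- ROW CLN. Quantitative decay. -/
theorem cln (d K : ℕ) (R C0 : ℝ) : ∃ C : ℝ, 0 ≤ C ∧ ∀ G : E d → ℂ, ContDiff ℝ K G →
    (∀ u, R < ‖u‖ → G u = 0) → (∀ i ≤ K, ∀ u, ‖iteratedFDeriv ℝ i G u‖ ≤ C0) → ∀ μ : E d,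
      ‖∫ u : E d, Complex.exp (((inner ℝ μ u : ℝ) : ℂ) * Complex.I) * G u‖ ≤
        C * (1 / (1 + ‖μ‖)) ^ K := by
  obtain ⟨C, hC, hfd⟩ := Pool.Agent.GPH.fourier_decay d K R
  refine ⟨C * |C0| * (2 * π) ^ K, by positivity, fun G hG hs hb μ => ?_⟩
  have h1 := hfd G |C0| hG hs (fun j hj v _ => (hb j hj v).trans (le_abs_self _))
    ((-(2 * π)⁻¹) • μ)
  have h2 : 𝓕 G ((-(2 * π)⁻¹) • μ) =
      ∫ u : E d, Complex.exp (((inner ℝ μ u : ℝ) : ℂ) * Complex.I) * G u := by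
    rw [Real.fourier_eq']
    refine integral_congr_ae (Filter.Eventually.of_forall fun u => ?_)
    simp only [smul_eq_mul]
    congr 3
    rw [real_inner_smul_right, real_inner_comm]
    have := Real.pi_ne_zero
    push_cast
    field_simp
  rw [h2] at h1
  have hμ : 1 + ‖μ‖ ≤ 2 * π * (1 + ‖(-(2 * π)⁻¹) • μ‖) := by
    rw [norm_smul, norm_neg, norm_inv, Real.norm_of_nonneg (by positivity), mul_add, mul_one,
      mul_inv_cancel_left₀ (by positivity)]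
    have := Real.pi_gt_three
    linarith
  have h3 : (1 + ‖μ‖) ^ K ≤ (2 * π) ^ K * (1 + ‖(-(2 * π)⁻¹) • μ‖) ^ K := by
    rw [← mul_pow]
    exact pow_le_pow_left₀ (by positivity) hμ K
  have h4 : (0 : ℝ) < (1 + ‖μ‖) ^ K := by positivity
  rw [div_pow, one_pow, mul_one_div, le_div_iff₀ h4]
  calc ‖∫ u : E d, Complex.exp (((inner ℝ μ u : ℝ) : ℂ) * Complex.I) * G u‖ * (1 + ‖μ‖) ^ K
      ≤ ‖∫ u : E d, Complex.exp (((inner ℝ μ u : ℝ) : ℂ) * Complex.I) * G u‖ *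
          ((2 * π) ^ K * (1 + ‖(-(2 * π)⁻¹) • μ‖) ^ K) := by gcongr
    _ = (‖∫ u : E d, Complex.exp (((inner ℝ μ u : ℝ) : ℂ) * Complex.I) * G u‖ *
          (1 + ‖(-(2 * π)⁻¹) • μ‖) ^ K) * (2 * π) ^ K := by ring
    _ ≤ C * |C0| * (2 * π) ^ K := by gcongr

end Pool.Agent.SPN
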