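import Pool.Agent.SPNH.PHF
import Pool.Agent.SPNH.CLN

/-!
SPN row PH, part 3: the packet bound.
-/

namespace Pool.Agent.SPN

open MeasureTheory Set Pool.Agent.MP_6cbfb8_an
open Pool.Agent.SEP (B phi phat beta om tj Tb)
open scoped ENNReal Real ContDiff

/-- If a coordinate is not of the class, the packet vanishes. -/
theorem ph_pk1_zero {D M : ℕ} {κ A : ℝ} (hG : Good D M κ A) {k m : ℕ} (hmk : m ≤ k) {f : Fn D M}
    {Y ζ w t : ℝ} (hc : ¬ Cls A k m f ζ w) (ht : |t - w| ≤ κ * 4 ^ k) :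
    pk1 κ k m f Y ζ t = 0 := by
  obtain ⟨hκ, -, -, hG⟩ := hG
  rw [pk1]
  refine integral_eq_zero_of_ae (Filter.Eventually.of_forall fun x => ?_)
  simp only [Pi.zero_apply]
  by_cases hx : |x - ζ| ≤ κ / 2 ^ k
  · have : theta k f x t * beta k m x = 0 := by
      by_contra h
      exact hc (hG k m f x t ζ w hmk h hx ht)
    rw [this]; simp
  · have h2 : (0 : ℝ) < 2 ^ k := by positivity
    have : phi ((ζ - x) * (2 ^ k / κ)) = 0 := by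
      refine Pool.Agent.SEP.ph_phi_zero ?_
      rw [abs_mul, abs_of_pos (div_pos h2 hκ), abs_sub_comm]
      rw [not_le, div_lt_iff₀ h2] at hx
      rw [mul_div_assoc', le_div_iff₀ hκ]
      linarith
    rw [this]; simp

theorem ph_kw_zero {n D M : ℕ} {κ A : ℝ} (hG : Good D M κ A) {T : ℝ} {k m : Fin n → ℕ}
    (hmk : ∀ j, m j ≤ k j) {f : Fin n → Fn D M} {Y ζ : Fin n → ℝ}
    {w : ℝ} (hc : ¬ ∀ j, Cls A (k j) (m j) (f j) (ζ j) w) :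
    kw κ (κ / om k m) T k m f Y ζ w = 0 := by
  push Not at hc
  obtain ⟨j, hj⟩ := hc
  rw [kw]
  have hκ := hG.1
  have hτ : 0 < κ / om k m := div_pos hκ (Pool.Agent.SEP.ph_om_pos k m j)
  refine integral_eq_zero_of_ae (Filter.Eventually.of_forall fun t => ?_)
  simp only [Pi.zero_apply]
  by_cases ht : |t - w| ≤ κ / om k m
  · rw [Finset.prod_eq_zero (Finset.mem_univ j), mul_zero]
    exact ph_pk1_zero hG (hmk j) hj (ht.trans (Pool.Agent.SEP.ph_tau4 hκ k m j (hmk j)))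
  · have : phi ((t - w) / (κ / om k m)) = 0 := by
      refine Pool.Agent.SEP.ph_phi_zero ?_
      rw [abs_div, abs_of_pos hτ, le_div_iff₀ hτ]
      linarith [not_le.1 ht]
    rw [this]; simp

/-- The phase in a packet. -/
noncomputable def ph_R {D M : ℕ} (κ : ℝ) (k : ℕ) (f : Fn D M) (ζ w τ s ξ : ℝ) : ℝ :=
  ph_Phi f (κ / 2 ^ k) ζ w ξ - 2 * (τ * ζ * (κ / 2 ^ k)) * (s * ξ) -
    τ * (κ / 2 ^ k) ^ 2 * (s * ξ ^ 2)

theorem ph_R_eq {D M : ℕ} {κ : ℝ} {k : ℕ} {f : Fn D M} {ζ w τ s ξ : ℝ} (hs : |s| ≤ 1)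
    (hξ : |ξ| ≤ 1) : ph_Rt κ k f ζ w τ s ξ = ph_R κ k f ζ w τ s ξ := by
  rw [ph_Rt, ph_R, ph_B_one hs, ph_B_one hξ, smul_eq_mul, smul_eq_mul]
  ring

theorem ph_pk1 {D M : ℕ} {κ : ℝ} (hκ : 0 < κ) {k m : ℕ} {f : Fn D M} {Y ζ w τ s : ℝ}
    (hs : |s| ≤ 1) :
    pk1 κ k m f Y ζ (w + τ * s) =
      Complex.exp ((((f.f ζ - w * ζ ^ 2) + -(τ * ζ ^ 2) * s : ℝ) : ℂ) * Complex.I) *
        ∫ ξ : ℝ, Complex.exp (((-(κ / 2 ^ k * (Y - yc f ζ w)) * ξ : ℝ) : ℂ) * Complex.I) *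
          ph_F κ k m f ζ w τ s ξ := by
  have h2 : (2 : ℝ) ^ k ≠ 0 := by positivity
  have hδ : 0 < κ / 2 ^ k := by positivity
  rw [pk1]
  set g : ℝ → ℂ := fun x => ((theta k f x (w + τ * s) * beta k m x *
    (2 ^ k / κ * phi ((ζ - x) * (2 ^ k / κ))) : ℝ) : ℂ) *
    Complex.exp (((f.f x - (w + τ * s) * x ^ 2 + Y * (ζ - x) : ℝ) : ℂ) * Complex.I) with hg
  have h1 : ∫ ξ : ℝ, g (ζ + κ / 2 ^ k * ξ) = |(κ / 2 ^ k)⁻¹| • ∫ x, g x := by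
    rw [Measure.integral_comp_mul_left (fun y => g (ζ + y)) (κ / 2 ^ k),
      integral_add_left_eq_self g ζ]
  have h3 : ∫ x, g x = ((κ / 2 ^ k : ℝ) : ℂ) * ∫ ξ : ℝ, g (ζ + κ / 2 ^ k * ξ) := by
    rw [h1, abs_of_pos (inv_pos.2 hδ), Complex.real_smul, ← mul_assoc, ← Complex.ofReal_mul,
      mul_inv_cancel₀ hδ.ne', Complex.ofReal_one, one_mul]
  rw [h3, ← integral_const_mul, ← integral_const_mul]
  refine integral_congr_ae (Filter.Eventually.of_forall fun ξ => ?_)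
  simp only [hg]
  have e1 : ζ - (ζ + κ / 2 ^ k * ξ) = -(κ / 2 ^ k * ξ) := by ring
  have e2 : -(κ / 2 ^ k * ξ) * (2 ^ k / κ) = -ξ := by field_simp
  rw [e1, e2, Pool.Agent.SEP.ph_phi_neg, ph_F]
  by_cases hξ : |ξ| ≤ 1
  swap
  · rw [Pool.Agent.SEP.ph_phi_zero (not_le.1 hξ).le]
    simp
  rw [ph_R_eq hs hξ]
  set a1 := theta k f (ζ + κ / 2 ^ k * ξ) (w + τ * s)
  set a2 := beta k m (ζ + κ / 2 ^ k * ξ)
  have e3 : Complex.exp (((f.f (ζ + κ / 2 ^ k * ξ) - (w + τ * s) * (ζ + κ / 2 ^ k * ξ) ^ 2 +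
      Y * (-(κ / 2 ^ k * ξ)) : ℝ) : ℂ) * Complex.I) =
      Complex.exp ((((f.f ζ - w * ζ ^ 2) + -(τ * ζ ^ 2) * s : ℝ) : ℂ) * Complex.I) *
      (Complex.exp (((-(κ / 2 ^ k * (Y - yc f ζ w)) * ξ : ℝ) : ℂ) * Complex.I) *
        Complex.exp (((ph_R κ k f ζ w τ s ξ : ℝ) : ℂ) * Complex.I)) := by
    rw [← Complex.exp_add, ← Complex.exp_add]
    congr 1
    rw [← add_mul, ← add_mul, ← Complex.ofReal_add, ← Complex.ofReal_add]
    congr 2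
    rw [ph_R, ph_Phi, yc]
    ring
  rw [e3]
  have e4 : ((κ / 2 ^ k : ℝ) : ℂ) * ((a1 * a2 * (2 ^ k / κ * phi ξ) : ℝ) : ℂ) =
      ((phi ξ * (a1 * a2) : ℝ) : ℂ) := by
    rw [← Complex.ofReal_mul]
    congr 1
    field_simp
  rw [← e4]
  ring

/-- The amplitude. -/
noncomputable def ph_Am {n D M : ℕ} (κ τ T : ℝ) (k m : Fin n → ℕ) (f : Fin n → Fn D M)
    (ζ : Fin n → ℝ) (w : ℝ) (s : ℝ) (ξ : Fin n → ℝ) : ℂ :=
  ((phi s * B (w / T + τ / T * s) : ℝ) : ℂ) *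
    ∏ j, ph_F κ (k j) (m j) (f j) (ζ j) w τ s (ξ j)

theorem ph_kw_eq {n D M : ℕ} {κ τ : ℝ} (hκ : 0 < κ) (hτ : 0 < τ) {T : ℝ}
    {k m : Fin n → ℕ} {f : Fin n → Fn D M} {Y ζ : Fin n → ℝ} {w : ℝ} :
    kw κ τ T k m f Y ζ w =
      Complex.exp (((w + ∑ j, ((f j).f (ζ j) - w * ζ j ^ 2) : ℝ) : ℂ) * Complex.I) *
        ∫ s : ℝ, ∫ ξ : Fin n → ℝ,
          Complex.exp (((τ * (1 - ∑ j, ζ j ^ 2) * s +
            ∑ j, -(κ / 2 ^ k j * (Y j - yc (f j) (ζ j) w)) * ξ j : ℝ) : ℂ) * Complex.I) *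
          ph_Am κ τ T k m f ζ w s ξ := by
  rw [kw]
  set g : ℝ → ℂ := fun t => Complex.exp ((t : ℂ) * Complex.I) *
    ((B (t / T) * (1 / τ * phi ((t - w) / τ)) : ℝ) : ℂ) *
    ∏ j, pk1 κ (k j) (m j) (f j) (Y j) (ζ j) t with hg
  have h1 : ∫ s : ℝ, g (w + τ * s) = |τ⁻¹| • ∫ x, g x := by
    rw [Measure.integral_comp_mul_left (fun y => g (w + y)) τ,
      integral_add_left_eq_self g w]
  have h3 : ∫ x, g x = (τ : ℂ) * ∫ s : ℝ, g (w + τ * s) := by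
    rw [h1, abs_of_pos (inv_pos.2 hτ), Complex.real_smul, ← mul_assoc, ← Complex.ofReal_mul,
      mul_inv_cancel₀ hτ.ne', Complex.ofReal_one, one_mul]
  rw [h3, ← integral_const_mul, ← integral_const_mul]
  refine integral_congr_ae (Filter.Eventually.of_forall fun s => ?_)
  simp only [hg]
  have e1 : (w + τ * s - w) / τ = s := by field_simp; ring
  have e2 : (w + τ * s) / T = w / T + τ / T * s := by ring
  rw [e1, e2]
  by_cases hs : |s| ≤ 1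
  swap
  · have h0 := Pool.Agent.SEP.ph_phi_zero (not_le.1 hs).le
    simp [ph_Am, h0]
  have e3 : ∀ j, pk1 κ (k j) (m j) (f j) (Y j) (ζ j) (w + τ * s) = _ :=
    fun j => ph_pk1 hκ hs
  rw [Finset.prod_congr rfl fun j _ => e3 j, Finset.prod_mul_distrib,
    ← integral_fintype_prod_volume_eq_prod (fun (j : Fin n) (x : ℝ) =>
      Complex.exp (((-(κ / 2 ^ k j * (Y j - yc (f j) (ζ j) w)) * x : ℝ) : ℂ) * Complex.I) *
          ph_F κ (k j) (m j) (f j) (ζ j) w τ s x), ← Complex.exp_sum]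
  rw [← integral_const_mul, ← integral_const_mul, ← integral_const_mul, ← integral_const_mul]
  refine integral_congr_ae (Filter.Eventually.of_forall fun ξ => ?_)
  simp only
  rw [Finset.prod_mul_distrib, ← Complex.exp_sum, ph_Am]
  set P := ∏ j, ph_F κ (k j) (m j) (f j) (ζ j) w τ s (ξ j)
  have e4 : (τ : ℂ) * ((B (w / T + τ / T * s) * (1 / τ * phi s) : ℝ) : ℂ) =
      ((phi s * B (w / T + τ / T * s) : ℝ) : ℂ) := by
    rw [← Complex.ofReal_mul]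
    congr 1
    field_simp
  rw [← e4]
  have e5 : Complex.exp (((w + τ * s : ℝ) : ℂ) * Complex.I) *
      (Complex.exp (∑ j, ((((f j).f (ζ j) - w * ζ j ^ 2) + -(τ * ζ j ^ 2) * s : ℝ) : ℂ) *
        Complex.I) *
      Complex.exp (∑ j, ((-(κ / 2 ^ k j * (Y j - yc (f j) (ζ j) w)) * ξ j : ℝ) : ℂ) * Complex.I)) =
      Complex.exp (((w + ∑ j, ((f j).f (ζ j) - w * ζ j ^ 2) : ℝ) : ℂ) * Complex.I) *
      Complex.exp (((τ * (1 - ∑ j, ζ j ^ 2) * s +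
            ∑ j, -(κ / 2 ^ k j * (Y j - yc (f j) (ζ j) w)) * ξ j : ℝ) : ℂ) * Complex.I) := by
    rw [← Complex.exp_add, ← Complex.exp_add, ← Complex.exp_add]
    congr 1
    rw [← Finset.sum_mul, ← Finset.sum_mul, ← add_mul, ← add_mul, ← add_mul]
    congr 1
    rw [← Complex.ofReal_sum, ← Complex.ofReal_sum, ← Complex.ofReal_add, ← Complex.ofReal_add,
      ← Complex.ofReal_add]
    congr 1
    rw [Finset.sum_add_distrib, ← Finset.sum_mul, Finset.sum_neg_distrib, ← Finset.mul_sum]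
    ring
  set X1 := Complex.exp (((w + τ * s : ℝ) : ℂ) * Complex.I)
  set X2 := Complex.exp (∑ j, ((((f j).f (ζ j) - w * ζ j ^ 2) + -(τ * ζ j ^ 2) * s : ℝ) : ℂ) *
        Complex.I)
  set X3 := Complex.exp (∑ j, ((-(κ / 2 ^ k j * (Y j - yc (f j) (ζ j) w)) * ξ j : ℝ) : ℂ) * Complex.I)
  set Z := ((B (w / T + τ / T * s) * (1 / τ * phi s) : ℝ) : ℂ)
  calc (τ : ℂ) * (X1 * Z * (X2 * (X3 * P))) = (X1 * (X2 * X3)) * (τ * Z * P) := by ring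
    _ = _ := by rw [e5]; ring

theorem ph_Am_zero {n D M : ℕ} {κ τ T : ℝ} {k m : Fin n → ℕ} {f : Fin n → Fn D M}
    {ζ : Fin n → ℝ} {w : ℝ} {s : ℝ} {ξ : Fin n → ℝ} (h : ph_Am κ τ T k m f ζ w s ξ ≠ 0) :
    |s| < 1 ∧ ∀ j, |ξ j| < 1 := by
  constructor
  · by_contra hs
    exact h (by rw [ph_Am, Pool.Agent.SEP.ph_phi_zero (not_lt.1 hs)]; simp)
  · intro j
    by_contra hs
    refine h ?_
    rw [ph_Am, Finset.prod_eq_zero (Finset.mem_univ j), mul_zero]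
    rw [ph_F, Pool.Agent.SEP.ph_phi_zero (not_lt.1 hs)]
    simp

theorem ph_Am_supp {n D M : ℕ} {κ τ T : ℝ} {k m : Fin n → ℕ} {f : Fin n → Fn D M}
    {ζ : Fin n → ℝ} {w : ℝ} {u : E (n + 1)} (hu : (n : ℝ) + 1 < ‖u‖) :
    ph_Am κ τ T k m f ζ w (u 0) (fun j => u j.succ) = 0 := by
  by_contra h
  obtain ⟨h0, h1⟩ := ph_Am_zero h
  have h2 : ∀ i : Fin (n + 1), |u i| ≤ 1 := by
    intro i
    refine Fin.cases h0.le (fun j => (h1 j).le) i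
  have h3 : ‖u‖ ^ 2 ≤ (n : ℝ) + 1 := by
    rw [EuclideanSpace.real_norm_sq_eq]
    calc ∑ i, (u i) ^ 2 ≤ ∑ _i : Fin (n + 1), (1 : ℝ) := by
          refine Finset.sum_le_sum fun i _ => ?_
          rw [← sq_abs]
          have := h2 i
          have := abs_nonneg (u i)
          nlinarith
      _ = (n : ℝ) + 1 := by simp
  have h4 : (0 : ℝ) ≤ n := Nat.cast_nonneg n
  nlinarith

/-- The amplitude is bounded in `C^K`. -/
theorem ph_Am_bd (n D M : ℕ) (hD : 2 ≤ D) (K : ℕ) (hK : K ≤ D) (κ A : ℝ) (hκ : 0 < κ)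
    (hκ1 : κ ≤ kap) (hA : 1 ≤ A) : ∃ C : ℝ, ∀ (T : ℝ) (k m : Fin n → ℕ) (f : Fin n → Fn D M)
      (ζ : Fin n → ℝ) (w τ : ℝ), (∀ j, m j ≤ k j) → 0 < τ → (∀ j, τ ≤ κ * 2 ^ (m j + k j)) →
      (∀ j, τ ≤ κ * 4 ^ k j) → 0 < T → τ / T ≤ 8 → (∀ j, Cls A (k j) (m j) (f j) (ζ j) w) →
      BK K C (fun u : E (n + 1) => ph_Am κ τ T k m f ζ w (u 0) (fun j => u j.succ)) := by
  obtain ⟨cp, hcp1, hcp⟩ := bk_fixed ph_phi_cd ph_phi_hc K
  obtain ⟨cB, hcB1, hcB⟩ := bk_fixed ph_B_cd ph_B_hc K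
  obtain ⟨C, hC1, hC⟩ := ph_F_bd n D M hD K hK κ A hκ hκ1 hA
  refine ⟨2 ^ K * (2 ^ K * (cp * 1 ^ K) * (cB * 8 ^ K)) *
    (2 ^ K * C) ^ (Finset.univ : Finset (Fin n)).card, ?_⟩
  intro T k m f ζ w τ hmk hτ hτ1 hτ4 hT hτT hc
  have h1 : BK K (cp * 1 ^ K) (fun u : E (n + 1) => phi (u 0)) := by
    have := hcp.lin 0 (ph_pr (n := n + 1) 0) (ph_pr_norm 0) le_rfl
    simpa [ph_pr] using this
  have h2 : BK K (cB * 8 ^ K) (fun u : E (n + 1) => B (w / T + τ / T * u 0)) := by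
    have hL : ‖(τ / T) • (ph_pr (n := n + 1) 0)‖ ≤ 8 := by
      rw [norm_smul, Real.norm_eq_abs, abs_of_pos (div_pos hτ hT)]
      have := ph_pr_norm (n := n + 1) 0
      have h0 := norm_nonneg (ph_pr (n := n + 1) 0)
      nlinarith [div_pos hτ hT]
    have := hcB.lin (w / T) _ hL (by norm_num)
    simpa [ph_pr] using this
  have h3 := BK.prod (V := E (n + 1)) (Finset.univ : Finset (Fin n))
    (F := fun j u => ph_F κ (k j) (m j) (f j) (ζ j) w τ (u 0) (u j.succ))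
    (fun j => hC j (k j) (m j) (f j) (ζ j) w τ (hmk j) hτ (hτ1 j) (hτ4 j) (hc j)) bk_one
  exact ((h1.mul h2).ofReal).mul h3

/-- The frequency of a packet. -/
noncomputable def ph_mu {n D M : ℕ} (κ τ : ℝ) (k : Fin n → ℕ) (f : Fin n → Fn D M)
    (Y ζ : Fin n → ℝ) (w : ℝ) : E (n + 1) :=
  WithLp.toLp 2 (Fin.cons (τ * (1 - ∑ j, ζ j ^ 2))
    (fun j => -(κ / 2 ^ k j * (Y j - yc (f j) (ζ j) w))))

theorem ph_kw_E {n D M : ℕ} {κ τ : ℝ} (hκ : 0 < κ) (hτ : 0 < τ) {T : ℝ}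
    {k m : Fin n → ℕ} {f : Fin n → Fn D M} {Y ζ : Fin n → ℝ} {w : ℝ}
    (hc : Continuous fun u : E (n + 1) => ph_Am κ τ T k m f ζ w (u 0) (fun j => u j.succ)) :
    ‖kw κ τ T k m f Y ζ w‖ =
      ‖∫ u : E (n + 1), Complex.exp (((inner ℝ (ph_mu κ τ k f Y ζ w) u : ℝ) : ℂ) * Complex.I) *
        ph_Am κ τ T k m f ζ w (u 0) fun j => u j.succ‖ := by
  rw [ph_kw_eq hκ hτ, norm_mul, Complex.norm_exp_ofReal_mul_I, one_mul]
  have hc : Continuous fun u : E (n + 1) =>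
      Complex.exp (((inner ℝ (ph_mu κ τ k f Y ζ w) u : ℝ) : ℂ) * Complex.I) *
        ph_Am κ τ T k m f ζ w (u 0) fun j => u j.succ := by
    refine Continuous.mul ?_ hc
    fun_prop
  have hs : HasCompactSupport fun u : E (n + 1) =>
      Complex.exp (((inner ℝ (ph_mu κ τ k f Y ζ w) u : ℝ) : ℂ) * Complex.I) *
        ph_Am κ τ T k m f ζ w (u 0) fun j => u j.succ := by
    refine HasCompactSupport.intro (isCompact_closedBall (0 : E (n + 1)) (n + 1)) fun u hu => ?_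
    rw [mem_closedBall_zero_iff, not_le] at hu
    rw [ph_Am_supp hu, mul_zero]
  rw [Pool.Agent.SEP.ph_int n _ (hc.integrable_of_hasCompactSupport hs)]
  congr 1
  refine integral_congr_ae (Filter.Eventually.of_forall fun s => ?_)
  refine integral_congr_ae (Filter.Eventually.of_forall fun ξ => ?_)
  simp only [Fin.cons_zero, Fin.cons_succ]
  congr 4
  rw [PiLp.inner_apply, Fin.sum_univ_succ]
  simp only [ph_mu, Fin.cons_zero, Fin.cons_succ, RCLike.inner_apply, conj_trivial]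
  rw [mul_comm s]
  congr 1
  exact Finset.sum_congr rfl fun j _ => mul_comm _ _

theorem ph_weight {n D M : ℕ} {κ : ℝ} (hκ : 0 < κ) (hκ1 : κ ≤ 1) (k m : Fin n → ℕ)
    (f : Fin n → Fn D M) (Y ζ : Fin n → ℝ) (w : ℝ) (N : ℕ) (J : Fin n) :
    (1 / (1 + ‖ph_mu κ (κ / om k m) k f Y ζ w‖)) ^ ((n + 1) * N) ≤
      (κ⁻¹) ^ ((n + 1) * N) *
        ((∏ j, (1 / (1 + |yc (f j) (ζ j) w - Y j| / 2 ^ k j)) ^ N) *
          (1 / (1 + |∑ j, ζ j ^ 2 - 1| / om k m)) ^ N) := by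
  have hom := Pool.Agent.SEP.ph_om_pos k m J
  set μ := ph_mu κ (κ / om k m) k f Y ζ w with hμ
  have hμi : ∀ i, |μ i| ≤ ‖μ‖ := fun i => by
    rw [← Real.norm_eq_abs]; exact PiLp.norm_apply_le μ i
  have h0 : κ * (|∑ j, ζ j ^ 2 - 1| / om k m) ≤ ‖μ‖ := by
    refine le_trans (le_of_eq ?_) (hμi 0)
    have : μ 0 = κ / om k m * (1 - ∑ j, ζ j ^ 2) := rfl
    rw [this, abs_mul, abs_of_pos (div_pos hκ hom), abs_sub_comm]
    ring
  have hj : ∀ j : Fin n, κ * (|yc (f j) (ζ j) w - Y j| / 2 ^ k j) ≤ ‖μ‖ := by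
    intro j
    refine le_trans (le_of_eq ?_) (hμi j.succ)
    have : μ j.succ = -(κ / 2 ^ k j * (Y j - yc (f j) (ζ j) w)) := rfl
    rw [this, abs_neg, abs_mul, abs_of_pos (by positivity : 0 < κ / 2 ^ k j), abs_sub_comm]
    ring
  have hμ0 : 0 ≤ ‖μ‖ := norm_nonneg _
  have e : ∀ a : ℝ, a ^ ((n + 1) * N) = (∏ _j : Fin n, a ^ N) * a ^ N := by
    intro a
    rw [Finset.prod_const, Finset.card_univ, Fintype.card_fin, ← pow_succ, ← pow_mul, mul_comm]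
  rw [e (1 / (1 + ‖μ‖)), e κ⁻¹]
  have h2 : (∏ _j : Fin n, (1 / (1 + ‖μ‖)) ^ N) ≤
      ∏ j : Fin n, ((κ⁻¹) ^ N * (1 / (1 + |yc (f j) (ζ j) w - Y j| / 2 ^ k j)) ^ N) := by
    refine Finset.prod_le_prod (fun j _ => by positivity) fun j _ => ?_
    rw [← mul_pow]
    exact pow_le_pow_left₀ (by positivity)
      (Pool.Agent.SEP.ph_fac hκ hκ1 (by positivity) (hj j)) N
  have h3 : (1 / (1 + ‖μ‖)) ^ N ≤
      (κ⁻¹) ^ N * (1 / (1 + |∑ j, ζ j ^ 2 - 1| / om k m)) ^ N := by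
    rw [← mul_pow]
    exact pow_le_pow_left₀ (by positivity)
      (Pool.Agent.SEP.ph_fac hκ hκ1 (by positivity) h0) N
  calc (∏ _j : Fin n, (1 / (1 + ‖μ‖)) ^ N) * (1 / (1 + ‖μ‖)) ^ N ≤
      (∏ j : Fin n, ((κ⁻¹) ^ N * (1 / (1 + |yc (f j) (ζ j) w - Y j| / 2 ^ k j)) ^ N)) *
        ((κ⁻¹) ^ N * (1 / (1 + |∑ j, ζ j ^ 2 - 1| / om k m)) ^ N) := by
        refine mul_le_mul h2 h3 (by positivity) ?_
        exact Finset.prod_nonneg fun j _ => by positivity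
    _ = _ := by
      rw [Finset.prod_mul_distrib]
      ring

theorem ph (n D M : ℕ) (hD : 3 ≤ D) (κ A : ℝ) (hG : Good D M κ A) (N : ℕ) (hN : (n + 1) * N ≤ D) :
    ∃ C : ℝ, 0 ≤ C ∧
    ∀ (T : ℝ) (k m : Fin n → ℕ) (f : Fin n → Fn D M) (Y ζ : Fin n → ℝ) (w : ℝ) (J : Fin n), 0 < T →
      (∀ j, m j ≤ k j) → (4 : ℝ) ^ k J ≤ 8 * T →
      ‖kw κ (κ / om k m) T k m f Y ζ w‖ₑ ≤ ENNReal.ofReal C * Wt N A k m f Y (ζ, w) := by
  have hκ := hG.1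
  have hκk := hG.2.1
  have hκ1 : κ ≤ 1 := hκk.trans (by unfold kap; norm_num)
  have hA := hG.2.2.1
  obtain ⟨C0, hC0⟩ := ph_Am_bd n D M (by omega) ((n + 1) * N) hN κ A hκ hκk hA
  obtain ⟨C, hCn, hC⟩ := cln (n + 1) ((n + 1) * N) (n + 1) C0
  refine ⟨C * κ⁻¹ ^ ((n + 1) * N), by positivity, ?_⟩
  intro T k m f Y ζ w J hT hmk hJ
  by_cases hcls : ∀ j, Cls A (k j) (m j) (f j) (ζ j) w
  swap
  · rw [ph_kw_zero hG hmk hcls]
    simp
  rw [Wt, if_pos hcls]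
  have hom := Pool.Agent.SEP.ph_om_pos k m J
  have hτ : 0 < κ / om k m := div_pos hκ hom
  set τ := κ / om k m with hτdef
  have hτT : τ / T ≤ 8 := by
    rw [div_le_iff₀ hT]
    refine ((Pool.Agent.SEP.ph_tau4 hκ k m J (hmk J)).trans ?_)
    have : (0 : ℝ) < 4 ^ k J := by positivity
    nlinarith
  rw [← ENNReal.ofReal_mul (by positivity), ← ofReal_norm]
  refine ENNReal.ofReal_le_ofReal ?_
  have hbd := hC0 T k m f ζ w τ hmk hτ (fun j => Pool.Agent.SEP.ph_tau hκ k m j)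
    (fun j => Pool.Agent.SEP.ph_tau4 hκ k m j (hmk j)) hT hτT hcls
  rw [ph_kw_E hκ hτ hbd.1.continuous]
  refine (hC _ hbd.1 (fun u hu => ph_Am_supp hu) hbd.2 _).trans ?_
  rw [mul_assoc]
  exact mul_le_mul_of_nonneg_left (ph_weight hκ hκ1 k m f Y ζ w N J) hCn

end Pool.Agent.SPN
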