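import Pool.Agent.SPNH.Defs
import Pool.Agent.SEPH.TAU

/-!
Row TAU: the integral of the weight in time.
-/

namespace Pool.Agent.SPN

open MeasureTheory Set Pool.Agent.MP_6cbfb8_an
open Pool.Agent.SEP (B phi phat beta om tj Tb tau_lin tau_om)
open scoped ENNReal Real

/-- The weight is at most the factor of one coordinate. -/
theorem tau_le {n D M : ℕ} (N : ℕ) (hN : 2 ≤ N) (A : ℝ) (k m : Fin n → ℕ) (hn : 1 ≤ n) (f : Fin n → Fn D M)
    (Y : Fin n → ℝ) (p : (Fin n → ℝ) × ℝ) (j : Fin n) :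
    Wt N A k m f Y p ≤ ENNReal.ofReal ((1 / (1 + |yc (f j) (p.1 j) p.2 - Y j| / 2 ^ k j)) ^ 2) := by
  classical
  unfold Wt
  split_ifs
  · refine ENNReal.ofReal_le_ofReal ?_
    have hom := (tau_om k m hn).1
    have h1 : ∀ x : ℝ, 0 ≤ x → 0 ≤ 1 / (1 + x) ∧ 1 / (1 + x) ≤ 1 := by
      intro x hx
      refine ⟨by positivity, ?_⟩
      rw [div_le_one (by positivity)]
      linarith
    have h2 : ∀ i, 0 ≤ |yc (f i) (p.1 i) p.2 - Y i| / 2 ^ k i := fun i => by positivity
    have h3 : (1 / (1 + |∑ j, p.1 j ^ 2 - 1| / om k m)) ^ N ≤ 1 :=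
      pow_le_one₀ (h1 _ (by positivity)).1 (h1 _ (by positivity)).2
    have h4 : ∏ i, (1 / (1 + |yc (f i) (p.1 i) p.2 - Y i| / 2 ^ k i)) ^ N ≤
        (1 / (1 + |yc (f j) (p.1 j) p.2 - Y j| / 2 ^ k j)) ^ N := by
      rw [← Finset.mul_prod_erase Finset.univ _ (Finset.mem_univ j)]
      refine mul_le_of_le_one_right (pow_nonneg (h1 _ (h2 j)).1 _) ?_
      exact Finset.prod_le_one (fun i _ => pow_nonneg (h1 _ (h2 i)).1 _)
        (fun i _ => pow_le_one₀ (h1 _ (h2 i)).1 (h1 _ (h2 i)).2)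
    have h5 : (1 / (1 + |yc (f j) (p.1 j) p.2 - Y j| / 2 ^ k j)) ^ N ≤
        (1 / (1 + |yc (f j) (p.1 j) p.2 - Y j| / 2 ^ k j)) ^ 2 :=
      pow_le_pow_of_le_one (h1 _ (h2 j)).1 (h1 _ (h2 j)).2 hN
    calc _ ≤ (∏ i, (1 / (1 + |yc (f i) (p.1 i) p.2 - Y i| / 2 ^ k i)) ^ N) * 1 :=
          mul_le_mul_of_nonneg_left h3 (Finset.prod_nonneg fun i _ => pow_nonneg (h1 _ (h2 i)).1 _)
      _ ≤ _ := by rw [mul_one]; exact h4.trans h5
  · exact zero_le

/-- ROW TAU. For fixed `ζ` the weights have integral `≤ C/om` in `w`. Take `j` with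
`2^{-m_j-k_j} ≥ om/n`. If `m_j < k_j`: `yc` is affine in `w` with slope `-2ζ_j`, `|ζ_j| ≥ 2^{-m_j}/A`,
`∫ (1+|a-2ζ_jw|/2^{k_j})^{-2} dw ≤ C 2^{k_j}/|ζ_j|`. If `m_j = k_j`: `|f''(ζ_j)-2w| ≤ A4^{k_j}` bounds the
measure of the `w`. -/
theorem tau (n D M : ℕ) (hD : 3 ≤ D) (A : ℝ) (hA : 1 ≤ A) (N : ℕ) (hN : 2 ≤ N) : ∃ C : ℝ, 1 ≤ C ∧
    ∀ (k m : Fin n → ℕ) (f : Fin n → Fn D M) (Y ζ : Fin n → ℝ), 1 ≤ n → (∀ j, m j ≤ k j) →
      ∫⁻ w : ℝ, Wt N A k m f Y (ζ, w) ≤ ENNReal.ofReal (C / om k m) := by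
  classical
  have hn0 : (0 : ℝ) ≤ n := Nat.cast_nonneg n
  have hπ : 1 ≤ π := by linarith [Real.pi_gt_three]
  refine ⟨1 + π * A * n, by
    have : 0 ≤ π * A * n := by positivity
    linarith, ?_⟩
  intro k m f Y ζ hn hmk
  obtain ⟨hom, j, hj⟩ := tau_om k m hn
  have hAn : A * (2 : ℝ) ^ (m j + k j) * π ≤ (1 + π * A * n) / om k m := by
    calc A * (2 : ℝ) ^ (m j + k j) * π ≤ A * (n / om k m) * π := by gcongr
      _ = (π * A * n) / om k m := by ring
      _ ≤ (1 + π * A * n) / om k m := by gcongr; linarith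
  by_cases hmj : m j < k j
  · by_cases hz : 1 ≤ A * (|ζ j| * 2 ^ m j)
    · have hζ : 0 < |ζ j| := by
        rcases (abs_nonneg (ζ j)).eq_or_lt with h | h
        · rw [← h] at hz
          norm_num at hz
        · exact h
      have hc : 2 * ζ j / 2 ^ k j ≠ 0 := by
        have : ζ j ≠ 0 := abs_pos.1 hζ
        positivity
      calc ∫⁻ w : ℝ, Wt N A k m f Y (ζ, w)
          ≤ ∫⁻ w : ℝ, ENNReal.ofReal ((1 / (1 + |(deriv (f j).f (ζ j) - Y j) / 2 ^ k j -
              2 * ζ j / 2 ^ k j * w|)) ^ 2) := by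
            refine lintegral_mono fun w => (tau_le N hN A k m hn f Y (ζ, w) j).trans (le_of_eq ?_)
            have h1 : |yc (f j) (ζ j) w - Y j| / 2 ^ k j =
                |(deriv (f j).f (ζ j) - Y j) / 2 ^ k j - 2 * ζ j / 2 ^ k j * w| := by
              have h2 : (deriv (f j).f (ζ j) - Y j) / 2 ^ k j - 2 * ζ j / 2 ^ k j * w =
                  (yc (f j) (ζ j) w - Y j) / 2 ^ k j := by
                unfold yc
                ring
              rw [h2, abs_div, abs_of_pos (show (0 : ℝ) < 2 ^ k j by positivity)]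
            simp only
            rw [h1]
        _ ≤ ENNReal.ofReal (π / |2 * ζ j / 2 ^ k j|) := tau_lin _ _ hc
        _ ≤ ENNReal.ofReal ((1 + π * A * n) / om k m) := by
            refine ENNReal.ofReal_le_ofReal (le_trans ?_ hAn)
            rw [abs_div, abs_mul, abs_of_pos (show (0 : ℝ) < 2 ^ k j by positivity),
              abs_of_pos (show (0 : ℝ) < 2 by norm_num), div_div_eq_mul_div, div_le_iff₀ (by positivity), pow_add]
            have h3 : (1 : ℝ) * (π * 2 ^ k j) ≤ (A * (|ζ j| * 2 ^ m j)) * (π * 2 ^ k j) :=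
              mul_le_mul_of_nonneg_right hz (by positivity)
            have h4 : 0 ≤ A * (|ζ j| * 2 ^ m j) * (π * 2 ^ k j) := by positivity
            calc π * 2 ^ k j = 1 * (π * 2 ^ k j) := (one_mul _).symm
              _ ≤ (A * (|ζ j| * 2 ^ m j)) * (π * 2 ^ k j) := h3
              _ ≤ A * (2 ^ m j * 2 ^ k j) * π * (2 * |ζ j|) := by
                have : A * (2 ^ m j * 2 ^ k j) * π * (2 * |ζ j|) =
                  2 * (A * (|ζ j| * 2 ^ m j) * (π * 2 ^ k j)) := by ring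
                rw [this]
                linarith
    · have h0 : ∀ w : ℝ, Wt N A k m f Y (ζ, w) = 0 := by
        intro w
        unfold Wt
        rw [if_neg]
        intro h
        exact hz ((h j).zlo hmj)
      simp [h0]
  · have hmk' : m j = k j := le_antisymm (hmk j) (not_lt.1 hmj)
    obtain ⟨c, hcd⟩ : ∃ c : ℝ, c = iteratedDeriv 2 (f j).f (ζ j) := ⟨_, rfl⟩
    have hsub : ∀ w : ℝ, Wt N A k m f Y (ζ, w) ≤
        (Icc ((c - A * 2 ^ (m j + k j)) / 2) ((c + A * 2 ^ (m j + k j)) / 2)).indicator (fun _ => 1) w := by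
      intro w
      by_cases hw : w ∈ Icc ((c - A * 2 ^ (m j + k j)) / 2) ((c + A * 2 ^ (m j + k j)) / 2)
      · rw [indicator_of_mem hw]
        refine (tau_le N hN A k m hn f Y (ζ, w) j).trans ?_
        rw [ENNReal.ofReal_le_one]
        refine pow_le_one₀ (by positivity) ?_
        rw [div_le_one (by positivity)]
        have : 0 ≤ |yc (f j) (ζ j) w - Y j| / 2 ^ k j := by positivity
        linarith
      · rw [indicator_of_notMem hw]
        refine le_of_eq ?_
        unfold Wt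
        rw [if_neg]
        intro h
        apply hw
        have h1 := (h j).up 2 (Finset.mem_Icc.2 ⟨le_rfl, by omega⟩) (ζ j) (by simp)
        unfold gd at h1
        have e2 : k j * 2 = m j + k j := by omega
        rw [if_pos rfl, ← hcd, e2] at h1
        rw [abs_le] at h1
        have h2 : ((ζ, w) : (Fin n → ℝ) × ℝ).2 = w := rfl
        rw [h2] at h1
        constructor <;> linarith [h1.1, h1.2]
    calc ∫⁻ w : ℝ, Wt N A k m f Y (ζ, w)
        ≤ ∫⁻ w : ℝ, (Icc ((c - A * 2 ^ (m j + k j)) / 2) ((c + A * 2 ^ (m j + k j)) / 2)).indicator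
            (fun _ => (1 : ℝ≥0∞)) w := lintegral_mono hsub
      _ = ENNReal.ofReal (A * 2 ^ (m j + k j)) := by
          rw [lintegral_indicator measurableSet_Icc, setLIntegral_one, Real.volume_Icc]
          congr 1
          ring
      _ ≤ ENNReal.ofReal ((1 + π * A * n) / om k m) := by
          refine ENNReal.ofReal_le_ofReal (le_trans ?_ hAn)
          exact le_mul_of_one_le_right (by positivity) hπ

end Pool.Agent.SPN
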