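import Pool.Agent.SEPH.HH
import Pool.Agent.SPNH.PH
import Pool.Agent.SPNH.KY
import Pool.Agent.SPNH.TAU
import Pool.Agent.SPNH.MEAS

/-!
Row HH: from packets to the `L^p` norm of one piece.
-/

namespace Pool.Agent.SPN

open MeasureTheory Set Pool.Agent.MP_6cbfb8_an
open Pool.Agent.SEP (B phi phat beta om tj Tb bump bump1 hh_fix hh_om hh_phat)
open scoped ENNReal Real

theorem hh_measI {D M k m : ℕ} {f : Fn D M} : Measurable fun q : ℝ × ℝ => I1c k m f q.1 q.2 := by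
  have hB : Continuous B := bump.continuous
  have h1 : Continuous fun p : (ℝ × ℝ) × ℝ =>
      ((theta k f p.2 p.1.1 * beta k m p.2 : ℝ) : ℂ) *
        Complex.exp (((f.f p.2 - p.1.1 * p.2 ^ 2 - p.1.2 * p.2 : ℝ) : ℂ) * Complex.I) := by
    have e1 : Continuous fun p : (ℝ × ℝ) × ℝ => theta k f p.2 p.1.1 := by
      have e0 : ∀ k, Continuous fun p : (ℝ × ℝ) × ℝ => chi k f p.2 p.1.1 := fun k =>
        (ky_continuous_chi k f).comp (by fun_prop : Continuous fun p : (ℝ × ℝ) × ℝ => (p.2, p.1.1))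
      unfold theta
      split_ifs
      · exact (e0 (k + 1)).sub continuous_const
      · exact (e0 (k + 1)).sub (e0 k)
    have e5 : Continuous fun p : (ℝ × ℝ) × ℝ => beta k m p.2 := by
      unfold beta
      have e3 : Continuous fun p : (ℝ × ℝ) × ℝ => B (2 ^ m * p.2) :=
        hB.comp (continuous_const.mul continuous_snd)
      have e4 : Continuous fun p : (ℝ × ℝ) × ℝ => B (2 ^ (m + 1) * p.2) :=
        hB.comp (continuous_const.mul continuous_snd)
      split_ifs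
      · exact e3.sub e4
      · exact e3.sub continuous_const
    have e6 : Continuous fun p : (ℝ × ℝ) × ℝ => f.f p.2 := f.smooth.continuous.comp continuous_snd
    exact (Complex.continuous_ofReal.comp (e1.mul e5)).mul (Complex.continuous_exp.comp
      ((Complex.continuous_ofReal.comp ((e6.sub (by fun_prop)).sub (by fun_prop))).mul
        continuous_const))
  exact (h1.stronglyMeasurable.integral_prod_right
    (f := fun (q : ℝ × ℝ) (x : ℝ) => ((theta k f x q.1 * beta k m x : ℝ) : ℂ) *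
        Complex.exp (((f.f x - q.1 * x ^ 2 - q.2 * x : ℝ) : ℂ) * Complex.I))).measurable

theorem hh_measF {n D M : ℕ} {T : ℝ} {k m : Fin n → ℕ} {f : Fin n → Fn D M} :
    Measurable (Fc T k m f) := by
  have hB : Continuous B := bump.continuous
  have h1 : Measurable fun p : (Fin n → ℝ) × ℝ => Complex.exp ((p.2 : ℂ) * Complex.I) *
      (B (p.2 / T) : ℂ) * ∏ j, I1c (k j) (m j) (f j) p.2 (p.1 j) := by
    refine Measurable.mul (Measurable.mul ?_ ?_) ?_
    · have : Continuous fun p : (Fin n → ℝ) × ℝ => Complex.exp ((p.2 : ℂ) * Complex.I) := by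
        fun_prop
      exact this.measurable
    · exact (Complex.continuous_ofReal.comp (hB.comp (continuous_snd.div_const T))).measurable
    · refine Finset.measurable_prod _ fun j _ => ?_
      exact hh_measI.comp (f := fun p : (Fin n → ℝ) × ℝ => (p.2, p.1 j)) (by fun_prop)
  exact (h1.stronglyMeasurable.integral_prod_right
    (f := fun (y : Fin n → ℝ) (t : ℝ) => Complex.exp ((t : ℂ) * Complex.I) *
      (B (t / T) : ℂ) * ∏ j, I1c (k j) (m j) (f j) t (y j))).measurable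

/-- ROW HH. -/
theorem hh (n D M : ℕ) (hn : 1 ≤ n) (hD : 3 ≤ D) (κ A : ℝ) (hG : Good D M κ A) (N : ℕ) (hN : 2 ≤ N)
    (hND : (n + 1) * N ≤ D) (p : ℝ) (hp : 2 ≤ p) : ∃ C : ℝ, 0 ≤ C ∧
    ∀ (T : ℝ) (k m : Fin n → ℕ) (f : Fin n → Fn D M) (J : Fin n), 0 < T →
      (∀ j, m j ≤ k j) → (4 : ℝ) ^ k J ≤ 8 * T →
      ∫⁻ y : Fin n → ℝ, ‖Fc T k m f y‖ₑ ^ p ≤
        ENNReal.ofReal (C * (∏ j, (1 / 2 ^ k j : ℝ)) / om k m) *
          ∫⁻ Y : Fin n → ℝ, (∫⁻ q, Wt N A k m f Y q) ^ (p - 1) := by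
  obtain ⟨C1, hC1, hph⟩ := ph n D M hD κ A hG N hND
  obtain ⟨C2, hC2, htau⟩ := tau n D M hD A hG.2.2.1 N hN
  have hκ : 0 < κ := hG.1
  -- the constant
  refine ⟨(C1 ^ p * (2 * π) ^ n * C2) * (2 ^ p * κ) ^ n, by positivity, ?_⟩
  intro T k m f J hT hmk hJT
  have hom : 0 < om k m := hh_om hn k m
  have hmW := meas_Wt N A k m f
  -- one Y
  have hY : ∀ Y : Fin n → ℝ, ∫⁻ y : Fin n → ℝ,
      ‖Fc T k m f y * ∏ j, phat (κ / 2 ^ k j * (Y j - y j))‖ₑ ^ p ≤
      ENNReal.ofReal (C1 ^ p * (2 * π) ^ n * C2 / om k m) *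
        (∫⁻ q, Wt N A k m f Y q) ^ (p - 1) := by
    intro Y
    obtain ⟨hKi, hKf⟩ := ky_fourier κ hκ T hT k m f Y
    have hWY : Measurable fun q : (Fin n → ℝ) × ℝ => Wt N A k m f Y q :=
      hmW.comp (f := fun q : (Fin n → ℝ) × ℝ => (Y, q)) (by fun_prop)
    have hVm : Measurable fun ζ : Fin n → ℝ => ∫⁻ w : ℝ, Wt N A k m f Y (ζ, w) :=
      hWY.lintegral_prod_right'
    have e1 := hh_fix (KY κ T k m f Y) hKi (fun ζ => ∫⁻ w : ℝ, Wt N A k m f Y (ζ, w)) hVm
      (ENNReal.ofReal C1) (ENNReal.ofReal (C2 / om k m)) ENNReal.ofReal_ne_top (fun ζ => ?_)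
      (fun ζ => htau k m f Y ζ hn hmk) p hp
    · simp only [hKf] at e1
      refine e1.trans (le_of_eq ?_)
      have e2 : ∫⁻ ζ : Fin n → ℝ, ∫⁻ w : ℝ, Wt N A k m f Y (ζ, w) =
          ∫⁻ q, Wt N A k m f Y q := by
        rw [Measure.volume_eq_prod, lintegral_prod _ hWY.aemeasurable]
      rw [e2]
      congr 1
      rw [ENNReal.ofReal_rpow_of_nonneg hC1 (by linarith), ← ENNReal.ofReal_mul (by positivity),
        ← ENNReal.ofReal_mul (by positivity), mul_div_assoc]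
    · rw [ky_w κ (κ / om k m) hκ (by positivity) T hT k m f Y ζ,
        ← lintegral_const_mul' _ _ ENNReal.ofReal_ne_top]
      refine (enorm_integral_le_lintegral_enorm _).trans (lintegral_mono fun w => ?_)
      exact hph T k m f Y ζ w J hT hmk hJT
  -- lower bound for the product, on a box
  have hbox : ∀ y : Fin n → ℝ, ENNReal.ofReal (∏ j, ((2 : ℝ) ^ p)⁻¹ * (2 ^ k j / κ)) ≤
      ∫⁻ Y : Fin n → ℝ, ‖∏ j, phat (κ / 2 ^ k j * (Y j - y j))‖ₑ ^ p := by
    intro y
    set S : Set (Fin n → ℝ) := Set.pi univ fun j => Icc (y j - 2 ^ k j / κ / 2)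
      (y j + 2 ^ k j / κ / 2) with hS
    have hSm : MeasurableSet S := MeasurableSet.univ_pi fun _ => measurableSet_Icc
    have hSv : volume S = ENNReal.ofReal (∏ j, (2 ^ k j / κ : ℝ)) := by
      rw [hS, volume_pi_pi, ENNReal.ofReal_prod_of_nonneg fun j _ => by positivity]
      refine Finset.prod_congr rfl fun j _ => ?_
      rw [Real.volume_Icc]
      congr 1
      ring
    calc ENNReal.ofReal (∏ j, ((2 : ℝ) ^ p)⁻¹ * (2 ^ k j / κ))
        = ENNReal.ofReal (∏ _j : Fin n, ((2 : ℝ) ^ p)⁻¹) * volume S := by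
          rw [hSv, ← ENNReal.ofReal_mul (Finset.prod_nonneg fun _ _ => by positivity),
            ← Finset.prod_mul_distrib]
      _ = ∫⁻ _Y in S, ENNReal.ofReal (∏ _j : Fin n, ((2 : ℝ) ^ p)⁻¹) := by
          rw [setLIntegral_const]
      _ ≤ ∫⁻ Y in S, ‖∏ j, phat (κ / 2 ^ k j * (Y j - y j))‖ₑ ^ p := by
          refine setLIntegral_mono' hSm fun Y hYS => ?_
          rw [← ofReal_norm, ENNReal.ofReal_rpow_of_nonneg (norm_nonneg _) (by linarith),
            norm_prod]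
          refine ENNReal.ofReal_le_ofReal ?_
          rw [← Real.finsetProd_rpow _ _ fun j _ => norm_nonneg _]
          refine Finset.prod_le_prod (fun _ _ => by positivity) fun j _ => ?_
          have h1 : 1 / 2 ≤ ‖phat (κ / 2 ^ k j * (Y j - y j))‖ := by
            refine hh_phat _ ?_
            have h2 := hYS j (mem_univ j)
            have h3 : |Y j - y j| ≤ 2 ^ k j / κ / 2 := by
              rw [abs_le]
              constructor <;> linarith [h2.1, h2.2]
            rw [abs_mul, abs_of_pos (by positivity : 0 < κ / 2 ^ k j)]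
            calc κ / 2 ^ k j * |Y j - y j| ≤ κ / 2 ^ k j * (2 ^ k j / κ / 2) := by gcongr
              _ = 1 / 2 := by field_simp
          calc ((2 : ℝ) ^ p)⁻¹ = (1 / 2 : ℝ) ^ p := by
                rw [one_div, Real.inv_rpow (by norm_num)]
            _ ≤ _ := Real.rpow_le_rpow (by norm_num) h1 (by linarith)
      _ ≤ _ := setLIntegral_le_lintegral _ _
  -- Tonelli
  have hFm : Measurable (Fc T k m f) := hh_measF
  have hphm : Measurable phat := by
    have h1 : Continuous phi := bump1.continuous_normed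
    have h2 : Continuous fun q : ℝ × ℝ => (phi q.2 : ℂ) *
        Complex.exp (((q.1 * q.2 : ℝ) : ℂ) * Complex.I) := by fun_prop
    exact (h2.stronglyMeasurable.integral_prod_right
      (f := fun (u : ℝ) (x : ℝ) => (phi x : ℂ) *
        Complex.exp (((u * x : ℝ) : ℂ) * Complex.I))).measurable
  have hjm : Measurable fun q : (Fin n → ℝ) × (Fin n → ℝ) =>
      ‖Fc T k m f q.2 * ∏ j, phat (κ / 2 ^ k j * (q.1 j - q.2 j))‖ₑ ^ p := by
    refine Measurable.pow_const (Measurable.enorm ?_) _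
    refine (hFm.comp measurable_snd).mul (Finset.measurable_prod _ fun j _ => ?_)
    exact hphm.comp (by fun_prop)
  have htot : ENNReal.ofReal (∏ j, ((2 : ℝ) ^ p)⁻¹ * (2 ^ k j / κ)) *
      ∫⁻ y : Fin n → ℝ, ‖Fc T k m f y‖ₑ ^ p ≤
      ENNReal.ofReal (C1 ^ p * (2 * π) ^ n * C2 / om k m) *
        ∫⁻ Y : Fin n → ℝ, (∫⁻ q, Wt N A k m f Y q) ^ (p - 1) := by
    calc ENNReal.ofReal (∏ j, ((2 : ℝ) ^ p)⁻¹ * (2 ^ k j / κ)) *
          ∫⁻ y : Fin n → ℝ, ‖Fc T k m f y‖ₑ ^ p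
        = ∫⁻ y : Fin n → ℝ, ‖Fc T k m f y‖ₑ ^ p *
            ENNReal.ofReal (∏ j, ((2 : ℝ) ^ p)⁻¹ * (2 ^ k j / κ)) := by
          rw [lintegral_mul_const' _ _ ENNReal.ofReal_ne_top, mul_comm]
      _ ≤ ∫⁻ y : Fin n → ℝ, ‖Fc T k m f y‖ₑ ^ p *
            ∫⁻ Y : Fin n → ℝ, ‖∏ j, phat (κ / 2 ^ k j * (Y j - y j))‖ₑ ^ p :=
          lintegral_mono fun y => mul_le_mul_right (hbox y) _
      _ = ∫⁻ y : Fin n → ℝ, ∫⁻ Y : Fin n → ℝ,
            ‖Fc T k m f y * ∏ j, phat (κ / 2 ^ k j * (Y j - y j))‖ₑ ^ p := by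
          refine lintegral_congr fun y => ?_
          rw [← lintegral_const_mul]
          · refine lintegral_congr fun Y => ?_
            rw [enorm_mul, ENNReal.mul_rpow_of_nonneg _ _ (by linarith)]
          · refine Measurable.pow_const (Measurable.enorm ?_) _
            exact Finset.measurable_prod _ fun j _ => hphm.comp (by fun_prop)
      _ = ∫⁻ Y : Fin n → ℝ, ∫⁻ y : Fin n → ℝ,
            ‖Fc T k m f y * ∏ j, phat (κ / 2 ^ k j * (Y j - y j))‖ₑ ^ p := by
          refine lintegral_lintegral_swap ?_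
          exact (hjm.comp measurable_swap).aemeasurable
      _ ≤ ∫⁻ Y : Fin n → ℝ, ENNReal.ofReal (C1 ^ p * (2 * π) ^ n * C2 / om k m) *
            (∫⁻ q, Wt N A k m f Y q) ^ (p - 1) := lintegral_mono hY
      _ = _ := lintegral_const_mul' _ _ ENNReal.ofReal_ne_top
  -- conclusion
  set I1 : ℝ≥0∞ := ∫⁻ y : Fin n → ℝ, ‖Fc T k m f y‖ₑ ^ p with hI1
  set I2 : ℝ≥0∞ := ∫⁻ Y : Fin n → ℝ, (∫⁻ q, Wt N A k m f Y q) ^ (p - 1) with hI2
  set Pr0 : ℝ := ∏ j, ((2 : ℝ) ^ p)⁻¹ * (2 ^ k j / κ) with hPr0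
  have hPr : 0 < Pr0 := Finset.prod_pos fun j _ => by positivity
  have hinv : Pr0⁻¹ = (2 ^ p * κ) ^ n * ∏ j, (1 / 2 ^ k j : ℝ) := by
    rw [hPr0, ← Finset.prod_inv_distrib]
    calc ∏ j, (((2 : ℝ) ^ p)⁻¹ * (2 ^ k j / κ))⁻¹ = ∏ j, ((2 ^ p * κ) * (1 / 2 ^ k j : ℝ)) := by
          refine Finset.prod_congr rfl fun j _ => ?_
          field_simp
      _ = _ := by
          rw [Finset.prod_mul_distrib, Finset.prod_const, Finset.card_univ, Fintype.card_fin]
  calc I1 = ENNReal.ofReal Pr0⁻¹ * (ENNReal.ofReal Pr0 * I1) := by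
        rw [← mul_assoc, ← ENNReal.ofReal_mul (by positivity), inv_mul_cancel₀ hPr.ne',
          ENNReal.ofReal_one, one_mul]
    _ ≤ ENNReal.ofReal Pr0⁻¹ *
          (ENNReal.ofReal (C1 ^ p * (2 * π) ^ n * C2 / om k m) * I2) := mul_le_mul_right htot _
    _ = _ := by
        rw [← mul_assoc, ← ENNReal.ofReal_mul (by positivity), hinv]
        congr 2
        ring

end Pool.Agent.SPN
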