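import Pool.Agent.SPNH.Defs

/-!
Exponents in dimension three.
-/

namespace Pool.Agent.SPN

open MeasureTheory Set Pool.Agent.MP_6cbfb8_an
open Pool.Agent.SEP (B phi phat beta om tj Tb)
open scoped ENNReal Real

/-- Arithmetic of the exponents. -/
theorem sum3_arith {θ : ℝ} (hθ0 : 0 < θ) (hθ1 : θ < 1)
    {K SM SU MJ ui Mi v Ms us c m0 Y : ℝ} (hK : 0 ≤ K) (hMJ : 0 ≤ MJ) (hMJ' : MJ ≤ SM)
    (hui : 0 ≤ ui) (hui' : ui ≤ SU) (hMi : 0 ≤ Mi) (hMi' : Mi ≤ m0) (hMs : 0 ≤ Ms) (hus : 0 ≤ us)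
    (hv : v = Ms + us) (hvJ : v ≤ MJ) (hc : 0 ≤ c)
    (hY : (Y ≤ K + MJ) ∨
      (Y ≤ 2 * K + θ * (-K - v + c + 2 * MJ) ∧
        (Y ≤ K + ui + Mi ∨
          (Y ≤ 2 * K + θ * (-K - v + c + 2 * Mi + 4 * ui) ∧
            (Y ≤ K + v ∨ Y ≤ 2 * K + θ * (-K - v + c + 2 * Ms + 4 * us)))))) :
    Y ≤ (2 - θ) * K + SM + SU + (c + m0) := by
  have one : ∀ x : ℝ, 0 ≤ x → θ * x ≤ x := fun x hx => by nlinarith
  have pos : ∀ x : ℝ, 0 ≤ x → 0 ≤ θ * x := fun x hx => mul_nonneg hθ0.le hx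
  have hv0 : 0 ≤ v := by rw [hv]; linarith
  have h1 := one K hK
  have h2 := one MJ hMJ
  have h3 := one ui hui
  have h4 := one Mi hMi
  have h5 := one c hc
  have h6 := one v hv0
  have h7 := pos v hv0
  have h8 := pos Ms hMs
  have h9 := pos us hus
  have h10 : θ * v = θ * Ms + θ * us := by rw [hv]; ring
  rcases hY with h | ⟨e1, h | ⟨e2, h | h⟩⟩ <;> linarith

theorem om_le3 {n : ℕ} (k m : Fin n → ℕ) (s : Fin n) (hs : ∀ j, m s + k s ≤ m j + k j) :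
    om k m ≤ n * (1 / 2 ^ (m s + k s)) := by
  unfold om
  calc ∑ j, (1 / 2 ^ (m j + k j) : ℝ) ≤ ∑ _j : Fin n, (1 / 2 ^ (m s + k s) : ℝ) := by
        refine Finset.sum_le_sum fun j _ => ?_
        exact one_div_le_one_div_of_le (by positivity)
          (pow_le_pow_right₀ (by norm_num) (hs j))
    _ = _ := by rw [Finset.sum_const, Finset.card_univ, Fintype.card_fin, nsmul_eq_mul]

theorem om_pos3 {n : ℕ} (k m : Fin n → ℕ) (J : Fin n) : 0 < om k m := by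
  unfold om
  exact Finset.sum_pos (fun j _ => by positivity) ⟨J, Finset.mem_univ J⟩

theorem tj_pos3 {n : ℕ} (θ : ℝ) (k m : Fin n → ℕ) (σ : Finset (Fin n)) (J j : Fin n) :
    0 < tj θ k m σ J j := by
  have := om_pos3 k m J
  unfold tj
  split_ifs
  · positivity
  · positivity

theorem Tb_pos3 {n : ℕ} (θ : ℝ) (k m : Fin n → ℕ) (σ : Finset (Fin n)) (J : Fin n) :
    0 < Tb θ k m σ J := by
  have : Nonempty (Fin n) := ⟨J⟩
  unfold Tb
  refine lt_min (by positivity) ?_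
  obtain ⟨j, hj⟩ := exists_eq_ciInf_of_finite (f := fun j => tj θ k m σ J j)
  rw [← hj]
  exact tj_pos3 θ k m σ J j

theorem Tb_le_tj3 {n : ℕ} (θ : ℝ) (k m : Fin n → ℕ) (σ : Finset (Fin n)) (J j : Fin n) :
    Tb θ k m σ J ≤ tj θ k m σ J j :=
  (min_le_right _ _).trans (ciInf_le (Set.finite_range _).bddBelow j)

theorem prod3 {n : ℕ} (m : Fin n → ℕ) :
    ∏ j, (1 / 2 ^ m j : ℝ) = (2 : ℝ) ^ (-∑ j, (m j : ℝ)) := by
  rw [← Finset.sum_neg_distrib, Real.rpow_sum_of_pos (by norm_num)]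
  refine Finset.prod_congr rfl fun j _ => ?_
  rw [Real.rpow_neg (by norm_num), Real.rpow_natCast, one_div]

/-- ROW SUM3. -/
theorem sum3 (a : ℝ) (ha : 1 < a) (ha1 : a ≤ 11 / 10) :
    ∃ θ : ℝ, 0 < θ ∧ θ < 1 ∧ ∀ m0 : ℕ, ∃ C ε : ℝ, 0 < C ∧ 0 < ε ∧
      ∀ (k m : Fin 3 → ℕ) (σ : Finset (Fin 3)) (J : Fin 3), (∀ j, k J ≤ k j) → (∀ j, m j ≤ k j) →
        (∃ i, m i ≤ m0) →
        4 ^ k J * (∏ j, (1 / 2 ^ m j : ℝ)) * ((∏ j, (1 / 2 ^ k j : ℝ)) * Tb θ k m σ J) *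
            ((∏ j, (1 / 2 ^ k j : ℝ)) * 4 ^ k J) ^ (a - 1) ≤
          C * (2 : ℝ) ^ (-ε * ∑ j, ((k j : ℝ) + m j)) := by
  set e : ℝ := a - 1 with he
  have he0 : 0 < e := by rw [he]; linarith
  have he1 : e ≤ 1 / 10 := by rw [he]; linarith
  set θ : ℝ := 1 - e / 4 with hθ
  have hθp : 0 < θ := by rw [hθ]; linarith
  have hθ1 : θ < 1 := by rw [hθ]; linarith
  refine ⟨θ, hθp, hθ1, fun m0 => ?_⟩
  set c : ℝ := Real.logb 2 3 with hc
  have hc0 : 0 ≤ c := Real.logb_nonneg (by norm_num) (by norm_num)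
  have hc2 : (2 : ℝ) ^ c = 3 := Real.rpow_logb (by norm_num) (by norm_num) (by norm_num)
  refine ⟨2 ^ (c + m0), e / 8, by positivity, by positivity, ?_⟩
  intro k m σ J hkJ hmk ⟨i, hi⟩
  have hne : (Finset.univ : Finset (Fin 3)).Nonempty := ⟨J, Finset.mem_univ J⟩
  obtain ⟨s, -, hs⟩ := Finset.exists_min_image Finset.univ (fun j => m j + k j) hne
  have hs' : ∀ j, m s + k s ≤ m j + k j := fun j => hs j (Finset.mem_univ j)
  set Y : ℝ := Real.logb 2 (Tb θ k m σ J) with hY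
  have hT0 := Tb_pos3 θ k m σ J
  have hYT : (2 : ℝ) ^ Y = Tb θ k m σ J := Real.rpow_logb (by norm_num) (by norm_num) hT0
  have hYle : ∀ x : ℝ, Tb θ k m σ J ≤ 2 ^ x → Y ≤ x := by
    intro x hx
    rw [← hYT] at hx
    exact (Real.rpow_le_rpow_left_iff (by norm_num)).1 hx
  have h4 : ∀ r : ℕ, (4 : ℝ) ^ r = 2 ^ (2 * (r : ℝ)) := by
    intro r
    rw [Real.rpow_mul (by norm_num), Real.rpow_natCast]
    norm_num
  have h16 : ∀ r : ℕ, (16 : ℝ) ^ r = 2 ^ (4 * (r : ℝ)) := by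
    intro r
    rw [show (4 : ℝ) = ((4 : ℕ) : ℝ) by norm_num, Real.rpow_mul (by norm_num), Real.rpow_natCast,
      Real.rpow_natCast]
    norm_num
  have hom : om k m ≤ 2 ^ (c - m s - k s) := by
    refine (om_le3 k m s hs').trans_eq ?_
    rw [Real.rpow_sub (by norm_num), Real.rpow_sub (by norm_num), hc2, Real.rpow_natCast,
      Real.rpow_natCast, pow_add]
    push_cast
    field_simp
  have hin : ∀ j, j ∈ σ → Y ≤ (m j : ℝ) + k j := by
    intro j hj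
    apply hYle
    refine (Tb_le_tj3 θ k m σ J j).trans_eq ?_
    unfold tj
    rw [if_pos hj, ← Nat.cast_add, Real.rpow_natCast]
  have hout : ∀ j, j ∉ σ → Y ≤ 2 * (k J : ℝ) + θ * (c - m s - k s + 2 * m j + 4 * k j -
      4 * (k J : ℝ)) := by
    intro j hj
    apply hYle
    refine (Tb_le_tj3 θ k m σ J j).trans ?_
    unfold tj
    rw [if_neg hj, Real.rpow_add (by norm_num), ← h4]
    refine mul_le_mul_of_nonneg_left ?_ (by positivity)
    have hb : om k m * 4 ^ m j * 16 ^ k j / 16 ^ k J ≤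
        (2 : ℝ) ^ (c - m s - k s + 2 * m j + 4 * k j - 4 * (k J : ℝ)) := by
      rw [Real.rpow_sub (by norm_num : (0 : ℝ) < 2) _ (4 * (k J : ℝ)),
        Real.rpow_add (by norm_num : (0 : ℝ) < 2) _ (4 * (k j : ℝ)),
        Real.rpow_add (by norm_num : (0 : ℝ) < 2) _ (2 * (m j : ℝ)), ← h4, ← h16, ← h16]
      gcongr
    have hpos : 0 ≤ om k m * 4 ^ m j * 16 ^ k j / 16 ^ k J := by
      have := om_pos3 k m J
      positivity
    calc (om k m * 4 ^ m j * 16 ^ k j / 16 ^ k J) ^ θ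
        ≤ ((2 : ℝ) ^ (c - m s - k s + 2 * m j + 4 * k j - 4 * (k J : ℝ))) ^ θ :=
          Real.rpow_le_rpow hpos hb hθp.le
      _ = _ := by rw [← Real.rpow_mul (by norm_num), mul_comm]
  set SM : ℝ := ∑ j, (m j : ℝ) with hSM
  set SU : ℝ := ∑ j, ((k j : ℝ) - k J) with hSU
  have hSK : ∑ j, (k j : ℝ) = 3 * k J + SU := by
    rw [hSU, Finset.sum_sub_distrib, Finset.sum_const, Finset.card_univ, Fintype.card_fin,
      nsmul_eq_mul]
    push_cast
    ring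
  have hle : ∀ j, (k J : ℝ) ≤ k j := fun j => by exact_mod_cast hkJ j
  have hMle : ∀ j, (m j : ℝ) ≤ SM := fun j =>
    Finset.single_le_sum (f := fun j => (m j : ℝ)) (fun _ _ => Nat.cast_nonneg _)
      (Finset.mem_univ j)
  have hUle : ∀ j, (k j : ℝ) - k J ≤ SU := fun j =>
    Finset.single_le_sum (f := fun j => (k j : ℝ) - k J) (fun j _ => by linarith [hle j])
      (Finset.mem_univ j)
  have hSMK : SM ≤ 3 * k J + SU := by
    rw [← hSK, hSM]
    exact Finset.sum_le_sum fun j _ => by exact_mod_cast hmk j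
  have key := sum3_arith (θ := θ) hθp hθ1 (K := k J) (SM := SM) (SU := SU) (MJ := m J)
    (ui := (k i : ℝ) - k J)
    (Mi := m i) (v := m s + (k s - k J)) (Ms := m s) (us := k s - k J) (c := c) (m0 := m0)
    (Y := Y) (Nat.cast_nonneg _) (Nat.cast_nonneg _) (hMle J) (by linarith [hle i]) (hUle i)
    (Nat.cast_nonneg _) (by exact_mod_cast hi) (Nat.cast_nonneg _) (by linarith [hle s]) rfl
    (by
      have : ((m s + k s : ℕ) : ℝ) ≤ ((m J + k J : ℕ) : ℝ) := by exact_mod_cast hs' J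
      push_cast at this
      linarith) hc0 (by
      by_cases hJ : J ∈ σ
      · left
        have := hin J hJ
        linarith
      · right
        refine ⟨?_, ?_⟩
        · refine (hout J hJ).trans_eq ?_
          ring
        by_cases hiσ : i ∈ σ
        · left
          have := hin i hiσ
          linarith
        · right
          refine ⟨?_, ?_⟩
          · refine (hout i hiσ).trans_eq ?_
            ring
          by_cases hsσ : s ∈ σ
          · left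
            have := hin s hsσ
            linarith
          · right
            refine (hout s hsσ).trans_eq ?_
            ring)
  have hsum : ∑ j, ((k j : ℝ) + m j) = 3 * k J + SU + SM := by
    rw [Finset.sum_add_distrib, hSK]
  rw [prod3, prod3, ← hSM, hSK, ← hYT, h4, hsum, ← Real.rpow_add (by norm_num),
    ← Real.rpow_add (by norm_num), ← Real.rpow_add (by norm_num), ← Real.rpow_add (by norm_num),
    ← Real.rpow_mul (by norm_num), ← Real.rpow_add (by norm_num), ← Real.rpow_add (by norm_num)]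
  apply Real.rpow_le_rpow_of_exponent_le (by norm_num)
  have hK0 : (0 : ℝ) ≤ k J := Nat.cast_nonneg _
  have hSU0 : 0 ≤ SU := by
    have := hUle J
    linarith
  have f1 : e * (3 * k J + SU + SM) ≤ e * (6 * k J + 2 * SU) :=
    mul_le_mul_of_nonneg_left (by linarith) he0.le
  have f2 : 0 ≤ e * SU := mul_nonneg he0.le hSU0
  have f3 : 0 ≤ e * (k J : ℝ) := mul_nonneg he0.le hK0
  have f4 : (2 - θ) * (k J : ℝ) = k J + e * k J / 4 := by rw [hθ]; ring
  rw [f4] at key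
  have e1 : 2 * (k J : ℝ) + -SM + (-(3 * k J + SU) + Y) + (-(3 * k J + SU) + 2 * (k J : ℝ)) * e =
      -(k J : ℝ) - SM - SU + Y - e * k J - e * SU := by ring
  rw [e1]
  have e2 : -(e / 8) * (3 * k J + SU + SM) = -(e * (3 * k J + SU + SM)) / 8 := by ring
  rw [e2]
  linarith

/-- ROW SUM3b. -/
theorem sum3b (a θ : ℝ) (ha : 1 ≤ a) : ∃ (C ε : ℝ), 0 < C ∧
    0 < ε ∧ ∀ (k m : Fin 3 → ℕ) (σ : Finset (Fin 3)) (J : Fin 3), (∀ j, k J ≤ k j) →
        (∀ j, m j ≤ k j) →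
        om k m ^ 4 *
          (4 ^ k J * (∏ j, (1 / 2 ^ m j : ℝ)) * ((∏ j, (1 / 2 ^ k j : ℝ)) * Tb θ k m σ J) *
            ((∏ j, (1 / 2 ^ k j : ℝ)) * 4 ^ k J) ^ (a - 1)) ≤
          C * (2 : ℝ) ^ (-ε * ∑ j, ((k j : ℝ) + m j)) := by
  refine ⟨81, 1, by norm_num, one_pos, fun k m σ J hJ _ => ?_⟩
  have hom0 := om_pos3 k m J
  have hom : om k m ≤ 3 * (1 / 2 ^ k J) := by
    unfold om
    calc ∑ j, (1 / 2 ^ (m j + k j) : ℝ) ≤ ∑ _j : Fin 3, (1 / 2 ^ k J : ℝ) := by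
          refine Finset.sum_le_sum fun j _ => ?_
          refine one_div_le_one_div_of_le (by positivity) ?_
          exact pow_le_pow_right₀ (by norm_num) ((hJ j).trans (Nat.le_add_left _ _))
      _ = 3 * (1 / 2 ^ k J) := by
        rw [Finset.sum_const, Finset.card_univ, Fintype.card_fin, nsmul_eq_mul]
        norm_num
  have hT : Tb θ k m σ J ≤ 4 ^ k J := min_le_left _ _
  have hT0 := Tb_pos3 θ k m σ J
  have hPk : 0 < ∏ j, (1 / 2 ^ k j : ℝ) := Finset.prod_pos fun j _ => by positivity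
  have hPm : 0 < ∏ j, (1 / 2 ^ m j : ℝ) := Finset.prod_pos fun j _ => by positivity
  set x : ℝ := 2 ^ k J with hx
  have hx1 : 1 ≤ x := one_le_pow₀ (by norm_num)
  have hx0 : 0 < x := by positivity
  have h4x : (4 : ℝ) ^ k J = x ^ 2 := by
    rw [hx, ← pow_mul, mul_comm (k J) 2, pow_mul]
    norm_num
  have hPk3 : ∏ j, (1 / 2 ^ k j : ℝ) ≤ 1 / x ^ 3 := by
    calc ∏ j, (1 / 2 ^ k j : ℝ) ≤ ∏ _j : Fin 3, (1 / x : ℝ) := by
          refine Finset.prod_le_prod (fun j _ => by positivity) fun j _ => ?_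
          exact one_div_le_one_div_of_le hx0 (pow_le_pow_right₀ (by norm_num) (hJ j))
      _ = 1 / x ^ 3 := by
        rw [Finset.prod_const, Finset.card_univ, Fintype.card_fin, one_div, one_div, inv_pow]
  have hr : ((∏ j, (1 / 2 ^ k j : ℝ)) * 4 ^ k J) ^ (a - 1) ≤ 1 := by
    refine Real.rpow_le_one (by positivity) ?_ (by linarith)
    rw [h4x]
    calc (∏ j, (1 / 2 ^ k j : ℝ)) * x ^ 2 ≤ 1 / x ^ 3 * x ^ 2 :=
          mul_le_mul_of_nonneg_right hPk3 (by positivity)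
      _ = 1 / x := by field_simp
      _ ≤ 1 := by
        rw [div_le_one hx0]
        exact hx1
  have hr0 : 0 ≤ ((∏ j, (1 / 2 ^ k j : ℝ)) * 4 ^ k J) ^ (a - 1) := by positivity
  have hom4 : om k m ^ 4 ≤ 81 / x ^ 4 := by
    calc om k m ^ 4 ≤ (3 * (1 / x)) ^ 4 := pow_le_pow_left₀ hom0.le hom 4
      _ = 81 / x ^ 4 := by
        rw [mul_pow, div_pow, one_pow]
        ring
  have hin : 4 ^ k J * (∏ j, (1 / 2 ^ m j : ℝ)) * ((∏ j, (1 / 2 ^ k j : ℝ)) * Tb θ k m σ J) *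
      ((∏ j, (1 / 2 ^ k j : ℝ)) * 4 ^ k J) ^ (a - 1) ≤
      x ^ 2 * (∏ j, (1 / 2 ^ m j : ℝ)) * ((∏ j, (1 / 2 ^ k j : ℝ)) * x ^ 2) := by
    calc _ ≤ 4 ^ k J * (∏ j, (1 / 2 ^ m j : ℝ)) * ((∏ j, (1 / 2 ^ k j : ℝ)) * Tb θ k m σ J) * 1 :=
          mul_le_mul_of_nonneg_left hr (by positivity)
      _ ≤ _ := by
        rw [mul_one, h4x]
        rw [h4x] at hT
        gcongr
  calc om k m ^ 4 *
        (4 ^ k J * (∏ j, (1 / 2 ^ m j : ℝ)) * ((∏ j, (1 / 2 ^ k j : ℝ)) * Tb θ k m σ J) *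
          ((∏ j, (1 / 2 ^ k j : ℝ)) * 4 ^ k J) ^ (a - 1))
      ≤ 81 / x ^ 4 * (x ^ 2 * (∏ j, (1 / 2 ^ m j : ℝ)) * ((∏ j, (1 / 2 ^ k j : ℝ)) * x ^ 2)) :=
        mul_le_mul hom4 hin (by positivity) (by positivity)
    _ = 81 * ((∏ j, (1 / 2 ^ m j : ℝ)) * (∏ j, (1 / 2 ^ k j : ℝ))) := by
        field_simp
    _ = 81 * (2 : ℝ) ^ (-1 * ∑ j, ((k j : ℝ) + m j)) := by
        rw [prod3, prod3, ← Real.rpow_add (by norm_num), Finset.sum_add_distrib]
        congr 2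
        ring

end Pool.Agent.SPN
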