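import Pool.Agent.SPNH.SUPP
import Pool.Agent.SPNH.HH
import Pool.Agent.SPNH.DY
import Pool.Agent.SPNH.GEO
import Pool.Agent.SPNH.SUM3
import Pool.Agent.SEPH.SUM1

/-!
Rows EMPT, CB, CB3: the class bound.
-/

namespace Pool.Agent.SPN

open MeasureTheory Set Pool.Agent.MP_6cbfb8_an
open Pool.Agent.SEP (B phi phat beta om tj Tb)
open scoped ENNReal Real

/-- ROW EMPT. -/
theorem empt (n : ℕ) (A : ℝ) : ∃ m0 : ℕ, ∀ (D M : ℕ) (k m : Fin n → ℕ) (f : Fin n → Fn D M)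
    (σ : Finset (Fin n)) (Λ : ℝ), (∀ j, m0 ≤ m j) → (Zf A k m f σ Λ).Nonempty →
      1 ≤ 2 * Λ * om k m := by
  obtain ⟨m0, hm0⟩ := pow_unbounded_of_one_lt (2 * (n : ℝ) * A ^ 2) (show (1 : ℝ) < 4 by norm_num)
  refine ⟨m0, fun D M k m f σ Λ hm hne => ?_⟩
  obtain ⟨p, hp⟩ := hne
  have h4 : (0 : ℝ) < 4 ^ m0 := by positivity
  have h1 : ∀ j, p.1 j ^ 2 ≤ A ^ 2 / 4 ^ m0 := by
    intro j
    have h2 := (hp.1 j).zup
    have h3 : |p.1 j| * 2 ^ m0 ≤ A := by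
      refine le_trans (mul_le_mul_of_nonneg_left ?_ (abs_nonneg _)) h2
      exact pow_le_pow_right₀ (by norm_num) (hm j)
    rw [le_div_iff₀ h4]
    have h5 : (|p.1 j| * 2 ^ m0) ^ 2 ≤ A ^ 2 := pow_le_pow_left₀ (by positivity) h3 2
    have h6 : (|p.1 j| * 2 ^ m0) ^ 2 = p.1 j ^ 2 * 4 ^ m0 := by
      rw [mul_pow, sq_abs, ← pow_mul, mul_comm m0 2, pow_mul]
      norm_num
    linarith
  have h7 : ∑ j, p.1 j ^ 2 ≤ 1 / 2 := by
    calc ∑ j, p.1 j ^ 2 ≤ ∑ _j : Fin n, A ^ 2 / 4 ^ m0 := Finset.sum_le_sum fun j _ => h1 j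
      _ = n * (A ^ 2 / 4 ^ m0) := by
        rw [Finset.sum_const, Finset.card_univ, Fintype.card_fin, nsmul_eq_mul]
      _ ≤ 1 / 2 := by
        rw [← mul_div_assoc, div_le_iff₀ h4]
        linarith
  have h8 := (abs_le.1 hp.2.2).1
  linarith

lemma cb_om_nonneg {n : ℕ} (k m : Fin n → ℕ) : 0 ≤ om k m :=
  Finset.sum_nonneg fun j _ => by positivity

lemma cb_Tb_nonneg {n : ℕ} (θ : ℝ) (k m : Fin n → ℕ) (σ : Finset (Fin n)) (J : Fin n) :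
    0 ≤ Tb θ k m σ J := by
  unfold Tb
  refine le_min (by positivity) (Real.iInf_nonneg fun j => ?_)
  unfold tj
  split_ifs
  · positivity
  · have h := cb_om_nonneg k m
    positivity

lemma cb_prod {n : ℕ} (m : Fin n → ℕ) :
    ∏ j, (1 / 2 ^ m j : ℝ) = (2 : ℝ) ^ (-∑ j, (m j : ℝ)) := by
  rw [← Finset.sum_neg_distrib, Real.rpow_sum_of_pos (by norm_num)]
  refine Finset.prod_congr rfl fun j _ => ?_
  rw [Real.rpow_neg (by norm_num), Real.rpow_natCast, one_div]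

/-- `SEP.sum2` with `N = 4`. -/
theorem sum2n (n : ℕ) (hn : 4 ≤ n) (a θ : ℝ) (ha : 0 < a) (ha1 : a < 1) : ∃ (C ε : ℝ), 0 < C ∧
    0 < ε ∧ ∀ (k m : Fin n → ℕ) (σ : Finset (Fin n)) (J : Fin n), (∀ j, k J ≤ k j) →
        (∀ j, m j ≤ k j) →
        om k m ^ 4 *
          (4 ^ k J * (∏ j, (1 / 2 ^ m j : ℝ)) * ((∏ j, (1 / 2 ^ k j : ℝ)) * Tb θ k m σ J) ^ a) ≤
          C * (2 : ℝ) ^ (-ε * ∑ j, ((k j : ℝ) + m j)) := by
  have hn0 : (0 : ℝ) < n := by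
    have : 0 < n := by omega
    exact_mod_cast this
  refine ⟨(n : ℝ) ^ 4, a, by positivity, ha, fun k m σ J hJ _ => ?_⟩
  have hom : om k m ≤ n * (1 / 2 ^ k J) := by
    unfold om
    calc ∑ j, (1 / 2 ^ (m j + k j) : ℝ) ≤ ∑ _j : Fin n, (1 / 2 ^ k J : ℝ) := by
          refine Finset.sum_le_sum fun j _ => ?_
          refine one_div_le_one_div_of_le (by positivity) ?_
          exact pow_le_pow_right₀ (by norm_num) ((hJ j).trans (Nat.le_add_left _ _))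
      _ = n * (1 / 2 ^ k J) := by
        rw [Finset.sum_const, Finset.card_univ, Fintype.card_fin, nsmul_eq_mul]
  have hT : Tb θ k m σ J ≤ 4 ^ k J := min_le_left _ _
  have hT0 := cb_Tb_nonneg θ k m σ J
  have hPk : 0 ≤ ∏ j, (1 / 2 ^ k j : ℝ) := Finset.prod_nonneg fun j _ => by positivity
  have hPm : 0 ≤ ∏ j, (1 / 2 ^ m j : ℝ) := Finset.prod_nonneg fun j _ => by positivity
  set x : ℝ := 2 ^ k J with hx
  have hx1 : 1 ≤ x := one_le_pow₀ (by norm_num)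
  have h4x : (4 : ℝ) ^ k J = x ^ 2 := by
    rw [hx, ← pow_mul, mul_comm (k J) 2, pow_mul]
    norm_num
  have hTa : (((∏ j, (1 / 2 ^ k j : ℝ)) * Tb θ k m σ J) ^ a) ≤
      (∏ j, (1 / 2 ^ k j : ℝ)) ^ a * x ^ 2 := by
    rw [Real.mul_rpow hPk hT0]
    refine mul_le_mul_of_nonneg_left ?_ (Real.rpow_nonneg hPk a)
    calc Tb θ k m σ J ^ a ≤ (x ^ 2) ^ a := Real.rpow_le_rpow hT0 (by rwa [← h4x]) ha.le
      _ ≤ (x ^ 2) ^ (1 : ℝ) := Real.rpow_le_rpow_of_exponent_le (one_le_pow₀ hx1) ha1.le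
      _ = x ^ 2 := Real.rpow_one _
  have hom4 : om k m ^ 4 ≤ (n : ℝ) ^ 4 / x ^ 4 := by
    calc om k m ^ 4 ≤ (n * (1 / x)) ^ 4 := pow_le_pow_left₀ (cb_om_nonneg k m) hom 4
      _ = (n : ℝ) ^ 4 / x ^ 4 := by
        rw [mul_pow, div_pow, one_pow]
        ring
  have hfin : (∏ j, (1 / 2 ^ m j : ℝ)) * (∏ j, (1 / 2 ^ k j : ℝ)) ^ a ≤
      (2 : ℝ) ^ (-a * ∑ j, ((k j : ℝ) + m j)) := by
    rw [cb_prod, cb_prod, ← Real.rpow_mul (by norm_num), ← Real.rpow_add (by norm_num)]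
    refine Real.rpow_le_rpow_of_exponent_le (by norm_num) ?_
    rw [Finset.sum_add_distrib]
    have h0 : 0 ≤ ∑ j, (m j : ℝ) := Finset.sum_nonneg fun j _ => by positivity
    nlinarith
  calc om k m ^ 4 *
        (4 ^ k J * (∏ j, (1 / 2 ^ m j : ℝ)) * ((∏ j, (1 / 2 ^ k j : ℝ)) * Tb θ k m σ J) ^ a)
      ≤ (n : ℝ) ^ 4 / x ^ 4 * (x ^ 2 * (∏ j, (1 / 2 ^ m j : ℝ)) *
        ((∏ j, (1 / 2 ^ k j : ℝ)) ^ a * x ^ 2)) := by
        rw [h4x]
        refine mul_le_mul hom4 (mul_le_mul_of_nonneg_left hTa (by positivity)) ?_ (by positivity)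
        have := Real.rpow_nonneg (mul_nonneg hPk hT0) a
        positivity
    _ = (n : ℝ) ^ 4 * ((∏ j, (1 / 2 ^ m j : ℝ)) * (∏ j, (1 / 2 ^ k j : ℝ)) ^ a) := by
        field_simp
    _ ≤ (n : ℝ) ^ 4 * (2 : ℝ) ^ (-a * ∑ j, ((k j : ℝ) + m j)) :=
        mul_le_mul_of_nonneg_left hfin (by positivity)

/-- The class bound from the geometric bound with the quantity `X` and its two exponent bounds. -/
theorem cb_core (n M : ℕ) (hn : 3 ≤ n) (a : ℝ) (ha0 : 0 < a)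
    (X : (Fin n → ℕ) → (Fin n → ℕ) → Finset (Fin n) → Fin n → ℝ) (hX0 : ∀ k m σ J, 0 ≤ X k m σ J)
    (hg0 : ∀ A : ℝ, 1 ≤ A → ∃ C : ℝ, 1 ≤ C ∧
      ∀ (k m : Fin n → ℕ) (f : Fin n → Fn (Dn n) M) (σ : Finset (Fin n)) (Λ : ℝ) (J : Fin n),
        (∀ j, k J ≤ k j) → (∀ j, m j ≤ k j) → 1 ≤ Λ →
        ∫⁻ Y : Fin n → ℝ, volume (Zs A k m f σ Λ Y) ^ (1 + a) ≤
          ENNReal.ofReal (C * Λ ^ (5 * n + 6) * om k m * (∏ j, (2 ^ k j : ℝ)) * X k m σ J))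
    (hs1 : ∀ m0 : ℕ, ∃ C ε : ℝ, 0 < C ∧ 0 < ε ∧
      ∀ (k m : Fin n → ℕ) (σ : Finset (Fin n)) (J : Fin n), (∀ j, k J ≤ k j) → (∀ j, m j ≤ k j) →
        (∃ i, m i ≤ m0) → X k m σ J ≤ C * (2 : ℝ) ^ (-ε * ∑ j, ((k j : ℝ) + m j)))
    (hs2 : ∃ C ε : ℝ, 0 < C ∧ 0 < ε ∧
      ∀ (k m : Fin n → ℕ) (σ : Finset (Fin n)) (J : Fin n), (∀ j, k J ≤ k j) → (∀ j, m j ≤ k j) →
        om k m ^ 4 * X k m σ J ≤ C * (2 : ℝ) ^ (-ε * ∑ j, ((k j : ℝ) + m j))) :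
    ∃ C ε : ℝ, 0 < C ∧ 0 < ε ∧
    ∀ (T : ℝ) (k m : Fin n → ℕ) (f : Fin n → Fn (Dn n) M) (J : Fin n), 0 < T → (∀ j, k J ≤ k j) →
      (∀ j, m j ≤ k j) → (4 : ℝ) ^ k J ≤ 8 * T →
      ∫⁻ y : Fin n → ℝ, ‖Fc T k m f y‖ₑ ^ (2 + a) ≤
        ENNReal.ofReal (C * (2 : ℝ) ^ (-ε * ∑ j, ((k j : ℝ) + m j))) := by
  classical
  have hDn : 3 ≤ Dn n := by
    unfold Dn
    nlinarith
  obtain ⟨A, hG⟩ := supp (Dn n) M hDn
  have hA : 1 ≤ A := hG.2.2.1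
  obtain ⟨m0, hm0⟩ := empt n A
  obtain ⟨C1, ε1, hC1, hε1, h1⟩ := hs1 m0
  obtain ⟨C2, ε2, hC2, hε2, h2⟩ := hs2
  obtain ⟨Cg, hCg, hg⟩ := hg0 A hA
  obtain ⟨E, hE⟩ : ∃ E : ℕ, E = 5 * n + 6 := ⟨_, rfl⟩
  obtain ⟨N2, hN2⟩ : ∃ N2 : ℕ, N2 = 4 := ⟨_, rfl⟩
  obtain ⟨N, hN⟩ : ∃ N : ℕ, N = E + N2 + 2 := ⟨_, rfl⟩
  have hND : (n + 1) * N ≤ Dn n := by
    unfold Dn
    refine Nat.mul_le_mul le_rfl ?_
    omega
  rw [← hN2] at h2
  rw [← hE] at hg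
  obtain ⟨Ch, hCh, hh1⟩ := hh n (Dn n) M (by omega) hDn kap A hG N (by omega) hND (2 + a)
    (by linarith)
  obtain ⟨Cd, hCd, hd⟩ := dyp n (Dn n) M A N (by omega) (1 + a) (by linarith)
  obtain ⟨C', hC'⟩ : ∃ C' : ℝ, C' = Cg * (C1 + 2 ^ (N2 + 1) * C2) := ⟨_, rfl⟩
  have hC'0 : 0 ≤ C' := by
    rw [hC']
    positivity
  refine ⟨Ch * Cd * C' * 2 ^ n * 2 + 1, min ε1 ε2, by positivity, lt_min hε1 hε2, ?_⟩
  intro T k m f J hT hJ hmk hJT
  obtain ⟨S, hS⟩ : ∃ S : ℝ, S = ∑ j, ((k j : ℝ) + m j) := ⟨_, rfl⟩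
  have hS0 : 0 ≤ S := by
    rw [hS]
    positivity
  rw [← hS]
  obtain ⟨P, hP⟩ : ∃ P : ℝ, P = ∏ j, (2 : ℝ) ^ k j := ⟨_, rfl⟩
  obtain ⟨Q, hQ⟩ : ∃ Q : ℝ, Q = ∏ j, (1 / 2 ^ k j : ℝ) := ⟨_, rfl⟩
  have hP0 : 0 < P := by
    rw [hP]
    positivity
  have hQ0 : 0 < Q := by
    rw [hQ]
    positivity
  have hPQ : Q * P = 1 := by
    rw [hP, hQ, ← Finset.prod_mul_distrib]
    refine Finset.prod_eq_one fun j _ => ?_
    rw [one_div, inv_mul_cancel₀ (by positivity)]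
  have hom : 0 < om k m := by
    unfold om
    exact Finset.sum_pos (fun j _ => by positivity) ⟨⟨0, by omega⟩, Finset.mem_univ _⟩
  have hexp : ∀ ε, min ε1 ε2 ≤ ε → (2 : ℝ) ^ (-ε * S) ≤ (2 : ℝ) ^ (-(min ε1 ε2) * S) := by
    intro ε hε
    refine Real.rpow_le_rpow_of_exponent_le one_le_two ?_
    nlinarith
  -- the term for `i` and `σ`
  have hterm : ∀ (i : ℕ) (σ : Finset (Fin n)), ENNReal.ofReal (1 / 2 ^ (i * N)) *
      ∫⁻ Y : Fin n → ℝ, volume (Zs A k m f σ (2 ^ i) Y) ^ (1 + a) ≤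
      ENNReal.ofReal (C' * (om k m * P) * (2 : ℝ) ^ (-(min ε1 ε2) * S) * (1 / 2) ^ i) := by
    intro i σ
    obtain ⟨x, hX⟩ : ∃ x : ℝ, x = X k m σ J := ⟨_, rfl⟩
    have hgg := hg k m f σ (2 ^ i) J hJ hmk (one_le_pow₀ one_le_two)
    rw [← hX, ← hP] at hgg
    have hiN : (2 : ℝ) ^ (i * N) = (2 ^ i) ^ E * ((2 ^ i) ^ (N2 + 1) * 2 ^ i) := by
      rw [← pow_mul, ← pow_mul, ← pow_add, ← pow_add, hN]
      congr 1
      ring
    have hhalf : ((1 : ℝ) / 2) ^ i = 1 / 2 ^ i := by rw [one_div_pow]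
    by_cases hm : ∃ j, m j ≤ m0
    · have hX1 := h1 k m σ J hJ hmk hm
      rw [← hX, ← hS] at hX1
      calc ENNReal.ofReal (1 / 2 ^ (i * N)) * ∫⁻ Y : Fin n → ℝ, volume (Zs A k m f σ (2 ^ i) Y) ^ (1 + a)
          ≤ ENNReal.ofReal (1 / 2 ^ (i * N)) * ENNReal.ofReal (Cg * (2 ^ i) ^ E * om k m * P * x) := by
            gcongr
        _ = ENNReal.ofReal (1 / 2 ^ (i * N) * (Cg * (2 ^ i) ^ E * om k m * P * x)) :=
            (ENNReal.ofReal_mul (by positivity)).symm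
        _ ≤ _ := by
            refine ENNReal.ofReal_le_ofReal ?_
            have e1 : 1 / (2 : ℝ) ^ (i * N) * (Cg * (2 ^ i) ^ E * om k m * P * x) =
                (Cg * (om k m * P) * (1 / 2) ^ i) * (1 / (2 ^ i) ^ (N2 + 1)) * x := by
              rw [hiN, hhalf]
              field_simp
            rw [e1]
            have e2 : 1 / ((2 : ℝ) ^ i) ^ (N2 + 1) ≤ 1 := by
              rw [div_le_one (by positivity)]
              exact one_le_pow₀ (one_le_pow₀ one_le_two)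
            have e3 : (Cg * (om k m * P) * (1 / 2) ^ i) * (1 / (2 ^ i) ^ (N2 + 1)) * x ≤
                (Cg * (om k m * P) * (1 / 2) ^ i) * (1 / (2 ^ i) ^ (N2 + 1)) * (C1 * (2 : ℝ) ^ (-ε1 * S)) :=
              mul_le_mul_of_nonneg_left hX1 (by positivity)
            refine e3.trans ?_
            have e4 : (2 : ℝ) ^ (-ε1 * S) ≤ (2 : ℝ) ^ (-(min ε1 ε2) * S) := hexp ε1 (min_le_left _ _)
            calc (Cg * (om k m * P) * (1 / 2) ^ i) * (1 / (2 ^ i) ^ (N2 + 1)) * (C1 * (2 : ℝ) ^ (-ε1 * S))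
                ≤ (Cg * (om k m * P) * (1 / 2) ^ i) * 1 * (C1 * (2 : ℝ) ^ (-(min ε1 ε2) * S)) := by gcongr
              _ = Cg * C1 * (om k m * P) * (2 : ℝ) ^ (-(min ε1 ε2) * S) * (1 / 2) ^ i := by ring
              _ ≤ C' * (om k m * P) * (2 : ℝ) ^ (-(min ε1 ε2) * S) * (1 / 2) ^ i := by
                gcongr
                rw [hC']
                have : 0 ≤ Cg * (2 ^ (N2 + 1) * C2) := by positivity
                linarith [mul_add Cg C1 (2 ^ (N2 + 1) * C2)]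
    · push Not at hm
      by_cases hne : (Zf A k m f σ (2 ^ i)).Nonempty
      · have hio := hm0 (Dn n) M k m f σ (2 ^ i) (fun j => (hm j).le) hne
        have hX2 := h2 k m σ J hJ hmk
        rw [← hX, ← hS] at hX2
        calc ENNReal.ofReal (1 / 2 ^ (i * N)) * ∫⁻ Y : Fin n → ℝ, volume (Zs A k m f σ (2 ^ i) Y) ^ (1 + a)
            ≤ ENNReal.ofReal (1 / 2 ^ (i * N)) * ENNReal.ofReal (Cg * (2 ^ i) ^ E * om k m * P * x) := by
              gcongr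
          _ = ENNReal.ofReal (1 / 2 ^ (i * N) * (Cg * (2 ^ i) ^ E * om k m * P * x)) :=
              (ENNReal.ofReal_mul (by positivity)).symm
          _ ≤ _ := by
              refine ENNReal.ofReal_le_ofReal ?_
              have hXn : 0 ≤ x := by
                rw [hX]
                exact hX0 k m σ J
              have e1 : 1 / (2 : ℝ) ^ (i * N) * (Cg * (2 ^ i) ^ E * om k m * P * x) =
                  (Cg * (om k m * P) * (1 / 2) ^ i) * ((1 / 2 ^ i) ^ (N2 + 1) * x) := by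
                rw [hiN, hhalf, one_div_pow ((2 : ℝ) ^ i) (N2 + 1)]
                field_simp
              have e2 : (1 : ℝ) / 2 ^ i ≤ 2 * om k m := by
                rw [div_le_iff₀ (by positivity)]
                linarith
              have e2' : (1 : ℝ) / 2 ^ i ≤ 1 := by
                rw [div_le_one (by positivity)]
                exact one_le_pow₀ one_le_two
              have e5 : ((1 : ℝ) / 2 ^ i) ^ (N2 + 1) ≤ 2 ^ (N2 + 1) * om k m ^ N2 := by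
                calc ((1 : ℝ) / 2 ^ i) ^ (N2 + 1) = (1 / 2 ^ i) ^ N2 * (1 / 2 ^ i) := pow_succ _ _
                  _ ≤ (2 * om k m) ^ N2 * 1 := by gcongr
                  _ = 2 ^ N2 * om k m ^ N2 := by rw [mul_pow, mul_one]
                  _ ≤ 2 ^ (N2 + 1) * om k m ^ N2 := by
                    gcongr
                    · exact one_le_two
                    · omega
              rw [e1]
              have e4 : (2 : ℝ) ^ (-ε2 * S) ≤ (2 : ℝ) ^ (-(min ε1 ε2) * S) := hexp ε2 (min_le_right _ _)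
              calc (Cg * (om k m * P) * (1 / 2) ^ i) * ((1 / 2 ^ i) ^ (N2 + 1) * x)
                  ≤ (Cg * (om k m * P) * (1 / 2) ^ i) * (2 ^ (N2 + 1) * om k m ^ N2 * x) := by gcongr
                _ = (Cg * (om k m * P) * (1 / 2) ^ i) * (2 ^ (N2 + 1) * (om k m ^ N2 * x)) := by ring
                _ ≤ (Cg * (om k m * P) * (1 / 2) ^ i) * (2 ^ (N2 + 1) * (C2 * (2 : ℝ) ^ (-ε2 * S))) := by
                  gcongr
                _ ≤ (Cg * (om k m * P) * (1 / 2) ^ i) * (2 ^ (N2 + 1) * (C2 * (2 : ℝ) ^ (-(min ε1 ε2) * S))) := by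
                  gcongr
                _ = Cg * (2 ^ (N2 + 1) * C2) * (om k m * P) * (2 : ℝ) ^ (-(min ε1 ε2) * S) * (1 / 2) ^ i := by ring
                _ ≤ C' * (om k m * P) * (2 : ℝ) ^ (-(min ε1 ε2) * S) * (1 / 2) ^ i := by
                  gcongr
                  rw [hC']
                  have : 0 ≤ Cg * C1 := by positivity
                  linarith [mul_add Cg C1 (2 ^ (N2 + 1) * C2)]
      · have hZ : ∀ Y, volume (Zs A k m f σ (2 ^ i) Y) ^ (1 + a) = 0 := by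
          intro Y
          have h0 : Zs A k m f σ (2 ^ i) Y = ∅ := by
            rw [Set.eq_empty_iff_forall_notMem]
            intro p hp
            exact hne ⟨p, hp.1⟩
          rw [h0, measure_empty, ENNReal.zero_rpow_of_pos (by linarith)]
        simp [hZ]
  obtain ⟨R, hR⟩ : ∃ R : ℝ, R = C' * (om k m * P) * (2 : ℝ) ^ (-(min ε1 ε2) * S) := ⟨_, rfl⟩
  have hR0 : 0 ≤ R := by
    rw [hR]
    positivity
  have hsum : ∑' i : ℕ, ∑ σ : Finset (Fin n), ENNReal.ofReal (1 / 2 ^ (i * N)) *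
      ∫⁻ Y : Fin n → ℝ, volume (Zs A k m f σ (2 ^ i) Y) ^ (1 + a) ≤ ENNReal.ofReal (2 ^ n * R * 2) := by
    calc ∑' i : ℕ, ∑ σ : Finset (Fin n), ENNReal.ofReal (1 / 2 ^ (i * N)) *
        ∫⁻ Y : Fin n → ℝ, volume (Zs A k m f σ (2 ^ i) Y) ^ (1 + a)
        ≤ ∑' i : ℕ, ENNReal.ofReal (2 ^ n * R) * ENNReal.ofReal ((1 / 2) ^ i) := by
          refine ENNReal.tsum_le_tsum fun i => ?_
          calc ∑ σ : Finset (Fin n), ENNReal.ofReal (1 / 2 ^ (i * N)) *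
              ∫⁻ Y : Fin n → ℝ, volume (Zs A k m f σ (2 ^ i) Y) ^ (1 + a)
              ≤ ∑ _σ : Finset (Fin n), ENNReal.ofReal (R * (1 / 2) ^ i) :=
                Finset.sum_le_sum fun σ _ => by rw [hR]; exact hterm i σ
            _ = ENNReal.ofReal (2 ^ n * R) * ENNReal.ofReal ((1 / 2) ^ i) := by
                rw [Finset.sum_const, Finset.card_univ, Fintype.card_finset, Fintype.card_fin, nsmul_eq_mul,
                  ← ENNReal.ofReal_mul (by positivity)]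
                push_cast
                have e6 : (2 : ℝ≥0∞) ^ n = ENNReal.ofReal (2 ^ n) := by
                  rw [ENNReal.ofReal_pow (by norm_num)]
                  norm_num
                rw [e6, ← ENNReal.ofReal_mul (by positivity)]
                congr 1
                ring
      _ = ENNReal.ofReal (2 ^ n * R * 2) := by
          rw [ENNReal.tsum_mul_left, ← ENNReal.ofReal_tsum_of_nonneg (fun i => by positivity)
            summable_geometric_two, tsum_geometric_two, ← ENNReal.ofReal_mul (by positivity)]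
  calc ∫⁻ y : Fin n → ℝ, ‖Fc T k m f y‖ₑ ^ (2 + a)
      ≤ ENNReal.ofReal (Ch * (∏ j, (1 / 2 ^ k j : ℝ)) / om k m) *
          ∫⁻ Y : Fin n → ℝ, (∫⁻ q, Wt N A k m f Y q) ^ (2 + a - 1) := hh1 T k m f J hT hmk hJT
    _ = ENNReal.ofReal (Ch * Q / om k m) *
          ∫⁻ Y : Fin n → ℝ, (∫⁻ q, Wt N A k m f Y q) ^ (1 + a) := by
        rw [← hQ, show (2 : ℝ) + a - 1 = 1 + a by ring]
    _ ≤ ENNReal.ofReal (Ch * Q / om k m) * (ENNReal.ofReal Cd * ENNReal.ofReal (2 ^ n * R * 2)) := by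
        gcongr
        exact (hd k m f (by omega)).trans (by gcongr)
    _ = ENNReal.ofReal (Ch * Q / om k m * (Cd * (2 ^ n * R * 2))) := by
        rw [← ENNReal.ofReal_mul hCd, ← ENNReal.ofReal_mul (by positivity)]
    _ ≤ ENNReal.ofReal ((Ch * Cd * C' * 2 ^ n * 2 + 1) * (2 : ℝ) ^ (-(min ε1 ε2) * S)) := by
        refine ENNReal.ofReal_le_ofReal ?_
        have e7 : Ch * Q / om k m * (Cd * (2 ^ n * R * 2)) =
            (Q * P) * (Ch * Cd * C' * 2 ^ n * 2 * (2 : ℝ) ^ (-(min ε1 ε2) * S)) := by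
          rw [hR]
          field_simp
        rw [e7, hPQ, one_mul]
        have : 0 ≤ (2 : ℝ) ^ (-(min ε1 ε2) * S) := by positivity
        nlinarith

/-- ROW CB (n ≥ 4). -/
theorem cb (n M : ℕ) (hn : 4 ≤ n) (a : ℝ) (ha : 2 / ((n : ℝ) - 1) < a)
    (ha1 : a ≤ 17 / 25) : ∃ C ε : ℝ, 0 < C ∧ 0 < ε ∧
    ∀ (T : ℝ) (k m : Fin n → ℕ) (f : Fin n → Fn (Dn n) M) (J : Fin n), 0 < T → (∀ j, k J ≤ k j) →
      (∀ j, m j ≤ k j) → (4 : ℝ) ^ k J ≤ 8 * T →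
      ∫⁻ y : Fin n → ℝ, ‖Fc T k m f y‖ₑ ^ (2 + a) ≤
        ENNReal.ofReal (C * (2 : ℝ) ^ (-ε * ∑ j, ((k j : ℝ) + m j))) := by
  have ha0 : 0 < a := by
    have h1 : (0 : ℝ) < (n : ℝ) - 1 := by
      have : (4 : ℝ) ≤ n := by exact_mod_cast hn
      linarith
    exact lt_trans (by positivity) ha
  have ha2 : a < 1 := by linarith
  have hDn : 3 ≤ Dn n := by
    unfold Dn
    nlinarith
  obtain ⟨θ, hθ, hθ1, hs1⟩ := Pool.Agent.SEP.sum1 n hn a ha ha1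
  refine cb_core n M (by omega) a ha0 (fun k m σ J => 4 ^ k J * (∏ j, (1 / 2 ^ m j : ℝ)) *
    ((∏ j, (1 / 2 ^ k j : ℝ)) * Tb θ k m σ J) ^ a) ?_ ?_ hs1 (sum2n n hn a θ ha0 ha2)
  · intro k m σ J
    have := cb_Tb_nonneg θ k m σ J
    positivity
  · intro A hA
    exact geo n (Dn n) M hDn A hA a θ ha0 ha2 hθ hθ1

/-- ROW CB3 (n = 3). -/
theorem cb3 (M : ℕ) (a : ℝ) (ha : 1 < a) (ha1 : a ≤ 11 / 10) : ∃ C ε : ℝ, 0 < C ∧ 0 < ε ∧
    ∀ (T : ℝ) (k m : Fin 3 → ℕ) (f : Fin 3 → Fn (Dn 3) M) (J : Fin 3), 0 < T → (∀ j, k J ≤ k j) →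
      (∀ j, m j ≤ k j) → (4 : ℝ) ^ k J ≤ 8 * T →
      ∫⁻ y : Fin 3 → ℝ, ‖Fc T k m f y‖ₑ ^ (2 + a) ≤
        ENNReal.ofReal (C * (2 : ℝ) ^ (-ε * ∑ j, ((k j : ℝ) + m j))) := by
  have hDn : 3 ≤ Dn 3 := by
    unfold Dn
    norm_num
  obtain ⟨θ, hθ, hθ1, hs1⟩ := sum3 a ha ha1
  refine cb_core 3 M le_rfl a (by linarith) (fun k m σ J => 4 ^ k J * (∏ j, (1 / 2 ^ m j : ℝ)) *
    ((∏ j, (1 / 2 ^ k j : ℝ)) * Tb θ k m σ J) * ((∏ j, (1 / 2 ^ k j : ℝ)) * 4 ^ k J) ^ (a - 1))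
    ?_ ?_ hs1 (sum3b a θ ha.le)
  · intro k m σ J
    have := cb_Tb_nonneg θ k m σ J
    positivity
  · intro A hA
    exact geo3 3 (Dn 3) M hDn A hA a θ ha.le (by linarith) hθ hθ1

end Pool.Agent.SPN
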