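import Pool.Agent.SPNH.CHI0

/-!
The mollified indicators: derivatives at their own scale.
-/

namespace Pool.Agent.SPN

open MeasureTheory Set Pool.Agent.MP_6cbfb8_an
open Pool.Agent.SEP (B phi phat beta om tj Tb)
open scoped ENNReal Real Convolution ContDiff

/-- Derivatives of a convolution with a bounded function. -/
theorem conv_bd (h : ℝ × ℝ → ℝ) (hm : Measurable h) (h1 : ∀ q, |h q| ≤ 1) (i : ℕ) :
    ∀ {F : Type} [NormedAddCommGroup F] [NormedSpace ℝ F] (g : ℝ × ℝ → F), ContDiff ℝ ∞ g →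
      HasCompactSupport g → ∀ x,
      ‖iteratedFDeriv ℝ i (h ⋆[ContinuousLinearMap.lsmul ℝ ℝ, volume] g) x‖ ≤
        ∫ y, ‖iteratedFDeriv ℝ i g y‖ := by
  have hloc : LocallyIntegrable h volume := by
    refine (locallyIntegrable_const (1 : ℝ)).mono hm.aestronglyMeasurable
      (Filter.Eventually.of_forall fun q => ?_)
    rw [Real.norm_eq_abs, norm_one]
    exact h1 q
  induction i with
  | zero =>
    intro F _ _ g hg hc x
    rw [norm_iteratedFDeriv_zero]
    simp only [norm_iteratedFDeriv_zero]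
    rw [convolution_lsmul]
    have hgi : Integrable g := hg.continuous.integrable_of_hasCompactSupport hc
    calc ‖∫ t, h t • g (x - t)‖ ≤ ∫ t, ‖h t • g (x - t)‖ := norm_integral_le_integral_norm _
      _ ≤ ∫ t, ‖g (x - t)‖ := by
        refine integral_mono_of_nonneg (Filter.Eventually.of_forall fun t => norm_nonneg _)
          (hgi.comp_sub_left x).norm (Filter.Eventually.of_forall fun t => ?_)
        simp only
        rw [norm_smul, Real.norm_eq_abs]
        exact mul_le_of_le_one_left (norm_nonneg _) (h1 t)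
      _ = ∫ t, ‖g t‖ := integral_sub_left_eq_self (fun t => ‖g t‖) volume x
  | succ i ih =>
    intro F _ _ g hg hc x
    have hfd : fderiv ℝ (h ⋆[ContinuousLinearMap.lsmul ℝ ℝ, volume] g) =
        (h ⋆[ContinuousLinearMap.lsmul ℝ ℝ, volume] fderiv ℝ g) := by
      funext x
      have h2 := hc.hasFDerivAt_convolution_right (ContinuousLinearMap.lsmul ℝ ℝ) hloc
        (hg.of_le (by norm_cast)) x
      rw [h2.fderiv, convolution_def, convolution_def]
      rfl
    rw [← norm_iteratedFDeriv_fderiv, hfd]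
    simp only [← norm_iteratedFDeriv_fderiv]
    exact ih (fderiv ℝ g) (hg.fderiv_right (by norm_cast)) (hc.fderiv ℝ) x

/-- ROW CHI. -/
theorem chi_smooth (D M K : ℕ) : ∃ C : ℝ, 0 ≤ C ∧ ∀ (k : ℕ) (f : Fn D M) (x0 t0 r r' : ℝ), 0 ≤ r →
    r ≤ 2 * kap → 0 ≤ r' → r' ≤ kap →
    ContDiff ℝ K (fun p : ℝ × ℝ => chi k f (x0 + r / 2 ^ k * p.1) (t0 + r' * 4 ^ k * p.2)) ∧
      ∀ i ≤ K, ∀ p, ‖iteratedFDeriv ℝ i
        (fun p : ℝ × ℝ => chi k f (x0 + r / 2 ^ k * p.1) (t0 + r' * 4 ^ k * p.2)) p‖ ≤ C := by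
  set C : ℝ := ∑ i ∈ Finset.range (K + 1), (∫ y, ‖iteratedFDeriv ℝ i Phi2 y‖) * 2 ^ i with hC
  have hC0 : ∀ i, 0 ≤ (∫ y, ‖iteratedFDeriv ℝ i Phi2 y‖) * 2 ^ i := fun i =>
    mul_nonneg (integral_nonneg fun _ => norm_nonneg _) (by positivity)
  refine ⟨C, Finset.sum_nonneg fun i _ => hC0 i, fun k f x0 t0 r r' hr hr2 hr' hr2' => ?_⟩
  have hk := kap_pos
  set L : ℝ × ℝ →L[ℝ] ℝ × ℝ := ((r / kap) • ContinuousLinearMap.fst ℝ ℝ ℝ).prod
    ((r' / kap) • ContinuousLinearMap.snd ℝ ℝ ℝ) with hL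
  have hLa : ∀ p : ℝ × ℝ, L p = ((r / kap) * p.1, (r' / kap) * p.2) := fun p => rfl
  have hLn : ‖L‖ ≤ 2 := by
    refine ContinuousLinearMap.opNorm_le_bound _ (by norm_num) fun p => ?_
    rw [hLa, Prod.norm_def, Prod.norm_def]
    have h1 : r / kap ≤ 2 := by
      rw [div_le_iff₀ hk]
      exact hr2
    have h2 : r' / kap ≤ 1 := by
      rw [div_le_iff₀ hk]
      linarith
    have h3 : 0 ≤ r / kap := by positivity
    have h4 : 0 ≤ r' / kap := by positivity
    refine max_le ?_ ?_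
    · simp only [Real.norm_eq_abs, abs_mul, abs_of_nonneg h3]
      have := le_max_left |p.1| |p.2|
      have h0 := abs_nonneg p.1
      nlinarith
    · simp only [Real.norm_eq_abs, abs_mul, abs_of_nonneg h4]
      have := le_max_right |p.1| |p.2|
      have h0 := abs_nonneg p.2
      nlinarith
  set g : ℝ × ℝ → ℝ := fun P => chi k f (x0 + kap / 2 ^ k * P.1) (t0 + kap * 4 ^ k * P.2) with hg
  have heq : (fun p : ℝ × ℝ => chi k f (x0 + r / 2 ^ k * p.1) (t0 + r' * 4 ^ k * p.2)) =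
      g ∘ L := by
    funext p
    simp only [hg, Function.comp_apply, hLa]
    congr 2 <;> field_simp
  have hgs : ContDiff ℝ ∞ g := chi_conv_smooth k f x0 t0
  rw [heq]
  refine ⟨(hgs.of_le (by exact_mod_cast le_top)).comp L.contDiff, fun i hi p => ?_⟩
  have hgi : ContDiff ℝ i g := hgs.of_le (by exact_mod_cast le_top)
  rw [L.iteratedFDeriv_comp_right hgi p le_rfl]
  refine (ContinuousMultilinearMap.norm_compContinuousLinearMap_le _ _).trans ?_
  rw [Finset.prod_const, Finset.card_univ, Fintype.card_fin]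
  have hgc : g = ((fun q : ℝ × ℝ => inU k f (x0 + kap / 2 ^ k * q.1, t0 + kap * 4 ^ k * q.2))
      ⋆[ContinuousLinearMap.lsmul ℝ ℝ, volume] Phi2) := funext (chi_conv k f x0 t0)
  have hb : ‖iteratedFDeriv ℝ i g (L p)‖ ≤ ∫ y, ‖iteratedFDeriv ℝ i Phi2 y‖ := by
    have hm : Measurable fun q : ℝ × ℝ =>
        inU k f (x0 + kap / 2 ^ k * q.1, t0 + kap * 4 ^ k * q.2) :=
      (inU_meas k f).comp (by fun_prop)
    rw [hgc]
    refine conv_bd _ hm (fun q => ?_) i Phi2 Phi2_smooth Phi2_cs _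
    rw [abs_of_nonneg (inU_nonneg _ _ _)]
    exact inU_le _ _ _
  calc ‖iteratedFDeriv ℝ i g (L p)‖ * ‖L‖ ^ i ≤ (∫ y, ‖iteratedFDeriv ℝ i Phi2 y‖) * 2 ^ i :=
        mul_le_mul hb (pow_le_pow_left₀ (norm_nonneg _) hLn _) (by positivity)
          (integral_nonneg fun _ => norm_nonneg _)
    _ ≤ C := Finset.single_le_sum
        (f := fun i => (∫ y, ‖iteratedFDeriv ℝ i Phi2 y‖) * 2 ^ i) (fun i _ => hC0 i)
        (Finset.mem_range.2 (by omega))

end Pool.Agent.SPN
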