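import Pool.Agent.SPNH.Defs

/-!
The mollified indicators: first properties.
-/

namespace Pool.Agent.SPN

open MeasureTheory Set Pool.Agent.MP_6cbfb8_an
open Pool.Agent.SEP (B phi phat beta om tj Tb)
open scoped ENNReal Real Convolution ContDiff

theorem kap_pos : 0 < kap := by
  unfold kap
  norm_num

theorem phi_nonneg (x : ℝ) : 0 ≤ phi x := SEP.bump1.nonneg_normed x

theorem phi_zero {x : ℝ} (hx : 1 ≤ |x|) : phi x = 0 := by
  unfold phi
  by_contra h
  have h1 : x ∈ Function.support (SEP.bump1.normed volume) := h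
  rw [SEP.bump1.support_normed_eq] at h1
  rw [Metric.mem_ball, Real.dist_eq, sub_zero] at h1
  exact absurd h1 (not_lt.2 hx)

theorem phi_smooth : ContDiff ℝ ∞ phi := SEP.bump1.contDiff_normed

theorem phi_int : ∫ x, phi x = 1 := SEP.bump1.integral_normed

theorem phi_integrable : Integrable phi := by
  refine phi_smooth.continuous.integrable_of_hasCompactSupport ?_
  exact SEP.bump1.hasCompactSupport_normed

/-- The product bump. -/
noncomputable def Phi2 (p : ℝ × ℝ) : ℝ := phi p.1 * phi p.2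

theorem Phi2_smooth : ContDiff ℝ ∞ Phi2 :=
  (phi_smooth.comp contDiff_fst).mul (phi_smooth.comp contDiff_snd)

theorem Phi2_nonneg (p : ℝ × ℝ) : 0 ≤ Phi2 p := mul_nonneg (phi_nonneg _) (phi_nonneg _)

theorem Phi2_int : ∫ p, Phi2 p = 1 := by
  unfold Phi2
  rw [Measure.volume_eq_prod, integral_prod_mul, phi_int, one_mul]

theorem Phi2_cs : HasCompactSupport Phi2 := by
  refine HasCompactSupport.intro (isCompact_closedBall (0 : ℝ × ℝ) 1) fun p hp => ?_
  rw [mem_closedBall_zero_iff, Prod.norm_def, not_le, lt_max_iff] at hp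
  rcases hp with h | h
  · rw [Phi2, phi_zero (by rw [← Real.norm_eq_abs]; exact h.le), zero_mul]
  · rw [Phi2, phi_zero (x := p.2) (by rw [← Real.norm_eq_abs]; exact h.le), mul_zero]

theorem Phi2_integrable : Integrable Phi2 :=
  Phi2_smooth.continuous.integrable_of_hasCompactSupport Phi2_cs

/-- `U k` holds on a closed set. -/
theorem closed_U {D M : ℕ} (k : ℕ) (f : Fn D M) : IsClosed {p : ℝ × ℝ | U k f p.1 p.2} := by
  have h : {p : ℝ × ℝ | U k f p.1 p.2} = ⋂ i ∈ Finset.Icc 2 D, ⋂ u ∈ {u : ℝ | |u| ≤ 1 / 2 ^ k},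
      {p : ℝ × ℝ | |gd f p.2 i (p.1 + u)| ≤ 2 ^ (k * i)} := by
    ext p
    simp only [mem_ofPred_eq, mem_iInter, U]
    constructor
    · intro h i hi u hu
      exact h i hi (p.1 + u) (by simpa using hu)
    · intro h i hi x' hx'
      have := h i hi (x' - p.1) hx'
      simpa using this
  rw [h]
  refine isClosed_biInter fun i hi => isClosed_biInter fun u _ => ?_
  have hi' := Finset.mem_Icc.1 hi
  have hc : Continuous (iteratedDeriv i f.f) :=
    f.smooth.continuous_iteratedDeriv i (by exact_mod_cast (by omega : i ≤ D + 1))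
  unfold gd
  split_ifs
  · exact isClosed_le (by fun_prop) continuous_const
  · exact isClosed_le (by fun_prop) continuous_const

theorem meas_U {D M : ℕ} (k : ℕ) (f : Fn D M) : MeasurableSet {p : ℝ × ℝ | U k f p.1 p.2} :=
  (closed_U k f).measurableSet

open Classical in
/-- The indicator of `U k`. -/
noncomputable def inU {D M : ℕ} (k : ℕ) (f : Fn D M) (p : ℝ × ℝ) : ℝ :=
  if U k f p.1 p.2 then 1 else 0

theorem inU_meas {D M : ℕ} (k : ℕ) (f : Fn D M) : Measurable (inU k f) := by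
  classical
  exact Measurable.ite (meas_U k f) measurable_const measurable_const

theorem inU_nonneg {D M : ℕ} (k : ℕ) (f : Fn D M) (p : ℝ × ℝ) : 0 ≤ inU k f p := by
  unfold inU
  split_ifs <;> norm_num

theorem inU_le {D M : ℕ} (k : ℕ) (f : Fn D M) (p : ℝ × ℝ) : inU k f p ≤ 1 := by
  unfold inU
  split_ifs <;> norm_num

theorem chi_eq {D M : ℕ} (k : ℕ) (f : Fn D M) (x t : ℝ) :
    chi k f x t = ∫ p : ℝ × ℝ, inU k f (x - kap / 2 ^ k * p.1, t - kap * 4 ^ k * p.2) * Phi2 p :=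
  rfl

theorem chi_integrable {D M : ℕ} (k : ℕ) (f : Fn D M) (x t : ℝ) :
    Integrable fun p : ℝ × ℝ =>
      inU k f (x - kap / 2 ^ k * p.1, t - kap * 4 ^ k * p.2) * Phi2 p := by
  refine Phi2_integrable.bdd_mul (c := 1) ?_ (Filter.Eventually.of_forall fun p => ?_)
  · exact ((inU_meas k f).comp (by fun_prop)).aestronglyMeasurable
  · rw [Real.norm_eq_abs, abs_of_nonneg (inU_nonneg _ _ _)]
    exact inU_le _ _ _

theorem chi_nonneg {D M : ℕ} (k : ℕ) (f : Fn D M) (x t : ℝ) : 0 ≤ chi k f x t := by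
  rw [chi_eq]
  exact integral_nonneg fun p => mul_nonneg (inU_nonneg _ _ _) (Phi2_nonneg _)

theorem chi_le_one {D M : ℕ} (k : ℕ) (f : Fn D M) (x t : ℝ) : chi k f x t ≤ 1 := by
  rw [chi_eq, ← Phi2_int]
  refine integral_mono (chi_integrable k f x t) Phi2_integrable fun p => ?_
  exact mul_le_of_le_one_left (Phi2_nonneg _) (inU_le _ _ _)

/-- A point of the support of the bump moves the argument inside the box. -/
theorem Phi2_box {k : ℕ} {x t : ℝ} {p : ℝ × ℝ} (hp : Phi2 p ≠ 0) :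
    |x - kap / 2 ^ k * p.1 - x| ≤ kap / 2 ^ k ∧ |t - kap * 4 ^ k * p.2 - t| ≤ kap * 4 ^ k := by
  have h1 : |p.1| ≤ 1 := by
    by_contra h
    exact hp (by rw [Phi2, phi_zero (not_le.1 h).le, zero_mul])
  have h2 : |p.2| ≤ 1 := by
    by_contra h
    exact hp (by rw [Phi2, phi_zero (x := p.2) (not_le.1 h).le, mul_zero])
  have hk := kap_pos
  constructor
  · rw [sub_sub_cancel_left, abs_neg, abs_mul, abs_of_pos (by positivity)]
    exact mul_le_of_le_one_right (by positivity) h1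
  · rw [sub_sub_cancel_left, abs_neg, abs_mul, abs_of_pos (by positivity)]
    exact mul_le_of_le_one_right (by positivity) h2

/-- `chi = 1` if `U` holds on the whole box. -/
theorem chi_eq_one {D M : ℕ} (k : ℕ) (f : Fn D M) (x t : ℝ)
    (h : ∀ x' t' : ℝ, |x' - x| ≤ kap / 2 ^ k → |t' - t| ≤ kap * 4 ^ k → U k f x' t') :
    chi k f x t = 1 := by
  rw [chi_eq, ← Phi2_int]
  refine integral_congr_ae (Filter.Eventually.of_forall fun p => ?_)
  simp only
  by_cases hp : Phi2 p = 0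
  · rw [hp, mul_zero]
  · obtain ⟨h1, h2⟩ := Phi2_box (k := k) (x := x) (t := t) hp
    have h3 : inU k f (x - kap / 2 ^ k * p.1, t - kap * 4 ^ k * p.2) = 1 := if_pos (h _ _ h1 h2)
    rw [h3, one_mul]

/-- `chi = 0` if `U` fails on the whole box. -/
theorem chi_eq_zero {D M : ℕ} (k : ℕ) (f : Fn D M) (x t : ℝ)
    (h : ∀ x' t' : ℝ, |x' - x| ≤ kap / 2 ^ k → |t' - t| ≤ kap * 4 ^ k → ¬ U k f x' t') :
    chi k f x t = 0 := by
  rw [chi_eq]
  refine integral_eq_zero_of_ae (Filter.Eventually.of_forall fun p => ?_)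
  simp only [Pi.zero_apply]
  by_cases hp : Phi2 p = 0
  · rw [hp, mul_zero]
  · obtain ⟨h1, h2⟩ := Phi2_box (k := k) (x := x) (t := t) hp
    have h3 : inU k f (x - kap / 2 ^ k * p.1, t - kap * 4 ^ k * p.2) = 0 := if_neg (h _ _ h1 h2)
    rw [h3, zero_mul]

/-- If `chi ≠ 0` then `U` holds somewhere in the box. -/
theorem exists_U {D M : ℕ} {k : ℕ} {f : Fn D M} {x t : ℝ} (h : chi k f x t ≠ 0) :
    ∃ x' t' : ℝ, |x' - x| ≤ kap / 2 ^ k ∧ |t' - t| ≤ kap * 4 ^ k ∧ U k f x' t' := by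
  by_contra hne
  push Not at hne
  exact h (chi_eq_zero k f x t hne)

/-- If `chi ≠ 1` then `U` fails somewhere in the box. -/
theorem exists_not_U {D M : ℕ} {k : ℕ} {f : Fn D M} {x t : ℝ} (h : chi k f x t ≠ 1) :
    ∃ x' t' : ℝ, |x' - x| ≤ kap / 2 ^ k ∧ |t' - t| ≤ kap * 4 ^ k ∧ ¬ U k f x' t' := by
  by_contra hne
  push Not at hne
  exact h (chi_eq_one k f x t hne)

/-- `chi` as a convolution. -/
theorem chi_conv {D M : ℕ} (k : ℕ) (f : Fn D M) (x0 t0 : ℝ) (P : ℝ × ℝ) :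
    chi k f (x0 + kap / 2 ^ k * P.1) (t0 + kap * 4 ^ k * P.2) =
      ((fun q : ℝ × ℝ => inU k f (x0 + kap / 2 ^ k * q.1, t0 + kap * 4 ^ k * q.2))
        ⋆[ContinuousLinearMap.lsmul ℝ ℝ, volume] Phi2) P := by
  rw [convolution_lsmul_swap, chi_eq]
  refine integral_congr_ae (Filter.Eventually.of_forall fun p => ?_)
  simp only [smul_eq_mul, Prod.fst_sub, Prod.snd_sub]
  congr 2
  ext <;> simp only <;> ring

theorem inU_affine_loc {D M : ℕ} (k : ℕ) (f : Fn D M) (x0 t0 : ℝ) : LocallyIntegrable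
    (fun q : ℝ × ℝ => inU k f (x0 + kap / 2 ^ k * q.1, t0 + kap * 4 ^ k * q.2)) volume := by
  have hm : Measurable fun q : ℝ × ℝ =>
      inU k f (x0 + kap / 2 ^ k * q.1, t0 + kap * 4 ^ k * q.2) :=
    (inU_meas k f).comp (by fun_prop)
  refine (locallyIntegrable_const (1 : ℝ)).mono hm.aestronglyMeasurable
    (Filter.Eventually.of_forall fun q => ?_)
  rw [Real.norm_eq_abs, abs_of_nonneg (inU_nonneg _ _ _), norm_one]
  exact inU_le _ _ _

theorem chi_conv_smooth {D M : ℕ} (k : ℕ) (f : Fn D M) (x0 t0 : ℝ) :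
    ContDiff ℝ ∞ fun P : ℝ × ℝ =>
      chi k f (x0 + kap / 2 ^ k * P.1) (t0 + kap * 4 ^ k * P.2) := by
  have h : (fun P : ℝ × ℝ => chi k f (x0 + kap / 2 ^ k * P.1) (t0 + kap * 4 ^ k * P.2)) =
      ((fun q : ℝ × ℝ => inU k f (x0 + kap / 2 ^ k * q.1, t0 + kap * 4 ^ k * q.2))
        ⋆[ContinuousLinearMap.lsmul ℝ ℝ, volume] Phi2) := funext (chi_conv k f x0 t0)
  rw [h]
  exact Phi2_cs.contDiff_convolution_right _ (inU_affine_loc k f x0 t0) Phi2_smooth

/-- `chi` is smooth in both variables. -/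
theorem chi_contDiff {D M : ℕ} (k : ℕ) (f : Fn D M) :
    ContDiff ℝ ∞ fun p : ℝ × ℝ => chi k f p.1 p.2 := by
  have h := (chi_conv_smooth k f 0 0).comp
    (by fun_prop : ContDiff ℝ ∞ fun p : ℝ × ℝ =>
      ((p.1 / (kap / 2 ^ k), p.2 / (kap * 4 ^ k)) : ℝ × ℝ))
  have hk := kap_pos
  have h2 : ((fun P : ℝ × ℝ => chi k f (0 + kap / 2 ^ k * P.1) (0 + kap * 4 ^ k * P.2)) ∘
      fun p : ℝ × ℝ => ((p.1 / (kap / 2 ^ k), p.2 / (kap * 4 ^ k)) : ℝ × ℝ)) =
      fun p : ℝ × ℝ => chi k f p.1 p.2 := by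
    funext p
    have h3 : kap / 2 ^ k ≠ 0 := by positivity
    have h4 : kap * 4 ^ k ≠ 0 := by positivity
    simp only [Function.comp_apply, zero_add]
    rw [mul_div_cancel₀ _ h3, mul_div_cancel₀ _ h4]
  rw [← h2]
  exact h

theorem chi_continuous {D M : ℕ} (k : ℕ) (f : Fn D M) :
    Continuous fun p : ℝ × ℝ => chi k f p.1 p.2 := (chi_contDiff k f).continuous

theorem theta_contDiff {D M : ℕ} (k : ℕ) (f : Fn D M) :
    ContDiff ℝ ∞ fun p : ℝ × ℝ => theta k f p.1 p.2 := by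
  unfold theta
  split_ifs
  · exact (chi_contDiff (k + 1) f).sub contDiff_const
  · exact (chi_contDiff (k + 1) f).sub (chi_contDiff k f)

theorem theta_abs_le {D M : ℕ} (k : ℕ) (f : Fn D M) (x t : ℝ) : |theta k f x t| ≤ 1 := by
  have h1 := chi_nonneg (k + 1) f x t
  have h2 := chi_le_one (k + 1) f x t
  have h3 := chi_nonneg k f x t
  have h4 := chi_le_one k f x t
  unfold theta
  split_ifs
  · rw [sub_zero, abs_of_nonneg h1]
    exact h2
  · exact abs_le.2 ⟨by linarith, by linarith⟩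

end Pool.Agent.SPN
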