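import Pool.Agent.SPNH.Defs

/-!
# SPN, row DC: the finite decomposition
-/

namespace Pool.Agent.SPN

open MeasureTheory Set Pool.Agent.MP_6cbfb8_an
open Pool.Agent.SEP (B phi phat beta om tj Tb)
open scoped ENNReal Real

theorem dc_B_cont : Continuous B := by
  unfold B
  exact Pool.Agent.SEP.bump.continuous

theorem dc_B_one {x : ℝ} (hx : |x| ≤ 1) : B x = 1 := by
  unfold B
  apply Pool.Agent.SEP.bump.one_of_mem_closedBall
  simp only [Metric.mem_closedBall, Real.dist_eq, sub_zero]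
  simpa [Pool.Agent.SEP.bump] using hx

theorem dc_B_zero {x : ℝ} (hx : 2 ≤ |x|) : B x = 0 := by
  unfold B
  apply Pool.Agent.SEP.bump.zero_of_le_dist
  simp only [Real.dist_eq, sub_zero]
  simpa [Pool.Agent.SEP.bump] using hx

theorem dc_tele (u : ℕ → ℝ) (n : ℕ) :
    ∑ k ∈ Finset.range (n + 1), (u (k + 1) - if k = 0 then 0 else u k) = u (n + 1) := by
  induction n with
  | zero => simp
  | succ n ih =>
    rw [Finset.sum_range_succ, ih]
    simp

theorem dc_beta_sum (k : ℕ) (x : ℝ) :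
    ∑ m ∈ Finset.range (k + 1), beta k m x = B x := by
  unfold beta
  rw [Finset.sum_sub_distrib, Finset.sum_range_succ' (fun m => B (2 ^ m * x)),
    Finset.sum_range_succ (fun m => if m < k then B (2 ^ (m + 1) * x) else 0)]
  have h : ∑ m ∈ Finset.range k, (if m < k then B (2 ^ (m + 1) * x) else 0) =
      ∑ m ∈ Finset.range k, B (2 ^ (m + 1) * x) := by
    refine Finset.sum_congr rfl fun m hm => ?_
    rw [if_pos (Finset.mem_range.mp hm)]
  rw [h]
  simp

theorem dc_sum_index (L : ℕ) (F : ℕ → ℕ → ℝ) :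
    ∑ q ∈ (Finset.range L ×ˢ Finset.range L).filter (fun q : ℕ × ℕ => q.2 ≤ q.1), F q.1 q.2 =
      ∑ k ∈ Finset.range L, ∑ m ∈ Finset.range (k + 1), F k m := by
  rw [Finset.sum_filter, Finset.sum_product]
  refine Finset.sum_congr rfl fun k hk => ?_
  rw [← Finset.sum_filter]
  refine Finset.sum_congr ?_ fun _ _ => rfl
  ext m
  simp only [Finset.mem_filter, Finset.mem_range] at hk ⊢
  omega

theorem dc_beta_cont (k m : ℕ) : Continuous (beta k m) := by
  unfold beta
  have h1 : Continuous fun x : ℝ => B (2 ^ m * x) := dc_B_cont.comp (by fun_prop)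
  have h2 : Continuous fun x : ℝ => (if m < k then B (2 ^ (m + 1) * x) else 0 : ℝ) := by
    by_cases h : m < k
    · simp only [h, if_true]; exact dc_B_cont.comp (by fun_prop)
    · simp only [h, if_false]; fun_prop
  exact h1.sub h2

theorem dc_beta_zero (k m : ℕ) {x : ℝ} (hx : 2 ≤ |x|) : beta k m x = 0 := by
  have h : ∀ l : ℕ, B (2 ^ l * x) = 0 := by
    intro l
    apply dc_B_zero
    rw [abs_mul, abs_of_pos (by positivity : (0 : ℝ) < 2 ^ l)]
    have : (1 : ℝ) ≤ 2 ^ l := one_le_pow₀ (by norm_num)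
    nlinarith [abs_nonneg x]
  unfold beta
  rw [h, h]
  simp

theorem dc_phi_cont : Continuous phi := by
  unfold phi
  exact Pool.Agent.SEP.bump1.continuous_normed

theorem dc_phi_zero {x : ℝ} (hx : 1 ≤ |x|) : phi x = 0 := by
  unfold phi
  have h : x ∉ Function.support (Pool.Agent.SEP.bump1.normed volume) := by
    rw [Pool.Agent.SEP.bump1.support_normed_eq, Metric.mem_ball, Real.dist_eq, sub_zero]
    exact not_lt.2 hx
  exact Function.notMem_support.1 h

theorem dc_phi_int : ∫ x, phi x = 1 := Pool.Agent.SEP.bump1.integral_normed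

theorem dc_itd_cont {D M : ℕ} (f : Fn D M) {i : ℕ} (hi : i ≤ D + 1) :
    Continuous (iteratedDeriv i f.f) :=
  f.smooth.continuous_iteratedDeriv i (by exact_mod_cast hi)

theorem dc_gd_cont {D M : ℕ} (f : Fn D M) {i : ℕ} (hi : i ≤ D + 1) :
    Continuous fun q : ℝ × ℝ => gd f q.1 i q.2 := by
  unfold gd
  have h1 : Continuous fun q : ℝ × ℝ => iteratedDeriv i f.f q.2 :=
    (dc_itd_cont f hi).comp continuous_snd
  have h2 : Continuous fun q : ℝ × ℝ => (if i = 2 then 2 * q.1 else 0 : ℝ) := by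
    by_cases h : i = 2
    · simp only [h, if_true]; fun_prop
    · simp only [h, if_false]; fun_prop
  exact h1.sub h2

/-- The set where `U` holds is closed. -/
theorem dc_U_closed {D M : ℕ} (k : ℕ) (f : Fn D M) :
    IsClosed {q : ℝ × ℝ | U k f q.1 q.2} := by
  have e : {q : ℝ × ℝ | U k f q.1 q.2} = ⋂ i ∈ Finset.Icc 2 D, ⋂ u : ℝ, ⋂ _ : |u| ≤ 1 / 2 ^ k,
      {q : ℝ × ℝ | |gd f q.2 i (q.1 + u)| ≤ 2 ^ (k * i)} := by
    ext q
    simp only [mem_ofPred_eq, mem_iInter]
    constructor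
    · intro h i hi u hu
      refine h i hi (q.1 + u) ?_
      rwa [add_sub_cancel_left]
    · intro h i hi x' hx'
      have := h i hi (x' - q.1) hx'
      rwa [add_sub_cancel] at this
  rw [e]
  refine isClosed_biInter fun i hi => isClosed_iInter fun u => isClosed_iInter fun _ => ?_
  have hi' : i ≤ D + 1 := (Finset.mem_Icc.1 hi).2.trans (Nat.le_succ D)
  have h1 : Continuous fun q : ℝ × ℝ => gd f q.2 i (q.1 + u) :=
    (dc_gd_cont f hi').comp (continuous_snd.prodMk (continuous_fst.add continuous_const))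
  exact isClosed_le h1.abs continuous_const

open Classical in
/-- `chi` is continuous. -/
theorem dc_chi_cont {D M : ℕ} (k : ℕ) (f : Fn D M) : Continuous fun q : ℝ × ℝ => chi k f q.1 q.2 := by
  set δ : ℝ := kap / 2 ^ k with hδ
  set τ : ℝ := kap * 4 ^ k with hτ
  have hk : (0 : ℝ) < kap := by unfold kap; norm_num
  have hδ0 : 0 < δ := by positivity
  have hτ0 : 0 < τ := by positivity
  set g : ℝ × ℝ → ℝ := fun p => phi p.1 * phi p.2 with hg
  set s : ℝ × ℝ → ℝ := fun q => if U k f (δ * q.1) (τ * q.2) then 1 else 0 with hs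
  have hgc : Continuous g :=
    (dc_phi_cont.comp continuous_fst).mul (dc_phi_cont.comp continuous_snd)
  have hgs : HasCompactSupport g := by
    refine HasCompactSupport.intro
      ((isCompact_Icc (a := (-1 : ℝ)) (b := 1)).prod (isCompact_Icc (a := (-1 : ℝ)) (b := 1)))
      fun p hp => ?_
    rw [hg]
    dsimp only
    by_cases h1 : |p.1| ≤ 1
    · by_cases h2 : |p.2| ≤ 1
      · exact absurd ⟨abs_le.1 h1, abs_le.1 h2⟩ hp
      · rw [dc_phi_zero (not_le.1 h2).le, mul_zero]
    · rw [dc_phi_zero (not_le.1 h1).le, zero_mul]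
  have hcl : IsClosed {q : ℝ × ℝ | U k f (δ * q.1) (τ * q.2)} := by
    have h2 : Continuous fun q : ℝ × ℝ => ((δ * q.1, τ * q.2) : ℝ × ℝ) := by fun_prop
    exact (dc_U_closed k f).preimage h2
  have hsm : Measurable s := Measurable.ite hcl.measurableSet measurable_const measurable_const
  have hsl : LocallyIntegrable s (volume : Measure (ℝ × ℝ)) := by
    refine (locallyIntegrable_const (1 : ℝ)).mono hsm.aestronglyMeasurable
      (Filter.Eventually.of_forall fun q => ?_)
    rw [hs]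
    dsimp only
    split_ifs <;> simp
  have h := hgs.continuous_convolution_left (ContinuousLinearMap.mul ℝ ℝ) hgc hsl
    (μ := (volume : Measure (ℝ × ℝ)))
  have h3 : Continuous fun q : ℝ × ℝ => ((q.1 / δ, q.2 / τ) : ℝ × ℝ) := by fun_prop
  have h4 := h.comp h3
  have e : (fun q : ℝ × ℝ => chi k f q.1 q.2) =
      (convolution g s (ContinuousLinearMap.mul ℝ ℝ) volume) ∘
        fun q : ℝ × ℝ => ((q.1 / δ, q.2 / τ) : ℝ × ℝ) := by
    funext q
    rw [Function.comp_apply, convolution_def]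
    unfold chi
    refine integral_congr_ae (Filter.Eventually.of_forall fun p => ?_)
    simp only [ContinuousLinearMap.mul_apply', hs, hg, Prod.fst_sub, Prod.snd_sub]
    have e1 : δ * (q.1 / δ - p.1) = q.1 - kap / 2 ^ k * p.1 := by
      rw [mul_sub, mul_div_cancel₀ _ hδ0.ne']
    have e2 : τ * (q.2 / τ - p.2) = q.2 - kap * 4 ^ k * p.2 := by
      rw [mul_sub, mul_div_cancel₀ _ hτ0.ne']
    simp only [e1, e2]
    exact mul_comm _ _
  rw [e]
  exact h4

/-- `chi = 1` where `U` holds on the whole box. -/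
theorem dc_chi_one {D M : ℕ} (k : ℕ) (f : Fn D M) (x t : ℝ)
    (h : ∀ u v : ℝ, |u| ≤ 1 → |v| ≤ 1 → U k f (x - kap / 2 ^ k * u) (t - kap * 4 ^ k * v)) :
    chi k f x t = 1 := by
  classical
  unfold chi
  have e : ∀ p : ℝ × ℝ, (if U k f (x - kap / 2 ^ k * p.1) (t - kap * 4 ^ k * p.2) then (1 : ℝ)
      else 0) * (phi p.1 * phi p.2) = phi p.1 * phi p.2 := by
    intro p
    by_cases h1 : |p.1| ≤ 1
    · by_cases h2 : |p.2| ≤ 1
      · rw [if_pos (h p.1 p.2 h1 h2), one_mul]
      · rw [dc_phi_zero (not_le.1 h2).le]; simp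
    · rw [dc_phi_zero (not_le.1 h1).le]; simp
  rw [integral_congr_ae (Filter.Eventually.of_forall e)]
  have h5 := integral_prod_mul (μ := (volume : Measure ℝ)) (ν := (volume : Measure ℝ)) phi phi
  rw [dc_phi_int, one_mul] at h5
  exact h5

theorem dc_theta_sum {D M : ℕ} (L : ℕ) (hL : 1 ≤ L) (f : Fn D M) (x t : ℝ) :
    ∑ k ∈ Finset.range L, theta k f x t = chi L f x t := by
  obtain ⟨n, rfl⟩ : ∃ n, L = n + 1 := ⟨L - 1, by omega⟩
  exact dc_tele (fun k => chi k f x t) n

theorem dc_theta_cont {D M : ℕ} (k : ℕ) (f : Fn D M) :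
    Continuous fun q : ℝ × ℝ => theta k f q.2 q.1 := by
  unfold theta
  have hsw : ∀ l : ℕ, Continuous fun q : ℝ × ℝ => chi l f q.2 q.1 := fun l => by
    have := (dc_chi_cont l f).comp (continuous_snd.prodMk continuous_fst)
    exact this
  have h2 : Continuous fun q : ℝ × ℝ => (if k = 0 then 0 else chi k f q.2 q.1 : ℝ) := by
    by_cases h : k = 0
    · simp only [h, if_true]; fun_prop
    · simp only [h, if_false]; exact hsw k
  exact (hsw (k + 1)).sub h2

/-- The integrand of `I1c`. -/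
theorem dc_int_cont {D M : ℕ} (k m : ℕ) (f : Fn D M) (y : ℝ) :
    Continuous fun q : ℝ × ℝ => ((theta k f q.2 q.1 * beta k m q.2 : ℝ) : ℂ) *
      Complex.exp (((f.f q.2 - q.1 * q.2 ^ 2 - y * q.2 : ℝ) : ℂ) * Complex.I) := by
  have h1 : Continuous fun q : ℝ × ℝ => theta k f q.2 q.1 * beta k m q.2 :=
    (dc_theta_cont k f).mul ((dc_beta_cont k m).comp continuous_snd)
  have h2 : Continuous fun q : ℝ × ℝ => f.f q.2 - q.1 * q.2 ^ 2 - y * q.2 := by
    have := f.smooth.continuous.comp (continuous_snd (X := ℝ) (Y := ℝ))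
    simp only [Function.comp_def] at this
    fun_prop
  exact (Complex.continuous_ofReal.comp h1).mul
    (Complex.continuous_exp.comp ((Complex.continuous_ofReal.comp h2).mul continuous_const))

theorem dc_I1c_eq {D M : ℕ} (k m : ℕ) (f : Fn D M) (t y : ℝ) :
    I1c k m f t y = ∫ x in Icc (-2 : ℝ) 2, ((theta k f x t * beta k m x : ℝ) : ℂ) *
      Complex.exp (((f.f x - t * x ^ 2 - y * x : ℝ) : ℂ) * Complex.I) := by
  unfold I1c
  rw [setIntegral_eq_integral_of_forall_compl_eq_zero]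
  intro x hx
  have : 2 ≤ |x| := by
    by_contra h
    push Not at h
    rw [abs_lt] at h
    exact hx ⟨h.1.le, h.2.le⟩
  rw [dc_beta_zero k m this]
  simp

theorem dc_I1c_cont {D M : ℕ} (k m : ℕ) (f : Fn D M) (y : ℝ) :
    Continuous fun t => I1c k m f t y := by
  have h := continuous_parametric_integral_of_continuous (μ := (volume : Measure ℝ))
    (f := fun t x : ℝ => ((theta k f x t * beta k m x : ℝ) : ℂ) *
      Complex.exp (((f.f x - t * x ^ 2 - y * x : ℝ) : ℂ) * Complex.I))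
    (dc_int_cont k m f y) (isCompact_Icc (a := (-2 : ℝ)) (b := 2))
  refine h.congr fun t => ?_
  exact (dc_I1c_eq k m f t y).symm

theorem dc_integrable {D M : ℕ} (k m : ℕ) (f : Fn D M) (t y : ℝ) :
    Integrable fun x : ℝ => ((theta k f x t * beta k m x : ℝ) : ℂ) *
      Complex.exp (((f.f x - t * x ^ 2 - y * x : ℝ) : ℂ) * Complex.I) := by
  have hc : Continuous fun x : ℝ => ((theta k f x t * beta k m x : ℝ) : ℂ) *
      Complex.exp (((f.f x - t * x ^ 2 - y * x : ℝ) : ℂ) * Complex.I) := by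
    have h := (dc_int_cont k m f y).comp
      (show Continuous fun x : ℝ => ((t, x) : ℝ × ℝ) by fun_prop)
    simp only [Function.comp_def] at h
    exact h
  refine hc.integrable_of_hasCompactSupport ?_
  refine HasCompactSupport.intro (isCompact_Icc (a := (-2 : ℝ)) (b := 2)) fun x hx => ?_
  have : 2 ≤ |x| := by
    by_contra h
    push Not at h
    rw [abs_lt] at h
    exact hx ⟨h.1.le, h.2.le⟩
  rw [dc_beta_zero k m this]
  simp

/-- The decomposition of the one-dimensional integral. -/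
theorem dc_I1 {D M : ℕ} (L : ℕ) (hL : 1 ≤ L) (f : Fn D M) (t : ℝ)
    (h : ∀ x : ℝ, |x| ≤ 2 → chi L f x t = 1) (y : ℝ) :
    I1 f t y = ∑ q ∈ (Finset.range L ×ˢ Finset.range L).filter (fun q : ℕ × ℕ => q.2 ≤ q.1),
      I1c q.1 q.2 f t y := by
  unfold I1 I1c
  rw [← integral_finsetSum _ fun q _ => dc_integrable q.1 q.2 f t y]
  refine integral_congr_ae (Filter.Eventually.of_forall fun x => ?_)
  simp only
  rw [← Finset.sum_mul, ← Complex.ofReal_sum,
    dc_sum_index L (fun k m => theta k f x t * beta k m x)]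
  congr 2
  simp only [← Finset.mul_sum, dc_beta_sum]
  rw [← Finset.sum_mul, dc_theta_sum L hL]
  by_cases hx : |x| ≤ 2
  · rw [h x hx, one_mul]
  · push Not at hx
    rw [dc_B_zero hx.le, mul_zero]

/-- `chi = 1` for large `L`. -/
theorem dc_chi_large {D M : ℕ} (f : Fn D M) :
    ∃ T0 : ℝ, 1 ≤ T0 ∧ ∀ T : ℝ, T0 ≤ T → ∀ L : ℕ, 8 * T ≤ (4 : ℝ) ^ L → (4 : ℝ) ^ L ≤ 32 * T →
      ∀ t x : ℝ, |t| ≤ 2 * T → |x| ≤ 2 → chi L f x t = 1 := by
  -- a bound for all derivatives on `[-4, 4]`
  have hM : ∃ C : ℝ, 0 ≤ C ∧ ∀ i ∈ Finset.Icc 2 D, ∀ x : ℝ, |x| ≤ 4 →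
      |iteratedDeriv i f.f x| ≤ C := by
    have h1 : ∀ i : ℕ, ∃ C : ℝ, 0 ≤ C ∧ (i ≤ D + 1 → ∀ x : ℝ, |x| ≤ 4 →
        |iteratedDeriv i f.f x| ≤ C) := by
      intro i
      by_cases hi : i ≤ D + 1
      · obtain ⟨C, hC⟩ := (isCompact_Icc (a := (-4 : ℝ)) (b := 4)).exists_bound_of_continuousOn
          (dc_itd_cont f hi).continuousOn
        refine ⟨max C 0, le_max_right _ _, fun _ x hx => ?_⟩
        have := hC x (abs_le.mp hx)
        rw [Real.norm_eq_abs] at this
        exact this.trans (le_max_left _ _)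
      · exact ⟨0, le_rfl, fun h => absurd h hi⟩
    choose C hC0 hC using h1
    refine ⟨∑ i ∈ Finset.Icc 2 D, C i, Finset.sum_nonneg fun i _ => hC0 i, fun i hi x hx => ?_⟩
    have hi' : i ≤ D + 1 := (Finset.mem_Icc.1 hi).2.trans (Nat.le_succ D)
    exact (hC i hi' x hx).trans (Finset.single_le_sum (f := C) (fun i _ => hC0 i) hi)
  obtain ⟨C, hC0, hC⟩ := hM
  refine ⟨1 + C, by linarith, fun T hT L hL hL' t x ht hx => ?_⟩
  have hT1 : 1 ≤ T := by linarith
  have h4 : (4 : ℝ) ^ L = 2 ^ (L * 2) := by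
    rw [mul_comm, pow_mul]; norm_num
  have hk : kap = 1 / 64 := rfl
  have h2L : (1 : ℝ) ≤ 2 ^ L := one_le_pow₀ (by norm_num)
  have h2L' : 1 / (2 : ℝ) ^ L ≤ 1 := by
    rw [div_le_one (by positivity)]; exact h2L
  refine dc_chi_one L f x t fun u v hu hv i hi x' hx' => ?_
  have hi2 := (Finset.mem_Icc.mp hi).1
  have hP : 8 * T ≤ (2 : ℝ) ^ (L * i) := by
    refine hL.trans ?_
    rw [h4]
    exact pow_le_pow_right₀ (by norm_num) (Nat.mul_le_mul_left _ hi2)
  have hxx : |x'| ≤ 4 := by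
    have h5 : |kap / 2 ^ L * u| ≤ 1 / 64 := by
      rw [hk, abs_mul, abs_of_pos (by positivity)]
      have h6 : (1 / 64 : ℝ) / 2 ^ L ≤ 1 / 64 := by
        apply div_le_self (by norm_num) h2L
      calc (1 / 64 : ℝ) / 2 ^ L * |u| ≤ 1 / 64 * 1 := by gcongr
        _ = _ := by ring
    have h7 : x' = (x' - (x - kap / 2 ^ L * u)) + x - kap / 2 ^ L * u := by ring
    have h8 : |x'| ≤ |x' - (x - kap / 2 ^ L * u)| + |x| + |kap / 2 ^ L * u| := by
      conv_lhs => rw [h7]
      refine (abs_sub _ _).trans ?_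
      gcongr
      exact abs_add_le _ _
    linarith
  have htt : |t - kap * 4 ^ L * v| ≤ 5 / 2 * T := by
    refine (abs_sub _ _).trans ?_
    have h9 : |kap * 4 ^ L * v| ≤ 1 / 2 * T := by
      rw [hk, abs_mul, abs_of_pos (by positivity)]
      calc (1 / 64 : ℝ) * 4 ^ L * |v| ≤ 1 / 64 * (32 * T) * 1 := by gcongr
        _ = _ := by ring
    linarith
  unfold gd
  refine (abs_sub _ _).trans ?_
  have h10 := hC i hi x' hxx
  refine le_trans ?_ hP
  by_cases h2 : i = 2
  · simp only [h2, if_true] at h10 ⊢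
    rw [abs_mul, abs_two]
    linarith
  · simp only [h2, if_false, abs_zero]
    linarith

theorem dc (n D M : ℕ) (hD : 3 ≤ D) (f : Fin n → Fn D M) :
    ∃ T0 : ℝ, 1 ≤ T0 ∧ ∀ T : ℝ, T0 ≤ T → ∃ L : ℕ, (4 : ℝ) ^ L ≤ 32 * T ∧ ∀ y : Fin n → ℝ,
      FT T f y = ∑ c ∈ Fintype.piFinset fun _ : Fin n =>
        (Finset.range L ×ˢ Finset.range L).filter fun q : ℕ × ℕ => q.2 ≤ q.1,
          Fc T (fun j => (c j).1) (fun j => (c j).2) f y := by
  choose T0 hT0 hT using fun j => dc_chi_large (f j)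
  have hnn : ∀ j, 0 ≤ T0 j := fun j => zero_le_one.trans (hT0 j)
  refine ⟨1 + ∑ j, T0 j, by have := Finset.sum_nonneg fun j (_ : j ∈ Finset.univ) => hnn j; linarith,
    fun T hTT => ?_⟩
  have hT1 : 1 ≤ T := by
    have := Finset.sum_nonneg fun j (_ : j ∈ Finset.univ) => hnn j
    linarith
  have hTj : ∀ j, T0 j ≤ T := fun j => by
    have := Finset.single_le_sum (f := T0) (fun i _ => hnn i) (Finset.mem_univ j)
    linarith
  -- the choice of `L`
  have hex : ∃ L : ℕ, 8 * T ≤ (4 : ℝ) ^ L :=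
    (pow_unbounded_of_one_lt (8 * T) (by norm_num : (1 : ℝ) < 4)).imp fun _ h => h.le
  classical
  set L := Nat.find hex with hLdef
  have hL8 : 8 * T ≤ (4 : ℝ) ^ L := Nat.find_spec hex
  have hL1 : 1 ≤ L := by
    by_contra h
    have h0 : L = 0 := by omega
    rw [h0] at hL8
    norm_num at hL8
    linarith
  have hL32 : (4 : ℝ) ^ L ≤ 32 * T := by
    have := Nat.find_min hex (m := L - 1) (by omega)
    push Not at this
    have e : (4 : ℝ) ^ L = 4 * 4 ^ (L - 1) := by
      rw [← pow_succ']; congr 1; omega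
    rw [e]; linarith
  refine ⟨L, hL32, fun y => ?_⟩
  have hTpos : 0 < T := by linarith
  have key : ∀ t : ℝ, Complex.exp ((t : ℂ) * Complex.I) * (B (t / T) : ℂ) * ∏ j, I1 (f j) t (y j) =
      ∑ c ∈ Fintype.piFinset fun _ : Fin n =>
        (Finset.range L ×ˢ Finset.range L).filter fun q : ℕ × ℕ => q.2 ≤ q.1,
        Complex.exp ((t : ℂ) * Complex.I) * (B (t / T) : ℂ) *
          ∏ j, I1c (c j).1 (c j).2 (f j) t (y j) := by
    intro t
    by_cases ht : |t| ≤ 2 * T
    · rw [← Finset.mul_sum]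
      congr 1
      rw [← Finset.prod_univ_sum (fun _ : Fin n =>
        (Finset.range L ×ˢ Finset.range L).filter fun q : ℕ × ℕ => q.2 ≤ q.1)
        (fun j q => I1c q.1 q.2 (f j) t (y j))]
      refine Finset.prod_congr rfl fun j _ => ?_
      exact dc_I1 L hL1 (f j) t (fun x hx => hT j T (hTj j) L hL8 hL32 t x ht hx) (y j)
    · push Not at ht
      have hB : B (t / T) = 0 := by
        apply dc_B_zero
        rw [abs_div, abs_of_pos hTpos, le_div_iff₀ hTpos]
        exact ht.le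
      simp [hB]
  unfold FT Fc
  rw [← integral_finsetSum]
  · exact integral_congr_ae (Filter.Eventually.of_forall fun t => key t)
  · intro c _
    have hc : Continuous fun t : ℝ => Complex.exp ((t : ℂ) * Complex.I) * (B (t / T) : ℂ) *
        ∏ j, I1c (c j).1 (c j).2 (f j) t (y j) := by
      have h1 : Continuous fun t : ℝ => ∏ j, I1c (c j).1 (c j).2 (f j) t (y j) :=
        continuous_finsetProd _ fun j _ => dc_I1c_cont (c j).1 (c j).2 (f j) (y j)
      have h2 : Continuous fun t : ℝ => (B (t / T) : ℂ) :=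
        Complex.continuous_ofReal.comp (dc_B_cont.comp (continuous_id.div_const T))
      have h3 : Continuous fun t : ℝ => Complex.exp ((t : ℂ) * Complex.I) := by fun_prop
      exact (h3.mul h2).mul h1
    refine hc.integrable_of_hasCompactSupport ?_
    refine HasCompactSupport.intro (isCompact_Icc (a := -(2 * T)) (b := 2 * T)) fun t ht => ?_
    have h2T : 2 * T ≤ |t| := by
      by_contra h
      push Not at h
      rw [abs_lt] at h
      exact ht ⟨h.1.le, h.2.le⟩
    have hB : B (t / T) = 0 := by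
      apply dc_B_zero
      rw [abs_div, abs_of_pos hTpos, le_div_iff₀ hTpos]
      exact h2T
    simp [hB]

end Pool.Agent.SPN
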