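import Pool.Agent.SPNH.EXTa

/-!
Extension of a function on `[-1, 1]` with few sign changes to the whole line.
-/

namespace Pool.Agent.SPN

open MeasureTheory Set Pool.Agent.MP_6cbfb8_an Polynomial
open scoped ENNReal Real

/-- A polynomial has a constant sign between its roots. -/
theorem ext_sgn (P : ℝ[X]) (x y : ℝ) (hxy : x ≤ y)
    (h : ∀ c ∈ P.roots.toFinset, ¬ (x < c ∧ c < y)) : 0 ≤ P.eval x * P.eval y := by
  by_contra hn
  push Not at hn
  have hP : P ≠ 0 := by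
    rintro rfl
    simp at hn
  have key : ∃ c ∈ Ioo x y, P.eval c = 0 := by
    rcases mul_neg_iff.1 hn with ⟨h1, h2⟩ | ⟨h1, h2⟩
    · obtain ⟨c, hc, hc0⟩ := intermediate_value_Ioo' hxy P.continuous.continuousOn ⟨h2, h1⟩
      exact ⟨c, hc, hc0⟩
    · obtain ⟨c, hc, hc0⟩ := intermediate_value_Ioo hxy P.continuous.continuousOn ⟨h1, h2⟩
      exact ⟨c, hc, hc0⟩
  obtain ⟨c, hc, hc0⟩ := key
  refine h c ?_ hc
  rw [Multiset.mem_toFinset, mem_roots hP]
  exact hc0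

/-- ROW EXT. A function with few sign changes on `[-1, 1]` is the restriction of a function with
few sign changes on the line. -/
theorem ext (D M : ℕ) (f : ℝ → ℝ) (hf : ContDiff ℝ ((D + 1 : ℕ) : ℕ∞) f) (F : Finset ℝ)
    (hF : F.card ≤ M)
    (h : ∀ i : ℕ, 3 ≤ i → i ≤ D + 1 → ∀ x ∈ Icc (-1 : ℝ) 1, ∀ y ∈ Icc (-1 : ℝ) 1, x ≤ y →
      (∀ c ∈ F, ¬ (x < c ∧ c < y)) → 0 ≤ iteratedDeriv i f x * iteratedDeriv i f y) :
    ∃ g : Fn D (M + 2 + 2 * (D + 1) ^ 2), ∀ x ∈ Icc (-1 : ℝ) 1, g.f x = f x := by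
  classical
  obtain ⟨g, hg, hgf, hpoly⟩ := ext0 (D + 1) f hf
  choose! P Q hP hQ hPe hQe using hpoly
  obtain ⟨R, hR⟩ : ∃ R : Finset ℝ, R = (Finset.Icc 3 (D + 1)).biUnion fun i =>
    (P i).roots.toFinset ∪ (Q i).roots.toFinset := ⟨_, rfl⟩
  have hRc : R.card ≤ 2 * (D + 1) ^ 2 := by
    rw [hR]
    refine (Finset.card_biUnion_le_card_mul _ _ (2 * (D + 1)) fun i hi => ?_).trans ?_
    · obtain ⟨h3, hD⟩ := Finset.mem_Icc.1 hi
      have h1 := (Multiset.toFinset_card_le (P i).roots).trans ((card_roots' _).trans (hP i hD))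
      have h2 := (Multiset.toFinset_card_le (Q i).roots).trans ((card_roots' _).trans (hQ i hD))
      have := Finset.card_union_le (P i).roots.toFinset (Q i).roots.toFinset
      omega
    · rw [Nat.card_Icc]
      calc (D + 1 + 1 - 3) * (2 * (D + 1)) ≤ (D + 1) * (2 * (D + 1)) :=
          Nat.mul_le_mul_right _ (by omega)
        _ = 2 * (D + 1) ^ 2 := by ring
  refine ⟨⟨g, F ∪ {-1, 1} ∪ R, hg, ?_, fun i h3 hD x y hxy hc => ?_⟩, fun x hx => ?_⟩
  · have h1 := Finset.card_union_le (F ∪ {-1, 1}) R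
    have h2 := Finset.card_union_le F {-1, 1}
    have h3 : ({-1, 1} : Finset ℝ).card ≤ 2 := Finset.card_le_two
    omega
  · have hcF : ∀ c ∈ F, ¬ (x < c ∧ c < y) := fun c h1 =>
      hc c (Finset.mem_union_left _ (Finset.mem_union_left _ h1))
    have hm1 : ¬ (x < -1 ∧ -1 < y) := hc (-1) (by simp)
    have h1 : ¬ (x < 1 ∧ 1 < y) := hc 1 (by simp)
    have hcR : ∀ c ∈ (P i).roots.toFinset ∪ (Q i).roots.toFinset, ¬ (x < c ∧ c < y) :=
      fun c h2 => hc c (Finset.mem_union_right _ (by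
        rw [hR, Finset.mem_biUnion]
        exact ⟨i, Finset.mem_Icc.2 ⟨h3, hD⟩, h2⟩))
    rcases le_or_gt y (-1) with h2 | h2
    · rw [hQe i hD x (hxy.trans h2), hQe i hD y h2]
      exact ext_sgn _ _ _ hxy fun c hc => hcR c (Finset.mem_union_right _ hc)
    · have h4 : -1 ≤ x := not_lt.1 fun h5 => hm1 ⟨h5, h2⟩
      rcases le_or_gt 1 x with h5 | h5
      · rw [hPe i hD x h5, hPe i hD y (h5.trans hxy)]
        exact ext_sgn _ _ _ hxy fun c hc => hcR c (Finset.mem_union_left _ hc)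
      · have h6 : y ≤ 1 := not_lt.1 fun h7 => h1 ⟨h5, h7⟩
        rw [hgf i hD x ⟨h4, h5.le⟩, hgf i hD y ⟨h2.le, h6⟩]
        exact h i h3 hD x ⟨h4, h5.le⟩ y ⟨h2.le, h6⟩ hxy hcF
  · have := hgf 0 (Nat.zero_le _) x hx
    simpa only [iteratedDeriv_zero] using this

end Pool.Agent.SPN
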