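import Pool.Agent.SPNH.Defs
import Pool.Agent.SEPH.FT

/-!
Rows INT and FT.
-/

namespace Pool.Agent.SPN

open MeasureTheory Set Filter Topology Pool.Agent.MP_6cbfb8_an
open Pool.Agent.SEP (B phi phat beta om tj Tb FT_I FT_continuous_I FT_I_decay FT_integrable_prod
  FT_formula FT_B_contDiff FT_B_one FT_B_zero FT_B_nonneg FT_B_le_one FT_integrable_base)
open scoped ENNReal Real

/-- The density of the one-variable integral. -/
noncomputable def FT_g {D M : ℕ} (f : Fn D M) (x : ℝ) : ℂ :=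
  (B x : ℂ) * Complex.exp (((f.f x : ℝ) : ℂ) * Complex.I)

theorem FT_g_contDiff {D M : ℕ} (f : Fn D M) : ContDiff ℝ 1 (FT_g f) := by
  unfold FT_g
  have h1 : ContDiff ℝ 1 fun x : ℝ => f.f x := by
    refine f.smooth.of_le ?_
    have h0 : (1 : ℕ∞) ≤ ((D + 1 : ℕ) : ℕ∞) := by
      exact_mod_cast Nat.le_add_left 1 D
    exact_mod_cast h0
  refine (Complex.ofRealCLM.contDiff.comp (FT_B_contDiff (by exact_mod_cast le_top))).mul ?_
  exact ((Complex.ofRealCLM.contDiff.comp h1).mul contDiff_const).cexp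

theorem FT_g_zero {D M : ℕ} (f : Fn D M) (x : ℝ) (hx : 2 ≤ |x|) : FT_g f x = 0 := by
  unfold FT_g
  rw [FT_B_zero hx]
  simp

theorem I1_eq {D M : ℕ} (f : Fn D M) (t y : ℝ) : I1 f t y = FT_I (FT_g f) t y := by
  unfold I1 FT_I FT_g
  congr 1
  funext x
  rw [mul_assoc, ← Complex.exp_add]
  congr 2
  push_cast
  ring

/-- Joint continuity of `I1`. -/
theorem continuous_I1 {D M : ℕ} (f : Fn D M) : Continuous fun q : ℝ × ℝ => I1 f q.1 q.2 := by
  simp_rw [I1_eq]
  exact FT_continuous_I (FT_g_contDiff f).continuous (FT_g_zero f)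

/-- Decay of `I1` in time. -/
theorem I1_decay {D M : ℕ} (f : Fn D M) :
    ∃ C : ℝ, 0 ≤ C ∧ ∀ t y : ℝ, ‖I1 f t y‖ ≤ C * (1 + |t|) ^ (-(1 / 2) : ℝ) := by
  simp_rw [I1_eq]
  exact FT_I_decay (FT_g_contDiff f) (FT_g_zero f)

/-- Decay of the product, uniformly in `y`. -/
theorem prod_I1_decay {n D M : ℕ} (hn : 3 ≤ n) (f : Fin n → Fn D M) :
    ∃ C : ℝ, 0 ≤ C ∧ ∀ (t : ℝ) (y : Fin n → ℝ),
      ‖∏ j, I1 (f j) t (y j)‖ ≤ C * (1 + ‖t‖) ^ (-(3 / 2) : ℝ) := by
  choose C hC0 hC using fun j => I1_decay (f j)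
  refine ⟨∏ j, C j, Finset.prod_nonneg fun j _ => hC0 j, fun t y => ?_⟩
  rw [norm_prod]
  have h1t : (1 : ℝ) ≤ 1 + |t| := by
    have := abs_nonneg t
    linarith
  calc ∏ j, ‖I1 (f j) t (y j)‖ ≤ ∏ j, (C j * (1 + |t|) ^ (-(1 / 2) : ℝ)) :=
        Finset.prod_le_prod (fun j _ => norm_nonneg _) fun j _ => hC j t (y j)
    _ = (∏ j, C j) * ((1 + |t|) ^ (-(1 / 2) : ℝ)) ^ n := by
        rw [Finset.prod_mul_distrib]
        simp
    _ ≤ (∏ j, C j) * ((1 + |t|) ^ (-(1 / 2) : ℝ)) ^ 3 := by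
        refine mul_le_mul_of_nonneg_left ?_ (Finset.prod_nonneg fun j _ => hC0 j)
        refine pow_le_pow_of_le_one (by positivity) ?_ hn
        exact Real.rpow_le_one_of_one_le_of_nonpos h1t (by norm_num)
    _ = _ := by
        rw [← Real.rpow_natCast, ← Real.rpow_mul (by positivity), Real.norm_eq_abs]
        norm_num

/-- ROW INT. -/
theorem int_I1 (n D M : ℕ) (hn : 3 ≤ n) (f : Fin n → Fn D M) :
    (∀ y : Fin n → ℝ, Integrable fun t : ℝ => ∏ j, I1 (f j) t (y j)) ∧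
      (∀ T : ℝ, Continuous (FT T f)) := by
  obtain ⟨C, hC0, hC⟩ := prod_I1_decay hn f
  have hc : ∀ y : Fin n → ℝ, Continuous fun t : ℝ => ∏ j, I1 (f j) t (y j) := fun y =>
    continuous_finsetProd _ fun j _ => (continuous_I1 (f j)).comp
      (by fun_prop : Continuous fun t : ℝ => (t, y j))
  have hBc : Continuous B := (FT_B_contDiff (m := 0) (by exact_mod_cast le_top)).continuous
  refine ⟨fun y => ?_, fun T => ?_⟩
  · exact (FT_integrable_base.const_mul C).mono' (hc y).aestronglyMeasurable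
      (Eventually.of_forall fun t => hC t y)
  · unfold FT
    refine continuous_of_dominated (bound := fun t => C * (1 + ‖t‖) ^ (-(3 / 2) : ℝ))
      (fun y => ?_) (fun y => Eventually.of_forall fun t => ?_) (FT_integrable_base.const_mul C)
      (Eventually.of_forall fun t => ?_)
    · refine Continuous.aestronglyMeasurable ?_
      refine Continuous.mul (Continuous.mul (by fun_prop) ?_) (hc y)
      exact Complex.continuous_ofReal.comp (hBc.comp (by fun_prop))
    · rw [norm_mul, norm_mul, Complex.norm_exp_ofReal_mul_I, one_mul, Complex.norm_real,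
        Real.norm_of_nonneg (FT_B_nonneg _)]
      calc B (t / T) * ‖∏ j, I1 (f j) t (y j)‖ ≤ 1 * ‖∏ j, I1 (f j) t (y j)‖ :=
            mul_le_mul_of_nonneg_right (FT_B_le_one _) (norm_nonneg _)
        _ ≤ _ := by
            rw [one_mul]
            exact hC t y
    · refine Continuous.mul continuous_const ?_
      exact continuous_finsetProd _ fun j _ => (continuous_I1 (f j)).comp
        (by fun_prop : Continuous fun y : Fin n → ℝ => (t, y j))

/-- ROW FT. The formula on the sphere. -/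
theorem ft (n D M : ℕ) (hn : 3 ≤ n) : ∃ c : ℂ, ∀ (f : Fin n → Fn D M) (ξ : E n),
    extn (fun x => Complex.exp (((∑ j, (f j).f (x j) : ℝ) : ℂ) * Complex.I)) ξ =
      c * FF f (fun j => 2 * π * ξ j) := by
  refine ⟨((π⁻¹ : ℝ) : ℂ), fun f ξ => ?_⟩
  have hgc : ∀ j, ContDiff ℝ 1 (FT_g (f j)) := fun j => FT_g_contDiff (f j)
  have hgs : ∀ j x, 2 ≤ |x| → FT_g (f j) x = 0 := fun j => FT_g_zero (f j)
  have h1 := FT_formula (by omega : n ≠ 0) (fun j => (hgc j).continuous) hgs ξ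
    (FT_integrable_prod hn hgc hgs _)
  unfold FF
  simp_rw [I1_eq]
  rw [← h1]
  unfold extn
  congr 1
  funext ω
  congr 1
  have h4 : ‖(ω : E n)‖ ^ 2 = 1 := by simp
  rw [EuclideanSpace.real_norm_sq_eq] at h4
  have h5 : ∀ j, |(ω : E n) j| ≤ 1 := by
    intro j
    rw [abs_le_one_iff_mul_self_le_one, ← sq, ← h4]
    exact Finset.single_le_sum (f := fun j => (ω : E n) j ^ 2) (fun i _ => sq_nonneg _)
      (Finset.mem_univ j)
  simp only [FT_g]
  rw [Finset.prod_mul_distrib, ← Complex.exp_sum]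
  have h6 : ∏ j, ((B ((ω : E n) j) : ℝ) : ℂ) = 1 := by
    refine Finset.prod_eq_one fun j _ => ?_
    rw [FT_B_one (h5 j), Complex.ofReal_one]
  rw [h6, one_mul, ← Finset.sum_mul]
  push_cast
  rfl

end Pool.Agent.SPN
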