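import Pool.Agent.SPNH.FT
import Pool.Agent.SPNH.MAIN
import Pool.Agent.SPNH.EXT
import Pool.Agent.MP_6cbfb8_an.Super

/-!
All dimensions: one density and superpositions.
-/

namespace Pool.Agent.SPN

open MeasureTheory Set Pool.Agent.MP_6cbfb8_an
open scoped ENNReal Real

theorem end_norm_le {n : ℕ} (u : E n → ℝ) (ξ : E n) :
    ‖extn (fun x => Complex.exp (((u x : ℝ) : ℂ) * Complex.I)) ξ‖ ≤ (sm n).real univ := by
  unfold extn
  refine (norm_integral_le_of_norm_le_const (μ := sm n) (C := 1) ?_).trans_eq (by simp)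
  refine Filter.Eventually.of_forall fun x => ?_
  rw [norm_mul, Complex.norm_exp_ofReal_mul_I, Complex.norm_exp_ofReal_mul_I, one_mul]

theorem end_pow_lower {n : ℕ} {F : E n → ℂ} {M p q : ℝ} (hM : 0 ≤ M) (hF : ∀ ξ, ‖F ξ‖ ≤ M)
    (hq0 : 0 ≤ q) (hq : q ≤ p) :
    ∫⁻ ξ, ‖F ξ‖ₑ ^ p ≤ ENNReal.ofReal (M ^ (p - q)) * ∫⁻ ξ, ‖F ξ‖ₑ ^ q := by
  rw [← lintegral_const_mul' _ _ ENNReal.ofReal_ne_top]
  refine lintegral_mono fun ξ => ?_
  have h1 : ‖F ξ‖ₑ ≤ ENNReal.ofReal M := by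
    rw [← ofReal_norm]
    exact ENNReal.ofReal_le_ofReal (hF ξ)
  calc ‖F ξ‖ₑ ^ p = ‖F ξ‖ₑ ^ (p - q) * ‖F ξ‖ₑ ^ q := by
        rw [← ENNReal.rpow_add_of_nonneg _ _ (by linarith) hq0]
        congr 1
        ring
    _ ≤ ENNReal.ofReal M ^ (p - q) * ‖F ξ‖ₑ ^ q := by
        gcongr
    _ = _ := by rw [ENNReal.ofReal_rpow_of_nonneg hM (by linarith)]

/-- Scaling. -/
theorem end_two_pi {n : ℕ} (G : (Fin n → ℝ) → ℝ≥0∞) :
    ∫⁻ ξ : E n, G (fun j => 2 * π * ξ j) =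
      ENNReal.ofReal (|((2 * π) ^ n)⁻¹|) * ∫⁻ y : Fin n → ℝ, G y := by
  have h2π : (2 * π : ℝ) ≠ 0 := by positivity
  have h1 : ∫⁻ ξ : E n, G (fun j => 2 * π * ξ j) = ∫⁻ y : Fin n → ℝ, G ((2 * π) • y) := by
    have h := (EuclideanSpace.volume_preserving_symm_measurableEquiv_toLp (Fin n)).lintegral_comp_emb
      (MeasurableEquiv.measurableEmbedding _) (fun y : Fin n → ℝ => G ((2 * π) • y))
    rw [← h]
    rfl
  rw [h1]
  have h4 := lintegral_map_equiv (μ := (volume : Measure (Fin n → ℝ))) G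
    (Homeomorph.smulOfNeZero (2 * π) h2π : (Fin n → ℝ) ≃ₜ (Fin n → ℝ)).toMeasurableEquiv
  have h5 : Measure.map (Homeomorph.smulOfNeZero (2 * π) h2π :
      (Fin n → ℝ) ≃ₜ (Fin n → ℝ)).toMeasurableEquiv (volume : Measure (Fin n → ℝ)) =
      ENNReal.ofReal (|((2 * π) ^ n)⁻¹|) • (volume : Measure (Fin n → ℝ)) := by
    have := Measure.map_addHaar_smul (volume : Measure (Fin n → ℝ)) h2π
    rw [Module.finrank_fin_fun] at this
    exact this
  rw [h5, lintegral_smul_measure, smul_eq_mul] at h4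
  rw [h4]
  rfl

theorem end_extn_congr {n : ℕ} {g g' : E n → ℂ} (h : ∀ x : E n, ‖x‖ = 1 → g x = g' x) :
    extn g = extn g' := by
  funext ξ
  unfold extn
  refine integral_congr_ae (Filter.Eventually.of_forall fun x => ?_)
  simp only
  rw [h x (by simp)]

/-- All dimensions, one density. -/
theorem spn_bound (n M : ℕ) (hn : 3 ≤ n) (p : ℝ) (hp : 2 * (n : ℝ) / (n - 1) < p) :
    ∃ C : ℝ≥0∞, C ≠ ∞ ∧ ∀ f : Fin n → Fn (Dn n) M,
      ∫⁻ ξ : E n, ‖extn (fun x => Complex.exp (((∑ j, (f j).f (x j) : ℝ) : ℂ) * Complex.I)) ξ‖ₑ ^ p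
        ≤ C := by
  have hn' : (3 : ℝ) ≤ n := by exact_mod_cast hn
  have h1 : 0 < (n : ℝ) - 1 := by linarith
  have h2 : 2 * (n : ℝ) / (n - 1) = 2 + 2 / (n - 1) := by
    field_simp
    ring
  rw [h2] at hp
  set u : ℝ := if n = 3 then 11 / 10 else 17 / 25 with hu
  have hu1 : 2 / ((n : ℝ) - 1) < u := by
    rw [hu]
    split_ifs with h
    · subst h
      norm_num
    · have hn4 : (4 : ℝ) ≤ n := by exact_mod_cast (by omega : 4 ≤ n)
      rw [div_lt_iff₀ h1]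
      linarith
  set a : ℝ := min (p - 2) u with ha
  have ha1 : 2 / ((n : ℝ) - 1) < a := lt_min (by linarith) hu1
  have ha0 : 0 < a := lt_trans (by positivity) ha1
  have hap : 2 + a ≤ p := by
    have := min_le_left (p - 2) u
    linarith
  have hau : if n = 3 then a ≤ 11 / 10 else a ≤ 17 / 25 := by
    have h3 : a ≤ u := min_le_right _ _
    rw [hu] at h3
    split_ifs with h
    · rwa [if_pos h] at h3
    · rwa [if_neg h] at h3
  obtain ⟨C, hC, h⟩ := main n M hn a ha1 hau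
  obtain ⟨c, hc⟩ := ft n (Dn n) M hn
  have hM : 0 ≤ (sm n).real univ := measureReal_nonneg
  refine ⟨ENNReal.ofReal ((sm n).real univ ^ (p - (2 + a))) * (‖c‖ₑ ^ (2 + a) *
    (ENNReal.ofReal (|((2 * π) ^ n)⁻¹|) * C)), ?_, fun f => ?_⟩
  · refine ENNReal.mul_ne_top ENNReal.ofReal_ne_top (ENNReal.mul_ne_top ?_
      (ENNReal.mul_ne_top ENNReal.ofReal_ne_top hC))
    exact ENNReal.rpow_ne_top_of_nonneg (by linarith) enorm_ne_top
  · refine (end_pow_lower hM (fun ξ => end_norm_le _ ξ) (by linarith) hap).trans ?_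
    gcongr
    calc ∫⁻ ξ : E n, ‖extn (fun x => Complex.exp (((∑ j, (f j).f (x j) : ℝ) : ℂ) *
          Complex.I)) ξ‖ₑ ^ (2 + a)
        = ∫⁻ ξ : E n, ‖c‖ₑ ^ (2 + a) * ‖FF f (fun j => 2 * π * ξ j)‖ₑ ^ (2 + a) := by
          refine lintegral_congr fun ξ => ?_
          rw [hc f ξ, enorm_mul, ENNReal.mul_rpow_of_nonneg _ _ (by linarith)]
      _ = ‖c‖ₑ ^ (2 + a) * ∫⁻ ξ : E n, ‖FF f (fun j => 2 * π * ξ j)‖ₑ ^ (2 + a) :=
          lintegral_const_mul' _ _ (ENNReal.rpow_ne_top_of_nonneg (by linarith) enorm_ne_top)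
      _ = ‖c‖ₑ ^ (2 + a) * (ENNReal.ofReal (|((2 * π) ^ n)⁻¹|) *
            ∫⁻ y : Fin n → ℝ, ‖FF f y‖ₑ ^ (2 + a)) := by
          rw [end_two_pi fun y => ‖FF f y‖ₑ ^ (2 + a)]
      _ ≤ _ := by
          gcongr
          exact h f

/-- All dimensions, one density whose summands have few sign changes on `[-1,1]`. -/
theorem spn_few (n M : ℕ) (hn : 3 ≤ n) (p : ℝ) (hp : 2 * (n : ℝ) / (n - 1) < p) :
    ∃ C : ℝ≥0∞, C ≠ ∞ ∧ ∀ f : Fin n → ℝ → ℝ, (∀ j, FewSigns (Dn n) M (f j)) →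
      ∫⁻ ξ : E n, ‖extn (fun x => Complex.exp (((∑ j, f j (x j) : ℝ) : ℂ) * Complex.I)) ξ‖ₑ ^ p
        ≤ C := by
  obtain ⟨C, hC, h⟩ := spn_bound n (M + 2 + 2 * (Dn n + 1) ^ 2) hn p hp
  refine ⟨C, hC, fun f hf => ?_⟩
  have h1 : ∀ j, ∃ g : Fn (Dn n) (M + 2 + 2 * (Dn n + 1) ^ 2), ∀ x ∈ Icc (-1 : ℝ) 1,
      g.f x = f j x := by
    intro j
    obtain ⟨hsm, F, hF, hs⟩ := hf j
    exact ext (Dn n) M (f j) hsm F hF hs
  choose g hg using h1
  refine le_trans (le_of_eq ?_) (h g)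
  rw [end_extn_congr (g' := fun x : E n =>
    Complex.exp (((∑ j, (g j).f (x j) : ℝ) : ℂ) * Complex.I))]
  intro x hx
  simp only
  congr 3
  refine Finset.sum_congr rfl fun j _ => (hg j (x j) ?_).symm
  have h2 : ‖x j‖ ≤ ‖x‖ := PiLp.norm_apply_le x j
  rw [hx, Real.norm_eq_abs] at h2
  exact abs_le.1 h2

/-- Superpositions of rotated densities. -/
theorem spn_super (n M : ℕ) (hn : 3 ≤ n) (p : ℝ) (hp : 2 * (n : ℝ) / (n - 1) < p) :
    ∃ C : ℝ≥0∞, C ≠ ∞ ∧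
      ∀ (W : Type) (_ : MeasurableSpace W) (ν : Measure W) (_ : IsFiniteMeasure ν)
        (R : W → (E n ≃ₗᵢ[ℝ] E n)) (f : W → Fin n → ℝ → ℝ),
        (Measurable fun q : W × E n => R q.1 q.2) →
        (∀ j, Measurable fun q : W × ℝ => f q.1 j q.2) →
        (∀ w j, FewSigns (Dn n) M (f w j)) →
        ∫⁻ ξ, ‖extn (fun x => ∫ w, Complex.exp (((∑ j, f w j (R w x j) : ℝ) : ℂ) * Complex.I) ∂ν)
          ξ‖ₑ ^ p ≤ C * ν univ ^ p := by
  obtain ⟨C, hC, h⟩ := spn_few n M hn p hp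
  refine ⟨C, hC, ?_⟩
  intro W _ ν _ R f hR hf hfd
  have hn1 : (0 : ℝ) < n - 1 := by
    have : (3 : ℝ) ≤ n := by exact_mod_cast hn
    linarith
  have hp1 : 1 ≤ p := by
    have h1 : 1 ≤ 2 * (n : ℝ) / (n - 1) := by
      rw [le_div_iff₀ hn1]
      have : (3 : ℝ) ≤ n := by exact_mod_cast hn
      linarith
    linarith
  have hmix : (fun x : E n => ∫ w, Complex.exp (((∑ j, f w j (R w x j) : ℝ) : ℂ) * Complex.I) ∂ν) =
      mix ν R (fun _ => 0) fun w (x : E n) =>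
        Complex.exp (((∑ j, f w j (x j) : ℝ) : ℂ) * Complex.I) := by
    funext x
    unfold mix
    refine integral_congr_ae (Filter.Eventually.of_forall fun w => ?_)
    simp
  have hm : Measurable (Function.uncurry fun w (x : E n) =>
      Complex.exp (((∑ j, f w j (x j) : ℝ) : ℂ) * Complex.I)) := by
    unfold Function.uncurry
    have hc : ∀ j : Fin n, Measurable fun q : W × E n => (q.1, q.2 j) := fun j => by fun_prop
    have h1 : Measurable fun q : W × E n => ∑ j, f q.1 j (q.2 j) :=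
      Finset.measurable_sum _ fun j _ => (hf j).comp (hc j)
    exact Complex.measurable_exp.comp ((Complex.measurable_ofReal.comp h1).mul measurable_const)
  rw [hmix]
  refine lintegral_mix_le hp1 (fun a => ∃ f' : Fin n → ℝ → ℝ,
    (a = fun x : E n => Complex.exp (((∑ j, f' j (x j) : ℝ) : ℂ) * Complex.I)) ∧
      ∀ j, FewSigns (Dn n) M (f' j)) ?_ ν R
    (fun _ => 0) _ hR measurable_const hm
    (fun w x => (Complex.norm_exp_ofReal_mul_I _).le) fun w => ⟨f w, rfl, hfd w⟩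
  rintro _ - - ⟨f', rfl, h1⟩
  exact h f' h1

end Pool.Agent.SPN
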