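import Pool.Agent.SPNH.Defs

/-!
# SPN, row EXT, analytic half: extension by polynomials outside `[-1, 1]`
-/

namespace Pool.Agent.SPN

open MeasureTheory Set Polynomial

theorem exists_antider (P : ℝ[X]) (d : ℕ) (hd : P.natDegree ≤ d) :
    ∃ Q : ℝ[X], derivative Q = P ∧ Q.natDegree ≤ d + 1 := by
  refine ⟨∑ n ∈ Finset.range (P.natDegree + 1), C (P.coeff n / ((n : ℝ) + 1)) * X ^ (n + 1),
    ?_, ?_⟩
  · rw [derivative_sum]
    conv_rhs => rw [P.as_sum_range_C_mul_X_pow]
    refine Finset.sum_congr rfl fun n _ => ?_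
    rw [derivative_C_mul_X_pow, Nat.add_sub_cancel]
    congr 2
    push_cast
    have : (n : ℝ) + 1 ≠ 0 := by positivity
    field_simp
  · refine natDegree_sum_le_of_forall_le _ _ fun n hn => ?_
    refine (natDegree_C_mul_X_pow_le _ _).trans ?_
    have := Finset.mem_range.1 hn
    omega

/-- Extension of a function of class `C^N` on `[-1, 1]` by polynomials. -/
theorem ext0 (N : ℕ) (f : ℝ → ℝ) (hf : ContDiff ℝ ((N : ℕ) : ℕ∞) f) :
    ∃ g : ℝ → ℝ, ContDiff ℝ ((N : ℕ) : ℕ∞) g ∧
      (∀ i ≤ N, ∀ x ∈ Icc (-1 : ℝ) 1, iteratedDeriv i g x = iteratedDeriv i f x) ∧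
      ∀ i ≤ N, ∃ P Q : ℝ[X], P.natDegree ≤ N - i ∧ Q.natDegree ≤ N - i ∧
        (∀ x, 1 ≤ x → iteratedDeriv i g x = P.eval x) ∧
        (∀ x, x ≤ -1 → iteratedDeriv i g x = Q.eval x) := by
  induction N generalizing f with
  | zero =>
    have hc : Continuous f := hf.continuous
    refine ⟨fun x => f (max (-1) (min x 1)), ?_, ?_, ?_⟩
    · have : Continuous fun x : ℝ => f (max (-1) (min x 1)) :=
        hc.comp (continuous_const.max (continuous_id.min continuous_const))
      exact_mod_cast contDiff_zero.2 this
    · intro i hi x hx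
      obtain rfl : i = 0 := by omega
      simp only [iteratedDeriv_zero]
      rw [min_eq_left hx.2, max_eq_right hx.1]
    · intro i hi
      obtain rfl : i = 0 := by omega
      refine ⟨C (f 1), C (f (-1)), by simp, by simp, ?_, ?_⟩
      · intro x hx
        simp only [iteratedDeriv_zero, eval_C]
        rw [min_eq_right hx, max_eq_right (by norm_num)]
      · intro x hx
        simp only [iteratedDeriv_zero, eval_C]
        rw [min_eq_left (by linarith), max_eq_left hx]
  | succ N ih =>
    have hfd : Differentiable ℝ f := hf.differentiable (by simp)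
    have hcast : (((N + 1 : ℕ) : ℕ∞) : WithTop ℕ∞) = (((N : ℕ) : ℕ∞) : WithTop ℕ∞) + 1 := by
      norm_cast
    have hf' : ContDiff ℝ ((N : ℕ) : ℕ∞) (deriv f) := by
      rw [hcast] at hf
      exact (contDiff_succ_iff_deriv.1 hf).2.2
    obtain ⟨g1, hg1, hg2, hg3⟩ := ih (deriv f) hf'
    have hgc : Continuous g1 := hg1.continuous
    set g : ℝ → ℝ := fun x => f 0 + ∫ u in (0:ℝ)..x, g1 u with hg
    have hder : ∀ x, HasDerivAt g (g1 x) x := fun x =>
      (hgc.integral_hasStrictDerivAt 0 x).hasDerivAt.const_add (f 0)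
    have hdg : deriv g = g1 := funext fun x => (hder x).deriv
    have hsucc : ∀ i, iteratedDeriv (i + 1) g = iteratedDeriv i g1 := by
      intro i
      rw [iteratedDeriv_succ', hdg]
    have hfder : ∀ x, HasDerivAt f (deriv f x) x := fun x => (hfd x).hasDerivAt
    have h01 : ∀ x ∈ Icc (-1 : ℝ) 1, g1 x = deriv f x := fun x hx => by
      simpa using hg2 0 (Nat.zero_le _) x hx
    have hgf : ∀ x ∈ Icc (-1 : ℝ) 1, g x = f x := by
      intro x hx
      have h1 : ∫ u in (0:ℝ)..x, g1 u = ∫ u in (0:ℝ)..x, deriv f u := by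
        refine intervalIntegral.integral_congr fun u hu => h01 u ?_
        have h2 : uIcc (0:ℝ) x ⊆ Icc (-1) 1 :=
          uIcc_subset_Icc ⟨by norm_num, by norm_num⟩ hx
        exact h2 hu
      have h2 : ∫ u in (0:ℝ)..x, deriv f u = f x - f 0 :=
        intervalIntegral.integral_eq_sub_of_hasDerivAt (fun u _ => hfder u)
          (hf'.continuous.intervalIntegrable _ _)
      rw [hg]
      show f 0 + ∫ u in (0:ℝ)..x, g1 u = f x
      rw [h1, h2]
      ring
    -- polynomial antiderivatives
    have hpol : ∀ (P : ℝ[X]) (a b : ℝ), (∀ u ∈ uIcc a b, g1 u = P.eval u) → ∀ Q : ℝ[X],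
        derivative Q = P → g b - g a = Q.eval b - Q.eval a := by
      intro P a b h Q hQ
      have h1 : ∫ u in a..b, g1 u = g b - g a :=
        intervalIntegral.integral_eq_sub_of_hasDerivAt (fun u _ => hder u)
          (hgc.intervalIntegrable _ _)
      have h2 : ∫ u in a..b, P.eval u = Q.eval b - Q.eval a :=
        intervalIntegral.integral_eq_sub_of_hasDerivAt
          (fun u _ => by rw [← hQ]; exact Q.hasDerivAt u) (P.continuous.intervalIntegrable _ _)
      rw [← h1, ← h2]
      exact intervalIntegral.integral_congr h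
    refine ⟨g, ?_, ?_, ?_⟩
    · rw [hcast]
      refine contDiff_succ_iff_deriv.2 ⟨fun x => (hder x).differentiableAt, ?_, ?_⟩
      · intro h
        exact absurd h (by simp)
      · rw [hdg]
        exact hg1
    · intro i hi x hx
      rcases i with _ | i
      · simpa using hgf x hx
      · rw [hsucc, iteratedDeriv_succ']
        exact hg2 i (by omega) x hx
    · intro i hi
      rcases i with _ | i
      · obtain ⟨P, Q, hP, hQ, hP1, hQ1⟩ := hg3 0 (Nat.zero_le _)
        obtain ⟨P', hP', hPd⟩ := exists_antider P N (by simpa using hP)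
        obtain ⟨Q', hQ', hQd⟩ := exists_antider Q N (by simpa using hQ)
        refine ⟨P' + C (g 1 - P'.eval 1), Q' + C (g (-1) - Q'.eval (-1)), ?_, ?_, ?_, ?_⟩
        · refine (natDegree_add_C).le.trans ?_
          simpa using hPd
        · refine (natDegree_add_C).le.trans ?_
          simpa using hQd
        · intro x hx
          have := hpol P 1 x (fun u hu => by
            rw [uIcc_of_le hx] at hu
            simpa using hP1 u hu.1) P' hP'
          simp only [iteratedDeriv_zero, eval_add, eval_C]
          linarith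
        · intro x hx
          have := hpol Q (-1) x (fun u hu => by
            rw [uIcc_of_ge hx] at hu
            simpa using hQ1 u hu.2) Q' hQ'
          simp only [iteratedDeriv_zero, eval_add, eval_C]
          linarith
      · obtain ⟨P, Q, hP, hQ, hP1, hQ1⟩ := hg3 i (by omega)
        refine ⟨P, Q, by omega, by omega, ?_, ?_⟩
        · intro x hx
          rw [hsucc]
          exact hP1 x hx
        · intro x hx
          rw [hsucc]
          exact hQ1 x hx

end Pool.Agent.SPN
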