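import Pool.Agent.SPNH.Defs

/-!
Row FEW: polynomials with few monomials, of any degree.
-/

namespace Pool.Agent.SPN

open MeasureTheory Set Pool.Agent.MP_6cbfb8_an
open scoped ENNReal Real Polynomial

/-- The derivative has at most as many monomials. -/
lemma few_supp (f : ℝ[X]) : f.derivative.support.card ≤ f.support.card := by
  refine Finset.card_le_card_of_injOn (fun n => n + 1) ?_ (fun a _ b _ h => by simpa using h)
  intro n hn
  simp only [Finset.mem_coe, Polynomial.mem_support_iff, Polynomial.coeff_derivative] at hn ⊢
  intro h0
  exact hn (by simp [h0])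

/-- All derivatives have at most as many monomials. -/
lemma few_supp_iter (f : ℝ[X]) (i : ℕ) :
    ((Polynomial.derivative^[i]) f).support.card ≤ f.support.card := by
  induction i with
  | zero => simp
  | succ i ih =>
    rw [Function.iterate_succ_apply']
    exact (few_supp _).trans ih

/-- A polynomial with at most `s` monomials has at most `2 s` real roots. -/
lemma few_roots (s : ℕ) : ∀ f : ℝ[X], f.support.card ≤ s → f.roots.toFinset.card ≤ 2 * s := by
  induction s with
  | zero =>
    intro f hf
    have h0 : f = 0 := by
      have := Nat.le_zero.1 hf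
      simpa using this
    simp [h0]
  | succ s ih =>
    intro f hf
    by_cases h0 : f = 0
    · simp [h0]
    set a := f.natTrailingDegree with ha
    have hdvd : (Polynomial.X : ℝ[X]) ^ a ∣ f :=
      Polynomial.X_pow_dvd_iff.2 fun d hd => Polynomial.coeff_eq_zero_of_lt_natTrailingDegree hd
    obtain ⟨g, hg⟩ := hdvd
    have hcg : ∀ n, g.coeff n = f.coeff (n + a) := by
      intro n
      rw [hg, Polynomial.coeff_X_pow_mul]
    have haf : a ∈ f.support := Polynomial.natTrailingDegree_mem_support_of_nonzero h0
    have hg' : g.derivative.support.card ≤ s := by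
      have h1 : g.derivative.support.card ≤ (f.support.erase a).card := by
        refine Finset.card_le_card_of_injOn (fun n => n + 1 + a) ?_
          (fun x _ y _ h => by simpa using h)
        intro n hn
        simp only [Finset.mem_coe, Polynomial.mem_support_iff, Polynomial.coeff_derivative,
          Finset.mem_erase] at hn ⊢
        refine ⟨by omega, fun h => hn ?_⟩
        rw [hcg, h, zero_mul]
      rw [Finset.card_erase_of_mem haf] at h1
      omega
    have hr : f.roots.toFinset ⊆ insert 0 g.roots.toFinset := by
      intro x hx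
      rw [Multiset.mem_toFinset, Polynomial.mem_roots h0, hg, Polynomial.IsRoot,
        Polynomial.eval_mul, Polynomial.eval_pow, Polynomial.eval_X, mul_eq_zero] at hx
      rw [Finset.mem_insert, Multiset.mem_toFinset, Polynomial.mem_roots (by
        rintro rfl
        exact h0 (by rw [hg, mul_zero]))]
      rcases hx with hx | hx
      · left
        by_contra hx0
        exact pow_ne_zero a hx0 hx
      · exact Or.inr hx
    calc f.roots.toFinset.card ≤ (insert 0 g.roots.toFinset).card := Finset.card_le_card hr
      _ ≤ g.roots.toFinset.card + 1 := Finset.card_insert_le _ _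
      _ ≤ (g.derivative.roots.toFinset.card + 1) + 1 := by
          have := Polynomial.card_roots_toFinset_le_derivative g
          omega
      _ ≤ 2 * (s + 1) := by
          have := ih g.derivative hg'
          omega

/-- The derivatives of a polynomial function. -/
lemma few_deriv (f : ℝ[X]) (i : ℕ) :
    iteratedDeriv i (fun x => f.eval x) = fun x => ((Polynomial.derivative^[i]) f).eval x := by
  induction i with
  | zero => simp [iteratedDeriv_zero]
  | succ i ih =>
    rw [iteratedDeriv_succ, ih, Function.iterate_succ_apply']
    funext x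
    exact Polynomial.deriv _

/-- ROW FEW. A real polynomial with at most `s` monomials (any degree) has few signs. -/
theorem few (D s : ℕ) (f : Polynomial ℝ) (hs : f.support.card ≤ s) :
    FewSigns D ((D - 1) * (2 * s + 1)) fun x => f.eval x := by
  classical
  have hsm : ContDiff ℝ ((D + 1 : ℕ) : ℕ∞) fun x => f.eval x := by
    have h := Polynomial.contDiff_aeval (𝕜 := ℝ) f ((D + 1 : ℕ) : ℕ∞)
    have e : (fun x : ℝ => Polynomial.aeval x f) = fun x => f.eval x := by
      funext x
      rw [Polynomial.coe_aeval_eq_eval]
    rw [e] at h
    exact h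
  refine ⟨hsm, (Finset.Icc 3 (D + 1)).biUnion fun i =>
    ((Polynomial.derivative^[i]) f).roots.toFinset, ?_, ?_⟩
  · refine Finset.card_biUnion_le.trans ?_
    refine (Finset.sum_le_card_nsmul _ _ (2 * s + 1) fun i _ => ?_).trans ?_
    · exact (few_roots s _ ((few_supp_iter f i).trans hs)).trans (by omega)
    · rw [Nat.card_Icc, smul_eq_mul]
      exact Nat.mul_le_mul_right _ (by omega)
  · intro i hi hi' x _ y _ hxy hF
    rw [few_deriv]
    by_contra hneg
    push Not at hneg
    set g := (Polynomial.derivative^[i]) f with hg
    have hcont : ContinuousOn (fun x => g.eval x) (Icc x y) := g.continuous.continuousOn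
    have hroot : ∃ c ∈ Ioo x y, g.eval c = 0 := by
      rcases mul_neg_iff.1 hneg with ⟨h1, h2⟩ | ⟨h1, h2⟩
      · obtain ⟨c, hc, hc0⟩ := intermediate_value_Ioo' hxy hcont ⟨h2, h1⟩
        exact ⟨c, hc, hc0⟩
      · obtain ⟨c, hc, hc0⟩ := intermediate_value_Ioo hxy hcont ⟨h1, h2⟩
        exact ⟨c, hc, hc0⟩
    obtain ⟨c, hc, hc0⟩ := hroot
    have hg0 : g ≠ 0 := by
      rintro h
      rw [h] at hneg
      simp at hneg
    refine hF c ?_ hc
    rw [Finset.mem_biUnion]
    refine ⟨i, Finset.mem_Icc.2 ⟨hi, hi'⟩, ?_⟩
    rw [Multiset.mem_toFinset, Polynomial.mem_roots hg0]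
    exact hc0

end Pool.Agent.SPN
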