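import Pool.Agent.SPNH.Defs

/-!
Row FEWX: sums of few exponentials.
-/

namespace Pool.Agent.SPN

open MeasureTheory Set Pool.Agent.MP_6cbfb8_an
open scoped ENNReal Real

/-- Rolle: a function whose derivative has at most `N` zeros has at most `N + 1` zeros. -/
lemma fewx_rolle (h h' : ℝ → ℝ) (hd : ∀ x, HasDerivAt h (h' x) x) (N : ℕ) (F : Finset ℝ)
    (hF : F.card ≤ N) (hz : ∀ x, h' x = 0 → x ∈ F) :
    ∃ G : Finset ℝ, G.card ≤ N + 1 ∧ ∀ x, h x = 0 → x ∈ G := by
  have hc : Continuous h := continuous_iff_continuousAt.2 fun x => (hd x).continuousAt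
  have key : ∀ S : Finset ℝ, (∀ x ∈ S, h x = 0) → S.card ≤ N + 1 := by
    intro S hS
    refine (Finset.card_le_of_interleaved (t := F) fun x hx y hy hxy _ => ?_).trans (by omega)
    obtain ⟨c, hc1, hc2⟩ := exists_hasDerivAt_eq_zero (f := h) (f' := h') hxy hc.continuousOn
      (by rw [hS x hx, hS y hy]) fun t _ => hd t
    exact ⟨c, hz c hc2, hc1.1, hc1.2⟩
  have hfin : {x | h x = 0}.Finite := by
    by_contra hinf
    obtain ⟨S, hS, hcard⟩ := Set.Infinite.exists_subset_card_eq hinf (N + 2)
    have := key S fun x hx => hS hx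
    omega
  refine ⟨hfin.toFinset, key _ fun x hx => by simpa using hx, fun x hx => by simpa using hx⟩

/-- A sum of `s` exponentials vanishes identically or has at most `s` real zeros. -/
lemma fewx_zeros (s : ℕ) : ∀ b l : Fin s → ℝ, (∀ x : ℝ, ∑ j, b j * Real.exp (l j * x) = 0) ∨
    ∃ G : Finset ℝ, G.card ≤ s ∧ ∀ x : ℝ, ∑ j, b j * Real.exp (l j * x) = 0 → x ∈ G := by
  induction s with
  | zero =>
    intro b l
    exact Or.inl fun x => by simp
  | succ s ih =>
    intro b l
    set h : ℝ → ℝ := fun x => b 0 + ∑ j : Fin s, b j.succ * Real.exp ((l j.succ - l 0) * x)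
      with hh
    have hgh : ∀ x : ℝ, ∑ j, b j * Real.exp (l j * x) = Real.exp (l 0 * x) * h x := by
      intro x
      rw [hh, Fin.sum_univ_succ, mul_add, Finset.mul_sum, mul_comm (b 0)]
      congr 1
      refine Finset.sum_congr rfl fun j _ => ?_
      have : Real.exp (l j.succ * x) = Real.exp (l 0 * x) * Real.exp ((l j.succ - l 0) * x) := by
        rw [← Real.exp_add]
        congr 1
        ring
      rw [this]
      ring
    have hd : ∀ x, HasDerivAt h
        (∑ j : Fin s, (b j.succ * (l j.succ - l 0)) * Real.exp ((l j.succ - l 0) * x)) x := by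
      intro x
      rw [hh]
      refine HasDerivAt.const_add _ ?_
      refine HasDerivAt.fun_sum fun j _ => ?_
      have h1 : HasDerivAt (fun x : ℝ => Real.exp ((l j.succ - l 0) * x))
          (Real.exp ((l j.succ - l 0) * x) * ((l j.succ - l 0) * 1)) x :=
        ((hasDerivAt_id x).const_mul (l j.succ - l 0)).exp
      have h2 := h1.const_mul (b j.succ)
      exact h2.congr_deriv (by ring)
    rcases ih (fun j => b j.succ * (l j.succ - l 0)) (fun j => l j.succ - l 0) with h0 | ⟨F, hF, hz⟩
    · have hconst : ∀ x, h x = h 0 := by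
        intro x
        refine is_const_of_deriv_eq_zero (fun y => (hd y).differentiableAt) (fun y => ?_) x 0
        rw [(hd y).deriv]
        exact h0 y
      by_cases h00 : h 0 = 0
      · exact Or.inl fun x => by rw [hgh, hconst, h00, mul_zero]
      · refine Or.inr ⟨∅, by simp, fun x hx => ?_⟩
        rw [hgh, hconst] at hx
        rcases mul_eq_zero.1 hx with h1 | h1
        · exact absurd h1 (Real.exp_ne_zero _)
        · exact absurd h1 h00
    · obtain ⟨G, hG, hG'⟩ := fewx_rolle h _ hd s F hF hz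
      refine Or.inr ⟨G, hG, fun x hx => hG' x ?_⟩
      rw [hgh] at hx
      rcases mul_eq_zero.1 hx with h1 | h1
      · exact absurd h1 (Real.exp_ne_zero _)
      · exact h1

/-- The derivatives of a sum of exponentials. -/
lemma fewx_deriv (s : ℕ) (c l : Fin s → ℝ) (i : ℕ) :
    iteratedDeriv i (fun x => ∑ j, c j * Real.exp (l j * x)) =
      fun x => ∑ j, (c j * l j ^ i) * Real.exp (l j * x) := by
  induction i with
  | zero => simp [iteratedDeriv_zero]
  | succ i ih =>
    rw [iteratedDeriv_succ, ih]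
    funext x
    have h : HasDerivAt (fun x => ∑ j, (c j * l j ^ i) * Real.exp (l j * x))
        (∑ j, (c j * l j ^ (i + 1)) * Real.exp (l j * x)) x := by
      refine HasDerivAt.fun_sum fun j _ => ?_
      have h1 : HasDerivAt (fun x : ℝ => Real.exp (l j * x)) (Real.exp (l j * x) * (l j * 1)) x :=
        ((hasDerivAt_id x).const_mul (l j)).exp
      have h2 := h1.const_mul (c j * l j ^ i)
      exact h2.congr_deriv (by ring)
    exact h.deriv

/-- ROW FEWX. A sum of `s` real exponentials has few signs. -/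
theorem few_exp (D s : ℕ) (c l : Fin s → ℝ) :
    FewSigns D ((D - 1) * s) fun x => ∑ j, c j * Real.exp (l j * x) := by
  classical
  have hz : ∀ i : ℕ, ∃ G : Finset ℝ, G.card ≤ s ∧
      ((∀ x : ℝ, ∑ j, (c j * l j ^ i) * Real.exp (l j * x) = 0) ∨
        ∀ x : ℝ, ∑ j, (c j * l j ^ i) * Real.exp (l j * x) = 0 → x ∈ G) := by
    intro i
    rcases fewx_zeros s (fun j => c j * l j ^ i) l with h | ⟨G, hG, hG'⟩
    · exact ⟨∅, by simp, Or.inl h⟩
    · exact ⟨G, hG, Or.inr hG'⟩
  choose G hG hG' using hz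
  refine ⟨?_, (Finset.Icc 3 (D + 1)).biUnion G, ?_, ?_⟩
  · refine ContDiff.sum fun j _ => ?_
    exact contDiff_const.mul (Real.contDiff_exp.comp (contDiff_const.mul contDiff_id))
  · refine Finset.card_biUnion_le.trans ?_
    refine (Finset.sum_le_card_nsmul _ _ s fun i _ => hG i).trans ?_
    rw [Nat.card_Icc, smul_eq_mul]
    exact Nat.mul_le_mul_right _ (by omega)
  · intro i hi hi' x _ y _ hxy hF
    rw [fewx_deriv]
    rcases hG' i with h0 | h0
    · simp [h0]
    by_contra hneg
    push Not at hneg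
    set g : ℝ → ℝ := fun x => ∑ j, (c j * l j ^ i) * Real.exp (l j * x) with hg
    have hcont : ContinuousOn g (Icc x y) := by
      refine Continuous.continuousOn ?_
      rw [hg]
      fun_prop
    have hroot : ∃ c ∈ Ioo x y, g c = 0 := by
      rcases mul_neg_iff.1 hneg with ⟨h1, h2⟩ | ⟨h1, h2⟩
      · obtain ⟨c, hc, hc0⟩ := intermediate_value_Ioo' hxy hcont ⟨h2, h1⟩
        exact ⟨c, hc, hc0⟩
      · obtain ⟨c, hc, hc0⟩ := intermediate_value_Ioo hxy hcont ⟨h1, h2⟩
        exact ⟨c, hc, hc0⟩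
    obtain ⟨e, he, he0⟩ := hroot
    exact hF e (Finset.mem_biUnion.2 ⟨i, Finset.mem_Icc.2 ⟨hi, hi'⟩, h0 e he0⟩) he

end Pool.Agent.SPN
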