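import Pool.Agent.SPNH.END
import Pool.Agent.SPNH.FEW
import Pool.Agent.SPNH.FEWX

/-!
The final statement.
-/

namespace Pool.Agent.SPN

open MeasureTheory Set Pool.Agent.MP_6cbfb8_an
open scoped ENNReal Real

/-- `f` is (a) a real polynomial with at most `M` monomials (of any degree), or (b) a sum of `M`
real exponentials `c e^{l x}`, or (c) a function of class `C^(D+1)`, `D = Dn n`, with at most `M`
points such that on `[-1,1]`, between consecutive ones, every derivative of order `3, …, D+1` has a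
constant sign. -/
def Few (n M : ℕ) (f : ℝ → ℝ) : Prop :=
  (∃ P : Polynomial ℝ, P.support.card ≤ M ∧ f = fun x => P.eval x) ∨
    (∃ c l : Fin M → ℝ, f = fun x => ∑ j, c j * Real.exp (l j * x)) ∨ FewSigns (Dn n) M f

theorem FewSigns.mono {D M M' : ℕ} (h : M ≤ M') {f : ℝ → ℝ} (hf : FewSigns D M f) :
    FewSigns D M' f := by
  obtain ⟨h1, F, h2, h3⟩ := hf
  exact ⟨h1, F, h2.trans h, h3⟩

theorem Few.signs {n M : ℕ} {f : ℝ → ℝ} (hf : Few n M f) :
    FewSigns (Dn n) (M + (Dn n - 1) * (2 * M + 1)) f := by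
  rcases hf with ⟨P, hP, rfl⟩ | ⟨c, l, rfl⟩ | hf
  · exact (few (Dn n) M P hP).mono (by omega)
  · refine (few_exp (Dn n) M c l).mono ?_
    have : (Dn n - 1) * M ≤ (Dn n - 1) * (2 * M + 1) := Nat.mul_le_mul_left _ (by omega)
    omega
  · exact hf.mono (by omega)

/-- Phases in an arbitrary orthonormal frame, and superpositions. -/
theorem spn_main (n M : ℕ) (hn : 3 ≤ n) (p : ℝ) (hp : 2 * (n : ℝ) / (n - 1) < p) :
    ∃ C : ℝ≥0∞, C ≠ ∞ ∧
      (∀ (R : E n ≃ₗᵢ[ℝ] E n) (f : Fin n → ℝ → ℝ), (∀ j, Few n M (f j)) →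
        ∫⁻ ξ, ‖extn (fun x => Complex.exp (((∑ j, f j (R x j) : ℝ) : ℂ) * Complex.I)) ξ‖ₑ ^ p ≤
          C) ∧
      ∀ (W : Type) (_ : MeasurableSpace W) (ν : Measure W) (_ : IsFiniteMeasure ν)
        (R : W → (E n ≃ₗᵢ[ℝ] E n)) (f : W → Fin n → ℝ → ℝ),
        (Measurable fun q : W × E n => R q.1 q.2) →
        (∀ j, Measurable fun q : W × ℝ => f q.1 j q.2) → (∀ w j, Few n M (f w j)) →
        ∫⁻ ξ, ‖extn (fun x => ∫ w, Complex.exp (((∑ j, f w j (R w x j) : ℝ) : ℂ) * Complex.I) ∂ν)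
          ξ‖ₑ ^ p ≤ C * ν univ ^ p := by
  obtain ⟨C, hC, h⟩ := spn_super n (M + (Dn n - 1) * (2 * M + 1)) hn p hp
  refine ⟨C, hC, fun R f hf => ?_, fun W mW ν hν R f hR hf hF =>
    h W mW ν hν R f hR hf fun w j => (hF w j).signs⟩
  have h1 := h Unit inferInstance (Measure.dirac ()) inferInstance (fun _ => R) (fun _ => f)
    (R.continuous.measurable.comp measurable_snd)
    (fun j => (hf j).signs.1.continuous.measurable.comp measurable_snd) fun _ j => (hf j).signs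
  simpa using h1

end Pool.Agent.SPN
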