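import Pool.Agent.SPNH.FIN
import Pool.Agent.SPNH.BVD

/-!
The final statement, with factors of bounded variation.
-/

namespace Pool.Agent.SPN

open MeasureTheory Set Pool.Agent.MP_6cbfb8_an
open scoped ENNReal Real

/-- On `[-1,1]` the function `F` is a sum of `N` terms `w e^{if}`, where `|w| ≤ 1`, the variation of
`w` is at most `V`, and `f` is in the class `Few n M`. -/
def Fct (n M N : ℕ) (V : ℝ) (F : ℝ → ℂ) : Prop :=
  ∃ (w : Fin N → ℝ → ℂ) (f : Fin N → ℝ → ℝ),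
    (∀ k, (∀ t ∈ Icc (-1 : ℝ) 1, ‖w k t‖ ≤ 1) ∧
      eVariationOn (w k) (Icc (-1) 1) ≤ ENNReal.ofReal V ∧ Few n M (f k)) ∧
    ∀ t ∈ Icc (-1 : ℝ) 1, F t = ∑ k, w k t * Complex.exp (((f k t : ℝ) : ℂ) * Complex.I)

theorem Fct.fewBV {n M N : ℕ} {V : ℝ} {F : ℝ → ℂ} (h : Fct n M N V F) :
    FewBV (Dn n) (M + (Dn n - 1) * (2 * M + 1)) N V F := by
  obtain ⟨w, f, h1, h2⟩ := h
  exact ⟨w, f, fun k => ⟨(h1 k).1, (h1 k).2.1, (h1 k).2.2.signs⟩, h2⟩

theorem FewBV.prj {D M N : ℕ} {V : ℝ} {F : ℝ → ℂ} (h : FewBV D M N V F) :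
    Measurable (prj F) ∧ FewBV D M N V (prj F) := by
  obtain ⟨w, f, h1, h2⟩ := h
  refine ⟨?_, w, f, h1, fun t ht => by rw [prj_eq ht, h2 t ht]⟩
  have h3 : SPN.prj F = fun t => ∑ k, SPN.prj (w k) t *
      Complex.exp (((f k (max (-1) (min 1 t)) : ℝ) : ℂ) * Complex.I) := by
    funext t
    exact h2 _ (prj_mem t)
  rw [h3]
  refine Finset.measurable_sum _ fun k _ => ?_
  refine (bvc_meas (((prj_var (w k)).trans (h1 k).2.1).trans_lt ENNReal.ofReal_lt_top).ne).mul ?_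
  refine Complex.measurable_exp.comp ((Complex.measurable_ofReal.comp ?_).mul measurable_const)
  exact (bvc_few_meas (h1 k).2.2).comp (by fun_prop)

/-- Tensor products in an arbitrary orthonormal frame times ridge functions, and superpositions. -/
theorem spb_main (n M N K : ℕ) (V : ℝ) (hn : 3 ≤ n) (p : ℝ) (hp : 2 * (n : ℝ) / (n - 1) < p) :
    ∃ C : ℝ≥0∞, C ≠ ∞ ∧
      (∀ (R : E n ≃ₗᵢ[ℝ] E n) (F : Fin n → ℝ → ℂ) (u : Fin K → E n) (B : Fin K → ℝ → ℂ),
        (∀ j, Fct n M N V (F j)) → (∀ i t, ‖B i t‖ ≤ 1) →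
        (∀ i, eVariationOn (B i) univ ≤ ENNReal.ofReal V) →
        ∫⁻ ξ, ‖extn (fun x => (∏ j, F j (R x j)) * ∏ i, B i (inner ℝ x (u i))) ξ‖ₑ ^ p ≤ C) ∧
      ∀ (W : Type) (_ : MeasurableSpace W) (ν : Measure W) (_ : IsFiniteMeasure ν)
        (R : W → (E n ≃ₗᵢ[ℝ] E n)) (η : W → E n) (F : W → Fin n → ℝ → ℂ)
        (u : W → Fin K → E n) (B : W → Fin K → ℝ → ℂ),
        (Measurable fun q : W × E n => R q.1 q.2) → Measurable η →
        (∀ j, Measurable fun q : W × ℝ => F q.1 j q.2) → Measurable u →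
        (∀ i, Measurable fun q : W × ℝ => B q.1 i q.2) →
        (∀ s j, Fct n M N V (F s j)) → (∀ s i t, ‖B s i t‖ ≤ 1) →
        (∀ s i, eVariationOn (B s i) univ ≤ ENNReal.ofReal V) →
        ∫⁻ ξ, ‖extn (mix ν R η fun s x => (∏ j, F s j (x j)) *
          ∏ i, B s i (inner ℝ x (u s i))) ξ‖ₑ ^ p ≤ C * ν univ ^ p := by
  obtain ⟨C, hC, h⟩ := spb_super n (M + (Dn n - 1) * (2 * M + 1)) N K V hn p hp
  refine ⟨C, hC, fun R F u B hF hB hBv => ?_,
    fun W mW ν hν R η F u B hR hη hF hu hBm hFF hB hBv =>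
    h W mW ν hν R η F u B hR hη hF hu hBm (fun s j => (hFF s j).fewBV) hB hBv⟩
  have h1 := h Unit inferInstance (Measure.dirac ()) inferInstance (fun _ => R) (fun _ => 0)
    (fun _ j => prj (F j)) (fun _ i => R (u i)) (fun _ => B)
    (R.continuous.measurable.comp measurable_snd) measurable_const
    (fun j => (hF j).fewBV.prj.1.comp measurable_snd) measurable_const
    (fun i => (bvc_meas ((hBv i).trans_lt ENNReal.ofReal_lt_top).ne).comp measurable_snd)
    (fun _ j => (hF j).fewBV.prj.2) (fun _ => hB) fun _ => hBv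
  rw [measure_univ, ENNReal.one_rpow, mul_one] at h1
  refine le_trans (le_of_eq ?_) h1
  rw [end_extn_congr (g' := mix (Measure.dirac ()) (fun _ => R) (fun _ => 0)
    fun (_ : Unit) x => (∏ j, prj (F j) (x j)) * ∏ i, B i (inner ℝ x (R (u i))))]
  intro x hx
  unfold mix
  simp only [integral_dirac, inner_zero_right, mul_zero, Complex.ofReal_zero, zero_mul,
    Complex.exp_zero, one_mul, LinearIsometryEquiv.inner_map_map]
  congr 1
  refine Finset.prod_congr rfl fun j _ => (prj_eq (bvc_coord_mem ?_ j)).symm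
  rw [LinearIsometryEquiv.norm_map, hx]

end Pool.Agent.SPN
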