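import Pool.Agent.SPNH.AV
import Pool.Agent.SEPH.HB

/-!
Row HB.
-/

namespace Pool.Agent.SPN

open MeasureTheory Set Pool.Agent.MP_6cbfb8_an
open Pool.Agent.SEP (B phi phat beta om tj Tb)
open scoped ENNReal Real

/-- The divided difference of `yc` at one time. -/
theorem lnc_dd {D M : ℕ} (hD : 3 ≤ D) (f : Fn D M) (x1 x2 w lo hi : ℝ)
    (hc : (f.F.filter (· < x1)).card = (f.F.filter (· < x2)).card)
    (h1 : lo ≤ iteratedDeriv 2 f.f x1 - 2 * w) (h1' : iteratedDeriv 2 f.f x1 - 2 * w ≤ hi)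
    (h2 : lo ≤ iteratedDeriv 2 f.f x2 - 2 * w) (h2' : iteratedDeriv 2 f.f x2 - 2 * w ≤ hi) :
    ∃ b, lo ≤ b ∧ b ≤ hi ∧ yc f x2 w - yc f x1 w = b * (x2 - x1) := by
  rcases lt_trichotomy x1 x2 with h | h | h
  · obtain ⟨h3, h4⟩ := avg hD f x1 x2 w lo hi h.le hc h1 h1' h2 h2'
    have h5 : 0 < x2 - x1 := by linarith
    refine ⟨(yc f x2 w - yc f x1 w) / (x2 - x1), ?_, ?_, ?_⟩
    · rw [le_div_iff₀ h5]; exact h3
    · rw [div_le_iff₀ h5]; exact h4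
    · field_simp
  · subst h
    exact ⟨lo, le_rfl, h1.trans h1', by ring⟩
  · obtain ⟨h3, h4⟩ := avg hD f x2 x1 w lo hi h.le hc.symm h2 h2' h1 h1'
    have h5 : 0 < x1 - x2 := by linarith
    refine ⟨(yc f x1 w - yc f x2 w) / (x1 - x2), ?_, ?_, ?_⟩
    · rw [le_div_iff₀ h5]; exact h3
    · rw [div_le_iff₀ h5]; exact h4
    · field_simp
      ring

/-- The components of the label. -/
theorem lnc_lab {D M : ℕ} {A : ℝ} {k m : ℕ} {f : Fn D M} {z w z' w' : ℝ}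
    (h : lab1 A k m f z w = lab1 A k m f z' w') :
    ((f.F.filter (· < z)).card = (f.F.filter (· < z')).card) ∧
    (0 < z ↔ 0 < z') ∧
    (0 < iteratedDeriv 2 f.f z - 2 * w ↔ 0 < iteratedDeriv 2 f.f z' - 2 * w') ∧
    (Core A k m f z ↔ Core A k m f z') ∧
    (Core A k m f z → ⌊8 * 2 ^ k * z⌋ = ⌊8 * 2 ^ k * z'⌋) := by
  unfold lab1 at h
  simp only [Prod.mk.injEq, decide_eq_decide] at h
  obtain ⟨h1, h2, h3, h4, h5⟩ := h
  refine ⟨h2, h3, h4, h5, fun hc => ?_⟩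
  rw [if_pos hc, if_pos (h5.1 hc)] at h1
  exact h1

theorem lnc_up {D M : ℕ} {A : ℝ} {k m : ℕ} {f : Fn D M} {z w : ℝ} (hD : 2 ≤ D)
    (h : Cls A k m f z w) : |iteratedDeriv 2 f.f z - 2 * w| ≤ A * 4 ^ k := by
  have h1 := h.up 2 (by simp [hD]) z (by simp)
  rw [av_gd2, av_pow2] at h1
  exact h1

/-- Two points in the same cell. -/
theorem hb_cell {k : ℕ} {z z' : ℝ} (h : ⌊8 * 2 ^ k * z⌋ = ⌊8 * 2 ^ k * z'⌋) :
    |z' - z| ≤ 1 / (8 * 2 ^ k) := by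
  have hk0 : (0 : ℝ) < 8 * 2 ^ k := by positivity
  have h1 := Int.abs_sub_lt_one_of_floor_eq_floor h
  rw [← mul_sub, abs_mul, abs_of_pos hk0, abs_sub_comm] at h1
  rw [le_div_iff₀ hk0]
  linarith

/-- HB when the two points are close. -/
theorem hb_close {D M : ℕ} {A : ℝ} {k m : ℕ} {f : Fn D M} {z w z' w' : ℝ} (hD : 3 ≤ D)
    (hA : 1 ≤ A) (h : Cls A k m f z w) (h' : Cls A k m f z' w')
    (hz : |z' - z| ≤ 1 / (8 * 2 ^ k)) : |w' - w| ≤ 2 * A * 4 ^ k := by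
  have h1 : |iteratedDeriv 2 f.f z' - iteratedDeriv 2 f.f z| ≤
      (A * (4 ^ k * 2 ^ k)) * (1 / (8 * 2 ^ k)) := by
    refine av_var (by omega) f hz fun y hy => ?_
    have h6 := h.up 3 (Finset.mem_Icc.2 ⟨by norm_num, hD⟩) y hy
    rw [av_gd f w y le_rfl, av_pow3] at h6
    exact h6
  have h0 : (A * (4 ^ k * 2 ^ k)) * (1 / (8 * 2 ^ k)) = A * 4 ^ k / 8 := by
    field_simp
  rw [h0] at h1
  have h2 := lnc_up (by omega) h
  have h3 := lnc_up (by omega) h'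
  rw [abs_le] at h1 h2 h3 ⊢
  have h4 : (0 : ℝ) ≤ A * 4 ^ k := by positivity
  constructor <;> linarith

theorem hb_half {D M : ℕ} {A : ℝ} (hD : 3 ≤ D) (hA : 1 ≤ A) {k m : ℕ} {f : Fn D M}
    {z w z' w' Λ : ℝ} (hmk : m ≤ k) (hΛ : 1 ≤ Λ)
    (h : Cls A k m f z w) (h' : Cls A k m f z' w')
    (hl : lab1 A k m f z w = lab1 A k m f z' w')
    (he : |yc f z w - yc f z' w'| ≤ 2 * Λ * 2 ^ k) (hw : w ≤ w') :
    w' - w ≤ ((A + A ^ 3) + 2 * A) * Λ * 4 ^ k := by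
  obtain ⟨l1, l2, l3, l4, l5⟩ := lnc_lab hl
  have hA0 : 0 < A := by linarith
  have hC : (A + A ^ 3) * Λ * 4 ^ k ≤ ((A + A ^ 3) + 2 * A) * Λ * 4 ^ k := by
    have : 0 ≤ 2 * A * (Λ * 4 ^ k) := by positivity
    nlinarith
  by_cases hcore : Core A k m f z
  · have h1 := hb_close hD hA h h' (hb_cell (l5 hcore))
    have h2 := (le_abs_self _).trans h1
    calc w' - w ≤ _ := h2
      _ ≤ 2 * A * 4 ^ k * Λ := le_mul_of_one_le_right (by positivity) hΛ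
      _ ≤ ((A + A ^ 3) + 2 * A) * Λ * 4 ^ k := by
          have : 0 ≤ (A + A ^ 3) * (Λ * 4 ^ k) := by positivity
          nlinarith
  have hmk' := (noncell hD hA hmk h hcore).1
  have hz := h.zlo hmk'
  have hz' := h'.zlo hmk'
  have hu := lnc_up (by omega) h
  have hu' := lnc_up (by omega) h'
  refine le_trans ?_ hC
  have hMR : (2 : ℝ) ^ m ≤ 2 ^ k := pow_le_pow_right₀ (by norm_num) hmk
  have hQ : (4 : ℝ) ^ k = (2 ^ k) ^ 2 := by rw [← pow_mul, mul_comm, pow_mul]; norm_num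
  by_cases hs : 0 < iteratedDeriv 2 f.f z - 2 * w
  · have hs' := l3.1 hs
    rw [abs_of_pos hs] at hu
    rw [abs_of_pos hs'] at hu'
    obtain ⟨b, hb0, hb1, hb⟩ := lnc_dd hD f z z' w 0 (A * 4 ^ k + 2 * (w' - w)) l1 hs.le
      (by linarith) (by linarith) (by linarith)
    refine SEP.hb_alg (X := z) (Y := z') (b := b) (e := yc f z w - yc f z' w') (M := 2 ^ m)
      (R := 2 ^ k) hA hΛ (by positivity) hMR hQ hz hz' h'.zup l2 he hb0 hb1 ?_ (by linarith)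
    rw [← hb]
    unfold yc
    ring
  · have hs' : ¬ 0 < iteratedDeriv 2 f.f z' - 2 * w' := fun hh => hs (l3.2 hh)
    push Not at hs hs'
    rw [abs_of_nonpos hs] at hu
    rw [abs_of_nonpos hs'] at hu'
    obtain ⟨b, hb0, hb1, hb⟩ := lnc_dd hD f z z' w' (-(A * 4 ^ k + 2 * (w' - w))) 0 l1
      (by linarith) (by linarith) (by linarith) (by linarith)
    refine SEP.hb_alg (X := z') (Y := z) (b := -b) (e := yc f z w - yc f z' w') (M := 2 ^ m)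
      (R := 2 ^ k) hA hΛ (by positivity) hMR hQ hz' hz h.zup l2.symm he (by linarith) (by linarith)
      ?_ (by linarith)
    have h1 : -b * (z - z') = b * (z' - z) := by ring
    rw [h1, ← hb]
    unfold yc
    ring

/-- ROW HB. -/
theorem hb (D M : ℕ) (A : ℝ) (hD : 3 ≤ D) (hA : 1 ≤ A) : ∃ C : ℝ, 1 ≤ C ∧
    ∀ (k m : ℕ) (f : Fn D M) (z w z' w' Λ : ℝ), m ≤ k → 1 ≤ Λ →
      Cls A k m f z w → Cls A k m f z' w' → lab1 A k m f z w = lab1 A k m f z' w' →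
      |yc f z w - yc f z' w'| ≤ 2 * Λ * 2 ^ k → |w' - w| ≤ C * Λ * 4 ^ k := by
  refine ⟨(A + A ^ 3) + 2 * A, ?_, ?_⟩
  · have : 0 ≤ A ^ 3 + 2 * A := by positivity
    linarith
  · intro k m f z w z' w' Λ hmk hΛ h h' hl he
    rcases le_total w w' with h1 | h1
    · rw [abs_of_nonneg (by linarith)]
      exact hb_half hD hA hmk hΛ h h' hl he h1
    · rw [abs_sub_comm, abs_of_nonneg (by linarith)]
      exact hb_half hD hA hmk hΛ h' h hl.symm (by rwa [abs_sub_comm]) h1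

end Pool.Agent.SPN
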