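import Pool.Agent.SPNH.HB
import Pool.Agent.SEPH.LNC

/-!
Row LNC.
-/

namespace Pool.Agent.SPN

open MeasureTheory Set Pool.Agent.MP_6cbfb8_an
open Pool.Agent.SEP (B phi phat beta om tj Tb)
open scoped ENNReal Real

/-- The constant of LNC. -/
noncomputable def lncC (A C1 : ℝ) : ℝ :=
  3 * (2 * A) ^ 5 * (2 * A + 2 * C1) + 8 * (2 * A) ^ 2 * ((2 * A) ^ 2 + 1)

/-- The case of positive sign. -/
theorem lnc_pos {D M : ℕ} {A C1 : ℝ} (hD : 3 ≤ D) (hA : 1 ≤ A) (hC1 : 1 ≤ C1) {k m : ℕ}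
    {f : Fn D M} {z w1 w2 h X1 X2 Λ : ℝ} (hΛ : 1 ≤ Λ) (hh : 0 ≤ h) (hw : w1 ≤ w2)
    (hhb : h ≤ C1 * Λ * 4 ^ k)
    (t3 : (f.F.filter (· < z)).card = (f.F.filter (· < X2)).card)
    (t2 : (f.F.filter (· < z)).card = (f.F.filter (· < X1)).card)
    (gg : 0 < X1 ↔ 0 < X2)
    (p3 : |X1| * 2 ^ m ≤ A) (p4 : |X2| * 2 ^ m ≤ A)
    (z3 : m < k → 1 ≤ A * (|X1| * 2 ^ m)) (z4 : m < k → 1 ≤ A * (|X2| * 2 ^ m))
    (n1 : 4 ^ k / (2 * A) ≤ iteratedDeriv 2 f.f z - 2 * w2)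
    (u0 : iteratedDeriv 2 f.f z - 2 * w1 ≤ A * 4 ^ k)
    (n3 : 4 ^ k / (2 * A) ≤ iteratedDeriv 2 f.f X1 - 2 * (w1 + h))
    (u3 : iteratedDeriv 2 f.f X1 - 2 * (w1 + h) ≤ A * 4 ^ k)
    (n4 : 4 ^ k / (2 * A) ≤ iteratedDeriv 2 f.f X2 - 2 * (w2 + h))
    (u4 : iteratedDeriv 2 f.f X2 - 2 * (w2 + h) ≤ A * 4 ^ k)
    (e1 : |yc f z w1 - yc f X1 (w1 + h)| ≤ 2 * Λ * 2 ^ k)
    (e2 : |yc f z w2 - yc f X2 (w2 + h)| ≤ 2 * Λ * 2 ^ k) :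
    -(lncC A C1 * Λ / (2 ^ m * 2 ^ k)) ≤ X2 ^ 2 - X1 ^ 2 ∧
      (m < k → (w2 - w1) * h / (lncC A C1 * Λ * (2 ^ m) ^ 2 * (4 ^ k) ^ 2) -
        lncC A C1 * Λ / (2 ^ m * 2 ^ k) ≤ X2 ^ 2 - X1 ^ 2) := by
  have hA0 : 0 < A := by linarith
  have hM : (0 : ℝ) < 2 ^ m := by positivity
  have hR : (0 : ℝ) < 2 ^ k := by positivity
  have hQ0 : (0 : ℝ) < 4 ^ k := by positivity
  have hQ : (4 : ℝ) ^ k = (2 ^ k) ^ 2 := by rw [← pow_mul, mul_comm, pow_mul]; norm_num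
  have hbb : A * 4 ^ k + 2 * h ≤ (2 * A + 2 * C1) * Λ * 4 ^ k := by
    have h1 : A * 4 ^ k ≤ A * 4 ^ k * Λ := le_mul_of_one_le_right (by positivity) hΛ
    have h2 : 0 ≤ A * 4 ^ k * Λ := by positivity
    nlinarith
  have h0 : (0 : ℝ) ≤ 4 ^ k / (2 * A) := by positivity
  have hAQ : (0 : ℝ) ≤ A * 4 ^ k := by positivity
  have hδ : w2 - w1 ≤ A * 4 ^ k := by linarith
  rw [abs_le] at e1 e2
  obtain ⟨b, hb0, hb1, hb⟩ := lnc_dd hD f X1 X2 (w1 + h) (4 ^ k / (2 * A)) (3 * A * 4 ^ k)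
    (t2.symm.trans t3) n3 (by linarith) (by linarith) (by linarith)
  obtain ⟨b', hb0', hb1', hb'⟩ := lnc_dd hD f z X2 w2 (4 ^ k / (2 * A)) (A * 4 ^ k + 2 * h)
    t3 n1 (by linarith) (by linarith) (by linarith)
  rw [div_le_iff₀ (by positivity)] at hb0 hb0'
  have hS : 0 ≤ (X1 + X2) * X2 := by
    have := SEP.lnc_sign gg
    nlinarith [sq_nonneg X2]
  have key := SEP.lnc_alg (A := 2 * A) (Y := X2) (V := X2 - z) (b := b) (b' := b')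
    (δ := w2 - w1) (X1 := X1)
    (X2 := X2) (u := -(yc f z w2 - yc f X2 (w2 + h)))
    (v := -((yc f z w2 - yc f X2 (w2 + h)) - (yc f z w1 - yc f X1 (w1 + h)))) (h := h)
    (by linarith) hC1 hΛ hM hR hQ (by linarith) (by linarith) (by linarith) (by nlinarith)
    (by linarith) (hb1'.trans hbb)
    (by linarith) (by nlinarith) hh (by rw [abs_le]; constructor <;> linarith)
    (by rw [abs_le]; constructor <;> linarith)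
    (by rw [← hb]; unfold yc; ring) (by rw [← hb']; unfold yc; ring) hS
  refine ⟨key.1, fun hmk' => key.2 ?_⟩
  have h1 := SEP.lnc_sign2 gg (z3 hmk') (z4 hmk')
  have h2 : 0 ≤ X2 ^ 2 * (A ^ 2 * (2 ^ m) ^ 2) := by positivity
  have h3 : 0 ≤ (X1 + X2) * X2 * (A ^ 2 * (2 ^ m) ^ 2) := by positivity
  nlinarith

/-- The case of negative sign. -/
theorem lnc_neg {D M : ℕ} {A C1 : ℝ} (hD : 3 ≤ D) (hA : 1 ≤ A) (hC1 : 1 ≤ C1) {k m : ℕ}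
    {f : Fn D M} {z w1 w2 h X1 X2 Λ : ℝ} (hΛ : 1 ≤ Λ) (hh : 0 ≤ h) (hw : w1 ≤ w2)
    (hhb : h ≤ C1 * Λ * 4 ^ k)
    (t3 : (f.F.filter (· < z)).card = (f.F.filter (· < X2)).card)
    (t2 : (f.F.filter (· < z)).card = (f.F.filter (· < X1)).card)
    (g1 : 0 < X1 ↔ 0 < z) (g2 : 0 < X2 ↔ 0 < z)
    (p3 : |X1| * 2 ^ m ≤ A) (p4 : |X2| * 2 ^ m ≤ A)
    (z3 : m < k → 1 ≤ A * (|X1| * 2 ^ m)) (z1 : m < k → 1 ≤ A * (|z| * 2 ^ m))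
    (n1 : iteratedDeriv 2 f.f z - 2 * w1 ≤ -(4 ^ k / (2 * A)))
    (u1 : -(A * 4 ^ k) ≤ iteratedDeriv 2 f.f z - 2 * w1)
    (u2 : -(A * 4 ^ k) ≤ iteratedDeriv 2 f.f z - 2 * w2)
    (n3 : iteratedDeriv 2 f.f X1 - 2 * (w1 + h) ≤ -(4 ^ k / (2 * A)))
    (u3 : -(A * 4 ^ k) ≤ iteratedDeriv 2 f.f X1 - 2 * (w1 + h))
    (n4 : iteratedDeriv 2 f.f X2 - 2 * (w2 + h) ≤ -(4 ^ k / (2 * A)))
    (u4 : -(A * 4 ^ k) ≤ iteratedDeriv 2 f.f X2 - 2 * (w2 + h))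
    (e1 : |yc f z w1 - yc f X1 (w1 + h)| ≤ 2 * Λ * 2 ^ k)
    (e2 : |yc f z w2 - yc f X2 (w2 + h)| ≤ 2 * Λ * 2 ^ k) :
    -(lncC A C1 * Λ / (2 ^ m * 2 ^ k)) ≤ X2 ^ 2 - X1 ^ 2 ∧
      (m < k → (w2 - w1) * h / (lncC A C1 * Λ * (2 ^ m) ^ 2 * (4 ^ k) ^ 2) -
        lncC A C1 * Λ / (2 ^ m * 2 ^ k) ≤ X2 ^ 2 - X1 ^ 2) := by
  have hA0 : 0 < A := by linarith
  have hM : (0 : ℝ) < 2 ^ m := by positivity
  have hR : (0 : ℝ) < 2 ^ k := by positivity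
  have hQ0 : (0 : ℝ) < 4 ^ k := by positivity
  have hQ : (4 : ℝ) ^ k = (2 ^ k) ^ 2 := by rw [← pow_mul, mul_comm, pow_mul]; norm_num
  have hbb : A * 4 ^ k + 2 * h ≤ (2 * A + 2 * C1) * Λ * 4 ^ k := by
    have h1 : A * 4 ^ k ≤ A * 4 ^ k * Λ := le_mul_of_one_le_right (by positivity) hΛ
    have h2 : 0 ≤ A * 4 ^ k * Λ := by positivity
    nlinarith
  have h0 : (0 : ℝ) ≤ 4 ^ k / (2 * A) := by positivity
  have hAQ : (0 : ℝ) ≤ A * 4 ^ k := by positivity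
  have hδ : w2 - w1 ≤ A * 4 ^ k := by linarith
  rw [abs_le] at e1 e2
  obtain ⟨b, hb0, hb1, hb⟩ := lnc_dd hD f X1 X2 (w2 + h) (-(3 * A * 4 ^ k)) (-(4 ^ k / (2 * A)))
    (t2.symm.trans t3) (by linarith) (by linarith) (by linarith) (by linarith)
  obtain ⟨b', hb0', hb1', hb'⟩ := lnc_dd hD f z X1 (w1 + h) (-(A * 4 ^ k + 2 * h))
    (-(4 ^ k / (2 * A))) t2 (by linarith) (by linarith) (by linarith) (by linarith)
  rw [le_neg, div_le_iff₀ (by positivity)] at hb1 hb1'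
  have key := SEP.lnc_alg (A := 2 * A) (Y := z) (V := z - X1) (b := -b) (b' := -b')
    (δ := w2 - w1) (X1 := X1)
    (X2 := X2) (u := -(yc f z w1 - yc f X1 (w1 + h)))
    (v := ((yc f z w2 - yc f X2 (w2 + h)) - (yc f z w1 - yc f X1 (w1 + h)))) (h := h)
    (by linarith) hC1 hΛ hM hR hQ (by linarith) (by linarith) (by linarith) (by nlinarith)
    (by linarith) (by linarith)
    (by linarith) (by nlinarith) hh (by rw [abs_le]; constructor <;> linarith)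
    (by rw [abs_le]; constructor <;> linarith)
    (by rw [show -b * (X2 - X1) = -(b * (X2 - X1)) by ring, ← hb]; unfold yc; ring)
    (by rw [show -b' * (z - X1) = b' * (X1 - z) by ring, ← hb']; unfold yc; ring)
    (by
      have h1 := SEP.lnc_sign g1
      have h2 := SEP.lnc_sign g2
      nlinarith)
  refine ⟨key.1, fun hmk' => key.2 ?_⟩
  have h1 := SEP.lnc_sign2 g1 (z3 hmk') (z1 hmk')
  have h4 : 0 ≤ X2 * z := SEP.lnc_sign g2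
  have h5 : 0 ≤ X1 * z := SEP.lnc_sign g1
  have h2 : 0 ≤ X2 * z * (A ^ 2 * (2 ^ m) ^ 2) := by positivity
  have h3 : 0 ≤ X1 * z * (A ^ 2 * (2 ^ m) ^ 2) := by positivity
  nlinarith

/-- ROW LNC. -/
theorem lnc (D M : ℕ) (A : ℝ) (hD : 3 ≤ D) (hA : 1 ≤ A) : ∃ C : ℝ, 1 ≤ C ∧
    ∀ (k m : ℕ) (f : Fn D M) (z w1 w2 h X1 X2 Λ : ℝ), m ≤ k → 1 ≤ Λ →
      0 ≤ h → w1 ≤ w2 →
      Cls A k m f z w1 → Cls A k m f z w2 → Cls A k m f X1 (w1 + h) →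
      Cls A k m f X2 (w2 + h) →
      lab1 A k m f z w1 = lab1 A k m f z w2 → lab1 A k m f z w1 = lab1 A k m f X1 (w1 + h) →
      lab1 A k m f z w2 = lab1 A k m f X2 (w2 + h) → ¬ Core A k m f z →
      |yc f z w1 - yc f X1 (w1 + h)| ≤ 2 * Λ * 2 ^ k →
      |yc f z w2 - yc f X2 (w2 + h)| ≤ 2 * Λ * 2 ^ k →
      -(C * Λ / 2 ^ (m + k)) ≤ X2 ^ 2 - X1 ^ 2 ∧
      (m < k → (w2 - w1) * h / (C * Λ * 4 ^ m * 16 ^ k) - C * Λ / 2 ^ (m + k) ≤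
        X2 ^ 2 - X1 ^ 2) := by
  obtain ⟨C1, hC1, hB⟩ := hb D M A hD hA
  have hA0 : 0 < A := by linarith
  refine ⟨lncC A C1, ?_, ?_⟩
  · unfold lncC
    have h1 : 1 ≤ (2 * A) ^ 2 := one_le_pow₀ (by linarith)
    have h2 : 0 ≤ 3 * (2 * A) ^ 5 * (2 * A + 2 * C1) := by positivity
    nlinarith
  intro k m f z w1 w2 h X1 X2 Λ hmk hΛ hh hw c1 c2 c3 c4 l1 l2 l3 hn e1 e2
  have hhb : h ≤ C1 * Λ * 4 ^ k := by
    have := hB k m f z w1 X1 (w1 + h) Λ hmk hΛ c1 c3 l2 e1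
    rw [show w1 + h - w1 = h by ring, abs_of_nonneg hh] at this
    exact this
  obtain ⟨-, -, s1, -, -⟩ := lnc_lab l1
  obtain ⟨t2, g2, s2, q2, -⟩ := lnc_lab l2
  obtain ⟨t3, g3, s3, q3, -⟩ := lnc_lab l3
  have n1 := (noncell hD hA hmk c1 hn).2
  have n2 := (noncell hD hA hmk c2 hn).2
  have n3 := (noncell hD hA hmk c3 (fun hc => hn (q2.2 hc))).2
  have n4 := (noncell hD hA hmk c4 (fun hc => hn (q3.2 hc))).2
  have u1 := lnc_up (by omega) c1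
  have u2 := lnc_up (by omega) c2
  have u3 := lnc_up (by omega) c3
  have u4 := lnc_up (by omega) c4
  have hQ2 : (16 : ℝ) ^ k = (4 ^ k) ^ 2 := by rw [← pow_mul, mul_comm, pow_mul]; norm_num
  have hM2 : (4 : ℝ) ^ m = (2 ^ m) ^ 2 := by rw [← pow_mul, mul_comm, pow_mul]; norm_num
  rw [pow_add, hQ2, hM2]
  by_cases hs : 0 < iteratedDeriv 2 f.f z - 2 * w1
  · have hs2 := s1.1 hs
    have hs3 := s2.1 hs
    have hs4 := s3.1 hs2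
    rw [abs_of_pos hs] at n1 u1
    rw [abs_of_pos hs2] at n2 u2
    rw [abs_of_pos hs3] at n3 u3
    rw [abs_of_pos hs4] at n4 u4
    exact lnc_pos hD hA hC1 hΛ hh hw hhb t3 t2 (g2.symm.trans g3) c3.zup c4.zup c3.zlo c4.zlo n2 u1
      n3 u3 n4 u4 e1 e2
  · have hs2 : ¬ 0 < iteratedDeriv 2 f.f z - 2 * w2 := fun hc => hs (s1.2 hc)
    have hs3 : ¬ 0 < iteratedDeriv 2 f.f X1 - 2 * (w1 + h) := fun hc => hs (s2.2 hc)
    have hs4 : ¬ 0 < iteratedDeriv 2 f.f X2 - 2 * (w2 + h) := fun hc => hs2 (s3.2 hc)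
    push Not at hs hs2 hs3 hs4
    rw [abs_of_nonpos hs] at n1 u1
    rw [abs_of_nonpos hs2] at n2 u2
    rw [abs_of_nonpos hs3] at n3 u3
    rw [abs_of_nonpos hs4] at n4 u4
    exact lnc_neg hD hA hC1 hΛ hh hw hhb t3 t2 g2.symm g3.symm c3.zup c4.zup c3.zlo c1.zlo
      (by linarith) (by linarith) (by linarith) (by linarith) (by linarith) (by linarith)
      (by linarith) e1 e2

end Pool.Agent.SPN
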