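import Pool.Agent.SPNH.PB

/-!
SPN, row PC: integration in `h`.
-/

namespace Pool.Agent.SPN

open MeasureTheory Set Pool.Agent.MP_6cbfb8_an
open Pool.Agent.SEP (B phi phat beta om tj Tb)
open scoped ENNReal Real

theorem pcx_int (θ H E : ℝ) (hθ1 : θ < 1) (hH : 0 ≤ H) (hE : 0 ≤ E) :
    ∫⁻ h in Ioc 0 H, ENNReal.ofReal (E * h ^ (-θ)) = ENNReal.ofReal (E * (H ^ (1 - θ) / (1 - θ))) := by
  have h1θ : 0 < 1 - θ := by linarith
  have h1 : IntervalIntegrable (fun h : ℝ => h ^ (-θ)) volume 0 H :=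
    intervalIntegral.intervalIntegrable_rpow' (by linarith)
  have h2 : IntegrableOn (fun h : ℝ => E * h ^ (-θ)) (Ioc 0 H) := by
    rw [intervalIntegrable_iff_integrableOn_Ioc_of_le hH] at h1
    exact h1.const_mul E
  rw [← ofReal_integral_eq_lintegral_ofReal h2]
  · congr 1
    rw [integral_const_mul, ← intervalIntegral.integral_of_le hH, integral_rpow (Or.inl (by linarith))]
    have e : -θ + 1 = 1 - θ := by ring
    rw [e, Real.zero_rpow h1θ.ne', sub_zero]
  · filter_upwards [ae_restrict_mem measurableSet_Ioc] with h hh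
    have : 0 < h := hh.1
    simp only [Pi.zero_apply]
    positivity

theorem pcx_min (θ a b : ℝ) (hθ : 0 < θ) (hθ1 : θ < 1) (ha : 0 ≤ a) (hb : 0 ≤ b) :
    min a b ≤ a ^ (1 - θ) * b ^ θ := by
  have hm : 0 ≤ min a b := le_min ha hb
  rcases hm.eq_or_lt with h | h
  · rw [← h]
    positivity
  · calc min a b = (min a b) ^ (1 - θ) * (min a b) ^ θ := by
          rw [← Real.rpow_add h, sub_add_cancel, Real.rpow_one]
      _ ≤ a ^ (1 - θ) * b ^ θ := by
          refine mul_le_mul (Real.rpow_le_rpow hm (min_le_left _ _) (by linarith))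
            (Real.rpow_le_rpow hm (min_le_right _ _) hθ.le) (by positivity) (by positivity)

/-- ROW PC. -/
theorem pc (n D M : ℕ) (hD : 3 ≤ D) (A : ℝ) (hA : 1 ≤ A) (θ : ℝ) (hθ : 0 < θ) (hθ1 : θ < 1) :
    ∃ C : ℝ, 1 ≤ C ∧
    ∀ (k m : Fin n → ℕ) (f : Fin n → Fn D M) (σ : Finset (Fin n)) (Λ : ℝ) (J : Fin n),
      (∀ j, k J ≤ k j) → (∀ j, m j ≤ k j) → 1 ≤ Λ → ∀ (z : Fin n → ℝ),
      ∫⁻ h in Ici (0 : ℝ), volume {w | ∃ z', ((z, w), (z', w + h)) ∈ Pr A k m f σ Λ} ≤
        ENNReal.ofReal (C * Λ ^ 3 * 4 ^ k J * Tb θ k m σ J) := by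
  obtain ⟨C1, hC1, h1⟩ := pb_h n D M hD A hA
  obtain ⟨C2, hC2, h2⟩ := pb_w n D M hD A hA
  have h1θ : 0 < 1 - θ := by linarith
  have hC10 : 0 < C1 := by linarith
  have hC20 : 0 < C2 := by linarith
  refine ⟨C1 * C2 / (1 - θ), ?_, ?_⟩
  · rw [le_div_iff₀ h1θ]
    nlinarith
  intro k m f σ Λ J hk hm hΛ z
  have hΛ0 : 0 < Λ := by linarith
  have hΛ3 : Λ ≤ Λ ^ 3 := by nlinarith [sq_nonneg Λ, mul_pos hΛ0 hΛ0, mul_le_mul hΛ hΛ zero_le_one hΛ0.le]
  set φ : ℝ → ℝ≥0∞ := fun h => volume {w | ∃ z', ((z, w), (z', w + h)) ∈ Pr A k m f σ Λ} with hφ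
  change ∫⁻ h in Ici (0 : ℝ), φ h ≤ _
  have h4 : (0 : ℝ) < 4 ^ k J := by positivity
  have hz1 : ∀ h, 0 ≤ h → C1 * Λ * 4 ^ k J < h → φ h = 0 := by
    intro h hh0 hh
    have : {w | ∃ z', ((z, w), (z', w + h)) ∈ Pr A k m f σ Λ} = ∅ := by
      rw [Set.eq_empty_iff_forall_notMem]
      rintro w ⟨z', hz'⟩
      exact absurd ((h1 k m f σ Λ hm hΛ z z' w h hh0 hz').1 J) (not_le.2 hh)
    simp only [hφ, this, measure_empty]
  have hz2 : ∀ l ∈ σ, ∀ h, 0 ≤ h → C1 * Λ * 2 ^ (m l + k l) < h → φ h = 0 := by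
    intro l hl h hh0 hh
    have : {w | ∃ z', ((z, w), (z', w + h)) ∈ Pr A k m f σ Λ} = ∅ := by
      rw [Set.eq_empty_iff_forall_notMem]
      rintro w ⟨z', hz'⟩
      exact absurd ((h1 k m f σ Λ hm hΛ z z' w h hh0 hz').2 l hl) (not_le.2 hh)
    simp only [hφ, this, measure_empty]
  have hb1 : ∀ h, 0 ≤ h → φ h ≤ ENNReal.ofReal (C2 * 4 ^ k J) := fun h hh =>
    (h2 k m f σ Λ hm hΛ z h hh).1 J
  have hb2 : ∀ j, j ∉ σ → m j < k j → ∀ h, 0 < h → φ h ≤
      ENNReal.ofReal (C2 * Λ ^ 2 * om k m * 4 ^ m j * 16 ^ k j / h) := fun j hj hmj h hh =>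
    (h2 k m f σ Λ hm hΛ z h hh.le).2 j hj hmj hh
  -- the trivial bound on an interval
  have hL1 : ∀ H : ℝ, 0 ≤ H → (∀ h, 0 ≤ h → H < h → φ h = 0) →
      ∫⁻ h in Ici (0 : ℝ), φ h ≤ ENNReal.ofReal (H * (C2 * 4 ^ k J)) := by
    intro H hH hz
    calc ∫⁻ h in Ici (0 : ℝ), φ h
        ≤ ∫⁻ h in Ici (0 : ℝ), (Icc 0 H).indicator (fun _ => ENNReal.ofReal (C2 * 4 ^ k J)) h := by
          refine setLIntegral_mono' measurableSet_Ici fun h hh => ?_
          by_cases hc : h ∈ Icc 0 H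
          · rw [indicator_of_mem hc]
            exact hb1 h hh
          · rw [indicator_of_notMem hc, hz h hh]
            by_contra hcon
            exact hc ⟨hh, not_lt.1 hcon⟩
      _ ≤ ∫⁻ h, (Icc 0 H).indicator (fun _ => ENNReal.ofReal (C2 * 4 ^ k J)) h :=
          setLIntegral_le_lintegral _ _
      _ = ENNReal.ofReal (C2 * 4 ^ k J) * volume (Icc 0 H) := by
          rw [lintegral_indicator measurableSet_Icc, setLIntegral_const]
      _ = ENNReal.ofReal (H * (C2 * 4 ^ k J)) := by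
          rw [Real.volume_Icc, sub_zero, ← ENNReal.ofReal_mul (by positivity), mul_comm]
  -- the bound with `4 ^ k J`
  have hT0 : ∀ t : ℝ, 4 ^ k J ≤ t → ∫⁻ h in Ici (0 : ℝ), φ h ≤
      ENNReal.ofReal (C1 * C2 / (1 - θ) * Λ ^ 3 * 4 ^ k J * t) := by
    intro t ht
    refine (hL1 (C1 * Λ * 4 ^ k J) (by positivity) hz1).trans (ENNReal.ofReal_le_ofReal ?_)
    have hinv : 1 ≤ 1 / (1 - θ) := by
      rw [le_div_iff₀ h1θ]
      linarith
    calc C1 * Λ * 4 ^ k J * (C2 * 4 ^ k J) = C1 * C2 * 1 * Λ * 4 ^ k J * 4 ^ k J := by ring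
      _ ≤ C1 * C2 * (1 / (1 - θ)) * Λ ^ 3 * 4 ^ k J * t := by gcongr
      _ = _ := by ring
  -- the bounds with `tj`
  have hTj : ∀ j, ∫⁻ h in Ici (0 : ℝ), φ h ≤
      ENNReal.ofReal (C1 * C2 / (1 - θ) * Λ ^ 3 * 4 ^ k J * tj θ k m σ J j) := by
    intro j
    by_cases hj : j ∈ σ
    · refine (hL1 (C1 * Λ * 2 ^ (m j + k j)) (by positivity) (hz2 j hj)).trans
        (ENNReal.ofReal_le_ofReal ?_)
      have hinv : 1 ≤ 1 / (1 - θ) := by
        rw [le_div_iff₀ h1θ]
        linarith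
      rw [tj, if_pos hj]
      calc C1 * Λ * 2 ^ (m j + k j) * (C2 * 4 ^ k J)
          = C1 * C2 * 1 * Λ * 4 ^ k J * 2 ^ (m j + k j) := by ring
        _ ≤ C1 * C2 * (1 / (1 - θ)) * Λ ^ 3 * 4 ^ k J * 2 ^ (m j + k j) := by gcongr
        _ = _ := by ring
    · have hom : (1 : ℝ) / 2 ^ (m j + k j) ≤ om k m := by
        unfold om
        exact Finset.single_le_sum (f := fun j => (1 : ℝ) / 2 ^ (m j + k j))
          (fun i _ => by positivity) (Finset.mem_univ j)
      have hom0 : 0 < om k m := lt_of_lt_of_le (by positivity) hom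
      rcases (hm j).lt_or_eq with hmj | hmj
      · set K4 : ℝ := 4 ^ k J with hK4
        set Q : ℝ := om k m * 4 ^ m j * 16 ^ k j with hQ
        have hQ0 : 0 < Q := by positivity
        set H : ℝ := C1 * Λ * K4 with hH
        have hH0 : 0 < H := by positivity
        set E : ℝ := (C2 * K4) ^ (1 - θ) * (C2 * Λ ^ 2 * Q) ^ θ with hE
        have hE0 : 0 ≤ E := by positivity
        have hpt : ∀ h ∈ Ioi (0 : ℝ), φ h ≤
            (Ioc 0 H).indicator (fun h => ENNReal.ofReal (E * h ^ (-θ))) h := by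
          intro h hh
          have hh0 : 0 < h := hh
          by_cases hc : h ∈ Ioc 0 H
          · rw [indicator_of_mem hc]
            have e1 := hb1 h hh0.le
            have e2 := hb2 j hj hmj h hh0
            have e3 : φ h ≤ ENNReal.ofReal (min (C2 * K4) (C2 * Λ ^ 2 * Q / h)) := by
              rw [ENNReal.ofReal_min]
              refine le_min e1 (e2.trans (ENNReal.ofReal_le_ofReal (le_of_eq ?_)))
              rw [hQ]
              ring
            refine e3.trans (ENNReal.ofReal_le_ofReal ?_)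
            refine (pcx_min θ _ _ hθ hθ1 (by positivity) (by positivity)).trans (le_of_eq ?_)
            rw [Real.div_rpow (by positivity) hh0.le, Real.rpow_neg hh0.le, hE]
            field_simp
          · rw [indicator_of_notMem hc, hz1 h hh0.le]
            by_contra hcon
            exact hc ⟨hh0, not_lt.1 hcon⟩
        calc ∫⁻ h in Ici (0 : ℝ), φ h = ∫⁻ h in Ioi (0 : ℝ), φ h :=
              setLIntegral_congr Ioi_ae_eq_Ici.symm
          _ ≤ ∫⁻ h in Ioi (0 : ℝ), (Ioc 0 H).indicator (fun h => ENNReal.ofReal (E * h ^ (-θ))) h :=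
              setLIntegral_mono' measurableSet_Ioi hpt
          _ ≤ ∫⁻ h, (Ioc 0 H).indicator (fun h => ENNReal.ofReal (E * h ^ (-θ))) h :=
              setLIntegral_le_lintegral _ _
          _ = ∫⁻ h in Ioc 0 H, ENNReal.ofReal (E * h ^ (-θ)) := lintegral_indicator measurableSet_Ioc _
          _ = ENNReal.ofReal (E * (H ^ (1 - θ) / (1 - θ))) := pcx_int θ H E hθ1 hH0.le hE0
          _ ≤ _ := by
              apply ENNReal.ofReal_le_ofReal
              rw [tj, if_neg hj]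
              change _ ≤ C1 * C2 / (1 - θ) * Λ ^ 3 * K4 * (K4 * (Q / 16 ^ k J) ^ θ)
              have h16 : (16 : ℝ) ^ k J = K4 * K4 := by
                rw [hK4, ← mul_pow]
                norm_num
              have e1 : (Q / 16 ^ k J) ^ θ = Q ^ θ / (K4 ^ θ * K4 ^ θ) := by
                rw [h16, Real.div_rpow hQ0.le (by positivity),
                  Real.mul_rpow (x := K4) (y := K4) h4.le h4.le]
              have e2 : E = C2 * (K4 / K4 ^ θ) * (Λ ^ 2) ^ θ * Q ^ θ := by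
                rw [hE, Real.mul_rpow hC20.le (by positivity),
                  Real.mul_rpow (by positivity) hQ0.le, Real.mul_rpow hC20.le (by positivity)]
                have : C2 ^ (1 - θ) * C2 ^ θ = C2 := by
                  rw [← Real.rpow_add hC20, sub_add_cancel, Real.rpow_one]
                have h3 : K4 ^ (1 - θ) = K4 / K4 ^ θ := by
                  rw [Real.rpow_sub h4, Real.rpow_one]
                rw [h3]
                calc C2 ^ (1 - θ) * (K4 / K4 ^ θ) * (C2 ^ θ * (Λ ^ 2) ^ θ * Q ^ θ)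
                    = (C2 ^ (1 - θ) * C2 ^ θ) * (K4 / K4 ^ θ) * (Λ ^ 2) ^ θ * Q ^ θ := by ring
                  _ = _ := by rw [this]
              have e3 : H ^ (1 - θ) ≤ C1 * Λ * (K4 / K4 ^ θ) := by
                rw [hH, Real.mul_rpow (by positivity) (by positivity), Real.rpow_sub h4,
                  Real.rpow_one]
                refine mul_le_mul_of_nonneg_right ?_ (by positivity)
                have hCΛ : 1 ≤ C1 * Λ := by nlinarith
                calc (C1 * Λ) ^ (1 - θ) ≤ (C1 * Λ) ^ (1 : ℝ) :=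
                      Real.rpow_le_rpow_of_exponent_le hCΛ (by linarith)
                  _ = _ := Real.rpow_one _
              have e4 : (Λ ^ 2) ^ θ ≤ Λ ^ 2 := by
                have h3 : 1 ≤ Λ ^ 2 := one_le_pow₀ hΛ
                calc (Λ ^ 2) ^ θ ≤ (Λ ^ 2) ^ (1 : ℝ) :=
                      Real.rpow_le_rpow_of_exponent_le h3 hθ1.le
                  _ = _ := Real.rpow_one _
              rw [e1, e2]
              calc C2 * (K4 / K4 ^ θ) * (Λ ^ 2) ^ θ * Q ^ θ * (H ^ (1 - θ) / (1 - θ))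
                  ≤ C2 * (K4 / K4 ^ θ) * Λ ^ 2 * Q ^ θ *
                    (C1 * Λ * (K4 / K4 ^ θ) / (1 - θ)) := by gcongr
                _ = _ := by field_simp
      · apply hT0
        rw [tj, if_neg hj]
        refine le_mul_of_one_le_right h4.le (Real.one_le_rpow ?_ hθ.le)
        rw [one_le_div (by positivity)]
        rw [hmj] at hom ⊢
        calc (16 : ℝ) ^ k J ≤ 16 ^ k j := pow_le_pow_right₀ (by norm_num) (hk j)
          _ = 1 / 2 ^ (k j + k j) * 4 ^ k j * 16 ^ k j := by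
              rw [← two_mul, pow_mul]
              norm_num
          _ ≤ om k m * 4 ^ k j * 16 ^ k j := by gcongr
  have : Nonempty (Fin n) := ⟨J⟩
  obtain ⟨j, hj⟩ := exists_eq_ciInf_of_finite (f := fun j => tj θ k m σ J j)
  unfold Tb
  rw [← hj]
  rcases min_choice (4 ^ k J) (tj θ k m σ J j) with h | h
  · rw [h]
    exact hT0 _ le_rfl
  · rw [h]
    exact hTj j

end Pool.Agent.SPN
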