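import Pool.Agent.SPNH.Defs
import Pool.Agent.SEPH.SHL

/-!
Volume of the class-shell set.
-/

namespace Pool.Agent.SPN

open MeasureTheory Set Pool.Agent.MP_6cbfb8_an
open Pool.Agent.SEP (B phi phat beta om tj Tb)
open scoped ENNReal Real

theorem cont_dd {D M : ℕ} (f : Fn D M) {i : ℕ} (hi : i ≤ D) : Continuous (iteratedDeriv i f.f) :=
  f.smooth.continuous_iteratedDeriv i (by exact_mod_cast (by omega : i ≤ D + 1))

theorem cont_d2 {D M : ℕ} (hD : 3 ≤ D) (f : Fn D M) : Continuous (iteratedDeriv 2 f.f) :=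
  cont_dd f (by omega)

/-- ROW G1. -/
theorem vol_Zf (n D M : ℕ) (hD : 3 ≤ D) (A : ℝ) (hA : 1 ≤ A) : ∃ C : ℝ, 1 ≤ C ∧
    ∀ (k m : Fin n → ℕ) (f : Fin n → Fn D M) (σ : Finset (Fin n)) (Λ : ℝ) (J : Fin n), 1 ≤ Λ →
      volume (Zf A k m f σ Λ) ≤
        ENNReal.ofReal (C * Λ * om k m * (∏ j, (1 / 2 ^ m j : ℝ)) * 4 ^ k J) := by
  rcases Nat.eq_zero_or_pos n with hn | hn
  · subst hn
    exact ⟨1, le_rfl, fun _ _ _ _ _ J => J.elim0⟩
  obtain ⟨C, hC, H⟩ := SEP.shl n hn A hA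
  refine ⟨C * A, by nlinarith, fun k m f σ Λ J hΛ => ?_⟩
  set Sh : Set (Fin n → ℝ) := {z | (∀ j, |z j| * 2 ^ m j ≤ A) ∧ |∑ j, z j ^ 2 - 1| ≤ Λ * om k m}
    with hSh
  have hShm : MeasurableSet Sh := by
    have m1 : MeasurableSet {z : Fin n → ℝ | |∑ j, z j ^ 2 - 1| ≤ Λ * om k m} :=
      measurableSet_le (by fun_prop) measurable_const
    exact (SEP.shl_box A (by linarith) m).1.inter m1
  set T : Set ((Fin n → ℝ) × ℝ) := {p | p.1 ∈ Sh ∧
    |iteratedDeriv 2 (f J).f (p.1 J) - 2 * p.2| ≤ A * 4 ^ k J} with hT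
  have hTm : MeasurableSet T := by
    have h1 : Continuous fun p : (Fin n → ℝ) × ℝ =>
        iteratedDeriv 2 (f J).f (p.1 J) - 2 * p.2 := by
      have h2 : Continuous fun p : (Fin n → ℝ) × ℝ => iteratedDeriv 2 (f J).f (p.1 J) :=
        (cont_d2 hD (f J)).comp (by fun_prop)
      exact h2.sub (by fun_prop)
    have m1 : MeasurableSet {p : (Fin n → ℝ) × ℝ |
        |iteratedDeriv 2 (f J).f (p.1 J) - 2 * p.2| ≤ A * 4 ^ k J} :=
      measurableSet_le h1.abs.measurable measurable_const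
    exact (hShm.preimage measurable_fst).inter m1
  have hsub : Zf A k m f σ Λ ⊆ T := by
    rintro p ⟨h1, _, h3⟩
    refine ⟨⟨fun j => (h1 j).zup, h3⟩, ?_⟩
    have h4 := (h1 J).up 2 (Finset.mem_Icc.2 ⟨le_rfl, by omega⟩) (p.1 J)
      (by rw [sub_self, abs_zero]; positivity)
    unfold gd at h4
    rw [if_pos rfl] at h4
    refine h4.trans (le_of_eq ?_)
    rw [mul_comm (k J) 2, pow_mul]
    norm_num
  refine (measure_mono hsub).trans ?_
  rw [Measure.volume_eq_prod, Measure.prod_apply hTm]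
  have hw : ∀ z : Fin n → ℝ, volume (Prod.mk z ⁻¹' T) ≤
      Sh.indicator (fun _ => ENNReal.ofReal (A * 4 ^ k J)) z := by
    intro z
    by_cases hz : z ∈ Sh
    · rw [indicator_of_mem hz]
      set a := iteratedDeriv 2 (f J).f (z J) with ha
      have h1 : Prod.mk z ⁻¹' T ⊆ Icc (a / 2 - A * 4 ^ k J / 2) (a / 2 + A * 4 ^ k J / 2) := by
        intro w hw
        have h2 : |a - 2 * w| ≤ A * 4 ^ k J := hw.2
        rw [abs_le] at h2
        constructor <;> linarith [h2.1, h2.2]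
      refine (measure_mono h1).trans ?_
      rw [Real.volume_Icc]
      apply ENNReal.ofReal_le_ofReal
      linarith
    · rw [indicator_of_notMem hz]
      refine le_of_eq ?_
      have : Prod.mk z ⁻¹' T = ∅ := eq_empty_of_forall_notMem fun w hw => hz hw.1
      rw [this, measure_empty]
  refine (lintegral_mono hw).trans ?_
  rw [lintegral_indicator_const hShm]
  refine (mul_le_mul' le_rfl (H k m Λ hΛ)).trans (le_of_eq ?_)
  rw [← ENNReal.ofReal_mul (by positivity)]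
  congr 1
  ring

end Pool.Agent.SPN
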