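import Pool.Agent.SPNH.MEAS
import Pool.Agent.SPNH.VOL
import Pool.Agent.SPNH.PA
import Pool.Agent.SPNH.PC
import Pool.Agent.SEPH.SHL

/-!
# Row PAIRS: the volume of the set of pairs.
-/

namespace Pool.Agent.SPN

open MeasureTheory Set Pool.Agent.MP_6cbfb8_an
open Pool.Agent.SEP (B phi phat beta om tj Tb)
open scoped ENNReal Real

/-- ROW PAIRS. PA + PC + SHL. -/
theorem pairs (n D M : ℕ) (hD : 3 ≤ D) (A : ℝ) (hA : 1 ≤ A) (θ : ℝ) (hθ : 0 < θ) (hθ1 : θ < 1) :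
    ∃ C : ℝ, 1 ≤ C ∧
    ∀ (k m : Fin n → ℕ) (f : Fin n → Fn D M) (σ : Finset (Fin n)) (Λ : ℝ) (J : Fin n),
      (∀ j, k J ≤ k j) → (∀ j, m j ≤ k j) → 1 ≤ Λ →
      volume (Pr A k m f σ Λ) ≤ ENNReal.ofReal (C * Λ ^ (n + 4) * om k m *
        (∏ j, (1 / 2 ^ m j : ℝ)) * 4 ^ k J * (∏ j, (1 / 2 ^ k j : ℝ)) * Tb θ k m σ J) := by
  rcases Nat.eq_zero_or_pos n with h0 | hn
  · subst h0
    exact ⟨1, le_rfl, fun k m f σ Λ J => J.elim0⟩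
  obtain ⟨C1, hC1, h1⟩ := pa n D M hD A hA
  obtain ⟨C2, hC2, h2⟩ := pc n D M hD A hA θ hθ hθ1
  obtain ⟨C3, hC3, h3⟩ := SEP.shl n hn A hA
  have hC1' : 0 ≤ C1 := zero_le_one.trans hC1
  have hC2' : 0 ≤ C2 := zero_le_one.trans hC2
  have hC3' : 0 ≤ C3 := zero_le_one.trans hC3
  have hone : 1 ≤ C1 ^ n * C2 * C3 := by
    have := one_le_pow₀ hC1 (n := n)
    nlinarith [mul_le_mul this hC2 zero_le_one (zero_le_one.trans this)]
  refine ⟨C1 ^ n * C2 * C3, hone, fun k m f σ Λ J hk hm hΛ => ?_⟩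
  have hΛ0 : 0 ≤ Λ := zero_le_one.trans hΛ
  have hom : 0 ≤ om k m := Finset.sum_nonneg fun j _ => by positivity
  have hTb : 0 ≤ Tb θ k m σ J := by
    refine le_min (by positivity) ?_
    refine Real.iInf_nonneg fun j => ?_
    unfold SEP.tj
    split_ifs
    · positivity
    · positivity
  refine (h1 k m f σ Λ hm hΛ).trans ?_
  have h4 : ∫⁻ z in {z : Fin n → ℝ | (∀ j, |z j| * 2 ^ m j ≤ A) ∧
        |∑ j, z j ^ 2 - 1| ≤ Λ * om k m},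
      ∫⁻ h in Ici (0 : ℝ), volume {w | ∃ z', ((z, w), (z', w + h)) ∈ Pr A k m f σ Λ} ≤
      ENNReal.ofReal (C2 * Λ ^ 3 * 4 ^ k J * Tb θ k m σ J) *
        ENNReal.ofReal (C3 * Λ * om k m * ∏ j, (1 / 2 ^ m j : ℝ)) := by
    calc _ ≤ ∫⁻ _ in {z : Fin n → ℝ | (∀ j, |z j| * 2 ^ m j ≤ A) ∧
          |∑ j, z j ^ 2 - 1| ≤ Λ * om k m},
          ENNReal.ofReal (C2 * Λ ^ 3 * 4 ^ k J * Tb θ k m σ J) :=
          lintegral_mono fun z => h2 k m f σ Λ J hk hm hΛ z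
      _ = ENNReal.ofReal (C2 * Λ ^ 3 * 4 ^ k J * Tb θ k m σ J) *
          volume {z : Fin n → ℝ | (∀ j, |z j| * 2 ^ m j ≤ A) ∧
            |∑ j, z j ^ 2 - 1| ≤ Λ * om k m} := by
          rw [lintegral_const, Measure.restrict_apply_univ]
      _ ≤ _ := by gcongr; exact h3 k m Λ hΛ
  calc _ ≤ ENNReal.ofReal ((C1 * Λ) ^ n * ∏ j, (1 / 2 ^ k j : ℝ)) *
        (ENNReal.ofReal (C2 * Λ ^ 3 * 4 ^ k J * Tb θ k m σ J) *
        ENNReal.ofReal (C3 * Λ * om k m * ∏ j, (1 / 2 ^ m j : ℝ))) := by gcongr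
    _ = _ := by
        rw [← ENNReal.ofReal_mul (by positivity), ← ENNReal.ofReal_mul (by positivity)]
        congr 1
        rw [mul_pow, pow_add]
        ring

end Pool.Agent.SPN
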