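import Pool.Agent.SPNH.Defs
import Pool.Agent.SPNH.HB
import Pool.Agent.SPNH.F1H1
import Pool.Agent.SPNH.LNC

/-!
Rows PB_H and PB_W.
-/

namespace Pool.Agent.SPN

open MeasureTheory Set Pool.Agent.MP_6cbfb8_an
open Pool.Agent.SEP (B phi phat beta om tj Tb)
open scoped ENNReal Real

/-- ROW PB (a). The admissible `h`. -/
theorem pb_h (n D M : ℕ) (hD : 3 ≤ D) (A : ℝ) (hA : 1 ≤ A) : ∃ C : ℝ, 1 ≤ C ∧
    ∀ (k m : Fin n → ℕ) (f : Fin n → Fn D M) (σ : Finset (Fin n)) (Λ : ℝ), (∀ j, m j ≤ k j) →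
      1 ≤ Λ → ∀ (z z' : Fin n → ℝ) (w h : ℝ), 0 ≤ h →
      ((z, w), (z', w + h)) ∈ Pr A k m f σ Λ →
      (∀ j, h ≤ C * Λ * 4 ^ k j) ∧ ∀ l ∈ σ, h ≤ C * Λ * 2 ^ (m l + k l) := by
  obtain ⟨C1, hC1, H1⟩ := hb D M A hD hA
  obtain ⟨C2, hC2, H2⟩ := h1 D M A hD hA
  refine ⟨max C1 C2, hC1.trans (le_max_left _ _), ?_⟩
  intro k m f σ Λ hmk hΛ z z' w h hh hq
  obtain ⟨h1, h2, h3, h4⟩ := hq
  have hl : ∀ j, lab1 A (k j) (m j) (f j) (z j) w = lab1 A (k j) (m j) (f j) (z' j) (w + h) :=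
    fun j => congrFun h3 j
  have hw : |w + h - w| = h := by rw [add_sub_cancel_left, abs_of_nonneg hh]
  have hΛ0 : 0 ≤ Λ := by linarith
  refine ⟨fun j => ?_, fun l hlσ => ?_⟩
  · have h5 := H1 (k j) (m j) (f j) (z j) w (z' j) (w + h) Λ (hmk j) hΛ (h1.1 j) (h2.1 j)
      (hl j) (h4 j)
    rw [hw] at h5
    refine h5.trans ?_
    gcongr
    exact le_max_left _ _
  · have h5 := H2 (k l) (m l) (f l) (z l) w (z' l) (w + h) Λ (hmk l) hΛ (h1.1 l) (h2.1 l)
      (hl l) (h4 l) ((h1.2.1 l).2 hlσ)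
    rw [hw] at h5
    refine h5.trans ?_
    gcongr
    exact le_max_right _ _

/-- two core points with the same label are in the same cell -/
theorem pb_cell {D M : ℕ} {A : ℝ} {k m : ℕ} {f : Fn D M} {x w y w' : ℝ}
    (hx : Cls A k m f x w) (hy : Cls A k m f y w') (h : lab1 A k m f x w = lab1 A k m f y w')
    (hcx : Core A k m f x) (hcy : Core A k m f y) :
    -(2 * A / 2 ^ (m + k)) ≤ y ^ 2 - x ^ 2 := by
  have h1 : ⌊8 * 2 ^ k * x⌋ = ⌊8 * 2 ^ k * y⌋ := by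
    have h2 := congrArg Prod.fst h
    simp only [lab1, if_pos hcx, if_pos hcy] at h2
    exact h2
  have h2 := Int.abs_sub_lt_one_of_floor_eq_floor h1
  rw [← mul_sub, abs_mul, abs_of_pos (by positivity : (0 : ℝ) < 8 * 2 ^ k)] at h2
  have h3 := hx.zup
  have h4 := hy.zup
  have hk : (0 : ℝ) < 2 ^ k := by positivity
  have hm : (0 : ℝ) < 2 ^ m := by positivity
  have h5 : |x + y| * 2 ^ m ≤ 2 * A := by
    have := abs_add_le x y
    nlinarith
  have h6 : |y ^ 2 - x ^ 2| * 2 ^ (m + k) ≤ 2 * A := by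
    have e : y ^ 2 - x ^ 2 = -((x - y) * (x + y)) := by ring
    rw [e, abs_neg, abs_mul, pow_add]
    calc |x - y| * |x + y| * (2 ^ m * 2 ^ k) = (2 ^ k * |x - y|) * (|x + y| * 2 ^ m) := by ring
      _ ≤ 1 * (2 * A) := by
        apply mul_le_mul (by nlinarith [mul_nonneg hk.le (abs_nonneg (x - y))]) h5 (by positivity) (by norm_num)
      _ = 2 * A := one_mul _
  have h7 : |y ^ 2 - x ^ 2| ≤ 2 * A / 2 ^ (m + k) := by
    rw [le_div_iff₀ (by positivity)]
    exact h6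
  exact (abs_le.1 h7).1

/-- the labels of the points with the same first component -/
theorem pb_lab {D M : ℕ} {A : ℝ} {k m : ℕ} {f : Fn D M} {z w1 w2 : ℝ}
    (h : decide (0 < iteratedDeriv 2 f.f z - 2 * w1) =
      decide (0 < iteratedDeriv 2 f.f z - 2 * w2)) :
    lab1 A k m f z w1 = lab1 A k m f z w2 := by
  unfold lab1
  rw [h]

/-- ROW PB (b). The measure of the admissible `w` for given `(z,h)`. -/
theorem pb_w (n D M : ℕ) (hD : 3 ≤ D) (A : ℝ) (hA : 1 ≤ A) : ∃ C : ℝ, 1 ≤ C ∧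
    ∀ (k m : Fin n → ℕ) (f : Fin n → Fn D M) (σ : Finset (Fin n)) (Λ : ℝ), (∀ j, m j ≤ k j) →
      1 ≤ Λ → ∀ (z : Fin n → ℝ) (h : ℝ), 0 ≤ h →
      (∀ J : Fin n, volume {w | ∃ z', ((z, w), (z', w + h)) ∈ Pr A k m f σ Λ} ≤
        ENNReal.ofReal (C * 4 ^ k J)) ∧
      ∀ j, j ∉ σ → m j < k j → 0 < h →
        volume {w | ∃ z', ((z, w), (z', w + h)) ∈ Pr A k m f σ Λ} ≤
          ENNReal.ofReal (C * Λ ^ 2 * om k m * 4 ^ m j * 16 ^ k j / h) := by
  obtain ⟨C1, hC1, H1⟩ := lnc D M A hD hA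
  set C2 : ℝ := max C1 (2 * A) with hC2
  have hC12 : C1 ≤ C2 := le_max_left _ _
  have hA2 : 2 * A ≤ C2 := le_max_right _ _
  have hC21 : 1 ≤ C2 := hC1.trans hC12
  refine ⟨max A (2 ^ n * (C1 * (2 + C2))), hA.trans (le_max_left _ _), ?_⟩
  intro k m f σ Λ hmk hΛ z h hh
  have hΛ0 : 0 ≤ Λ := by linarith
  have hom : 0 ≤ om k m := Finset.sum_nonneg fun j _ => by positivity
  refine ⟨fun J => ?_, fun j0 hj0 hmj hh0 => ?_⟩
  · have h1 : {w | ∃ z', ((z, w), (z', w + h)) ∈ Pr A k m f σ Λ} ⊆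
        Icc ((iteratedDeriv 2 (f J).f (z J) - A * 4 ^ k J) / 2)
          ((iteratedDeriv 2 (f J).f (z J) + A * 4 ^ k J) / 2) := by
      rintro w ⟨z', hq⟩
      have h2 := (hq.1.1 J).up 2 (Finset.mem_Icc.2 ⟨le_rfl, by omega⟩) (z J) (by rw [sub_self, abs_zero]; positivity)
      have h3 : (2 : ℝ) ^ (k J * 2) = 4 ^ k J := by
        rw [mul_comm, pow_mul]
        norm_num
      simp only [gd, if_pos] at h2
      rw [h3, abs_le] at h2
      constructor <;> linarith [h2.1, h2.2]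
    refine (measure_mono h1).trans ?_
    rw [Real.volume_Icc]
    apply ENNReal.ofReal_le_ofReal
    calc _ = A * 4 ^ k J := by ring
      _ ≤ _ := mul_le_mul_of_nonneg_right (le_max_left _ _) (by positivity)
  · set S : Set ℝ := {w | ∃ z', ((z, w), (z', w + h)) ∈ Pr A k m f σ Λ} with hS
    set δ : ℝ := C1 * (2 + C2) * Λ ^ 2 * om k m * 4 ^ m j0 * 16 ^ k j0 / h with hδ
    have hδ0 : 0 ≤ δ := by positivity
    set b : ℝ → Fin n → Bool := fun w j => decide (0 < iteratedDeriv 2 (f j).f (z j) - 2 * w)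
      with hb
    have key : ∀ w1 w2, w1 ∈ S → w2 ∈ S → b w1 = b w2 → w1 ≤ w2 → w2 - w1 ≤ δ := by
      rintro w1 w2 ⟨X1, hq1⟩ ⟨X2, hq2⟩ hb12 hw
      obtain ⟨p1, p2, p3, p4⟩ := hq1
      obtain ⟨r1, r2, r3, r4⟩ := hq2
      have hlw : ∀ j, lab1 A (k j) (m j) (f j) (z j) w1 = lab1 A (k j) (m j) (f j) (z j) w2 :=
        fun j => pb_lab (congrFun hb12 j)
      have hl1 : ∀ j, lab1 A (k j) (m j) (f j) (z j) w1 = lab1 A (k j) (m j) (f j) (X1 j) (w1 + h) :=
        fun j => congrFun p3 j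
      have hl2 : ∀ j, lab1 A (k j) (m j) (f j) (z j) w2 = lab1 A (k j) (m j) (f j) (X2 j) (w2 + h) :=
        fun j => congrFun r3 j
      have hlow : ∀ j, -(C2 * Λ / 2 ^ (m j + k j)) ≤ X2 j ^ 2 - X1 j ^ 2 := by
        intro j
        by_cases hj : j ∈ σ
        · have h1 := pb_cell (p2.1 j) (r2.1 j) (by rw [← hl1 j, ← hl2 j, hlw j])
            ((p2.2.1 j).2 hj) ((r2.2.1 j).2 hj)
          refine le_trans ?_ h1
          rw [neg_le_neg_iff]
          apply div_le_div_of_nonneg_right _ (by positivity)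
          nlinarith
        · have h1 := (H1 (k j) (m j) (f j) (z j) w1 w2 h (X1 j) (X2 j) Λ (hmk j) hΛ hh hw
            (p1.1 j) (r1.1 j) (p2.1 j) (r2.1 j) (hlw j) (hl1 j) (hl2 j)
            (fun hc => hj ((p1.2.1 j).1 hc)) (p4 j) (r4 j)).1
          refine le_trans ?_ h1
          rw [neg_le_neg_iff]
          gcongr
      have hmain := (H1 (k j0) (m j0) (f j0) (z j0) w1 w2 h (X1 j0) (X2 j0) Λ (hmk j0) hΛ hh
            hw (p1.1 j0) (r1.1 j0) (p2.1 j0) (r2.1 j0) (hlw j0) (hl1 j0) (hl2 j0)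
            (fun hc => hj0 ((p1.2.1 j0).1 hc)) (p4 j0) (r4 j0)).2 hmj
      have hmain' : (w2 - w1) * h / (C1 * Λ * 4 ^ m j0 * 16 ^ k j0) - C2 * Λ / 2 ^ (m j0 + k j0) ≤
          X2 j0 ^ 2 - X1 j0 ^ 2 := by
        refine le_trans ?_ hmain
        gcongr
      have hsum : (w2 - w1) * h / (C1 * Λ * 4 ^ m j0 * 16 ^ k j0) -
          ∑ j, C2 * Λ / 2 ^ (m j + k j) ≤ ∑ j, (X2 j ^ 2 - X1 j ^ 2) := by
        rw [← Finset.add_sum_erase _ _ (Finset.mem_univ j0),
          ← Finset.add_sum_erase _ (fun j => X2 j ^ 2 - X1 j ^ 2) (Finset.mem_univ j0)]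
        have h1 : -∑ j ∈ Finset.univ.erase j0, C2 * Λ / 2 ^ (m j + k j) ≤
            ∑ j ∈ Finset.univ.erase j0, (X2 j ^ 2 - X1 j ^ 2) := by
          rw [← Finset.sum_neg_distrib]
          exact Finset.sum_le_sum fun j _ => hlow j
        linarith
      have homs : ∑ j, C2 * Λ / 2 ^ (m j + k j) = C2 * Λ * om k m := by
        unfold om
        rw [Finset.mul_sum]
        exact Finset.sum_congr rfl fun j _ => by ring
      have hX1 := (abs_le.1 p2.2.2).1
      have hX2 := (abs_le.1 r2.2.2).2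
      rw [homs, Finset.sum_sub_distrib] at hsum
      simp only at hX1 hX2
      have h2 : (w2 - w1) * h / (C1 * Λ * 4 ^ m j0 * 16 ^ k j0) ≤ (2 + C2) * Λ * om k m := by
        linarith
      rw [div_le_iff₀ (by positivity)] at h2
      rw [hδ, le_div_iff₀ hh0]
      calc _ ≤ _ := h2
        _ = _ := by ring
    have hcov : S ⊆ ⋃ c ∈ (Finset.univ : Finset (Fin n → Bool)), (S ∩ {w | b w = c}) := by
      intro w hw
      simp only [Finset.mem_univ, iUnion_true, mem_iUnion]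
      exact ⟨b w, hw, rfl⟩
    have hdiam : ∀ c, volume (S ∩ {w | b w = c}) ≤ ENNReal.ofReal δ := by
      intro c
      refine (Real.volume_le_diam _).trans ?_
      refine Metric.ediam_le_of_forall_dist_le ?_
      rintro w1 ⟨h1, h2⟩ w2 ⟨h3, h4⟩
      rw [Real.dist_eq]
      rcases le_total w1 w2 with h5 | h5
      · rw [abs_sub_comm, abs_of_nonneg (by linarith)]
        exact key w1 w2 h1 h3 (h2.trans h4.symm) h5
      · rw [abs_of_nonneg (by linarith)]
        exact key w2 w1 h3 h1 (h4.trans h2.symm) h5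
    calc volume S ≤ volume (⋃ c ∈ (Finset.univ : Finset (Fin n → Bool)), (S ∩ {w | b w = c})) :=
          measure_mono hcov
      _ ≤ ∑ c ∈ (Finset.univ : Finset (Fin n → Bool)), volume (S ∩ {w | b w = c}) :=
          measure_biUnion_finset_le _ _
      _ ≤ ∑ c ∈ (Finset.univ : Finset (Fin n → Bool)), ENNReal.ofReal δ :=
          Finset.sum_le_sum fun c _ => hdiam c
      _ = ENNReal.ofReal (2 ^ n * δ) := by
          rw [Finset.sum_const, Finset.card_univ, Fintype.card_fun, Fintype.card_bool, Fintype.card_fin,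
            nsmul_eq_mul, ENNReal.ofReal_mul (by positivity)]
          congr 1
          rw [ENNReal.ofReal_pow (by norm_num)]
          simp
      _ ≤ _ := by
          apply ENNReal.ofReal_le_ofReal
          have h1 : 2 ^ n * δ = 2 ^ n * (C1 * (2 + C2)) * (Λ ^ 2 * om k m * 4 ^ m j0 * 16 ^ k j0 / h) := by
            rw [hδ]
            ring
          have h2 : max A (2 ^ n * (C1 * (2 + C2))) * Λ ^ 2 * om k m * 4 ^ m j0 * 16 ^ k j0 / h =
            max A (2 ^ n * (C1 * (2 + C2))) * (Λ ^ 2 * om k m * 4 ^ m j0 * 16 ^ k j0 / h) := by ring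
          rw [h1, h2]
          exact mul_le_mul_of_nonneg_right (le_max_right _ _) (by positivity)

end Pool.Agent.SPN
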