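import Pool.Agent.SPNH.Defs

/-!
The one-dimensional phase of a packet: it is of class `C^D` and its derivatives are bounded on
`[-2,2]`.
-/

namespace Pool.Agent.SPN

open MeasureTheory Set

/-- The one-dimensional phase of a packet. -/
noncomputable def ph_Phi {D M : ℕ} (f : Fn D M) (δ ζ w ξ : ℝ) : ℝ :=
  f.f (ζ + δ * ξ) - f.f ζ - deriv f.f ζ * (δ * ξ) - w * (δ * ξ) ^ 2

theorem ph_Phi_cd {D M : ℕ} (f : Fn D M) (δ ζ w : ℝ) : ContDiff ℝ D (ph_Phi f δ ζ w) := by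
  have hf : ContDiff ℝ D f.f := f.smooth.of_le (by
    have : (D : WithTop ℕ∞) ≤ ((D + 1 : ℕ) : WithTop ℕ∞) := by exact_mod_cast Nat.le_succ D
    exact this)
  unfold ph_Phi
  fun_prop

/-- The derivatives of `ph_Phi`. -/
noncomputable def ph_Phid {D M : ℕ} (f : Fn D M) (δ ζ w : ℝ) (i : ℕ) (ξ : ℝ) : ℝ :=
  if i = 0 then ph_Phi f δ ζ w ξ
  else if i = 1 then δ * (deriv f.f (ζ + δ * ξ) - deriv f.f ζ) - 2 * w * (δ * δ) * ξ
  else δ ^ i * gd f w i (ζ + δ * ξ)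

theorem ph_fd {D M : ℕ} (f : Fn D M) {i : ℕ} (hi : i ≤ D) (x : ℝ) :
    HasDerivAt (iteratedDeriv i f.f) (iteratedDeriv (i + 1) f.f x) x := by
  have h : Differentiable ℝ (iteratedDeriv i f.f) :=
    f.smooth.differentiable_iteratedDeriv i (by
      have : (i : WithTop ℕ∞) < ((D + 1 : ℕ) : WithTop ℕ∞) := by exact_mod_cast Nat.lt_succ_of_le hi
      exact this)
  rw [iteratedDeriv_succ]
  exact (h x).hasDerivAt

theorem ph_Phid_hd {D M : ℕ} (f : Fn D M) (δ ζ w : ℝ) {i : ℕ} (hi : i ≤ D) (ξ : ℝ) :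
    HasDerivAt (ph_Phid f δ ζ w i) (ph_Phid f δ ζ w (i + 1) ξ) ξ := by
  have hl : HasDerivAt (fun ξ : ℝ => ζ + δ * ξ) δ ξ := by
    simpa using ((hasDerivAt_id ξ).const_mul δ).const_add ζ
  have hc := (ph_fd f hi (ζ + δ * ξ)).comp ξ hl
  rcases Nat.lt_or_ge i 2 with h2 | h2
  · interval_cases i
    · have h0 : HasDerivAt (fun ξ : ℝ => f.f (ζ + δ * ξ) - f.f ζ - deriv f.f ζ * (δ * ξ)
          - w * (δ * ξ) ^ 2) (deriv f.f (ζ + δ * ξ) * δ - deriv f.f ζ * δ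
          - w * (2 * (δ * ξ) * δ)) ξ := by
        have e1 : HasDerivAt (fun ξ : ℝ => f.f (ζ + δ * ξ)) (deriv f.f (ζ + δ * ξ) * δ) ξ := by
          simpa [iteratedDeriv_zero, iteratedDeriv_one, Function.comp_def] using hc
        have e2 : HasDerivAt (fun ξ : ℝ => deriv f.f ζ * (δ * ξ)) (deriv f.f ζ * δ) ξ := by
          simpa using ((hasDerivAt_id ξ).const_mul δ).const_mul (deriv f.f ζ)
        have e3 : HasDerivAt (fun ξ : ℝ => w * (δ * ξ) ^ 2) (w * (2 * (δ * ξ) * δ)) ξ := by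
          have := (((hasDerivAt_id ξ).const_mul δ).pow 2).const_mul w
          simpa using this
        exact ((e1.sub_const _).sub e2).sub e3
      have e0 : ph_Phid f δ ζ w 0 = fun ξ : ℝ => f.f (ζ + δ * ξ) - f.f ζ - deriv f.f ζ * (δ * ξ)
          - w * (δ * ξ) ^ 2 := by
        funext ξ; simp [ph_Phid, ph_Phi]
      have e1 : ph_Phid f δ ζ w (0 + 1) ξ = deriv f.f (ζ + δ * ξ) * δ - deriv f.f ζ * δ
          - w * (2 * (δ * ξ) * δ) := by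
        simp [ph_Phid]; ring
      rw [e0, e1]; exact h0
    · have h0 : HasDerivAt (fun ξ : ℝ => δ * (deriv f.f (ζ + δ * ξ) - deriv f.f ζ)
          - 2 * w * (δ * δ) * ξ) (δ * (iteratedDeriv 2 f.f (ζ + δ * ξ) * δ) - 2 * w * (δ * δ)) ξ := by
        have e1 : HasDerivAt (fun ξ : ℝ => deriv f.f (ζ + δ * ξ))
            (iteratedDeriv 2 f.f (ζ + δ * ξ) * δ) ξ := by
          simpa [iteratedDeriv_one, Function.comp_def] using hc
        have e2 : HasDerivAt (fun ξ : ℝ => 2 * w * (δ * δ) * ξ) (2 * w * (δ * δ)) ξ := by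
          simpa using (hasDerivAt_id ξ).const_mul (2 * w * (δ * δ))
        exact ((e1.sub_const _).const_mul δ).sub e2
      have e0 : ph_Phid f δ ζ w 1 = fun ξ : ℝ => δ * (deriv f.f (ζ + δ * ξ) - deriv f.f ζ)
          - 2 * w * (δ * δ) * ξ := by
        funext ξ; simp [ph_Phid]
      have e1 : ph_Phid f δ ζ w (1 + 1) ξ =
          δ * (iteratedDeriv 2 f.f (ζ + δ * ξ) * δ) - 2 * w * (δ * δ) := by
        simp [ph_Phid, gd]; ring
      rw [e0, e1]; exact h0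
  · have e0 : ph_Phid f δ ζ w i = fun ξ : ℝ => δ ^ i * gd f w i (ζ + δ * ξ) := by
      funext ξ
      have h0 : i ≠ 0 := by omega
      have h1 : i ≠ 1 := by omega
      simp [ph_Phid, h0, h1]
    have e1 : ph_Phid f δ ζ w (i + 1) ξ = δ ^ i * (iteratedDeriv (i + 1) f.f (ζ + δ * ξ) * δ) := by
      have h0 : i ≠ 0 := by omega
      have h1 : i + 1 ≠ 2 := by omega
      simp [ph_Phid, gd, h0, h1]; ring
    rw [e0, e1]
    unfold gd
    exact (hc.sub_const _).const_mul _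

theorem ph_Phi_iter {D M : ℕ} (f : Fn D M) (δ ζ w : ℝ) : ∀ i ≤ D,
    iteratedDeriv i (ph_Phi f δ ζ w) = ph_Phid f δ ζ w i := by
  intro i
  induction i with
  | zero => intro _; funext ξ; simp [ph_Phid]
  | succ i ih =>
    intro hi
    rw [iteratedDeriv_succ, ih (by omega)]
    funext ξ
    exact (ph_Phid_hd f δ ζ w (by omega) ξ).deriv

theorem ph_Phi_bd {D M k m : ℕ} {f : Fn D M} {κ A ζ w : ℝ} (hD : 2 ≤ D) (hκ : 0 < κ)
    (hκ1 : κ ≤ kap) (hA : 1 ≤ A) (hc : Cls A k m f ζ w) : ∀ i ≤ D, ∀ ξ : ℝ, |ξ| ≤ 2 →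
      ‖iteratedFDeriv ℝ i (ph_Phi f (κ / 2 ^ k) ζ w) ξ‖ ≤ 4 * A := by
  have hk : (0 : ℝ) < 2 ^ k := by positivity
  have hκ2 : κ ≤ 1 / 64 := hκ1
  have hδ0 : 0 < κ / 2 ^ k := by positivity
  -- order at least two
  have hge : ∀ i, 2 ≤ i → i ≤ D → ∀ ξ : ℝ, |ξ| ≤ 2 →
      |ph_Phid f (κ / 2 ^ k) ζ w i ξ| ≤ A := by
    intro i h2 hi ξ hξ
    have h0 : i ≠ 0 := by omega
    have h1 : i ≠ 1 := by omega
    have hx : |ζ + κ / 2 ^ k * ξ - ζ| ≤ 1 / (8 * 2 ^ k) := by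
      have : ζ + κ / 2 ^ k * ξ - ζ = κ / 2 ^ k * ξ := by ring
      rw [this, abs_mul, abs_of_pos hδ0]
      calc κ / 2 ^ k * |ξ| ≤ (1 / 64) / 2 ^ k * 2 := by gcongr
        _ ≤ 1 / (8 * 2 ^ k) := by
          rw [div_mul_eq_mul_div, div_le_div_iff₀ (by positivity) (by positivity)]
          nlinarith
    have hu := hc.up i (Finset.mem_Icc.2 ⟨h2, hi⟩) _ hx
    simp only [ph_Phid, h0, h1, if_false]
    rw [abs_mul, abs_of_pos (by positivity)]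
    calc (κ / 2 ^ k) ^ i * |gd f w i (ζ + κ / 2 ^ k * ξ)| ≤ (κ / 2 ^ k) ^ i * (A * 2 ^ (k * i)) := by
          gcongr
      _ = κ ^ i * A := by
          rw [div_pow, pow_mul]; field_simp
      _ ≤ 1 * A := by
          gcongr
          exact pow_le_one₀ hκ.le (by linarith)
      _ = A := one_mul A
  have hmem : ∀ ξ : ℝ, |ξ| ≤ 2 → ξ ∈ Icc (-2 : ℝ) 2 := fun ξ h => abs_le.1 h
  have hz : ∀ i ≤ 1, ph_Phid f (κ / 2 ^ k) ζ w i 0 = 0 := by
    intro i hi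
    interval_cases i <;> simp [ph_Phid, ph_Phi]
  have mv : ∀ i ≤ 1, ∀ C : ℝ, (∀ ξ : ℝ, |ξ| ≤ 2 → |ph_Phid f (κ / 2 ^ k) ζ w (i + 1) ξ| ≤ C) →
      0 ≤ C → ∀ ξ : ℝ, |ξ| ≤ 2 → |ph_Phid f (κ / 2 ^ k) ζ w i ξ| ≤ 2 * C := by
    intro i hi C hC hC0 ξ hξ
    have h := Convex.norm_image_sub_le_of_norm_hasDerivWithin_le (C := C) (s := Icc (-2 : ℝ) 2)
      (fun x _ => (ph_Phid_hd f (κ / 2 ^ k) ζ w (i := i) (by omega) x).hasDerivWithinAt)
      (fun x hx => hC x (abs_le.2 hx)) (convex_Icc _ _) (hmem 0 (by simp)) (hmem ξ hξ)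
    rw [hz i hi, sub_zero, sub_zero, Real.norm_eq_abs, Real.norm_eq_abs] at h
    calc |ph_Phid f (κ / 2 ^ k) ζ w i ξ| ≤ C * |ξ| := h
      _ ≤ C * 2 := by gcongr
      _ = 2 * C := by ring
  have h1 : ∀ ξ : ℝ, |ξ| ≤ 2 → |ph_Phid f (κ / 2 ^ k) ζ w 1 ξ| ≤ 2 * A :=
    mv 1 le_rfl A (hge 2 le_rfl hD) (by linarith)
  have h0 : ∀ ξ : ℝ, |ξ| ≤ 2 → |ph_Phid f (κ / 2 ^ k) ζ w 0 ξ| ≤ 2 * (2 * A) :=
    mv 0 (by omega) (2 * A) h1 (by linarith)
  intro i hi ξ hξ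
  rw [norm_iteratedFDeriv_eq_norm_iteratedDeriv, ph_Phi_iter f _ ζ w i hi, Real.norm_eq_abs]
  rcases Nat.lt_or_ge i 2 with h2 | h2
  · interval_cases i
    · linarith [h0 ξ hξ]
    · linarith [h1 ξ hξ]
  · linarith [hge i h2 hi ξ hξ]

end Pool.Agent.SPN
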