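import Pool.Agent.SEPH.PH
import Pool.Agent.SPNH.BK
import Pool.Agent.SPNH.CHI
import Pool.Agent.SPNH.PHI

/-!
SPN row PH, part 2: the amplitude of a packet is bounded in `C^K`.
-/

namespace Pool.Agent.SPN

open MeasureTheory Set Pool.Agent.MP_6cbfb8_an
open Pool.Agent.SEP (B phi phat beta om tj Tb)
open scoped ENNReal Real ContDiff

theorem ph_B_cd : ContDiff ℝ ∞ B := Pool.Agent.SEP.ph_cd_B

theorem ph_phi_cd : ContDiff ℝ ∞ phi := Pool.Agent.SEP.ph_cd_phi

theorem ph_B_hc : HasCompactSupport B :=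
  HasCompactSupport.intro (isCompact_Icc (a := (-2 : ℝ)) (b := 2)) fun x hx => by
    refine Pool.Agent.SEP.ph_B_zero ?_
    rw [mem_Icc, ← abs_le, not_le] at hx
    exact hx.le

theorem ph_phi_hc : HasCompactSupport phi :=
  HasCompactSupport.intro (isCompact_Icc (a := (-1 : ℝ)) (b := 1)) fun x hx => by
    refine Pool.Agent.SEP.ph_phi_zero ?_
    rw [mem_Icc, ← abs_le, not_le] at hx
    exact hx.le

theorem ph_B_one {x : ℝ} (hx : |x| ≤ 1) : B x = 1 := by
  rw [B]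
  refine Pool.Agent.SEP.bump.one_of_mem_closedBall ?_
  rw [mem_closedBall_zero_iff, Real.norm_eq_abs]
  exact hx

theorem ph_B1_hc : HasCompactSupport fun x : ℝ => x * B x := ph_B_hc.mul_left

theorem ph_B2_hc : HasCompactSupport fun x : ℝ => x ^ 2 * B x := ph_B_hc.mul_left

/-- The product of `B` with a function bounded in `C^K` on `[-2,2]`. -/
theorem ph_Bmul {K : ℕ} {C C' : ℝ} (hB : BK K C B) {F : ℝ → ℝ} (hF : ContDiff ℝ K F)
    (hC' : 0 ≤ C') (hb : ∀ i ≤ K, ∀ x : ℝ, |x| ≤ 2 → ‖iteratedFDeriv ℝ i F x‖ ≤ C') :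
    BK K (2 ^ K * C * C') (fun x => B x * F x) := by
  refine ⟨hB.1.mul hF, fun i hi x => ?_⟩
  have hi' : ((i : ℕ) : ℕ∞ω) ≤ ((K : ℕ) : ℕ∞ω) := by exact_mod_cast hi
  have hC := hB.nonneg
  refine (norm_iteratedFDeriv_mul_le hB.1 hF x hi').trans ?_
  calc ∑ j ∈ Finset.range (i + 1), (i.choose j : ℝ) * ‖iteratedFDeriv ℝ j B x‖ *
        ‖iteratedFDeriv ℝ (i - j) F x‖ ≤ ∑ j ∈ Finset.range (i + 1), (i.choose j : ℝ) * C * C' := by
        refine Finset.sum_le_sum fun j hj => ?_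
        rw [Finset.mem_range] at hj
        by_cases hx : |x| ≤ 2
        · refine mul_le_mul (mul_le_mul_of_nonneg_left (hB.2 j (by omega) x) (by positivity))
            (hb (i - j) (by omega) x hx) (norm_nonneg _) (by positivity)
        · have h0 : iteratedFDeriv ℝ j B x = 0 := by
            by_contra h
            have h1 := support_iteratedFDeriv_subset (𝕜 := ℝ) (f := B) j h
            have h2 : tsupport B ⊆ Icc (-2 : ℝ) 2 := by
              refine closure_minimal ?_ isClosed_Icc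
              intro y hy
              by_contra h3
              rw [mem_Icc, ← abs_le, not_le] at h3
              exact hy (Pool.Agent.SEP.ph_B_zero h3.le)
            exact hx (abs_le.2 (h2 h1))
          rw [h0, norm_zero, mul_zero, zero_mul]
          positivity
    _ = 2 ^ i * C * C' := by
        rw [← Finset.sum_mul, ← Finset.sum_mul]
        congr 2
        exact_mod_cast Nat.sum_range_choose i
    _ ≤ 2 ^ K * C * C' := by
        have : (2 : ℝ) ^ i ≤ 2 ^ K := pow_le_pow_right₀ one_le_two hi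
        gcongr

/-- The coordinate `i`. -/
noncomputable def ph_pr {n : ℕ} (i : Fin n) : E n →L[ℝ] ℝ := EuclideanSpace.proj i

theorem ph_pr_norm {n : ℕ} (i : Fin n) : ‖(ph_pr i : E n →L[ℝ] ℝ)‖ ≤ 1 := by
  refine ContinuousLinearMap.opNorm_le_bound _ zero_le_one fun u => ?_
  rw [one_mul]
  exact PiLp.norm_apply_le u i

/-- The modified phase in a packet. -/
noncomputable def ph_Rt {D M : ℕ} (κ : ℝ) (k : ℕ) (f : Fn D M) (ζ w τ s ξ : ℝ) : ℝ :=
  B ξ * ph_Phi f (κ / 2 ^ k) ζ w ξ - (2 * (τ * ζ * (κ / 2 ^ k))) • ((s * B s) * (ξ * B ξ)) -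
    (τ * (κ / 2 ^ k) ^ 2) • ((s * B s) * (ξ ^ 2 * B ξ))

/-- One coordinate of the amplitude. -/
noncomputable def ph_F {D M : ℕ} (κ : ℝ) (k m : ℕ) (f : Fn D M) (ζ w τ s ξ : ℝ) : ℂ :=
  ((phi ξ * (theta k f (ζ + κ / 2 ^ k * ξ) (w + τ * s) * beta k m (ζ + κ / 2 ^ k * ξ)) : ℝ) : ℂ) *
    Complex.exp (((ph_Rt κ k f ζ w τ s ξ : ℝ) : ℂ) * Complex.I)

theorem ph_F_bd (n D M : ℕ) (hD : 2 ≤ D) (K : ℕ) (hK : K ≤ D) (κ A : ℝ) (hκ : 0 < κ)
    (hκ1 : κ ≤ kap) (hA : 1 ≤ A) : ∃ C : ℝ, 1 ≤ C ∧ ∀ (j : Fin n) (k m : ℕ) (f : Fn D M)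
      (ζ w τ : ℝ), m ≤ k → 0 < τ → τ ≤ κ * 2 ^ (m + k) → τ ≤ κ * 4 ^ k → Cls A k m f ζ w →
      BK K C (fun u : E (n + 1) => ph_F κ k m f ζ w τ (u 0) (u j.succ)) := by
  obtain ⟨cp, hcp1, hcp⟩ := bk_fixed ph_phi_cd ph_phi_hc K
  obtain ⟨cB, hcB1, hcB⟩ := bk_fixed ph_B_cd ph_B_hc K
  obtain ⟨c1, hc11, hc1⟩ := bk_fixed (contDiff_id.mul ph_B_cd) ph_B1_hc K
  obtain ⟨c2, hc21, hc2⟩ := bk_fixed ((contDiff_id.pow 2).mul ph_B_cd) ph_B2_hc K
  obtain ⟨cX, hcX0, hcX⟩ := chi_smooth D M K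
  have hk1 : kap = 1 / 64 := rfl
  have hA0 : 0 ≤ A := by linarith
  -- the constants
  set Cth : ℝ := cX * 1 ^ K + cX * 1 ^ K with hCth
  set Cbe : ℝ := cB * 1 ^ K + cB * 1 ^ K with hCbe
  set CP : ℝ := (2 ^ K * cB * (4 * A)) * 1 ^ K with hCP
  set C11 : ℝ := 2 ^ K * (c1 * 1 ^ K) * (c1 * 1 ^ K) with hC11
  set C12 : ℝ := 2 ^ K * (c1 * 1 ^ K) * (c2 * 1 ^ K) with hC12
  set CR : ℝ := CP + (2 * A) * C11 + 1 * C12 with hCR
  set CE : ℝ := K.factorial * 1 * (max 1 CR) ^ K with hCE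
  set CG : ℝ := 2 ^ K * (cp * 1 ^ K) * (2 ^ K * Cth * Cbe) with hCG
  refine ⟨max 1 (2 ^ K * CG * CE), le_max_left _ _, ?_⟩
  intro j k m f ζ w τ hmk hτ hτ1 hτ4 hc
  refine BK.mono ?_ (le_max_right _ _)
  have hk0 : (0 : ℝ) < 2 ^ k := by positivity
  have hm0 : (0 : ℝ) < 2 ^ m := by positivity
  have h40 : (0 : ℝ) < 4 ^ k := by positivity
  have hmk2 : (2 : ℝ) ^ m ≤ 2 ^ k := pow_le_pow_right₀ one_le_two hmk
  have h4 : (4 : ℝ) ^ k = 2 ^ k * 2 ^ k := by
    rw [← mul_pow]; norm_num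
  -- composition with coordinates
  have lin1 : ∀ {c : ℝ} {F : ℝ → ℝ} (i : Fin (n + 1)), BK K c F →
      BK K (c * 1 ^ K) (fun u : E (n + 1) => F (u i)) := by
    intro c F i hF
    have := hF.lin 0 (ph_pr i) (ph_pr_norm i) le_rfl
    simpa [ph_pr] using this
  have lin2 : ∀ {c : ℝ} {F : ℝ × ℝ → ℝ}, BK K c F →
      BK K (c * 1 ^ K) (fun u : E (n + 1) => F (u j.succ, u 0)) := by
    intro c F hF
    have hL : ‖(ph_pr (n := n + 1) j.succ).prod (ph_pr 0)‖ ≤ 1 := by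
      refine ContinuousLinearMap.opNorm_le_bound _ zero_le_one fun u => ?_
      rw [one_mul]
      exact max_le (PiLp.norm_apply_le u _) (PiLp.norm_apply_le u _)
    have := hF.lin 0 _ hL le_rfl
    simpa [ph_pr] using this
  have lin3 : ∀ {c : ℝ} {F : ℝ → ℝ} (a b : ℝ), |b| ≤ 1 → BK K c F →
      BK K (c * 1 ^ K) (fun u : E (n + 1) => F (a + b * u j.succ)) := by
    intro c F a b hb hF
    have hL : ‖b • (ph_pr (n := n + 1) j.succ)‖ ≤ 1 := by
      rw [norm_smul, Real.norm_eq_abs]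
      exact mul_le_one₀ hb (norm_nonneg _) (ph_pr_norm _)
    have := hF.lin a _ hL le_rfl
    simpa [ph_pr] using this
  -- theta
  have hth : BK K Cth (fun u : E (n + 1) =>
      theta k f (ζ + κ / 2 ^ k * u j.succ) (w + τ * u 0)) := by
    have e1 : (fun u : E (n + 1) => chi (k + 1) f (ζ + κ / 2 ^ k * u j.succ) (w + τ * u 0)) =
        fun u : E (n + 1) => (fun p : ℝ × ℝ => chi (k + 1) f (ζ + 2 * κ / 2 ^ (k + 1) * p.1)
          (w + τ / 4 ^ (k + 1) * 4 ^ (k + 1) * p.2)) (u j.succ, u 0) := by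
      funext u
      simp only
      congr 2
      · rw [pow_succ]; field_simp
      · rw [div_mul_cancel₀ _ (by positivity)]
    have e2 : (fun u : E (n + 1) => chi k f (ζ + κ / 2 ^ k * u j.succ) (w + τ * u 0)) =
        fun u : E (n + 1) => (fun p : ℝ × ℝ => chi k f (ζ + κ / 2 ^ k * p.1)
          (w + τ / 4 ^ k * 4 ^ k * p.2)) (u j.succ, u 0) := by
      funext u
      simp only
      congr 2
      rw [div_mul_cancel₀ _ (by positivity)]
    have h1 : BK K (cX * 1 ^ K)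
        (fun u : E (n + 1) => chi (k + 1) f (ζ + κ / 2 ^ k * u j.succ) (w + τ * u 0)) := by
      have h0 : BK K cX (fun p : ℝ × ℝ => chi (k + 1) f (ζ + 2 * κ / 2 ^ (k + 1) * p.1)
          (w + τ / 4 ^ (k + 1) * 4 ^ (k + 1) * p.2)) := by
        refine hcX (k + 1) f ζ w (2 * κ) (τ / 4 ^ (k + 1)) (by positivity) (by linarith)
          (by positivity) ?_
        rw [div_le_iff₀ (by positivity), pow_succ]
        nlinarith
      rw [e1]
      exact lin2 h0
    have h2 : BK K (cX * 1 ^ K)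
        (fun u : E (n + 1) => chi k f (ζ + κ / 2 ^ k * u j.succ) (w + τ * u 0)) := by
      have h0 : BK K cX (fun p : ℝ × ℝ => chi k f (ζ + κ / 2 ^ k * p.1)
          (w + τ / 4 ^ k * 4 ^ k * p.2)) := by
        refine hcX k f ζ w κ (τ / 4 ^ k) hκ.le (by linarith) (by positivity) ?_
        rw [div_le_iff₀ (by positivity)]
        nlinarith
      rw [e2]
      exact lin2 h0
    by_cases hk : k = 0
    · have : (fun u : E (n + 1) => theta k f (ζ + κ / 2 ^ k * u j.succ) (w + τ * u 0)) =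
          fun u : E (n + 1) => chi (k + 1) f (ζ + κ / 2 ^ k * u j.succ) (w + τ * u 0) := by
        funext u
        rw [theta, if_pos hk, sub_zero]
      rw [this]
      refine h1.mono ?_
      rw [hCth]
      have : 0 ≤ cX * 1 ^ K := by positivity
      linarith
    · have : (fun u : E (n + 1) => theta k f (ζ + κ / 2 ^ k * u j.succ) (w + τ * u 0)) =
          fun u : E (n + 1) => chi (k + 1) f (ζ + κ / 2 ^ k * u j.succ) (w + τ * u 0) -
            chi k f (ζ + κ / 2 ^ k * u j.succ) (w + τ * u 0) := by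
        funext u
        rw [theta, if_neg hk]
      rw [this]
      exact h1.sub h2
  -- beta
  have hbe : BK K Cbe (fun u : E (n + 1) => beta k m (ζ + κ / 2 ^ k * u j.succ)) := by
    have b1 : |2 ^ m * (κ / 2 ^ k)| ≤ 1 := by
      rw [abs_of_pos (by positivity), mul_div_assoc', div_le_one hk0]
      nlinarith
    have b2 : |2 ^ (m + 1) * (κ / 2 ^ k)| ≤ 1 := by
      rw [abs_of_pos (by positivity), mul_div_assoc', div_le_one hk0, pow_succ]
      nlinarith
    have h1 := lin3 (2 ^ m * ζ) (2 ^ m * (κ / 2 ^ k)) b1 hcB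
    have h2 := lin3 (2 ^ (m + 1) * ζ) (2 ^ (m + 1) * (κ / 2 ^ k)) b2 hcB
    have e1 : ∀ (a : ℝ) (x : ℝ), a * (ζ + κ / 2 ^ k * x) = a * ζ + a * (κ / 2 ^ k) * x := by
      intro a x; ring
    by_cases hk : m < k
    · have : (fun u : E (n + 1) => beta k m (ζ + κ / 2 ^ k * u j.succ)) =
          fun u : E (n + 1) => B (2 ^ m * ζ + 2 ^ m * (κ / 2 ^ k) * u j.succ) -
            B (2 ^ (m + 1) * ζ + 2 ^ (m + 1) * (κ / 2 ^ k) * u j.succ) := by
        funext u
        rw [beta, if_pos hk, e1, e1]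
      rw [this]
      exact h1.sub h2
    · have : (fun u : E (n + 1) => beta k m (ζ + κ / 2 ^ k * u j.succ)) =
          fun u : E (n + 1) => B (2 ^ m * ζ + 2 ^ m * (κ / 2 ^ k) * u j.succ) := by
        funext u
        rw [beta, if_neg hk, sub_zero, e1]
      rw [this]
      refine h1.mono ?_
      rw [hCbe]
      have : 0 ≤ cB * 1 ^ K := by positivity
      linarith
  -- the phase
  have hR : BK K CR (fun u : E (n + 1) => ph_Rt κ k f ζ w τ (u 0) (u j.succ)) := by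
    have hP0 : BK K (2 ^ K * cB * (4 * A)) (fun x => B x * ph_Phi f (κ / 2 ^ k) ζ w x) :=
      ph_Bmul hcB ((ph_Phi_cd f _ ζ w).of_le (by exact_mod_cast hK)) (by positivity)
        fun i hi x hx => ph_Phi_bd hD hκ hκ1 hA hc i (hi.trans hK) x hx
    have hP := lin1 j.succ hP0
    have h11 := (lin1 0 hc1).mul (lin1 j.succ hc1)
    have h12 := (lin1 0 hc1).mul (lin1 j.succ hc2)
    have a1 : |2 * (τ * ζ * (κ / 2 ^ k))| ≤ 2 * A := by
      rw [abs_mul, abs_mul, abs_mul, abs_of_pos hτ, abs_of_pos (div_pos hκ hk0),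
        abs_of_pos (zero_lt_two (α := ℝ))]
      have hz := hc.zup
      rw [pow_add] at hτ1
      have : τ * |ζ| * (κ / 2 ^ k) ≤ A := by
        calc τ * |ζ| * (κ / 2 ^ k) ≤ (κ * (2 ^ m * 2 ^ k)) * |ζ| * (κ / 2 ^ k) := by gcongr
          _ = κ * κ * (|ζ| * 2 ^ m) := by field_simp
          _ ≤ 1 * 1 * (|ζ| * 2 ^ m) := by
            have : κ ≤ 1 := by linarith
            gcongr
          _ ≤ A := by linarith
      linarith
    have a2 : |τ * (κ / 2 ^ k) ^ 2| ≤ 1 := by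
      rw [abs_of_pos (by positivity)]
      calc τ * (κ / 2 ^ k) ^ 2 ≤ (κ * (2 ^ k * 2 ^ k)) * (κ / 2 ^ k) ^ 2 := by
            rw [← h4]; gcongr
        _ = κ * κ ^ 2 := by field_simp
        _ ≤ 1 * 1 ^ 2 := by
            have : κ ≤ 1 := by linarith
            gcongr
        _ = 1 := by norm_num
    exact (hP.sub (h11.smul _ a1)).sub (h12.smul _ a2)
  have hE : BK K CE (fun u : E (n + 1) =>
      Complex.exp (((ph_Rt κ k f ζ w τ (u 0) (u j.succ) : ℝ) : ℂ) * Complex.I)) :=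
    (hR.mono (le_max_right 1 CR)).exp (le_max_left 1 CR)
  have hG : BK K CG (fun u : E (n + 1) => ((phi (u j.succ) *
      (theta k f (ζ + κ / 2 ^ k * u j.succ) (w + τ * u 0) *
        beta k m (ζ + κ / 2 ^ k * u j.succ)) : ℝ) : ℂ)) :=
    ((lin1 j.succ hcp).mul (hth.mul hbe)).ofReal
  exact hG.mul hE

end Pool.Agent.SPN
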