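import Pool.Agent.SPNH.PWD0

/-!
Row PWA: extension from a closed subinterval, without new sign changes of the top derivative.
-/

namespace Pool.Agent.SPN

open MeasureTheory Set Filter Topology
open scoped ENNReal Real

/-- Antiderivatives of the clamped top derivative. -/
theorem pw_ext (L : ℕ) : ∀ (f : ℝ → ℝ) (a b a' b' : ℝ), a < a' → a' ≤ b' → b' < b →
    ContDiffOn ℝ ((L : ℕ) : ℕ∞) f (Ioo a b) →
    ∃ g : ℝ → ℝ, ContDiff ℝ ((L : ℕ) : ℕ∞) g ∧ (∀ x ∈ Icc a' b', g x = f x) ∧
      ∀ x, iteratedDeriv L g x = iteratedDeriv L f (max a' (min x b')) := by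
  induction L with
  | zero =>
    intro f a b a' b' h1 h2 h3 hf
    have hm : ∀ x : ℝ, max a' (min x b') ∈ Icc a' b' := fun x =>
      ⟨le_max_left _ _, max_le h2 (min_le_right _ _)⟩
    refine ⟨fun x => f (max a' (min x b')), ?_, ?_, ?_⟩
    · have hc : Continuous fun x : ℝ => f (max a' (min x b')) := by
        have h4 : Continuous fun x : ℝ => max a' (min x b') := by fun_prop
        refine hf.continuousOn.comp_continuous h4 fun x => ?_
        exact ⟨lt_of_lt_of_le h1 (hm x).1, lt_of_le_of_lt (hm x).2 h3⟩
      exact_mod_cast contDiff_zero.2 hc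
    · intro x hx
      simp only
      rw [min_eq_left hx.2, max_eq_right hx.1]
    · intro x
      simp only [iteratedDeriv_zero]
  | succ L ih =>
    intro f a b a' b' h1 h2 h3 hf
    have hsub : Icc a' b' ⊆ Ioo a b := fun x hx =>
      ⟨lt_of_lt_of_le h1 hx.1, lt_of_le_of_lt hx.2 h3⟩
    have hf' : ContDiffOn ℝ ((L : ℕ) : ℕ∞) (deriv f) (Ioo a b) := by
      have h4 : ContDiffOn ℝ (((L : ℕ) : ℕ∞) + 1) f (Ioo a b) := by
        exact_mod_cast hf
      exact ((contDiffOn_succ_iff_deriv_of_isOpen isOpen_Ioo).1 h4).2.2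
    have hdiff : DifferentiableOn ℝ f (Ioo a b) :=
      hf.differentiableOn (by simp)
    obtain ⟨g, hg, hgf, hgL⟩ := ih (deriv f) a b a' b' h1 h2 h3 hf'
    have hgc : Continuous g := hg.continuous
    have hd : ∀ x, HasDerivAt (fun x => f a' + ∫ t in a'..x, g t) (g x) x := fun x =>
      (intervalIntegral.integral_hasDerivAt_right (hgc.intervalIntegrable _ _)
        (hgc.stronglyMeasurableAtFilter _ _) hgc.continuousAt).const_add _
    have hder : deriv (fun x => f a' + ∫ t in a'..x, g t) = g := funext fun x => (hd x).deriv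
    refine ⟨fun x => f a' + ∫ t in a'..x, g t, ?_, ?_, ?_⟩
    · have h5 : ContDiff ℝ (((L : ℕ) : ℕ∞) + 1) (fun x => f a' + ∫ t in a'..x, g t) := by
        rw [contDiff_succ_iff_deriv]
        refine ⟨fun x => (hd x).differentiableAt, ?_, ?_⟩
        · intro h
          exact absurd h (by simp)
        · rw [hder]
          exact hg
      exact_mod_cast h5
    · intro x hx
      have h6 : ∫ t in a'..x, g t = f x - f a' := by
        have h7 : ∫ t in a'..x, g t = ∫ t in a'..x, deriv f t := by
          refine intervalIntegral.integral_congr fun t ht => ?_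
          rw [uIcc_of_le hx.1] at ht
          exact hgf t ⟨ht.1, ht.2.trans hx.2⟩
        rw [h7]
        refine intervalIntegral.integral_deriv_eq_sub' f rfl ?_ ?_
        · intro t ht
          rw [uIcc_of_le hx.1] at ht
          have := hsub ⟨ht.1, ht.2.trans hx.2⟩
          exact (hdiff t this).differentiableAt (Ioo_mem_nhds this.1 this.2)
        · refine hf'.continuousOn.mono ?_
          intro t ht
          rw [uIcc_of_le hx.1] at ht
          exact hsub ⟨ht.1, ht.2.trans hx.2⟩
      simp only
      rw [h6]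
      ring
    · intro x
      rw [iteratedDeriv_succ', hder, hgL x, iteratedDeriv_succ']

end Pool.Agent.SPN
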