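import Pool.Agent.SPNH.PWD0

/-!
Rolle's theorem for sign changes in the weak sense.
-/

namespace Pool.Agent.SPN

open Set

/-- There is a chain of `k` sign changes of `u` which starts at `z` and ends in `(-∞, 1]`. -/
def Chn (u : ℝ → ℝ) : ℕ → ℝ → Prop
  | 0, z => z ≤ 1
  | k + 1, z => ∃ z' : ℝ, z < z' ∧ u z * u z' < 0 ∧ Chn u k z'

lemma Chn.le_one {u : ℝ → ℝ} {k : ℕ} {z : ℝ} (h : Chn u k z) : z ≤ 1 := by
  induction k generalizing z with
  | zero => exact h
  | succ k ih =>
    obtain ⟨z', h1, -, h3⟩ := h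
    exact h1.le.trans (ih h3)

/-- Rolle -/
lemma Chn.rolle {u u' : ℝ → ℝ} (hu : ∀ x, HasDerivAt u (u' x) x) {k : ℕ} {z : ℝ}
    (h : Chn u (k + 1) z) : ∃ ξ, z < ξ ∧ u' ξ * u z < 0 ∧ Chn u' k ξ := by
  have mvt : ∀ {z z' : ℝ}, z < z' → u z * u z' < 0 →
      ∃ ξ, z < ξ ∧ ξ < z' ∧ u' ξ * u z < 0 ∧ 0 < u' ξ * u z' := by
    intro z z' hz hs
    obtain ⟨ξ, ⟨h1, h2⟩, h3⟩ := exists_hasDerivAt_eq_slope u u' hz
      (fun x _ => (hu x).continuousAt.continuousWithinAt) fun x _ => hu x
    have h4 : 0 < z' - z := sub_pos.2 hz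
    have h5 : u' ξ * (z' - z) = u z' - u z := by
      rw [h3, div_mul_cancel₀ _ h4.ne']
    refine ⟨ξ, h1, h2, ?_, ?_⟩
    · have h6 : (u' ξ * u z) * (z' - z) < 0 := by
        have h7 : (u' ξ * u z) * (z' - z) = u z * u z' - u z * u z := by
          calc (u' ξ * u z) * (z' - z) = (u' ξ * (z' - z)) * u z := by ring
            _ = u z * u z' - u z * u z := by rw [h5]; ring
        rw [h7]
        nlinarith [mul_self_nonneg (u z)]
      by_contra hcon
      push Not at hcon
      nlinarith [mul_nonneg hcon h4.le]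
    · have h6 : 0 < (u' ξ * u z') * (z' - z) := by
        have h7 : (u' ξ * u z') * (z' - z) = u z' * u z' - u z * u z' := by
          calc (u' ξ * u z') * (z' - z) = (u' ξ * (z' - z)) * u z' := by ring
            _ = u z' * u z' - u z * u z' := by rw [h5]; ring
        rw [h7]
        nlinarith [mul_self_nonneg (u z')]
      by_contra hcon
      push Not at hcon
      nlinarith [mul_nonneg (neg_nonneg.2 hcon) h4.le]
  induction k generalizing z with
  | zero =>
    obtain ⟨z', h1, h2, h3⟩ := h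
    obtain ⟨ξ, k1, k2, k3, -⟩ := mvt h1 h2
    exact ⟨ξ, k1, k3, k2.le.trans h3⟩
  | succ k ih =>
    obtain ⟨z', h1, h2, h3⟩ := h
    obtain ⟨ξ, k1, k2, k3, k4⟩ := mvt h1 h2
    obtain ⟨ξ', l1, l2, l3⟩ := ih h3
    refine ⟨ξ, k1, k3, ξ', k2.trans l1, ?_, l3⟩
    have h4 : (u' ξ * u z') * (u' ξ' * u z') < 0 := mul_neg_of_pos_of_neg k4 l2
    have h5 : (u' ξ * u' ξ') * (u z' * u z') < 0 := by
      calc (u' ξ * u' ξ') * (u z' * u z') = (u' ξ * u z') * (u' ξ' * u z') := by ring
        _ < 0 := h4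
    by_contra hcon
    push Not at hcon
    nlinarith [mul_nonneg hcon (mul_self_nonneg (u z'))]

/-- few points separate the signs: no long chains -/
lemma chn_le {u : ℝ → ℝ} {F : Finset ℝ}
    (h : ∀ x y : ℝ, x ≤ y → (∀ c ∈ F, ¬ (x < c ∧ c < y)) → 0 ≤ u x * u y) {k : ℕ} {z : ℝ}
    (hc : Chn u k z) : k ≤ (F.filter fun c => z < c).card := by
  induction k generalizing z with
  | zero => exact Nat.zero_le _
  | succ k ih =>
    obtain ⟨z', h1, h2, h3⟩ := hc
    obtain ⟨c, hcF, hc1, hc2⟩ : ∃ c ∈ F, z < c ∧ c < z' := by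
      by_contra hcon
      push Not at hcon
      have := h z z' h1.le fun c hc hh => absurd hh.2 (not_lt.2 (hcon c hc hh.1))
      linarith
    have h4 := ih h3
    have h5 : insert c (F.filter fun c => z' < c) ⊆ F.filter fun c => z < c := by
      intro d hd
      rw [Finset.mem_insert] at hd
      rw [Finset.mem_filter]
      rcases hd with rfl | hd
      · exact ⟨hcF, hc1⟩
      · rw [Finset.mem_filter] at hd
        exact ⟨hd.1, h1.trans hd.2⟩
    have h6 : c ∉ F.filter fun c => z' < c := by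
      rw [Finset.mem_filter]
      exact fun hh => absurd hc2 (not_lt.2 hh.2.le)
    have h7 := Finset.card_le_card h5
    rw [Finset.card_insert_of_notMem h6] at h7
    omega

/-- no long chains: few points separate the signs -/
lemma exists_sep {u : ℝ → ℝ} (hu : Continuous u) (m : ℕ) : ∀ a : ℝ,
    (∀ z, a ≤ z → ¬ Chn u (m + 1) z) → ∃ F : Finset ℝ, F.card ≤ m ∧
      ∀ x y : ℝ, a ≤ x → x ≤ y → y ≤ 1 → (∀ c ∈ F, ¬ (x < c ∧ c < y)) → 0 ≤ u x * u y := by
  classical
  induction m with
  | zero =>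
    intro a h
    refine ⟨∅, le_rfl, fun x y hx hxy hy _ => ?_⟩
    by_contra hcon
    push Not at hcon
    rcases hxy.lt_or_eq with h1 | h1
    · exact h x hx ⟨y, h1, hcon, hy⟩
    · rw [h1] at hcon
      exact absurd hcon (not_lt.2 (mul_self_nonneg _))
  | succ m ih =>
    intro a h
    set S : Set ℝ := {y | y ≤ 1 ∧ ∃ x, a ≤ x ∧ x < y ∧ u x * u y < 0} with hS
    by_cases hne : S.Nonempty
    swap
    · refine ⟨∅, Nat.zero_le _, fun x y hx hxy hy _ => ?_⟩
      by_contra hcon
      push Not at hcon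
      rcases hxy.lt_or_eq with h1 | h1
      · exact hne ⟨y, hy, x, hx, h1, hcon⟩
      · rw [h1] at hcon
        exact absurd hcon (not_lt.2 (mul_self_nonneg _))
    have hbd : BddBelow S := ⟨a, fun y hy => by
      obtain ⟨x, h1, h2, -⟩ := hy.2
      exact h1.trans h2.le⟩
    set c : ℝ := sInf S with hc
    have hac : a ≤ c := le_csInf hne fun y hy => by
      obtain ⟨x, h1, h2, -⟩ := hy.2
      exact h1.trans h2.le
    have hcS : ∀ y ∈ S, c ≤ y := fun y hy => csInf_le hbd hy
    have happ : ∀ t, c < t → ∃ y ∈ S, y < t := fun t ht => exists_lt_of_csInf_lt hne ht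
    -- a point to the left with the other sign
    have left : ∀ z, c ≤ z → u z ≠ 0 → ∃ w, a ≤ w ∧ w < z ∧ u w * u z < 0 := by
      intro z hz hz0
      rcases hz.lt_or_eq with h1 | h1
      · obtain ⟨y, ⟨-, x, hx1, hx2, hx3⟩, hyz⟩ := happ z h1
        by_cases h2 : u y * u z < 0
        · exact ⟨y, hx1.trans hx2.le, hyz, h2⟩
        · refine ⟨x, hx1, hx2.trans hyz, ?_⟩
          push Not at h2
          have hy0 : u y ≠ 0 := fun h => by rw [h, mul_zero] at hx3; exact lt_irrefl _ hx3
          have h3 : 0 < u y * u z := lt_of_le_of_ne h2 (mul_ne_zero hy0 hz0).symm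
          have h4 : (u x * u z) * (u y * u y) < 0 := by
            calc (u x * u z) * (u y * u y) = (u x * u y) * (u y * u z) := by ring
              _ < 0 := mul_neg_of_neg_of_pos hx3 h3
          by_contra hcon
          push Not at hcon
          nlinarith [mul_nonneg hcon (mul_self_nonneg (u y))]
      · -- `z = c`
        have h2 : ∀ᶠ t in nhds z, 0 < u t * u z := by
          have h3 : Filter.Tendsto (fun t => u t * u z) (nhds z) (nhds (u z * u z)) :=
            ((hu.tendsto z).mul_const _)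
          exact h3.eventually_const_lt (mul_self_pos.2 hz0)
        obtain ⟨δ, hδ, hball⟩ := Metric.eventually_nhds_iff.1 h2
        obtain ⟨y, ⟨hy1, x, hx1, hx2, hx3⟩, hyδ⟩ := happ (z + δ) (by linarith)
        have hyc : z ≤ y := h1 ▸ hcS y ⟨hy1, x, hx1, hx2, hx3⟩
        have hyp : 0 < u y * u z := hball (by
          rw [Real.dist_eq, abs_of_nonneg (by linarith)]
          linarith)
        have hxz : u x * u z < 0 := by
          have h4 : (u x * u z) * (u y * u y) < 0 := by
            calc (u x * u z) * (u y * u y) = (u x * u y) * (u y * u z) := by ring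
              _ < 0 := mul_neg_of_neg_of_pos hx3 hyp
          by_contra hcon
          push Not at hcon
          nlinarith [mul_nonneg hcon (mul_self_nonneg (u y))]
        refine ⟨x, hx1, ?_, hxz⟩
        by_contra hcon
        push Not at hcon
        have : 0 < u x * u z := hball (by
          rw [Real.dist_eq, abs_of_nonneg (by linarith)]
          linarith)
        linarith
    obtain ⟨F, hF, hF2⟩ := ih c (fun z hz hch => by
      have hz0 : u z ≠ 0 := by
        obtain ⟨z', -, h2, -⟩ := hch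
        intro h0
        rw [h0, zero_mul] at h2
        exact lt_irrefl _ h2
      obtain ⟨w, h1, h2, h3⟩ := left z hz hz0
      exact h w h1 ⟨z, h2, h3, hch⟩)
    refine ⟨insert c F, (Finset.card_insert_le _ _).trans (by omega), fun x y hx hxy hy hno => ?_⟩
    have hyc : ∀ y', y' < c → x ≤ y' → 0 ≤ u x * u y' := by
      intro y' h1 h2
      by_contra hcon
      push Not at hcon
      rcases h2.lt_or_eq with h3 | h3
      · have hc1 : c ≤ 1 := by
          obtain ⟨y0, hy0⟩ := hne
          exact (hcS y0 hy0).trans hy0.1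
        exact absurd (hcS y' ⟨h1.le.trans hc1, x, hx, h3, hcon⟩) (not_le.2 h1)
      · rw [h3] at hcon
        exact absurd hcon (not_lt.2 (mul_self_nonneg _))
    rcases lt_trichotomy y c with h1 | h1 | h1
    · exact hyc y h1 hxy
    · by_contra hcon
      push Not at hcon
      rcases hxy.lt_or_eq with h3 | h3
      · have h2 : ∀ᶠ t in nhds y, u x * u t < 0 := by
          have h4 : Filter.Tendsto (fun t => u x * u t) (nhds y) (nhds (u x * u y)) :=
            ((hu.tendsto y).const_mul _)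
          exact h4.eventually_lt_const hcon
        obtain ⟨δ, hδ, hball⟩ := Metric.eventually_nhds_iff.1 h2
        set t : ℝ := max x (y - δ / 2) with ht
        have ht1 : t < y := max_lt h3 (by linarith)
        have ht2 : u x * u t < 0 := hball (by
          rw [Real.dist_eq, abs_of_neg (by linarith)]
          have := le_max_right x (y - δ / 2)
          linarith)
        have := hyc t (h1 ▸ ht1) (le_max_left _ _)
        linarith
      · rw [h3] at hcon
        exact absurd hcon (not_lt.2 (mul_self_nonneg _))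
    · rcases lt_or_ge x c with h2 | h2
      · exact absurd ⟨h2, h1⟩ (hno c (Finset.mem_insert_self _ _))
      · exact hF2 x y h2 hxy hy fun d hd => hno d (Finset.mem_insert_of_mem hd)

/-- The chains of the derivatives. -/
lemma chn_deriv {D M : ℕ} {g : ℝ → ℝ} (hg : ContDiff ℝ ((D + 1 : ℕ) : ℕ∞) g) {F : Finset ℝ}
    (hF : F.card ≤ M) (h : ∀ x y : ℝ, x ≤ y → (∀ c ∈ F, ¬ (x < c ∧ c < y)) →
      0 ≤ iteratedDeriv (D + 1) g x * iteratedDeriv (D + 1) g y) (j : ℕ) :
    j ≤ D + 1 → ∀ z, ¬ Chn (iteratedDeriv (D + 1 - j) g) (M + j + 1) z := by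
  induction j with
  | zero =>
    intro _ z hc
    have h1 := chn_le h hc
    have h2 := Finset.card_filter_le F fun c => z < c
    omega
  | succ j ih =>
    intro hj z hc
    have hd : ∀ x, HasDerivAt (iteratedDeriv (D + 1 - (j + 1)) g)
        (iteratedDeriv (D + 1 - j) g x) x := by
      intro x
      have h1 : D + 1 - j = (D + 1 - (j + 1)) + 1 := by omega
      have h3 : D + 1 - (j + 1) < D + 1 := by omega
      have h4 : (((D + 1 - (j + 1) : ℕ) : ℕ∞) : WithTop ℕ∞) < (((D + 1 : ℕ) : ℕ∞) : WithTop ℕ∞) :=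
        WithTop.coe_lt_coe.2 (Nat.cast_lt.2 h3)
      have h2 : Differentiable ℝ (iteratedDeriv (D + 1 - (j + 1)) g) :=
        hg.differentiable_iteratedDeriv _ h4
      rw [h1, iteratedDeriv_succ]
      exact (h2 x).hasDerivAt
    obtain ⟨ξ, -, -, h3⟩ := Chn.rolle hd hc
    exact ih (by omega) ξ h3

/-- Rolle, for sign changes in the weak sense. -/
theorem pw_few (D M : ℕ) (g : ℝ → ℝ) (hg : ContDiff ℝ ((D + 1 : ℕ) : ℕ∞) g) (F : Finset ℝ)
    (hF : F.card ≤ M) (h : ∀ x y : ℝ, x ≤ y → (∀ c ∈ F, ¬ (x < c ∧ c < y)) →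
      0 ≤ iteratedDeriv (D + 1) g x * iteratedDeriv (D + 1) g y) :
    FewSigns D ((D + 1) * (M + D + 1)) g := by
  classical
  have key : ∀ i : ℕ, ∃ G : Finset ℝ, i ≤ D + 1 → G.card ≤ M + D + 1 ∧
      ∀ x y : ℝ, -1 ≤ x → x ≤ y → y ≤ 1 → (∀ c ∈ G, ¬ (x < c ∧ c < y)) →
        0 ≤ iteratedDeriv i g x * iteratedDeriv i g y := by
    intro i
    by_cases hi : i ≤ D + 1
    · have h1 : D + 1 - (D + 1 - i) = i := by omega
      have hc : Continuous (iteratedDeriv i g) :=
        hg.continuous_iteratedDeriv _ (WithTop.coe_le_coe.2 (Nat.cast_le.2 hi))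
      obtain ⟨G, hG1, hG2⟩ := exists_sep hc (M + (D + 1 - i)) (-1) fun z _ => by
        have := chn_deriv hg hF h (D + 1 - i) (by omega) z
        rwa [h1] at this
      exact ⟨G, fun _ => ⟨hG1.trans (by omega), hG2⟩⟩
    · exact ⟨∅, fun hh => absurd hh hi⟩
  choose G hG using key
  refine ⟨hg, (Finset.Icc 1 (D + 1)).biUnion G, ?_, fun i hi3 hi x hx y hy hxy hno => ?_⟩
  · refine (Finset.card_biUnion_le_card_mul _ _ (M + D + 1) fun i hi =>
      (hG i (Finset.mem_Icc.1 hi).2).1).trans ?_
    rw [Nat.card_Icc]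
    exact le_of_eq rfl
  · exact (hG i hi).2 x y hx.1 hxy hy.2 fun c hc =>
      hno c (Finset.mem_biUnion.2 ⟨i, Finset.mem_Icc.2 ⟨by omega, hi⟩, hc⟩)

end Pool.Agent.SPN
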