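import Pool.Agent.SPNH.PWA
import Pool.Agent.SPNH.PWB

/-!
Row PWC: approximation of a piecewise phase by phases with few signs.
-/

namespace Pool.Agent.SPN

open MeasureTheory Set Filter Topology Pool.Agent.MP_6cbfb8_an
open scoped ENNReal Real

/-- Cutting to an interval adds at most two to the variation. -/
lemma pwc_var (w : ℝ → ℂ) (hw : ∀ t ∈ Icc (-1 : ℝ) 1, ‖w t‖ ≤ 1) (a b : ℝ) :
    eVariationOn (fun t => if a ≤ t ∧ t ≤ b then w t else 0) (Icc (-1) 1) ≤
      eVariationOn w (Icc (-1) 1) + 2 := by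
  set A : ℝ → ℝ := fun t => if a ≤ t then 1 else 0 with hA
  set B : ℝ → ℝ := fun t => if b < t then 1 else 0 with hB
  have hAm : Monotone A := by
    intro x y hxy
    simp only [hA]
    split_ifs with h1 h2 <;> linarith
  have hBm : Monotone B := by
    intro x y hxy
    simp only [hB]
    split_ifs with h1 h2 <;> linarith
  have hA1 : eVariationOn A (Icc (-1) 1) ≤ 1 := by
    have h1 := (hAm.monotoneOn univ).eVariationOn_eq (mem_univ (-1 : ℝ)) (mem_univ (1 : ℝ))
    rw [univ_inter] at h1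
    refine h1.le.trans ?_
    rw [← ENNReal.ofReal_one]
    refine ENNReal.ofReal_le_ofReal ?_
    simp only [hA]
    split_ifs <;> norm_num
  have hB1 : eVariationOn B (Icc (-1) 1) ≤ 1 := by
    have h1 := (hBm.monotoneOn univ).eVariationOn_eq (mem_univ (-1 : ℝ)) (mem_univ (1 : ℝ))
    rw [univ_inter] at h1
    refine h1.le.trans ?_
    rw [← ENNReal.ofReal_one]
    refine ENNReal.ofReal_le_ofReal ?_
    simp only [hB]
    split_ifs <;> norm_num
  have hpt : ∀ x ∈ Icc (-1 : ℝ) 1, ∀ y ∈ Icc (-1 : ℝ) 1, x ≤ y →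
      edist (if a ≤ y ∧ y ≤ b then w y else 0) (if a ≤ x ∧ x ≤ b then w x else 0) ≤
        edist (w y) (w x) + (edist (A y) (A x) + edist (B y) (B x)) := by
    intro x hx y hy hxy
    have h1 : ∀ z ∈ Icc (-1 : ℝ) 1, edist (w z) 0 ≤ 1 := by
      intro z hz
      rw [edist_dist, dist_zero_right, ← ENNReal.ofReal_one]
      exact ENNReal.ofReal_le_ofReal (hw z hz)
    by_cases hyi : a ≤ y ∧ y ≤ b
    · by_cases hxi : a ≤ x ∧ x ≤ b
      · rw [if_pos hyi, if_pos hxi]
        exact le_self_add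
      · rw [if_pos hyi, if_neg hxi]
        have h2 : x < a := by
          by_contra h3
          exact hxi ⟨not_lt.1 h3, hxy.trans hyi.2⟩
        have h3 : edist (A y) (A x) = 1 := by
          simp only [hA]
          rw [if_pos hyi.1, if_neg (not_le.2 h2), edist_dist, dist_zero_right]
          simp
        calc edist (w y) 0 ≤ 1 := h1 y hy
          _ = edist (A y) (A x) := h3.symm
          _ ≤ edist (A y) (A x) + edist (B y) (B x) := le_self_add
          _ ≤ _ := le_add_self
    · by_cases hxi : a ≤ x ∧ x ≤ b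
      · rw [if_neg hyi, if_pos hxi]
        have h2 : b < y := by
          by_contra h3
          exact hyi ⟨hxi.1.trans hxy, not_lt.1 h3⟩
        have h3 : edist (B y) (B x) = 1 := by
          simp only [hB]
          rw [if_pos h2, if_neg (not_lt.2 hxi.2), edist_dist, dist_zero_right]
          simp
        calc edist 0 (w x) = edist (w x) 0 := edist_comm _ _
          _ ≤ 1 := h1 x hx
          _ = edist (B y) (B x) := h3.symm
          _ ≤ edist (A y) (A x) + edist (B y) (B x) := le_add_self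
          _ ≤ _ := le_add_self
      · rw [if_neg hyi, if_neg hxi, edist_self]
        exact zero_le
  refine iSup_le fun q => ?_
  obtain ⟨N, u, hu, hus⟩ := q
  calc ∑ i ∈ Finset.range N, edist (if a ≤ u (i + 1) ∧ u (i + 1) ≤ b then w (u (i + 1)) else 0)
        (if a ≤ u i ∧ u i ≤ b then w (u i) else 0)
      ≤ ∑ i ∈ Finset.range N, (edist (w (u (i + 1))) (w (u i)) +
          (edist (A (u (i + 1))) (A (u i)) + edist (B (u (i + 1))) (B (u i)))) :=
        Finset.sum_le_sum fun i _ => hpt _ (hus i) _ (hus (i + 1)) (hu (Nat.le_succ i))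
    _ = ∑ i ∈ Finset.range N, edist (w (u (i + 1))) (w (u i)) +
          (∑ i ∈ Finset.range N, edist (A (u (i + 1))) (A (u i)) +
            ∑ i ∈ Finset.range N, edist (B (u (i + 1))) (B (u i))) := by
        rw [Finset.sum_add_distrib, Finset.sum_add_distrib]
    _ ≤ eVariationOn w (Icc (-1) 1) + (1 + 1) :=
        add_le_add (eVariationOn.sum_le hu hus)
          (add_le_add ((eVariationOn.sum_le hu hus).trans hA1)
            ((eVariationOn.sum_le hu hus).trans hB1))
    _ = eVariationOn w (Icc (-1) 1) + 2 := by norm_num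

lemma pwc_zero (D M : ℕ) : FewSigns D M fun _ : ℝ => (0 : ℝ) := by
  refine ⟨contDiff_const, ∅, by simp, fun i hi _ x _ y _ _ _ => ?_⟩
  have h1 : iteratedDeriv i (fun _ : ℝ => (0 : ℝ)) x = 0 := by
    rw [iteratedDeriv_const]
    split_ifs <;> rfl
  rw [h1, zero_mul]

/-- One term. -/
lemma pwc_term {n M : ℕ} {V : ℝ} {w : ℝ → ℂ} {f : ℝ → ℝ} {a b : ℝ}
    (hw : ∀ t ∈ Icc (-1 : ℝ) 1, ‖w t‖ ≤ 1)
    (hv : eVariationOn w (Icc (-1) 1) ≤ ENNReal.ofReal V)
    (h0 : ∀ t ∈ Icc (-1 : ℝ) 1, t ∉ Ioo a b → w t = 0) (hf : Sgn (Ln n) M a b f) :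
    ∃ (w' : ℕ → ℝ → ℂ) (f' : ℕ → ℝ → ℝ),
      (∀ m, (∀ t ∈ Icc (-1 : ℝ) 1, ‖w' m t‖ ≤ 1) ∧
        eVariationOn (w' m) (Icc (-1) 1) ≤ ENNReal.ofReal (|V| + 2) ∧
        FewSigns (Dn n) ((Dn n + 1) * (M + Dn n + 1)) (f' m)) ∧
      ∀ t ∈ Icc (-1 : ℝ) 1, ∀ᶠ m in atTop,
        w' m t * Complex.exp (((f' m t : ℝ) : ℂ) * Complex.I) =
          w t * Complex.exp (((f t : ℝ) : ℂ) * Complex.I) := by
  by_cases hab : a < b
  · set δ : ℕ → ℝ := fun m => (b - a) / (2 * (m + 1)) with hδ
    have hδ0 : ∀ m, 0 < δ m := fun m => by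
      have : 0 < b - a := by linarith
      rw [hδ]
      positivity
    have hδ1 : ∀ m, 2 * δ m ≤ b - a := by
      intro m
      have h1 : 0 < b - a := by linarith
      have h2 : 2 * δ m = (b - a) / (m + 1) := by
        rw [hδ]
        field_simp
      rw [h2]
      exact div_le_self h1.le (by linarith [Nat.cast_nonneg (α := ℝ) m])
    have hδt : Tendsto δ atTop (𝓝 0) := by
      have h1 : Tendsto (fun m : ℕ => (b - a) / 2 * (1 / ((m : ℝ) + 1))) atTop
          (𝓝 ((b - a) / 2 * 0)) := tendsto_one_div_add_atTop_nhds_zero_nat.const_mul _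
      rw [mul_zero] at h1
      refine h1.congr fun m => ?_
      rw [hδ]
      field_simp
    have hext := fun m => pw_ext (Ln n) f a b (a + δ m) (b - δ m) (by linarith [hδ0 m])
      (by linarith [hδ1 m]) (by linarith [hδ0 m]) hf.1
    choose g hg hgf hgL using hext
    refine ⟨fun m t => if a + δ m ≤ t ∧ t ≤ b - δ m then w t else 0, g, fun m => ⟨?_, ?_, ?_⟩, ?_⟩
    · intro t ht
      simp only
      split_ifs
      · exact hw t ht
      · rw [norm_zero]
        exact zero_le_one
    · refine (pwc_var w hw _ _).trans ?_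
      rw [ENNReal.ofReal_add (abs_nonneg V) (by norm_num)]
      refine add_le_add (hv.trans (ENNReal.ofReal_le_ofReal (le_abs_self V))) ?_
      rw [ENNReal.ofReal_ofNat]
    · obtain ⟨-, F, hF, hs⟩ := hf
      refine pw_few (Dn n) M (g m) (hg m) F hF fun x y hxy hc => ?_
      have hx := hgL m x
      have hy := hgL m y
      change iteratedDeriv (Dn n + 1) (g m) x = _ at hx
      change iteratedDeriv (Dn n + 1) (g m) y = _ at hy
      rw [hx, hy]
      have h1 := hδ0 m
      have h2 := hδ1 m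
      refine hs _ ⟨lt_max_of_lt_left (by linarith), max_lt (by linarith)
        (min_lt_of_right_lt (by linarith))⟩ _ ⟨lt_max_of_lt_left (by linarith),
          max_lt (by linarith) (min_lt_of_right_lt (by linarith))⟩
          (max_le_max le_rfl (min_le_min hxy le_rfl)) ?_
      rintro c hcF ⟨h3, h4⟩
      refine hc c hcF ⟨?_, ?_⟩
      · have h5 : a + δ m < c := lt_of_le_of_lt (le_max_left _ _) h3
        have h6 : c < b - δ m := by
          rcases lt_max_iff.1 h4 with h7 | h7
          · linarith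
          · exact lt_of_lt_of_le h7 (min_le_right _ _)
        have h8 : min x (b - δ m) < c := lt_of_le_of_lt (le_max_right _ _) h3
        rcases min_lt_iff.1 h8 with h9 | h9
        · exact h9
        · linarith
      · have h5 : a + δ m < c := lt_of_le_of_lt (le_max_left _ _) h3
        rcases lt_max_iff.1 h4 with h7 | h7
        · linarith
        · exact lt_of_lt_of_le h7 (min_le_left _ _)
    · intro t ht
      by_cases hti : t ∈ Ioo a b
      · have h1 : 0 < min (t - a) (b - t) := lt_min (by linarith [hti.1]) (by linarith [hti.2])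
        filter_upwards [hδt.eventually (gt_mem_nhds h1)] with m hm
        have h2 := hm.trans_le (min_le_left _ _)
        have h3 := hm.trans_le (min_le_right _ _)
        have h4 : a + δ m ≤ t ∧ t ≤ b - δ m := ⟨by linarith, by linarith⟩
        rw [if_pos h4, hgf m t ⟨h4.1, h4.2⟩]
      · refine Filter.Eventually.of_forall fun m => ?_
        have h1 := hδ0 m
        have h4 : ¬ (a + δ m ≤ t ∧ t ≤ b - δ m) := fun h5 =>
          hti ⟨by linarith [h5.1], by linarith [h5.2]⟩
        simp only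
        rw [if_neg h4, h0 t ht hti, zero_mul, zero_mul]
  · refine ⟨fun _ _ => 0, fun _ _ => 0, fun m => ⟨fun t _ => by simp, ?_, pwc_zero _ _⟩, ?_⟩
    · have h1 : eVariationOn (fun _ : ℝ => (0 : ℂ)) (Icc (-1) 1) = 0 :=
        eVariationOn.constant_on (by
          rintro _ ⟨x, -, rfl⟩ _ ⟨y, -, rfl⟩
          rfl)
      rw [h1]
      exact zero_le
    · intro t ht
      refine Filter.Eventually.of_forall fun m => ?_
      rw [h0 t ht fun h => hab (h.1.trans h.2), zero_mul, zero_mul]

/-- ROW PWC. -/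
theorem pw_approx {n M N : ℕ} {V : ℝ} {F : ℝ → ℂ} (h : Pce n M N V F) :
    ∃ G : ℕ → ℝ → ℂ,
      (∀ m, FewBV (Dn n) ((Dn n + 1) * (M + Dn n + 1)) N (|V| + 2) (G m)) ∧
      ∀ t ∈ Icc (-1 : ℝ) 1, Tendsto (fun m => G m t) atTop (𝓝 (F t)) := by
  obtain ⟨w, f, a, b, h1, h2⟩ := h
  have h3 := fun k => pwc_term (n := n) (M := M) (V := V) (h1 k).1 (h1 k).2.1 (h1 k).2.2.1
    (h1 k).2.2.2
  choose w' f' h4 h5 using h3
  refine ⟨fun m t => ∑ k, w' k m t * Complex.exp (((f' k m t : ℝ) : ℂ) * Complex.I), fun m =>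
    ⟨fun k => w' k m, fun k => f' k m, fun k => h4 k m, fun t _ => rfl⟩, fun t ht => ?_⟩
  refine tendsto_const_nhds.congr' ?_
  have h6 : ∀ᶠ m in atTop, ∀ k, w' k m t * Complex.exp (((f' k m t : ℝ) : ℂ) * Complex.I) =
      w k t * Complex.exp (((f k t : ℝ) : ℂ) * Complex.I) := by
    rw [Filter.eventually_all]
    exact fun k => h5 k t ht
  filter_upwards [h6] with m hm
  rw [h2 t ht]
  exact Finset.sum_congr rfl fun k _ => (hm k).symm

end Pool.Agent.SPN
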