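import Pool.Agent.SPNH.FINB

/-!
Notation for phases with one derivative of high order of few sign changes, with blow-up allowed.
-/

namespace Pool.Agent.SPN

open MeasureTheory Set Pool.Agent.MP_6cbfb8_an
open scoped ENNReal Real

/-- The order of the derivative. -/
def Ln (n : ℕ) : ℕ := (n + 1) * (5 * n + 12) + 1

/-- `f` is of class `C^L` on the open interval `(a, b)`, and at most `M` points divide `(a, b)` into
intervals on each of which the derivative `f^(L)` does not take both signs. -/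
def Sgn (L M : ℕ) (a b : ℝ) (f : ℝ → ℝ) : Prop :=
  ContDiffOn ℝ ((L : ℕ) : ℕ∞) f (Ioo a b) ∧ ∃ F : Finset ℝ, F.card ≤ M ∧
    ∀ x ∈ Ioo a b, ∀ y ∈ Ioo a b, x ≤ y → (∀ c ∈ F, ¬ (x < c ∧ c < y)) →
      0 ≤ iteratedDeriv L f x * iteratedDeriv L f y

/-- On `[-1,1]` the function `F` is a sum of `N` terms `w e^{if}`, where `|w| ≤ 1`, the variation of
`w` is at most `V`, and where, on some open interval `(a, b)` outside of which `w` vanishes, `f` is
of class `C^L` and its derivative of order `L = Ln n` changes sign at most `M` times. -/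
def Pce (n M N : ℕ) (V : ℝ) (F : ℝ → ℂ) : Prop :=
  ∃ (w : Fin N → ℝ → ℂ) (f : Fin N → ℝ → ℝ) (a b : Fin N → ℝ),
    (∀ k, (∀ t ∈ Icc (-1 : ℝ) 1, ‖w k t‖ ≤ 1) ∧
      eVariationOn (w k) (Icc (-1) 1) ≤ ENNReal.ofReal V ∧
      (∀ t ∈ Icc (-1 : ℝ) 1, t ∉ Ioo (a k) (b k) → w k t = 0) ∧
      Sgn (Ln n) M (a k) (b k) (f k)) ∧
    ∀ t ∈ Icc (-1 : ℝ) 1, F t = ∑ k, w k t * Complex.exp (((f k t : ℝ) : ℂ) * Complex.I)

end Pool.Agent.SPN
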