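import Pool.Agent.SPNH.PWC

/-!
Row PWE: the bound for the closed class, and superpositions.
-/

namespace Pool.Agent.SPN

open MeasureTheory Set Filter Topology Pool.Agent.MP_6cbfb8_an
open scoped ENNReal Real

theorem Sgn.mono {L M M' : ℕ} {a b : ℝ} {f : ℝ → ℝ} (h : Sgn L M a b f) (hM : M ≤ M') :
    Sgn L M' a b f := by
  obtain ⟨h1, F, h2, h3⟩ := h
  exact ⟨h1, F, h2.trans hM, h3⟩

theorem Pce.norm_le {n M N : ℕ} {V : ℝ} {F : ℝ → ℂ} (h : Pce n M N V F) {t : ℝ}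
    (ht : t ∈ Icc (-1 : ℝ) 1) : ‖F t‖ ≤ N := by
  obtain ⟨w, f, a, b, h1, h2⟩ := h
  rw [h2 t ht]
  refine (norm_sum_le _ _).trans ?_
  calc ∑ k : Fin N, ‖w k t * Complex.exp (((f k t : ℝ) : ℂ) * Complex.I)‖ ≤ ∑ _k : Fin N, (1:ℝ) := by
        refine Finset.sum_le_sum fun k _ => ?_
        rw [norm_mul, Complex.norm_exp_ofReal_mul_I, mul_one]
        exact (h1 k).1 t ht
    _ = N := by simp

theorem pwe_fct {n M N : ℕ} {V : ℝ} {F : ℝ → ℂ} (h : FewBV (Dn n) M N V F) : Fct n M N V F := by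
  obtain ⟨w, f, h1, h2⟩ := h
  exact ⟨w, f, fun k => ⟨(h1 k).1, (h1 k).2.1, Or.inr (Or.inr (h1 k).2.2)⟩, h2⟩

/-- One density. -/
theorem pw_one (n M N K : ℕ) (V : ℝ) (hn : 3 ≤ n) (p : ℝ) (hp : 2 * (n : ℝ) / (n - 1) < p) :
    ∃ C : ℝ≥0∞, C ≠ ∞ ∧
      ∀ (R : E n ≃ₗᵢ[ℝ] E n) (F : Fin n → ℝ → ℂ) (u : Fin K → E n) (B : Fin K → ℝ → ℂ),
        (∀ j, Pce n M N V (F j)) → (∀ i t, ‖B i t‖ ≤ 1) →
        (∀ i, eVariationOn (B i) univ ≤ ENNReal.ofReal V) →
        ∫⁻ ξ, ‖extn (fun x => (∏ j, F j (R x j)) * ∏ i, B i (inner ℝ x (u i))) ξ‖ₑ ^ p ≤ C := by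
  have hp0 : 0 < p := by
    have : (3 : ℝ) ≤ n := by exact_mod_cast hn
    exact lt_trans (div_pos (by linarith) (by linarith)) hp
  obtain ⟨C, hC, h, -⟩ := spb_main n ((Dn n + 1) * (M + Dn n + 1)) N K (|V| + 2) hn p hp
  refine ⟨C, hC, fun R F u B hF hB hBv => ?_⟩
  choose G hG hGF using fun j => pw_approx (hF j)
  have hBm : ∀ i, Measurable (B i) := fun i =>
    bvc_meas ((hBv i).trans_lt ENNReal.ofReal_lt_top).ne
  have hV : ENNReal.ofReal V ≤ ENNReal.ofReal (|V| + 2) :=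
    ENNReal.ofReal_le_ofReal ((le_abs_self V).trans (by linarith))
  set g : ℕ → E n → ℂ := fun m x =>
    (∏ j, prj (G j m) (R x j)) * ∏ i, B i (inner ℝ x (u i)) with hg
  set g' : E n → ℂ := fun x => (∏ j, prj (F j) (R x j)) * ∏ i, B i (inner ℝ x (u i)) with hg'
  have hRc : ∀ j, Measurable fun x : E n => R x j := fun j =>
    (bvc_coord j).comp R.continuous.measurable
  have hgm : ∀ m, Measurable (g m) := by
    intro m
    refine Measurable.mul ?_ ?_
    · exact Finset.measurable_prod _ fun j _ => (hG j m).prj.1.comp (hRc j)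
    · exact Finset.measurable_prod _ fun i _ => (hBm i).comp (bvc_ridge (u i))
  have hgb : ∀ m x, ‖g m x‖ ≤ (N : ℝ) ^ n := by
    intro m x
    rw [hg]
    simp only
    rw [norm_mul, norm_prod, norm_prod]
    have h1 : ∏ j, ‖prj (G j m) (R x j)‖ ≤ (N : ℝ) ^ n := by
      calc ∏ j, ‖prj (G j m) (R x j)‖ ≤ ∏ _j : Fin n, (N : ℝ) :=
            Finset.prod_le_prod (fun j _ => norm_nonneg _) fun j _ =>
              (hG j m).norm_le (prj_mem (R x j))
        _ = (N : ℝ) ^ n := by simp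
    have h2 : ∏ i, ‖B i (inner ℝ x (u i))‖ ≤ 1 :=
      Finset.prod_le_one (fun i _ => norm_nonneg _) fun i _ => hB i _
    calc (∏ j, ‖prj (G j m) (R x j)‖) * ∏ i, ‖B i (inner ℝ x (u i))‖ ≤ (N : ℝ) ^ n * 1 :=
          mul_le_mul h1 h2 (Finset.prod_nonneg fun i _ => norm_nonneg _) (by positivity)
      _ = _ := mul_one _
  have hgt : ∀ x, Tendsto (fun m => g m x) atTop (𝓝 (g' x)) := by
    intro x
    refine Tendsto.mul_const _ ?_
    exact tendsto_finsetProd _ fun j _ => hGF j _ (prj_mem (R x j))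
  have hext : ∀ ξ, Tendsto (fun m => extn (g m) ξ) atTop (𝓝 (extn g' ξ)) := by
    intro ξ
    unfold extn
    refine tendsto_integral_of_dominated_convergence (fun _ => (N : ℝ) ^ n) (fun m => ?_)
      (integrable_const _) (fun m => ?_) ?_
    · refine (((hgm m).comp measurable_subtype_coe).mul ?_).aestronglyMeasurable
      fun_prop
    · refine Eventually.of_forall fun x => ?_
      rw [norm_mul, Complex.norm_exp_ofReal_mul_I, mul_one]
      exact hgb m x
    · exact Eventually.of_forall fun x => (hgt x).mul_const _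
  have hem : ∀ m, Measurable (extn (g m)) := fun m => measurable_extn (g m) (hgm m)
  have hbound : ∀ m, ∫⁻ ξ, ‖extn (g m) ξ‖ₑ ^ p ≤ C := by
    intro m
    have h1 := h R (fun j => G j m) u B (fun j => pwe_fct (hG j m)) hB
      fun i => (hBv i).trans hV
    refine le_trans (le_of_eq ?_) h1
    rw [end_extn_congr (g' := fun x => (∏ j, G j m (R x j)) * ∏ i, B i (inner ℝ x (u i)))]
    intro x hx
    simp only [hg]
    congr 1
    exact Finset.prod_congr rfl fun j _ => prj_eq (bvc_coord_mem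
      (by rw [LinearIsometryEquiv.norm_map, hx]) j)
  have hfin : ∫⁻ ξ, ‖extn g' ξ‖ₑ ^ p ≤ C := by
    have hpt : ∀ ξ, Tendsto (fun m => ‖extn (g m) ξ‖ₑ ^ p) atTop (𝓝 (‖extn g' ξ‖ₑ ^ p)) :=
      fun ξ => ((ENNReal.continuous_rpow_const (y := p)).tendsto _).comp
        ((continuous_enorm.tendsto _).comp (hext ξ))
    calc ∫⁻ ξ, ‖extn g' ξ‖ₑ ^ p
        = ∫⁻ ξ, liminf (fun m => ‖extn (g m) ξ‖ₑ ^ p) atTop :=
          lintegral_congr fun ξ => (hpt ξ).liminf_eq.symm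
      _ ≤ liminf (fun m => ∫⁻ ξ, ‖extn (g m) ξ‖ₑ ^ p) atTop := by
          refine lintegral_liminf_le' fun m => ?_
          exact ((hem m).enorm.pow_const p).aemeasurable
      _ ≤ C := by
          refine liminf_le_of_le ?_ ?_
          · isBoundedDefault
          · intro b hb
            obtain ⟨i, hi⟩ := hb.exists
            exact hi.trans (hbound i)
  refine le_trans (le_of_eq ?_) hfin
  rw [end_extn_congr (g' := g')]
  intro x hx
  simp only [hg']
  congr 1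
  exact Finset.prod_congr rfl fun j _ => (prj_eq (bvc_coord_mem
    (by rw [LinearIsometryEquiv.norm_map, hx]) j)).symm

/-- Row PWE. -/
theorem pw_main (n M N K : ℕ) (V : ℝ) (hn : 3 ≤ n) (p : ℝ) (hp : 2 * (n : ℝ) / (n - 1) < p) :
    ∃ C : ℝ≥0∞, C ≠ ∞ ∧
      (∀ (R : E n ≃ₗᵢ[ℝ] E n) (F : Fin n → ℝ → ℂ) (u : Fin K → E n) (B : Fin K → ℝ → ℂ),
        (∀ j, Pce n M N V (F j)) → (∀ i t, ‖B i t‖ ≤ 1) →
        (∀ i, eVariationOn (B i) univ ≤ ENNReal.ofReal V) →
        ∫⁻ ξ, ‖extn (fun x => (∏ j, F j (R x j)) * ∏ i, B i (inner ℝ x (u i))) ξ‖ₑ ^ p ≤ C) ∧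
      ∀ (W : Type) (_ : MeasurableSpace W) (ν : Measure W) (_ : IsFiniteMeasure ν)
        (R : W → (E n ≃ₗᵢ[ℝ] E n)) (η : W → E n) (F : W → Fin n → ℝ → ℂ)
        (u : W → Fin K → E n) (B : W → Fin K → ℝ → ℂ),
        (Measurable fun q : W × E n => R q.1 q.2) → Measurable η →
        (∀ j, Measurable fun q : W × ℝ => F q.1 j q.2) → Measurable u →
        (∀ i, Measurable fun q : W × ℝ => B q.1 i q.2) →
        (∀ s j, Pce n M N V (F s j)) → (∀ s i t, ‖B s i t‖ ≤ 1) →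
        (∀ s i, eVariationOn (B s i) univ ≤ ENNReal.ofReal V) →
        ∫⁻ ξ, ‖extn (mix ν R η fun s x => (∏ j, F s j (x j)) *
          ∏ i, B s i (inner ℝ x (u s i))) ξ‖ₑ ^ p ≤ C * ν univ ^ p := by
  have hn1 : (0 : ℝ) < n - 1 := by
    have : (3 : ℝ) ≤ n := by exact_mod_cast hn
    linarith
  have hp1 : 1 ≤ p := by
    have h1 : 1 ≤ 2 * (n : ℝ) / (n - 1) := by
      rw [le_div_iff₀ hn1]
      have : (3 : ℝ) ≤ n := by exact_mod_cast hn
      linarith
    linarith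
  obtain ⟨C, hC, h⟩ := pw_one n M N K V hn p hp
  set κ : ℝ := ((N : ℝ) + 1) ^ n with hκ
  have hκ1 : 0 < κ := by positivity
  set C' : ℝ≥0∞ := ‖((κ : ℝ) : ℂ)‖ₑ ^ p * (‖((κ⁻¹ : ℝ) : ℂ)‖ₑ ^ p * C) with hC'
  have hCC : C' ≠ ∞ := by
    refine ENNReal.mul_ne_top (ENNReal.rpow_ne_top_of_nonneg (by linarith) enorm_ne_top)
      (ENNReal.mul_ne_top (ENNReal.rpow_ne_top_of_nonneg (by linarith) enorm_ne_top) hC)
  refine ⟨C ⊔ C', (max_lt hC.lt_top hCC.lt_top).ne, fun R F u B hF hB hBv =>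
    (h R F u B hF hB hBv).trans le_sup_left, ?_⟩
  intro W _ ν _ R η F u B hR hη hF hu hBm hFB hB hBv
  refine le_trans ?_ (mul_le_mul_left (le_sup_right : C' ≤ C ⊔ C') _)
  rw [hC']
  set g : W → E n → ℂ := fun s x => ((κ⁻¹ : ℝ) : ℂ) * ((∏ j, prj (F s j) (x j)) *
    ∏ i, B s i (inner ℝ x (u s i))) with hg
  have hgm : Measurable (Function.uncurry g) := by
    rw [hg]
    simp only [Function.uncurry_def]
    refine Measurable.const_mul (Measurable.mul ?_ ?_) _
    · refine Finset.measurable_prod _ fun j _ => ?_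
      have h1 : Measurable fun q : W × E n => (q.1, max (-1 : ℝ) (min 1 (q.2 j))) := by fun_prop
      exact (hF j).comp h1
    · refine Finset.measurable_prod _ fun i _ => ?_
      have h2 : Measurable fun q : W × E n => u q.1 i :=
        (measurable_pi_apply i).comp (hu.comp measurable_fst)
      have h3 : Measurable fun q : W × E n => (q.1, inner ℝ q.2 (u q.1 i)) :=
        measurable_fst.prodMk (measurable_snd.inner h2)
      exact (hBm i).comp h3
  have hgb : ∀ s x, ‖g s x‖ ≤ 1 := by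
    intro s x
    rw [hg]
    simp only
    rw [norm_mul, norm_mul, Complex.norm_real, Real.norm_eq_abs, abs_of_pos (by positivity),
      norm_prod]
    have h1 : ∏ j, ‖prj (F s j) (x j)‖ ≤ κ := by
      calc ∏ j, ‖prj (F s j) (x j)‖ ≤ ∏ _j : Fin n, ((N : ℝ) + 1) := by
            refine Finset.prod_le_prod (fun j _ => norm_nonneg _) fun j _ => ?_
            have := (hFB s j).norm_le (prj_mem (x j))
            unfold prj
            linarith
        _ = κ := by simp [hκ]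
    have h2 : ‖∏ i, B s i (inner ℝ x (u s i))‖ ≤ 1 := by
      rw [norm_prod]
      exact Finset.prod_le_one (fun i _ => norm_nonneg _) fun i _ => hB s i _
    calc κ⁻¹ * ((∏ j, ‖prj (F s j) (x j)‖) * ‖∏ i, B s i (inner ℝ x (u s i))‖) ≤
        κ⁻¹ * (κ * 1) := by
          gcongr
      _ = 1 := by field_simp
  have key := lintegral_mix_le (n := n) hp1 (C := ‖((κ⁻¹ : ℝ) : ℂ)‖ₑ ^ p * C)
    (fun g' => ∃ s : W, g' = g s) (by
      rintro g' - - ⟨s, rfl⟩
      have h1 := bvc_scale (n := n) (by linarith) ((κ⁻¹ : ℝ) : ℂ)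
        (h (LinearIsometryEquiv.refl ℝ (E n)) (F s) (u s) (B s) (hFB s) (hB s) (hBv s))
      refine le_trans (le_of_eq ?_) h1
      rw [end_extn_congr (g' := fun x : E n => ((κ⁻¹ : ℝ) : ℂ) *
        ((∏ j, F s j (LinearIsometryEquiv.refl ℝ (E n) x j)) *
        ∏ i, B s i (inner ℝ x (u s i))))]
      intro x hx
      rw [hg]
      simp only [LinearIsometryEquiv.coe_refl, id_eq]
      congr 2
      exact Finset.prod_congr rfl fun j _ => prj_eq (bvc_coord_mem hx j))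
    ν R η g hR hη hgm hgb fun s => ⟨s, rfl⟩
  have h5 := bvc_scale (n := n) (by linarith) ((κ : ℝ) : ℂ) key
  rw [mul_assoc]
  refine le_trans (le_of_eq ?_) h5
  rw [end_extn_congr (g' := fun x : E n => ((κ : ℝ) : ℂ) * mix ν R η g x)]
  intro x hx
  unfold mix
  rw [← integral_const_mul]
  refine integral_congr_ae (Filter.Eventually.of_forall fun s => ?_)
  simp only
  rw [hg]
  simp only
  have hRx : ‖R s x‖ = 1 := by rw [LinearIsometryEquiv.norm_map, hx]
  have e1 : ∏ j, prj (F s j) (R s x j) = ∏ j, F s j (R s x j) :=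
    Finset.prod_congr rfl fun j _ => prj_eq (bvc_coord_mem hRx j)
  rw [e1]
  have e2 : ((κ : ℝ) : ℂ) * ((κ⁻¹ : ℝ) : ℂ) = 1 := by
    rw [← Complex.ofReal_mul, mul_inv_cancel₀ hκ1.ne', Complex.ofReal_one]
  generalize ∏ j, F s j (R s x j) = a
  generalize ∏ i, B s i (inner ℝ (R s x) (u s i)) = b
  generalize Complex.exp (((2 * π * inner ℝ x (η s) : ℝ) : ℂ) * Complex.I) = d
  linear_combination (-(d * (a * b))) * e2

end Pool.Agent.SPN
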