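import Pool.Agent.SPNH.PWD0
import Pool.Agent.SPNH.FEW
import Pool.Agent.SPNH.FEWX

/-!
Row PWX: polynomials with few monomials and sums of few exponentials.
-/

namespace Pool.Agent.SPN

open MeasureTheory Set Pool.Agent.MP_6cbfb8_an
open scoped ENNReal Real

/-- A continuous function with few zeros does not take both signs between them. -/
lemma pwx_sign {g : ℝ → ℝ} (hg : Continuous g) {x y : ℝ} (hxy : x ≤ y)
    (h : ∀ c, x < c → c < y → g c ≠ 0) : 0 ≤ g x * g y := by
  by_contra hneg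
  push Not at hneg
  rcases mul_neg_iff.1 hneg with ⟨h1, h2⟩ | ⟨h1, h2⟩
  · obtain ⟨c, hc, hc0⟩ := intermediate_value_Ioo' hxy hg.continuousOn ⟨h2, h1⟩
    exact h c hc.1 hc.2 hc0
  · obtain ⟨c, hc, hc0⟩ := intermediate_value_Ioo hxy hg.continuousOn ⟨h1, h2⟩
    exact h c hc.1 hc.2 hc0

/-- ROW PWX (file SPNH/PWX.lean). Polynomials with few monomials. -/
theorem sgn_poly (L m : ℕ) (P : Polynomial ℝ) (hP : P.support.card ≤ m) (a b : ℝ) :
    Sgn L (2 * m) a b fun x => P.eval x := by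
  have hsm : ContDiff ℝ ((L : ℕ) : ℕ∞) fun x => P.eval x := by
    have h := Polynomial.contDiff_aeval (𝕜 := ℝ) P ((L : ℕ) : ℕ∞)
    have e : (fun x : ℝ => Polynomial.aeval x P) = fun x => P.eval x := by
      funext x
      rw [Polynomial.coe_aeval_eq_eval]
    rw [e] at h
    exact h
  refine ⟨hsm.contDiffOn, ((Polynomial.derivative^[L]) P).roots.toFinset,
    few_roots m _ ((few_supp_iter P L).trans hP), ?_⟩
  intro x _ y _ hxy hF
  rw [few_deriv]
  set g := (Polynomial.derivative^[L]) P with hg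
  by_cases hg0 : g = 0
  · rw [hg0]
    simp
  refine pwx_sign (g := fun x => g.eval x) g.continuous hxy fun c h1 h2 h3 => hF c ?_ ⟨h1, h2⟩
  rw [Multiset.mem_toFinset, Polynomial.mem_roots hg0]
  exact h3

/-- ROW PWX. Exponentials. -/
theorem sgn_exp (L m : ℕ) (c l : Fin m → ℝ) (a b : ℝ) :
    Sgn L m a b fun x => ∑ j, c j * Real.exp (l j * x) := by
  have hsm : ContDiff ℝ ((L : ℕ) : ℕ∞) fun x => ∑ j, c j * Real.exp (l j * x) :=
    ContDiff.sum fun j _ =>
      contDiff_const.mul (Real.contDiff_exp.comp (contDiff_const.mul contDiff_id))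
  rcases fewx_zeros m (fun j => c j * l j ^ L) l with h | ⟨G, hG, hG'⟩
  · refine ⟨hsm.contDiffOn, ∅, by simp, fun x _ y _ _ _ => ?_⟩
    rw [fewx_deriv]
    simp [h]
  · refine ⟨hsm.contDiffOn, G, hG, fun x _ y _ hxy hF => ?_⟩
    rw [fewx_deriv]
    refine pwx_sign (g := fun x => ∑ j, (c j * l j ^ L) * Real.exp (l j * x)) (by fun_prop) hxy
      fun e h1 h2 h3 => hF e (hG' e h3) ⟨h1, h2⟩

end Pool.Agent.SPN
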