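import Pool.Agent.SPNH.PWD0
import Pool.Agent.SPNH.FEWX

/-!
Row PWY: sums of few real powers.
-/

namespace Pool.Agent.SPN

open MeasureTheory Set Pool.Agent.MP_6cbfb8_an
open scoped ENNReal Real

/-- The derivatives of a sum of real powers. -/
lemma pwy_deriv (L m : ℕ) (c r : Fin m → ℝ) {x : ℝ} (hx : 0 < x) :
    iteratedDeriv L (fun x : ℝ => ∑ j, c j * x ^ r j) x =
      ∑ j, c j * ((descPochhammer ℝ L).eval (r j) * x ^ (r j - L)) := by
  rw [iteratedDeriv_fun_sum]
  · refine Finset.sum_congr rfl fun j _ => ?_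
    rw [iteratedDeriv_const_mul_field, iteratedDeriv_eq_iterate, Real.iter_deriv_rpow_const]
  · intro j _
    exact contDiffAt_const.mul (Real.contDiffAt_rpow_const_of_ne hx.ne')

/-- ROW PWY (file SPNH/PWY.lean). Real powers. -/
theorem sgn_rpow (L m : ℕ) (c r : Fin m → ℝ) (b : ℝ) :
    Sgn L m 0 b fun x => ∑ j, c j * x ^ r j := by
  have hsm : ContDiffOn ℝ ((L : ℕ) : ℕ∞) (fun x : ℝ => ∑ j, c j * x ^ r j) (Ioo 0 b) := by
    intro x hx
    exact (ContDiffAt.sum fun j _ =>
      contDiffAt_const.mul (Real.contDiffAt_rpow_const_of_ne hx.1.ne')).contDiffWithinAt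
  have hexp : ∀ x : ℝ, 0 < x →
      iteratedDeriv L (fun x : ℝ => ∑ j, c j * x ^ r j) x =
        ∑ j, (c j * (descPochhammer ℝ L).eval (r j)) * Real.exp ((r j - L) * Real.log x) := by
    intro x hx
    rw [pwy_deriv L m c r hx]
    refine Finset.sum_congr rfl fun j _ => ?_
    rw [Real.rpow_def_of_pos hx, mul_comm (Real.log x)]
    ring
  rcases fewx_zeros m (fun j => c j * (descPochhammer ℝ L).eval (r j)) (fun j => r j - L) with
    h | ⟨G, hG, hG'⟩
  · refine ⟨hsm, ∅, by simp, fun x hx y _ _ _ => ?_⟩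
    rw [hexp x hx.1, h, zero_mul]
  · refine ⟨hsm, G.image Real.exp, Finset.card_image_le.trans hG, fun x hx y hy hxy hF => ?_⟩
    rw [hexp x hx.1, hexp y hy.1]
    set g : ℝ → ℝ := fun t => ∑ j, (c j * (descPochhammer ℝ L).eval (r j)) *
      Real.exp ((r j - L) * t) with hg
    have hgc : Continuous g := by fun_prop
    change 0 ≤ g (Real.log x) * g (Real.log y)
    have hne : ∀ t, Real.log x < t → t < Real.log y → g t ≠ 0 := by
      intro t h1 h2 h3
      refine hF (Real.exp t) (Finset.mem_image_of_mem _ (hG' t h3)) ⟨?_, ?_⟩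
      · rwa [← Real.log_lt_iff_lt_exp hx.1]
      · rwa [← Real.lt_log_iff_exp_lt hy.1]
    have hle : Real.log x ≤ Real.log y := Real.log_le_log hx.1 hxy
    by_contra hneg
    push Not at hneg
    rcases mul_neg_iff.1 hneg with ⟨h1, h2⟩ | ⟨h1, h2⟩
    · obtain ⟨e, he, he0⟩ := intermediate_value_Ioo' hle hgc.continuousOn ⟨h2, h1⟩
      exact hne e he.1 he.2 he0
    · obtain ⟨e, he, he0⟩ := intermediate_value_Ioo hle hgc.continuousOn ⟨h1, h2⟩
      exact hne e he.1 he.2 he0

end Pool.Agent.SPN
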