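import Pool.Agent.SPNH.PWD0

/-! Rational functions: the derivatives of a quotient of polynomials change sign few times. -/

set_option autoImplicit false

namespace Pool.Agent.SPN

open MeasureTheory Set Filter Topology

/-- The numerators of the iterated derivatives of `P / Q`, over `Q ^ (k + 1)`. -/
noncomputable def ratNum (P Q : Polynomial ℝ) : ℕ → Polynomial ℝ
  | 0 => P
  | k + 1 => Polynomial.derivative (ratNum P Q k) * Q -
      Polynomial.C ((k : ℝ) + 1) * ratNum P Q k * Polynomial.derivative Q

theorem ratNum_deg (P Q : Polynomial ℝ) (d : ℕ) (hP : P.natDegree ≤ d) (hQ : Q.natDegree ≤ d)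
    (k : ℕ) : (ratNum P Q k).natDegree ≤ (k + 1) * d := by
  induction k with
  | zero => simpa [ratNum] using hP
  | succ k ih =>
    have h1 : (Polynomial.derivative (ratNum P Q k)).natDegree ≤ (k + 1) * d :=
      le_trans (Polynomial.natDegree_derivative_le _) (le_trans (Nat.sub_le _ _) ih)
    have h2 : (Polynomial.derivative Q).natDegree ≤ d :=
      le_trans (Polynomial.natDegree_derivative_le _) (le_trans (Nat.sub_le _ _) hQ)
    have h3 : (k + 1 + 1) * d = (k + 1) * d + d := by ring
    rw [ratNum, h3]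
    refine le_trans (Polynomial.natDegree_sub_le _ _) (max_le ?_ ?_)
    · exact le_trans Polynomial.natDegree_mul_le (Nat.add_le_add h1 hQ)
    · refine le_trans Polynomial.natDegree_mul_le (Nat.add_le_add ?_ h2)
      exact le_trans (Polynomial.natDegree_C_mul_le _ _) ih

theorem ratNum_deriv (P Q : Polynomial ℝ) (a b : ℝ) (h : ∀ x ∈ Ioo a b, Q.eval x ≠ 0) (k : ℕ) :
    ∀ x ∈ Ioo a b, iteratedDeriv k (fun x => P.eval x / Q.eval x) x =
      (ratNum P Q k).eval x / Q.eval x ^ (k + 1) := by
  induction k with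
  | zero => intro x _; simp [ratNum]
  | succ k ih =>
    intro x hx
    rw [iteratedDeriv_succ]
    have h1 : iteratedDeriv k (fun x => P.eval x / Q.eval x) =ᶠ[𝓝 x]
        fun x => (ratNum P Q k).eval x / Q.eval x ^ (k + 1) := by
      filter_upwards [Ioo_mem_nhds hx.1 hx.2] with y hy using ih y hy
    rw [h1.deriv_eq]
    have hq := h x hx
    have h2 : HasDerivAt (fun x => (ratNum P Q k).eval x / Q.eval x ^ (k + 1))
        (((Polynomial.derivative (ratNum P Q k)).eval x * Q.eval x ^ (k + 1) -
          (ratNum P Q k).eval x * (((k + 1 : ℕ) : ℝ) * Q.eval x ^ (k + 1 - 1) *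
            (Polynomial.derivative Q).eval x)) / (Q.eval x ^ (k + 1)) ^ 2) x :=
      ((ratNum P Q k).hasDerivAt x).div ((Q.hasDerivAt x).pow (k + 1)) (pow_ne_zero _ hq)
    rw [h2.deriv, ratNum]
    simp only [Polynomial.eval_sub, Polynomial.eval_mul, Polynomial.eval_C, Nat.add_sub_cancel]
    push_cast
    field_simp
    try ring

/-- Rational functions. -/
theorem sgn_rat (L d : ℕ) (P Q : Polynomial ℝ) (hP : P.natDegree ≤ d) (hQ : Q.natDegree ≤ d)
    (a b : ℝ) (h : ∀ x ∈ Ioo a b, Q.eval x ≠ 0) :
    Sgn L ((L + 1) * d) a b fun x => P.eval x / Q.eval x := by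
  refine ⟨?_, ?_⟩
  · have hc : ∀ R : Polynomial ℝ, ContDiff ℝ ((L : ℕ) : ℕ∞) fun x => R.eval x := fun R => by
      simpa [Polynomial.aeval_def] using R.contDiff_aeval (𝕜 := ℝ) ((L : ℕ) : ℕ∞)
    exact (hc P).contDiffOn.div (hc Q).contDiffOn h
  · rcases eq_or_ne (ratNum P Q L) 0 with h0 | h0
    · refine ⟨∅, by simp, fun x hx y hy _ _ => ?_⟩
      rw [ratNum_deriv P Q a b h L x hx, h0]
      simp
    · refine ⟨(ratNum P Q L).roots.toFinset, ?_, fun x hx y hy hxy hc => ?_⟩
      · exact le_trans (Multiset.toFinset_card_le _) (le_trans (Polynomial.card_roots' _)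
          (ratNum_deg P Q d hP hQ L))
      · rw [ratNum_deriv P Q a b h L x hx, ratNum_deriv P Q a b h L y hy, div_mul_div_comm,
          ← mul_pow]
        have hsub : Icc x y ⊆ Ioo a b := fun z hz =>
          ⟨lt_of_lt_of_le hx.1 hz.1, lt_of_le_of_lt hz.2 hy.2⟩
        have hQp : 0 < Q.eval x * Q.eval y := by
          by_contra hneg
          rw [not_lt] at hneg
          have hx0 := h x hx
          have hy0 := h y hy
          obtain ⟨z, hz, hz0⟩ : ∃ z ∈ Icc x y, Q.eval z = 0 := by
            have hcont : ContinuousOn (fun z => Q.eval z) (Icc x y) := Q.continuous.continuousOn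
            rcases lt_or_gt_of_ne hx0 with h1 | h1
            · have h2 : 0 ≤ Q.eval y := by nlinarith
              exact (intermediate_value_Icc hxy hcont) ⟨h1.le, h2⟩
            · have h2 : Q.eval y ≤ 0 := by nlinarith
              exact (intermediate_value_Icc' hxy hcont) ⟨h2, h1.le⟩
          exact h z (hsub hz) hz0
        have hRp : 0 ≤ (ratNum P Q L).eval x * (ratNum P Q L).eval y := by
          by_contra hneg
          rw [not_le] at hneg
          obtain ⟨z, hz, hz0⟩ : ∃ z ∈ Ioo x y, (ratNum P Q L).eval z = 0 := by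
            have hcont : ContinuousOn (fun z => (ratNum P Q L).eval z) (Icc x y) :=
              (ratNum P Q L).continuous.continuousOn
            rcases mul_neg_iff.1 hneg with ⟨h1, h2⟩ | ⟨h1, h2⟩
            · exact (intermediate_value_Ioo' hxy hcont) ⟨h2, h1⟩
            · exact (intermediate_value_Ioo hxy hcont) ⟨h1, h2⟩
          refine hc z ?_ hz
          rw [Multiset.mem_toFinset, Polynomial.mem_roots h0]
          exact hz0
        exact div_nonneg hRp (pow_nonneg hQp.le _)

end Pool.Agent.SPN
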