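import Pool.Agent.SPNH.Defs

/-!
ROW SUPP of SPN: the packet constant `kap` is good.
-/

namespace Pool.Agent.SPN

open MeasureTheory Set Pool.Agent.MP_6cbfb8_an
open Pool.Agent.SEP (B phi phat beta om tj Tb)
open scoped ENNReal Real

theorem su_B_one {x : ℝ} (h : |x| ≤ 1) : B x = 1 := by
  unfold B
  apply SEP.bump.one_of_mem_closedBall
  rw [Metric.mem_closedBall, dist_zero_right, Real.norm_eq_abs]
  exact h

theorem su_B_zero {x : ℝ} (h : 2 ≤ |x|) : B x = 0 := by
  unfold B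
  apply SEP.bump.zero_of_le_dist
  rw [dist_zero_right, Real.norm_eq_abs]
  exact h

/-- Support of `beta`. -/
theorem su_beta {k m : ℕ} {x : ℝ} (h : beta k m x ≠ 0) :
    |x| * 2 ^ m < 2 ∧ (m < k → 1 / 2 < |x| * 2 ^ m) := by
  have e1 : |(2 : ℝ) ^ m * x| = |x| * 2 ^ m := by
    rw [abs_mul, abs_of_pos (by positivity)]; ring
  have e2 : |(2 : ℝ) ^ (m + 1) * x| = 2 * (|x| * 2 ^ m) := by
    rw [abs_mul, abs_of_pos (by positivity), pow_succ]; ring
  have h0 : 0 ≤ |x| * 2 ^ m := by positivity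
  constructor
  · by_contra hcon
    push Not at hcon
    apply h
    unfold beta
    rw [su_B_zero (by rw [e1]; exact hcon)]
    split_ifs
    · rw [su_B_zero (by rw [e2]; linarith)]
      ring
    · ring
  · intro hk
    by_contra hcon
    push Not at hcon
    apply h
    unfold beta
    rw [if_pos hk, su_B_one (by rw [e1]; linarith), su_B_one (by rw [e2]; linarith)]
    ring

theorem su_phi_zero {x : ℝ} (h : 1 ≤ |x|) : phi x = 0 := by
  unfold phi
  have h0 : SEP.bump1 x = 0 := by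
    apply SEP.bump1.zero_of_le_dist
    rw [dist_zero_right, Real.norm_eq_abs]
    exact h
  rw [ContDiffBump.normed_def, h0, zero_div]

theorem su_phi_int : ∫ x : ℝ, phi x = 1 := by
  unfold phi
  exact SEP.bump1.integral_normed

theorem su_phi2_int : ∫ p : ℝ × ℝ, phi p.1 * phi p.2 = 1 := by
  rw [show (volume : Measure (ℝ × ℝ)) = (volume : Measure ℝ).prod volume from rfl,
    integral_prod_mul (fun x : ℝ => phi x) (fun x : ℝ => phi x), su_phi_int, mul_one]

/-- `chi k = 1` if `U k` holds on the whole box. -/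
theorem su_chi_one {D M k : ℕ} {f : Fn D M} {x t : ℝ}
    (h : ∀ x1 t1 : ℝ, |x1 - x| ≤ kap / 2 ^ k → |t1 - t| ≤ kap * 4 ^ k → U k f x1 t1) :
    chi k f x t = 1 := by
  have hk : 0 < kap := by unfold kap; norm_num
  unfold chi
  refine (integral_congr_ae (Filter.Eventually.of_forall fun p => ?_)).trans su_phi2_int
  by_cases h1 : |p.1| ≤ 1
  · by_cases h2 : |p.2| ≤ 1
    · have hU : U k f (x - kap / 2 ^ k * p.1) (t - kap * 4 ^ k * p.2) := by
        apply h
        · rw [sub_sub_cancel_left, abs_neg, abs_mul, abs_of_pos (by positivity)]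
          exact mul_le_of_le_one_right (by positivity) h1
        · rw [sub_sub_cancel_left, abs_neg, abs_mul, abs_of_pos (by positivity)]
          exact mul_le_of_le_one_right (by positivity) h2
      simp only [if_pos hU, one_mul]
    · simp only [su_phi_zero (not_le.1 h2).le, mul_zero]
  · simp only [su_phi_zero (not_le.1 h1).le, zero_mul, mul_zero]

/-- `chi k = 0` if `U k` fails on the whole box. -/
theorem su_chi_zero {D M k : ℕ} {f : Fn D M} {x t : ℝ}
    (h : ∀ x1 t1 : ℝ, |x1 - x| ≤ kap / 2 ^ k → |t1 - t| ≤ kap * 4 ^ k → ¬ U k f x1 t1) :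
    chi k f x t = 0 := by
  have hk : 0 < kap := by unfold kap; norm_num
  unfold chi
  refine (integral_congr_ae (Filter.Eventually.of_forall fun p => ?_)).trans
    (integral_zero (ℝ × ℝ) ℝ (μ := volume))
  by_cases h1 : |p.1| ≤ 1
  · by_cases h2 : |p.2| ≤ 1
    · have hU : ¬ U k f (x - kap / 2 ^ k * p.1) (t - kap * 4 ^ k * p.2) := by
        apply h
        · rw [sub_sub_cancel_left, abs_neg, abs_mul, abs_of_pos (by positivity)]
          exact mul_le_of_le_one_right (by positivity) h1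
        · rw [sub_sub_cancel_left, abs_neg, abs_mul, abs_of_pos (by positivity)]
          exact mul_le_of_le_one_right (by positivity) h2
      simp only [if_neg hU, zero_mul]
    · simp only [su_phi_zero (not_le.1 h2).le, mul_zero]
  · simp only [su_phi_zero (not_le.1 h1).le, zero_mul, mul_zero]

/-- Moving the time changes only the second derivative. -/
theorem su_gd_time {D M : ℕ} (f : Fn D M) (t w x : ℝ) (i : ℕ) :
    |gd f w i x - gd f t i x| ≤ if i = 2 then 2 * |t - w| else 0 := by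
  unfold gd
  split_ifs with h
  · rw [show iteratedDeriv i f.f x - 2 * w - (iteratedDeriv i f.f x - 2 * t) = 2 * (t - w) by ring,
      abs_mul, abs_of_pos (show (0 : ℝ) < 2 by norm_num)]
  · rw [sub_self, abs_zero]

theorem su_time4 {D M : ℕ} (f : Fn D M) {t w x c : ℝ} {i k : ℕ} (hc : 0 ≤ c)
    (h : |t - w| ≤ c * 4 ^ k) : |gd f w i x - gd f t i x| ≤ 2 * c * 2 ^ (k * i) := by
  refine (su_gd_time f t w x i).trans ?_
  split_ifs with h2
  · have h4 : (4 : ℝ) ^ k = 2 ^ (k * 2) := by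
      rw [mul_comm, pow_mul]; norm_num
    rw [h2, ← h4]
    linarith
  · positivity

/-- Stability of `U`. -/
theorem su_U_stable {D M k : ℕ} {f : Fn D M} {x t x1 t1 : ℝ} (hU : U k f x1 t1)
    (hx : |x - x1| ≤ 2 * kap / 2 ^ k) (ht : |t1 - t| ≤ 5 * kap * 4 ^ k) : U (k + 1) f x t := by
  have hp : (0 : ℝ) < 2 ^ k := by positivity
  intro i hi x' hx'
  have h0 : (1 : ℝ) / 2 ^ (k + 1) = 1 / 2 * (1 / 2 ^ k) := by
    rw [pow_succ]; field_simp
  have h1 : 2 * kap / 2 ^ k = 1 / 32 * (1 / 2 ^ k) := by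
    unfold kap; field_simp; norm_num
  rw [h0] at hx'
  rw [h1] at hx
  have hq : (0 : ℝ) < 1 / 2 ^ k := by positivity
  have h2 : |x' - x1| ≤ 1 / 2 ^ k := by
    have := abs_sub_le x' x x1
    linarith
  have h3 := hU i hi x' h2
  have h4 := su_time4 f (i := i) (x := x') (k := k) (c := 5 * kap) (by unfold kap; norm_num) ht
  have h5 : |gd f t i x'| ≤ |gd f t1 i x'| + |gd f t i x' - gd f t1 i x'| := by
    have := abs_sub_abs_le_abs_sub (gd f t i x') (gd f t1 i x')
    linarith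
  have hpi : (0 : ℝ) < 2 ^ (k * i) := by positivity
  have h6 : (2 : ℝ) ^ ((k + 1) * i) = 2 ^ (k * i) * 2 ^ i := by
    rw [← pow_add]; congr 1; ring
  have h7 : (4 : ℝ) ≤ 2 ^ i := by
    calc (4 : ℝ) = 2 ^ 2 := by norm_num
      _ ≤ 2 ^ i := pow_le_pow_right₀ one_le_two (Finset.mem_Icc.1 hi).1
  rw [h6]
  have h8 : (2 : ℝ) ^ (k * i) * 4 ≤ 2 ^ (k * i) * 2 ^ i := mul_le_mul_of_nonneg_left h7 hpi.le
  have h9 : 2 * (5 * kap) * 2 ^ (k * i) = 10 / 64 * 2 ^ (k * i) := by
    unfold kap; ring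
  rw [h9] at h4
  linarith

/-- If `U k` holds somewhere on the box of `(x, t)`, then `chi (k + 1) = 1` there. -/
theorem su_chi_succ {D M k : ℕ} {f : Fn D M} {x t : ℝ} (h : chi k f x t ≠ 0) :
    chi (k + 1) f x t = 1 := by
  have h1 : ∃ x1 t1 : ℝ, |x1 - x| ≤ kap / 2 ^ k ∧ |t1 - t| ≤ kap * 4 ^ k ∧ U k f x1 t1 := by
    by_contra hcon
    push Not at hcon
    exact h (su_chi_zero hcon)
  obtain ⟨x1, t1, hx1, ht1, hU⟩ := h1
  refine su_chi_one fun x2 t2 hx2 ht2 => su_U_stable hU ?_ ?_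
  · have h3 : kap / 2 ^ (k + 1) = 1 / 2 * (kap / 2 ^ k) := by
      rw [pow_succ]; field_simp
    rw [h3] at hx2
    have h4 := abs_sub_le x2 x x1
    rw [abs_sub_comm x x1] at h4
    have hq : 0 < kap / 2 ^ k := by unfold kap; positivity
    have h5 : 2 * kap / 2 ^ k = 2 * (kap / 2 ^ k) := by ring
    rw [h5]
    linarith
  · have h3 : kap * 4 ^ (k + 1) = 4 * (kap * 4 ^ k) := by
      rw [pow_succ]; ring
    rw [h3] at ht2
    have h4 := abs_sub_le t1 t t2
    rw [abs_sub_comm t t2] at h4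
    have h5 : 5 * kap * 4 ^ k = 5 * (kap * 4 ^ k) := by ring
    rw [h5]
    linarith

/-- Support of `theta`. -/
theorem su_theta {D M k : ℕ} {f : Fn D M} {x t : ℝ} (h : theta k f x t ≠ 0) :
    (∃ x1 t1 : ℝ, |x1 - x| ≤ kap / 2 ^ (k + 1) ∧ |t1 - t| ≤ kap * 4 ^ (k + 1) ∧
      U (k + 1) f x1 t1) ∧
    (1 ≤ k → ∃ x1 t1 : ℝ, |x1 - x| ≤ kap / 2 ^ k ∧ |t1 - t| ≤ kap * 4 ^ k ∧ ¬ U k f x1 t1) := by
  have hA : chi (k + 1) f x t ≠ 0 := by
    intro h0
    apply h
    unfold theta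
    rw [h0]
    split_ifs with hk
    · ring
    · by_cases h1 : chi k f x t = 0
      · rw [h1]; ring
      · rw [su_chi_succ h1] at h0
        exact absurd h0 one_ne_zero
  constructor
  · by_contra hcon
    push Not at hcon
    exact hA (su_chi_zero hcon)
  · intro hk
    have hB : chi k f x t ≠ 1 := by
      intro h1
      apply h
      unfold theta
      rw [if_neg (by omega), h1, su_chi_succ (by rw [h1]; exact one_ne_zero)]
      ring
    by_contra hcon
    push Not at hcon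
    exact hB (su_chi_one hcon)

/-- ROW SUPP. -/
theorem supp (D M : ℕ) (hD : 3 ≤ D) : ∃ A : ℝ, Good D M kap A := by
  have hM : (32 : ℝ) ≤ 2 ^ (D + 2) := by
    calc (32 : ℝ) = 2 ^ 5 := by norm_num
      _ ≤ 2 ^ (D + 2) := pow_le_pow_right₀ one_le_two (by omega)
  have hkap : kap = 1 / 64 := rfl
  refine ⟨2 ^ (D + 2), by rw [hkap]; norm_num, le_rfl, by linarith, ?_⟩
  intro k m f x t z w hmk hne hx ht
  have hth : theta k f x t ≠ 0 := fun h => hne (by rw [h, zero_mul])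
  have hbe : beta k m x ≠ 0 := fun h => hne (by rw [h, mul_zero])
  obtain ⟨⟨x1, t1, hx1, ht1, hU1⟩, h0⟩ := su_theta hth
  obtain ⟨b1, b0⟩ := su_beta hbe
  obtain ⟨δ, hδ⟩ : ∃ δ : ℝ, δ = 1 / 2 ^ k := ⟨_, rfl⟩
  have hδ0 : 0 < δ := by rw [hδ]; positivity
  have hx' : |x - z| ≤ 1 / 64 * δ := by
    rw [hkap] at hx
    have : (1 / 64 : ℝ) / 2 ^ k = 1 / 64 * δ := by rw [hδ]; ring
    linarith
  have hm0 : (0 : ℝ) < 2 ^ m := by positivity
  have hmz : δ * 2 ^ m ≤ 1 := by
    have h1 : (2 : ℝ) ^ m ≤ 2 ^ k := pow_le_pow_right₀ one_le_two hmk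
    rw [hδ, one_div_mul_eq_div, div_le_iff₀ (by positivity), one_mul]
    exact h1
  have hzx : |z| ≤ |x| + 1 / 64 * δ := by
    have h1 := abs_sub_abs_le_abs_sub z x
    rw [abs_sub_comm z x] at h1
    linarith
  have hxz : |x| ≤ |z| + 1 / 64 * δ := by
    have h1 := abs_sub_abs_le_abs_sub x z
    linarith
  refine ⟨?_, ?_, ?_, ?_⟩
  · intro i hi x' hx''
    have e1 : (1 : ℝ) / (8 * 2 ^ k) = 1 / 8 * δ := by rw [hδ]; field_simp
    have e2 : kap / 2 ^ (k + 1) = 1 / 128 * δ := by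
      rw [hδ, hkap, pow_succ]; field_simp; norm_num
    have e3 : (1 : ℝ) / 2 ^ (k + 1) = 1 / 2 * δ := by rw [hδ, pow_succ]; field_simp
    rw [e1] at hx''
    rw [e2] at hx1
    have h1 : |x' - x1| ≤ 1 / 2 ^ (k + 1) := by
      rw [e3]
      have a1 := abs_sub_le x' z x1
      have a2 := abs_sub_le z x x1
      rw [abs_sub_comm z x, abs_sub_comm x x1] at a2
      linarith
    have h2 := hU1 i hi x' h1
    have h3 : |t1 - w| ≤ 5 * kap * 4 ^ k := by
      have a1 := abs_sub_le t1 t w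
      have e4 : kap * 4 ^ (k + 1) = 4 * (kap * 4 ^ k) := by rw [pow_succ]; ring
      rw [e4] at ht1
      have e5 : 5 * kap * 4 ^ k = 5 * (kap * 4 ^ k) := by ring
      rw [e5]
      linarith
    have h4 := su_time4 f (i := i) (x := x') (k := k) (c := 5 * kap) (by rw [hkap]; norm_num) h3
    have h5 : |gd f w i x'| ≤ |gd f t1 i x'| + |gd f w i x' - gd f t1 i x'| := by
      have := abs_sub_abs_le_abs_sub (gd f w i x') (gd f t1 i x')
      linarith
    have hpi : (0 : ℝ) < 2 ^ (k * i) := by positivity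
    have h6 : (2 : ℝ) ^ ((k + 1) * i) = 2 ^ i * 2 ^ (k * i) := by
      rw [← pow_add]; congr 1; ring
    have h7 : (2 : ℝ) ^ i ≤ 2 ^ D := pow_le_pow_right₀ one_le_two (Finset.mem_Icc.1 hi).2
    have h8 : (2 : ℝ) ^ i * 2 ^ (k * i) ≤ 2 ^ D * 2 ^ (k * i) :=
      mul_le_mul_of_nonneg_right h7 hpi.le
    have h9 : 2 * (5 * kap) * 2 ^ (k * i) = 10 / 64 * 2 ^ (k * i) := by rw [hkap]; ring
    have h10 : (2 : ℝ) ^ (D + 2) = 4 * 2 ^ D := by rw [pow_add]; ring
    rw [h9] at h4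
    rw [h6] at h2
    have h11 : (2 : ℝ) ^ (D + 2) * 2 ^ (k * i) = 4 * (2 ^ D * 2 ^ (k * i)) := by rw [h10]; ring
    have h12 : (1 : ℝ) * 2 ^ (k * i) ≤ 2 ^ D * 2 ^ (k * i) :=
      mul_le_mul_of_nonneg_right (one_le_pow₀ one_le_two) hpi.le
    rw [h11]
    linarith
  · intro hk
    obtain ⟨x2, t2, hx2, ht2, hU2⟩ := h0 hk
    unfold U at hU2
    push Not at hU2
    obtain ⟨i, hi, x', hx'', hg⟩ := hU2
    refine ⟨i, hi, x', ?_, ?_⟩
    · have e1 : kap / 2 ^ k = 1 / 64 * δ := by rw [hδ, hkap]; ring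
      have e2 : (4 : ℝ) / 2 ^ k = 4 * δ := by rw [hδ]; ring
      rw [e1] at hx2
      rw [← hδ] at hx''
      rw [e2]
      have a1 := abs_sub_le x' x2 z
      have a2 := abs_sub_le x2 x z
      linarith
    · have h3 : |t2 - w| ≤ 2 * kap * 4 ^ k := by
        have a1 := abs_sub_le t2 t w
        have e5 : 2 * kap * 4 ^ k = 2 * (kap * 4 ^ k) := by ring
        rw [e5]
        linarith
      have h4 := su_time4 f (i := i) (x := x') (k := k) (c := 2 * kap) (by rw [hkap]; norm_num) h3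
      have h5 : |gd f t2 i x'| ≤ |gd f w i x'| + |gd f w i x' - gd f t2 i x'| := by
        have := abs_sub_abs_le_abs_sub (gd f t2 i x') (gd f w i x')
        rw [abs_sub_comm (gd f t2 i x')] at this
        linarith
      have hpi : (0 : ℝ) < 2 ^ (k * i) := by positivity
      have h9 : 2 * (2 * kap) * 2 ^ (k * i) = 4 / 64 * 2 ^ (k * i) := by rw [hkap]; ring
      rw [h9] at h4
      have h6 : 60 / 64 * 2 ^ (k * i) ≤ |gd f w i x'| := by linarith
      have h7 : 32 * |gd f w i x'| ≤ 2 ^ (D + 2) * |gd f w i x'| :=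
        mul_le_mul_of_nonneg_right hM (abs_nonneg _)
      linarith
  · have h1 : |z| * 2 ^ m ≤ (|x| + 1 / 64 * δ) * 2 ^ m := mul_le_mul_of_nonneg_right hzx hm0.le
    rw [add_mul, mul_assoc] at h1
    linarith
  · intro hlt
    have h1 : |x| * 2 ^ m ≤ (|z| + 1 / 64 * δ) * 2 ^ m := mul_le_mul_of_nonneg_right hxz hm0.le
    rw [add_mul, mul_assoc] at h1
    have h2 := b0 hlt
    have h3 : 1 / 4 ≤ |z| * 2 ^ m := by linarith
    have h4 : 32 * (|z| * 2 ^ m) ≤ 2 ^ (D + 2) * (|z| * 2 ^ m) :=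
      mul_le_mul_of_nonneg_right hM (by positivity)
    linarith

end Pool.Agent.SPN
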